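import Pool.Agent.OptRes.Defs

/-!
# Further shared definitions for MP_1c79f0_an
-/

open MeasureTheory Set Filter Topology

namespace Pool.Agent.OptRes

/-- admissible parameters of `kap1`, `kapw` -/
structure KD (s e : ℝ) : Prop where
  s0 : 0 < s
  s1 : s < 1
  e0 : 0 ≤ e
  K1 : K s + e < 1 / 6

noncomputable def dk1r (ρ s : ℝ) : ℝ := ρ ^ 3 * s * (3 + kw ρ s) / cc ρ s - ρ ^ 3 / qq ρ * (1 - k1 ρ s)

noncomputable def dk1s (ρ s : ℝ) : ℝ :=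
  k1 ρ s + 3 / 2 * (1 - k1 ρ s) - (1 - s * ρ ^ 3) * (3 + kw ρ s) / cc ρ s

noncomputable def dkwr (ρ s : ℝ) : ℝ :=
  ρ ^ 3 / qq ρ * (kw ρ s - s / (1 - s)) - ρ ^ 3 * s ^ 3 * (3 * s / (1 - s) + k1 ρ s) / DD ρ s

noncomputable def dkws (ρ s : ℝ) : ℝ :=
  kw ρ s - 3 / 2 * (kw ρ s - s / (1 - s)) + s ^ 2 * (1 - s * ρ ^ 3) * (3 * s / (1 - s) + k1 ρ s) / DD ρ s

/-- the closed-up domain -/
def Dom1 : Set (ℝ × ℝ) := {p | 0 < p.1 ∧ p.1 ≤ 1 ∧ 0 < p.2 ∧ p.2 < 1 ∧ 0 < DD p.1 p.2}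

noncomputable def a1 (p : ℝ) : ℝ := (3 - I1 (p ^ 2)) / p

noncomputable def a2 (p : ℝ) : ℝ := (3 + I2 (p ^ 2)) * p

noncomputable def G1u (p : ℝ) : ℝ := 224252 / 100000 +
  p ^ 5 * (-12024 / 10000 + p * (110267 / 100000 + p * (15371 / 100000 + p * (-2965 / 10000))))

noncomputable def G1l (p : ℝ) : ℝ := 223732 / 100000 +
  p ^ 5 * (-11972 / 10000 + p * (110267 / 100000 + p * (15371 / 100000 + p * (-2965 / 10000))))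

noncomputable def G2l (p : ℝ) : ℝ := 364026 / 100000 +
  p ^ 6 * (182467 / 100000 + p * (-168529 / 100000 + p * (-24175 / 100000 + p * (46211 / 100000))))

noncomputable def G2u (p : ℝ) : ℝ := 364743 / 100000 +
  p ^ 6 * (18175 / 10000 + p * (-168529 / 100000 + p * (-24175 / 100000 + p * (46211 / 100000))))

noncomputable def F1u (p : ℝ) : ℝ := 224765 / 100000 +
  p * (-1399 / 10000 + p * (7028 / 10000 + p * (-13098 / 10000 + p * (49925 / 100000))))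

noncomputable def F1l (p : ℝ) : ℝ := 224535 / 100000 +
  p * (-1376 / 10000 + p * (7028 / 10000 + p * (-13098 / 10000 + p * (49925 / 100000))))

noncomputable def F2l (p : ℝ) : ℝ := 349935 / 100000 +
  p * (10292 / 10000 + p * (-27518 / 10000 + p * (30839 / 10000 + p * (-86065 / 100000))))

noncomputable def F2u (p : ℝ) : ℝ := 3501475 / 1000000 +
  p * (10271 / 10000 + p * (-27518 / 10000 + p * (30839 / 10000 + p * (-860675 / 1000000))))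

/-- enclosure of `a1(p)`, `a2(p)` by polynomials -/
structure AB (p x1 x2 : ℝ) : Prop where
  g1l : G1l p ≤ x1
  g1u : x1 ≤ G1u p
  g2l : G2l p ≤ x2
  g2u : x2 ≤ G2u p
  f1l : 1 / 2 ≤ p → F1l p ≤ x1
  f1u : 1 / 2 ≤ p → x1 ≤ F1u p
  f2l : 1 / 2 ≤ p → F2l p ≤ x2
  f2u : 1 / 2 ≤ p → x2 ≤ F2u p

/-- the data of the uniqueness inequality; `w = (1-s) kw - s`, `u = (1-s)(1-k1)` -/
structure CData (ρ s w u ψ : ℝ) : Prop where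
  ρ0 : 0 < ρ
  s0 : 0 < s
  s1 : s ≤ 625 / 1000
  ht : ρ ≤ 105 / 100 * s
  D : 0 < DD ρ s
  w0 : 0 ≤ w
  w1 : DD ρ s * w ≤ 2165 / 10000 * (1 + DD ρ s)
  u0 : 0 ≤ u
  u1 : u ≤ 35 / 100 * s * qq ρ
  ψ0 : 0 ≤ ψ
  ψ1 : ψ ≤ 62 / 100 * ρ

noncomputable def fg1 (ρ s w : ℝ) : ℝ := qq ρ * (3 - 2 * s + w) / cc ρ s

noncomputable def fg2 (ρ s u : ℝ) : ℝ := qq ρ * s ^ 2 * (1 + 2 * s - u) / DD ρ s

/-- `-(ρ ∂_ρ g1)/r` -/
noncomputable def fA1 (ρ s w u : ℝ) : ℝ := 1 / cc ρ s *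
  (2 * (1 - 3 * s * qq ρ / cc ρ s) * (3 - 2 * s + w) - w + qq ρ * s ^ 3 * (1 + 2 * s - u) / DD ρ s)

/-- `-(ρ ∂_ρ g2)/r` -/
noncomputable def fA2 (ρ s w u : ℝ) : ℝ := s ^ 2 / DD ρ s *
  (2 * (1 + 3 * qq ρ * s ^ 3 / DD ρ s) * (1 + 2 * s - u) - qq ρ * s * (3 - 2 * s + w) / cc ρ s + u)

noncomputable def fβ (ρ s : ℝ) : ℝ := 1 / (qq ρ * s) - (1 - 2 * s) / (s * (1 - s))

/-- `∂_s g1` at fixed `a = ρ s` -/
noncomputable def fg1s (ρ s w u : ℝ) : ℝ :=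
  2 * ρ ^ 3 / (s * cc ρ s) * (1 - 2 * s * qq ρ / cc ρ s) * (3 - 2 * s + w) +
  qq ρ / cc ρ s * (-(2 - s) / (1 - s) - fβ ρ s * w + s * (1 + 2 * s - u) / DD ρ s)

/-- `∂_s g2` at fixed `a = ρ s` -/
noncomputable def fg2s (ρ s w u : ℝ) : ℝ :=
  (2 * s * (qq ρ + ρ ^ 3) / DD ρ s + 6 * qq ρ * s ^ 3 / DD ρ s ^ 2) * (1 + 2 * s - u) +
  qq ρ * s ^ 2 / DD ρ s * ((1 + s) / s + fβ ρ s * u - (3 - 2 * s + w) / (s * cc ρ s))

noncomputable def Tf (ρ : ℝ) : ℝ := (1 - ρ ^ 3) / (3 * ρ ^ 3)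

noncomputable def psiL (l ρ : ℝ) : ℝ := (1 - l + Tf ρ * (3 - I1 ρ)) / (1 + Tf ρ * (3 + I2 ρ))

/-- the quantity `E` along the `L`-curve -/
noncomputable def Ef (l ρ : ℝ) : ℝ :=
  (l + 3 * (l - 1 + psiL l ρ) / (2 * (1 - ρ ^ 3))) / (1 - l + Tf ρ * (3 - I1 ρ))

/-- the mean payoff of a half cell -/
noncomputable def Phi (l ρ s : ℝ) : ℝ := tbar ρ s - l * mbar ρ s

/-- the set of all mean payoffs -/
def PhiSet (l : ℝ) : Set ℝ := {x | x = 0 ∨ x = 1 - l ∨ ∃ ρ s, Dom ρ s ∧ x = Phi l ρ s}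

/-- the optimal mean payoff `Ψ(l)` -/
noncomputable def Ps (l : ℝ) : ℝ := sSup (PhiSet l)

/-- `V` -/
noncomputable def VV (ρ s : ℝ) : ℝ := Real.sqrt (2 * ee ρ s)

/-- the maximum `b` of the cell -/
noncomputable def bb (ρ s : ℝ) : ℝ := Kinv (K s + ee ρ s)

/-- there is a segment of length `L` with `∫ m = M`, `∫ θ = N` from `(θ,w) = (u,v)` to
`(u',v')` -/
def Reach (L M N u v u' v' : ℝ) : Prop :=
  ∃ m θ w : ℝ → ℝ, Seg L m θ w ∧ (∀ x ∈ Icc 0 L, 0 < θ x) ∧ θ 0 = u ∧ w 0 = v ∧ θ L = u' ∧ w L = v' ∧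
    ∫ x in (0 : ℝ)..L, m x = M ∧ ∫ x in (0 : ℝ)..L, θ x = N

end Pool.Agent.OptRes
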