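import Pool.Agent.OptRes.Ione
import Pool.Agent.OptRes.Defs2

/-!
# Sharp polynomial bounds for `I1`, `I2`
-/

open MeasureTheory Set Filter Topology

namespace Pool.Agent.OptRes

namespace AlphaAux

theorem sq_mem {x : ℝ} (h0 : 0 < x) (h1 : x ≤ 1) : x ^ 2 ∈ Ioc (0 : ℝ) 1 :=
  ⟨by positivity, pow_le_one₀ h0.le h1⟩

theorem cont_a1 {p : ℝ} (hp : 0 < p) : ContinuousOn a1 (Icc p 1) := by
  unfold a1
  refine ContinuousOn.div (continuousOn_const.sub ?_) continuousOn_id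
    (fun x hx => (hp.trans_le hx.1).ne')
  exact continuousOn_I1.comp (continuousOn_pow 2) fun x hx => sq_mem (hp.trans_le hx.1) hx.2

theorem cont_a2 {p : ℝ} (hp : 0 < p) : ContinuousOn a2 (Icc p 1) := by
  unfold a2
  refine ContinuousOn.mul (continuousOn_const.add ?_) continuousOn_id
  exact continuousOn_I2.comp (continuousOn_pow 2) fun x hx => sq_mem (hp.trans_le hx.1) hx.2

theorem a1_one : a1 1 = 2 := by
  unfold a1
  rw [one_pow, I1_one]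
  norm_num

theorem a2_one : a2 1 = 4 := by
  unfold a2
  rw [one_pow, I2_one]
  norm_num

theorem one_sub_pos {x : ℝ} (h0 : 0 < x) (h1 : x < 1) : 0 < 1 - x ^ 6 := by
  have : x ^ 6 < 1 := pow_lt_one₀ h0.le h1 (by norm_num)
  linarith

theorem hasDerivAt_a1 {x : ℝ} (h0 : 0 < x) (h1 : x < 1) :
    HasDerivAt a1 (-3 * x ^ 4 * (2 - x * a1 x) / (1 - x ^ 6)) x := by
  have hs : 0 < x ^ 2 := by positivity
  have hs1 : x ^ 2 < 1 := pow_lt_one₀ h0.le h1 (by norm_num)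
  have hI : HasDerivAt (fun x : ℝ => I1 (x ^ 2)) _ x :=
    HasDerivAt.comp (h₂ := I1) (h := fun x : ℝ => x ^ 2) x (hasDerivAt_I1 hs hs1)
      (hasDerivAt_pow 2 x)
  have h := (hI.const_sub 3).div (hasDerivAt_id x) h0.ne'
  refine h.congr_deriv ?_
  have h6 := (one_sub_pos h0 h1).ne'
  have hq : qq (x ^ 2) = 2 / 3 * (1 - x ^ 6) := by unfold qq; ring
  rw [hq]
  unfold a1
  simp only [id]
  push_cast
  field_simp
  ring

theorem hasDerivAt_a2 {x : ℝ} (h0 : 0 < x) (h1 : x < 1) :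
    HasDerivAt a2 (3 * x ^ 5 * (a2 x - 4 * x) / (1 - x ^ 6)) x := by
  have hs : 0 < x ^ 2 := by positivity
  have hs1 : x ^ 2 < 1 := pow_lt_one₀ h0.le h1 (by norm_num)
  have hI : HasDerivAt (fun x : ℝ => I2 (x ^ 2)) _ x :=
    HasDerivAt.comp (h₂ := I2) (h := fun x : ℝ => x ^ 2) x (hasDerivAt_I2 hs hs1)
      (hasDerivAt_pow 2 x)
  have h := (hI.const_add 3).mul (hasDerivAt_id x)
  refine h.congr_deriv ?_
  have h6 := (one_sub_pos h0 h1).ne'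
  have hq : qq (x ^ 2) = 2 / 3 * (1 - x ^ 6) := by unfold qq; ring
  rw [hq]
  unfold a2
  simp only [id]
  push_cast
  field_simp
  ring

/-- comparison -/
theorem comp {a P a' P' : ℝ → ℝ} {p : ℝ} (hp0 : 0 < p) (hp : p < 1)
    (ha : ContinuousOn a (Icc p 1)) (h1 : a 1 = P 1)
    (hda : ∀ x ∈ Ioo p 1, HasDerivAt a (a' x) x) (hdP : ∀ x, HasDerivAt P (P' x) x)
    (hR : ∀ x ∈ Ioo p 1, 0 ≤ -3 * x ^ 5 * (a x - P x) + (1 - x ^ 6) * (a' x - P' x)) :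
    a p ≤ P p := by
  have hP : ContinuousOn P (Icc p 1) := fun x _ => (hdP x).continuousAt.continuousWithinAt
  have hS : ∀ x ∈ Ioo p 1, HasDerivAt (fun x : ℝ => Real.sqrt (1 - x ^ 6) * (a x - P x))
      ((-3 * x ^ 5 * (a x - P x) + (1 - x ^ 6) * (a' x - P' x)) / Real.sqrt (1 - x ^ 6)) x := by
    intro x hx
    have hpos := one_sub_pos (hp0.trans hx.1) hx.2
    have hsq := Real.sqrt_pos.2 hpos
    have h2 : HasDerivAt (fun x : ℝ => 1 - x ^ 6) (-(6 * x ^ 5)) x := by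
      have := (hasDerivAt_pow 6 x).const_sub 1
      simpa using this
    have h3 := (h2.sqrt hpos.ne').mul ((hda x hx).sub (hdP x))
    refine h3.congr_deriv ?_
    have h4 : Real.sqrt (1 - x ^ 6) * Real.sqrt (1 - x ^ 6) = 1 - x ^ 6 :=
      Real.mul_self_sqrt hpos.le
    rw [eq_div_iff hsq.ne']
    simp only [Pi.sub_apply]
    field_simp
    rw [Real.sq_sqrt hpos.le]
    ring
  have hmono : MonotoneOn (fun x : ℝ => Real.sqrt (1 - x ^ 6) * (a x - P x)) (Icc p 1) := by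
    refine monotoneOn_of_deriv_nonneg (convex_Icc p 1) ?_ ?_ ?_
    · exact (ContinuousOn.sqrt (continuousOn_const.sub (continuousOn_pow 6))).mul (ha.sub hP)
    · rw [interior_Icc]
      exact fun x hx => (hS x hx).differentiableAt.differentiableWithinAt
    · rw [interior_Icc]
      intro x hx
      rw [(hS x hx).deriv]
      exact div_nonneg (hR x hx) (Real.sqrt_nonneg _)
  have h5 := hmono (left_mem_Icc.2 hp.le) (right_mem_Icc.2 hp.le) hp.le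
  simp only [h1, sub_self, mul_zero] at h5
  have h6 := Real.sqrt_pos.2 (one_sub_pos hp0 hp)
  by_contra hcon
  push Not at hcon
  have := mul_pos h6 (sub_pos.2 hcon)
  linarith

theorem comp_le1 {P P' : ℝ → ℝ} {p : ℝ} (hp0 : 0 < p) (hp : p < 1)
    (hdP : ∀ x, HasDerivAt P (P' x) x) (h1 : P 1 = 2)
    (hR : ∀ x ∈ Ioo p 1, 0 ≤ -3 * x ^ 4 * (2 - x * P x) - P' x * (1 - x ^ 6)) :
    a1 p ≤ P p := by
  refine comp hp0 hp (cont_a1 hp0) (a1_one.trans h1.symm)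
    (fun x hx => hasDerivAt_a1 (hp0.trans hx.1) hx.2) hdP fun x hx => ?_
  have h6 := (one_sub_pos (hp0.trans hx.1) hx.2).ne'
  have : (1 - x ^ 6) * (-3 * x ^ 4 * (2 - x * a1 x) / (1 - x ^ 6) - P' x) =
      -3 * x ^ 4 * (2 - x * a1 x) - (1 - x ^ 6) * P' x := by
    field_simp
  rw [this]
  linarith [hR x hx]

theorem comp_ge1 {P P' : ℝ → ℝ} {p : ℝ} (hp0 : 0 < p) (hp : p < 1)
    (hdP : ∀ x, HasDerivAt P (P' x) x) (h1 : P 1 = 2)
    (hR : ∀ x ∈ Ioo p 1, -3 * x ^ 4 * (2 - x * P x) - P' x * (1 - x ^ 6) ≤ 0) :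
    P p ≤ a1 p := by
  have := comp (a := fun x => - a1 x) (P := fun x => - P x) hp0 hp (cont_a1 hp0).neg
    (by simp only [a1_one, h1])
    (fun x hx => (hasDerivAt_a1 (hp0.trans hx.1) hx.2).neg) (fun x => (hdP x).neg) fun x hx => ?_
  · linarith
  have h6 := (one_sub_pos (hp0.trans hx.1) hx.2).ne'
  have : (1 - x ^ 6) * (-(-3 * x ^ 4 * (2 - x * a1 x) / (1 - x ^ 6)) - - P' x) =
      3 * x ^ 4 * (2 - x * a1 x) + (1 - x ^ 6) * P' x := by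
    field_simp
    ring
  rw [this]
  linarith [hR x hx]

theorem comp_le2 {P P' : ℝ → ℝ} {p : ℝ} (hp0 : 0 < p) (hp : p < 1)
    (hdP : ∀ x, HasDerivAt P (P' x) x) (h1 : P 1 = 4)
    (hR : ∀ x ∈ Ioo p 1, 0 ≤ 3 * x ^ 5 * (P x - 4 * x) - P' x * (1 - x ^ 6)) :
    a2 p ≤ P p := by
  refine comp hp0 hp (cont_a2 hp0) (a2_one.trans h1.symm)
    (fun x hx => hasDerivAt_a2 (hp0.trans hx.1) hx.2) hdP fun x hx => ?_
  have h6 := (one_sub_pos (hp0.trans hx.1) hx.2).ne'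
  have : (1 - x ^ 6) * (3 * x ^ 5 * (a2 x - 4 * x) / (1 - x ^ 6) - P' x) =
      3 * x ^ 5 * (a2 x - 4 * x) - (1 - x ^ 6) * P' x := by
    field_simp
  rw [this]
  linarith [hR x hx]

theorem comp_ge2 {P P' : ℝ → ℝ} {p : ℝ} (hp0 : 0 < p) (hp : p < 1)
    (hdP : ∀ x, HasDerivAt P (P' x) x) (h1 : P 1 = 4)
    (hR : ∀ x ∈ Ioo p 1, 3 * x ^ 5 * (P x - 4 * x) - P' x * (1 - x ^ 6) ≤ 0) :
    P p ≤ a2 p := by
  have := comp (a := fun x => - a2 x) (P := fun x => - P x) hp0 hp (cont_a2 hp0).neg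
    (by simp only [a2_one, h1])
    (fun x hx => (hasDerivAt_a2 (hp0.trans hx.1) hx.2).neg) (fun x => (hdP x).neg) fun x hx => ?_
  · linarith
  have h6 := (one_sub_pos (hp0.trans hx.1) hx.2).ne'
  have : (1 - x ^ 6) * (-(3 * x ^ 5 * (a2 x - 4 * x) / (1 - x ^ 6)) - - P' x) =
      -(3 * x ^ 5 * (a2 x - 4 * x)) + (1 - x ^ 6) * P' x := by
    field_simp
    ring
  rw [this]
  linarith [hR x hx]

/-- the polynomial `Q` for `G1u` -/
noncomputable def QG1u (x : ℝ) : ℝ :=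
    (3 / 250) + (6177 / 50000) * x ^ 1 + (-95243 / 100000) * x ^ 2 +
      (141957 / 100000) * x ^ 3 + (141957 / 100000) * x ^ 4 +
      (141957 / 100000) * x ^ 5 + (-819963 / 100000) * x ^ 6 + (4311 / 2500) * x ^ 7 +
      (6523 / 2000) * x ^ 8

theorem QG1u_0 {x : ℝ} (h0 : 0 ≤ x) (h1 : x ≤ (1 / 2)) : 0 ≤ QG1u x := by
  obtain ⟨u, hu⟩ : ∃ u, u = x - 0 := ⟨_, rfl⟩
  obtain ⟨v, hv⟩ : ∃ v, v = (1 / 2) - x := ⟨_, rfl⟩
  have hu0 : 0 ≤ u := by rw [hu]; linarith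
  have hv0 : 0 ≤ v := by rw [hv]; linarith
  have e : QG1u x =
      (384 / 125) * v ^ 8 + (126216 / 3125) * u ^ 1 * v ^ 7 +
      (424226 / 3125) * u ^ 2 * v ^ 6 + (574377 / 3125) * u ^ 3 * v ^ 5 +
      (650067 / 6250) * u ^ 4 * v ^ 4 + (785653 / 12500) * u ^ 5 * v ^ 3 +
      (95571 / 1000) * u ^ 6 * v ^ 2 + (371499 / 6250) * u ^ 7 * v ^ 1 +
      (113373 / 10000) * u ^ 8 := by
    rw [hu, hv]; unfold QG1u; ring
  rw [e]
  positivity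

theorem QG1u_1 {x : ℝ} (h0 : (1 / 2) ≤ x) (h1 : x ≤ (3 / 4)) : 0 ≤ QG1u x := by
  obtain ⟨u, hu⟩ : ∃ u, u = x - (1 / 2) := ⟨_, rfl⟩
  obtain ⟨v, hv⟩ : ∃ v, v = (3 / 4) - x := ⟨_, rfl⟩
  have hu0 : 0 ≤ u := by rw [hu]; linarith
  have hv0 : 0 ≤ v := by rw [hv]; linarith
  have e : QG1u x =
      (1813968 / 625) * v ^ 8 + (85062144 / 3125) * u ^ 1 * v ^ 7 +
      (340866792 / 3125) * u ^ 2 * v ^ 6 + (151305872 / 625) * u ^ 3 * v ^ 5 +
      (1008757716 / 3125) * u ^ 4 * v ^ 4 + (163909992 / 625) * u ^ 5 * v ^ 3 +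
      (783556243 / 6250) * u ^ 6 * v ^ 2 + (99799521 / 3125) * u ^ 7 * v ^ 1 +
      (167659323 / 50000) * u ^ 8 := by
    rw [hu, hv]; unfold QG1u; ring
  rw [e]
  positivity

theorem QG1u_2 {x : ℝ} (h0 : (3 / 4) ≤ x) (h1 : x ≤ 1) : 0 ≤ QG1u x := by
  obtain ⟨u, hu⟩ : ∃ u, u = x - (3 / 4) := ⟨_, rfl⟩
  obtain ⟨v, hv⟩ : ∃ v, v = 1 - x := ⟨_, rfl⟩
  have hu0 : 0 ≤ u := by rw [hu]; linarith
  have hv0 : 0 ≤ v := by rw [hv]; linarith
  have e : QG1u x =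
      (167659323 / 50000) * v ^ 8 + (67859802 / 3125) * u ^ 1 * v ^ 7 +
      (336400177 / 6250) * u ^ 2 * v ^ 6 + (193088778 / 3125) * u ^ 3 * v ^ 5 +
      (112232136 / 3125) * u ^ 4 * v ^ 4 + (106145824 / 3125) * u ^ 5 * v ^ 3 +
      (37438848 / 625) * u ^ 6 * v ^ 2 + (157713408 / 3125) * u ^ 7 * v ^ 1 +
      (46712832 / 3125) * u ^ 8 := by
    rw [hu, hv]; unfold QG1u; ring
  rw [e]
  positivity

theorem QG1u_nonneg {x : ℝ} (h0 : 0 ≤ x) (h1 : x ≤ 1) : 0 ≤ QG1u x := by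
  rcases le_total x (1 / 2) with h | g1
  · exact QG1u_0 h0 h
  rcases le_total x (3 / 4) with h | g2
  · exact QG1u_1 g1 h
  exact QG1u_2 g2 h1

/-- derivative of `G1u` -/
noncomputable def dG1u (x : ℝ) : ℝ :=
    (-1503 / 250) * x ^ 4 + (330801 / 50000) * x ^ 5 + (107597 / 100000) * x ^ 6 +
      (-593 / 250) * x ^ 7

theorem hasDerivAt_G1u (x : ℝ) : HasDerivAt G1u (dG1u x) x := by
  have h := ((((hasDerivAt_const x ((56063 / 25000) : ℝ)).add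
      ((hasDerivAt_pow 5 x).const_mul (-1503 / 1250))).add
      ((hasDerivAt_pow 6 x).const_mul (110267 / 100000))).add
      ((hasDerivAt_pow 7 x).const_mul (15371 / 100000))).add
      ((hasDerivAt_pow 8 x).const_mul (-593 / 2000))
  refine HasDerivAt.congr_deriv (h.congr_of_eventuallyEq (Eventually.of_forall fun y => ?_)) ?_
  · simp only [Pi.add_apply]
    unfold G1u
    ring
  · unfold dG1u
    push_cast
    ring

theorem RG1u (x : ℝ) : -3 * x ^ 4 * (2 - x * G1u x) - dG1u x * (1 - x ^ 6) =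
    ((1 - x) * (x ^ 4 * QG1u x)) := by
  unfold G1u dG1u QG1u
  ring

theorem G1u_one : G1u 1 = 2 := by
  unfold G1u
  norm_num

theorem bound_G1u {p : ℝ} (hp : 0 < p) (hp1 : p < 1) : a1 p ≤ G1u p := by
  refine comp_le1 (P := G1u) (P' := dG1u) (hp) hp1 hasDerivAt_G1u G1u_one fun x hx => ?_
  have hx0 : 0 ≤ x := by linarith [hx.1]
  have hQ : 0 ≤ QG1u x := QG1u_nonneg (by linarith [hx.1]) hx.2.le
  have hm : 0 ≤ (1 - x) * (x ^ 4 * QG1u x) :=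
    mul_nonneg (by linarith [hx.2]) (mul_nonneg (pow_nonneg hx0 4) hQ)
  have := RG1u x
  linarith

/-- the polynomial `Q` for `G1l` -/
noncomputable def QG1l (x : ℝ) : ℝ :=
    (7 / 500) + (-4097 / 50000) * x ^ 1 + (99403 / 100000) * x ^ 2 +
      (-137797 / 100000) * x ^ 3 + (-137797 / 100000) * x ^ 4 +
      (-137797 / 100000) * x ^ 5 + (819963 / 100000) * x ^ 6 + (-4311 / 2500) * x ^ 7 +
      (-6523 / 2000) * x ^ 8

theorem QG1l_0 {x : ℝ} (h0 : 0 ≤ x) (h1 : x ≤ (1 / 2)) : 0 ≤ QG1l x := by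
  obtain ⟨u, hu⟩ : ∃ u, u = x - 0 := ⟨_, rfl⟩
  obtain ⟨v, hv⟩ : ∃ v, v = (1 / 2) - x := ⟨_, rfl⟩
  have hu0 : 0 ≤ u := by rw [hu]; linarith
  have hv0 : 0 ≤ v := by rw [hv]; linarith
  have e : QG1l x =
      (448 / 125) * v ^ 8 + (56824 / 3125) * u ^ 1 * v ^ 7 +
      (282974 / 3125) * u ^ 2 * v ^ 6 + (993943 / 3125) * u ^ 3 * v ^ 5 +
      (3722093 / 6250) * u ^ 4 * v ^ 4 + (7072587 / 12500) * u ^ 5 * v ^ 3 +
      (1304289 / 5000) * u ^ 6 * v ^ 2 + (358581 / 6250) * u ^ 7 * v ^ 1 +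
      (11271 / 2000) * u ^ 8 := by
    rw [hu, hv]; unfold QG1l; ring
  rw [e]
  positivity

theorem QG1l_1 {x : ℝ} (h0 : (1 / 2) ≤ x) (h1 : x ≤ 1) : 0 ≤ QG1l x := by
  obtain ⟨u, hu⟩ : ∃ u, u = x - (1 / 2) := ⟨_, rfl⟩
  obtain ⟨v, hv⟩ : ∃ v, v = 1 - x := ⟨_, rfl⟩
  have hu0 : 0 ≤ u := by rw [hu]; linarith
  have hv0 : 0 ≤ v := by rw [hv]; linarith
  have e : QG1l x =
      (11271 / 2000) * v ^ 8 + (204969 / 6250) * u ^ 1 * v ^ 7 +
      (2220309 / 25000) * u ^ 2 * v ^ 6 + (134931 / 500) * u ^ 3 * v ^ 5 +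
      (5226653 / 6250) * u ^ 4 * v ^ 4 + (4753579 / 3125) * u ^ 5 * v ^ 3 +
      (4251626 / 3125) * u ^ 6 * v ^ 2 + (295128 / 625) * u ^ 7 * v ^ 1 +
      (4728 / 3125) * u ^ 8 := by
    rw [hu, hv]; unfold QG1l; ring
  rw [e]
  positivity

theorem QG1l_nonneg {x : ℝ} (h0 : 0 ≤ x) (h1 : x ≤ 1) : 0 ≤ QG1l x := by
  rcases le_total x (1 / 2) with h | g1
  · exact QG1l_0 h0 h
  exact QG1l_1 g1 h1

/-- derivative of `G1l` -/
noncomputable def dG1l (x : ℝ) : ℝ :=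
    (-2993 / 500) * x ^ 4 + (330801 / 50000) * x ^ 5 + (107597 / 100000) * x ^ 6 +
      (-593 / 250) * x ^ 7

theorem hasDerivAt_G1l (x : ℝ) : HasDerivAt G1l (dG1l x) x := by
  have h := ((((hasDerivAt_const x ((55933 / 25000) : ℝ)).add
      ((hasDerivAt_pow 5 x).const_mul (-2993 / 2500))).add
      ((hasDerivAt_pow 6 x).const_mul (110267 / 100000))).add
      ((hasDerivAt_pow 7 x).const_mul (15371 / 100000))).add
      ((hasDerivAt_pow 8 x).const_mul (-593 / 2000))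
  refine HasDerivAt.congr_deriv (h.congr_of_eventuallyEq (Eventually.of_forall fun y => ?_)) ?_
  · simp only [Pi.add_apply]
    unfold G1l
    ring
  · unfold dG1l
    push_cast
    ring

theorem RG1l (x : ℝ) : -3 * x ^ 4 * (2 - x * G1l x) - dG1l x * (1 - x ^ 6) =
    -((1 - x) * (x ^ 4 * QG1l x)) := by
  unfold G1l dG1l QG1l
  ring

theorem G1l_one : G1l 1 = 2 := by
  unfold G1l
  norm_num

theorem bound_G1l {p : ℝ} (hp : 0 < p) (hp1 : p < 1) : G1l p ≤ a1 p := by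
  refine comp_ge1 (P := G1l) (P' := dG1l) (hp) hp1 hasDerivAt_G1l G1l_one fun x hx => ?_
  have hx0 : 0 ≤ x := by linarith [hx.1]
  have hQ : 0 ≤ QG1l x := QG1l_nonneg (by linarith [hx.1]) hx.2.le
  have hm : 0 ≤ (1 - x) * (x ^ 4 * QG1l x) :=
    mul_nonneg (by linarith [hx.2]) (mul_nonneg (pow_nonneg hx0 4) hQ)
  have := RG1l x
  linarith

/-- the polynomial `Q` for `G2l` -/
noncomputable def QG2l (x : ℝ) : ℝ :=
    (681 / 25000) + (23021 / 100000) * x ^ 1 + (-170379 / 100000) * x ^ 2 +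
      (3069 / 1250) * x ^ 3 + (3069 / 1250) * x ^ 4 + (3069 / 1250) * x ^ 5 +
      (-1396683 / 100000) * x ^ 6 + (288607 / 100000) * x ^ 7 +
      (138633 / 25000) * x ^ 8

theorem QG2l_0 {x : ℝ} (h0 : 0 ≤ x) (h1 : x ≤ (1 / 2)) : 0 ≤ QG2l x := by
  obtain ⟨u, hu⟩ : ∃ u, u = x - 0 := ⟨_, rfl⟩
  obtain ⟨v, hv⟩ : ∃ v, v = (1 / 2) - x := ⟨_, rfl⟩
  have hu0 : 0 ≤ u := by rw [hu]; linarith
  have hv0 : 0 ≤ v := by rw [hv]; linarith
  have e : QG2l x =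
      (21792 / 3125) * v ^ 8 + (53284 / 625) * u ^ 1 * v ^ 7 +
      (914006 / 3125) * u ^ 2 * v ^ 6 + (1355088 / 3125) * u ^ 3 * v ^ 5 +
      (197474 / 625) * u ^ 4 * v ^ 4 + (635752 / 3125) * u ^ 5 * v ^ 3 +
      (5071077 / 25000) * u ^ 6 * v ^ 2 + (5536371 / 50000) * u ^ 7 * v ^ 1 +
      (203391 / 10000) * u ^ 8 := by
    rw [hu, hv]; unfold QG2l; ring
  rw [e]
  positivity

theorem QG2l_1 {x : ℝ} (h0 : (1 / 2) ≤ x) (h1 : x ≤ (3 / 4)) : 0 ≤ QG2l x := by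
  obtain ⟨u, hu⟩ : ∃ u, u = x - (1 / 2) := ⟨_, rfl⟩
  obtain ⟨v, hv⟩ : ∃ v, v = (3 / 4) - x := ⟨_, rfl⟩
  have hu0 : 0 ≤ u := by rw [hu]; linarith
  have hv0 : 0 ≤ v := by rw [hv]; linarith
  have e : QG2l x =
      (3254256 / 625) * v ^ 8 + (150964392 / 3125) * u ^ 1 * v ^ 7 +
      (600604092 / 3125) * u ^ 2 * v ^ 6 + (1327297162 / 3125) * u ^ 3 * v ^ 5 +
      (353334497 / 625) * u ^ 4 * v ^ 4 + (2872285767 / 6250) * u ^ 5 * v ^ 3 +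
      (2754831821 / 12500) * u ^ 6 * v ^ 2 + (1412390239 / 25000) * u ^ 7 * v ^ 1 +
      (74858937 / 12500) * u ^ 8 := by
    rw [hu, hv]; unfold QG2l; ring
  rw [e]
  positivity

theorem QG2l_2 {x : ℝ} (h0 : (3 / 4) ≤ x) (h1 : x ≤ 1) : 0 ≤ QG2l x := by
  obtain ⟨u, hu⟩ : ∃ u, u = x - (3 / 4) := ⟨_, rfl⟩
  obtain ⟨v, hv⟩ : ∃ v, v = 1 - x := ⟨_, rfl⟩
  have hu0 : 0 ≤ u := by rw [hu]; linarith
  have hv0 : 0 ≤ v := by rw [hv]; linarith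
  have e : QG2l x =
      (74858937 / 12500) * v ^ 8 + (196619149 / 5000) * u ^ 1 * v ^ 7 +
      (313075273 / 3125) * u ^ 2 * v ^ 6 + (382456014 / 3125) * u ^ 3 * v ^ 5 +
      (50912992 / 625) * u ^ 4 * v ^ 4 + (223127264 / 3125) * u ^ 5 * v ^ 3 +
      (66292608 / 625) * u ^ 6 * v ^ 2 + (267936768 / 3125) * u ^ 7 * v ^ 1 +
      (78606336 / 3125) * u ^ 8 := by
    rw [hu, hv]; unfold QG2l; ring
  rw [e]
  positivity

theorem QG2l_nonneg {x : ℝ} (h0 : 0 ≤ x) (h1 : x ≤ 1) : 0 ≤ QG2l x := by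
  rcases le_total x (1 / 2) with h | g1
  · exact QG2l_0 h0 h
  rcases le_total x (3 / 4) with h | g2
  · exact QG2l_1 g1 h
  exact QG2l_2 g2 h1

/-- derivative of `G2l` -/
noncomputable def dG2l (x : ℝ) : ℝ :=
    (547401 / 50000) * x ^ 5 + (-1179703 / 100000) * x ^ 6 + (-967 / 500) * x ^ 7 +
      (415899 / 100000) * x ^ 8

theorem hasDerivAt_G2l (x : ℝ) : HasDerivAt G2l (dG2l x) x := by
  have h := ((((hasDerivAt_const x ((182013 / 50000) : ℝ)).add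
      ((hasDerivAt_pow 6 x).const_mul (182467 / 100000))).add
      ((hasDerivAt_pow 7 x).const_mul (-168529 / 100000))).add
      ((hasDerivAt_pow 8 x).const_mul (-967 / 4000))).add
      ((hasDerivAt_pow 9 x).const_mul (46211 / 100000))
  refine HasDerivAt.congr_deriv (h.congr_of_eventuallyEq (Eventually.of_forall fun y => ?_)) ?_
  · simp only [Pi.add_apply]
    unfold G2l
    ring
  · unfold dG2l
    push_cast
    ring

theorem RG2l (x : ℝ) : 3 * x ^ 5 * (G2l x - 4 * x) - dG2l x * (1 - x ^ 6) =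
    -((1 - x) * (x ^ 5 * QG2l x)) := by
  unfold G2l dG2l QG2l
  ring

theorem G2l_one : G2l 1 = 4 := by
  unfold G2l
  norm_num

theorem bound_G2l {p : ℝ} (hp : 0 < p) (hp1 : p < 1) : G2l p ≤ a2 p := by
  refine comp_ge2 (P := G2l) (P' := dG2l) (hp) hp1 hasDerivAt_G2l G2l_one fun x hx => ?_
  have hx0 : 0 ≤ x := by linarith [hx.1]
  have hQ : 0 ≤ QG2l x := QG2l_nonneg (by linarith [hx.1]) hx.2.le
  have hm : 0 ≤ (1 - x) * (x ^ 5 * QG2l x) :=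
    mul_nonneg (by linarith [hx.2]) (mul_nonneg (pow_nonneg hx0 5) hQ)
  have := RG2l x
  linarith

/-- the polynomial `Q` for `G2u` -/
noncomputable def QG2u (x : ℝ) : ℝ :=
    (3729 / 100000) + (-2071 / 12500) * x ^ 1 + (5526 / 3125) * x ^ 2 +
      (-239067 / 100000) * x ^ 3 + (-239067 / 100000) * x ^ 4 +
      (-239067 / 100000) * x ^ 5 + (1396683 / 100000) * x ^ 6 +
      (-288607 / 100000) * x ^ 7 + (-138633 / 25000) * x ^ 8

theorem QG2u_0 {x : ℝ} (h0 : 0 ≤ x) (h1 : x ≤ (1 / 2)) : 0 ≤ QG2u x := by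
  obtain ⟨u, hu⟩ : ∃ u, u = x - 0 := ⟨_, rfl⟩
  obtain ⟨v, hv⟩ : ∃ v, v = (1 / 2) - x := ⟨_, rfl⟩
  have hu0 : 0 ≤ u := by rw [hu]; linarith
  have hv0 : 0 ≤ v := by rw [hv]; linarith
  have e : QG2u x =
      (29832 / 3125) * v ^ 8 + (172384 / 3125) * u ^ 1 * v ^ 7 +
      (725056 / 3125) * u ^ 2 * v ^ 6 + (2161797 / 3125) * u ^ 3 * v ^ 5 +
      (7517623 / 6250) * u ^ 4 * v ^ 4 + (22373 / 20) * u ^ 5 * v ^ 3 +
      (2617533 / 5000) * u ^ 6 * v ^ 2 + (6001593 / 50000) * u ^ 7 * v ^ 1 +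
      (609201 / 50000) * u ^ 8 := by
    rw [hu, hv]; unfold QG2u; ring
  rw [e]
  positivity

theorem QG2u_1 {x : ℝ} (h0 : (1 / 2) ≤ x) (h1 : x ≤ 1) : 0 ≤ QG2u x := by
  obtain ⟨u, hu⟩ : ∃ u, u = x - (1 / 2) := ⟨_, rfl⟩
  obtain ⟨v, hv⟩ : ∃ v, v = 1 - x := ⟨_, rfl⟩
  have hu0 : 0 ≤ u := by rw [hu]; linarith
  have hv0 : 0 ≤ v := by rw [hv]; linarith
  have e : QG2u x =
      (609201 / 50000) * v ^ 8 + (3745623 / 50000) * u ^ 1 * v ^ 7 +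
      (519177 / 2500) * u ^ 2 * v ^ 6 + (1684981 / 3125) * u ^ 3 * v ^ 5 +
      (4574679 / 3125) * u ^ 4 * v ^ 4 + (8005502 / 3125) * u ^ 5 * v ^ 3 +
      (7096806 / 3125) * u ^ 6 * v ^ 2 + (2453964 / 3125) * u ^ 7 * v ^ 1 +
      (2688 / 3125) * u ^ 8 := by
    rw [hu, hv]; unfold QG2u; ring
  rw [e]
  positivity

theorem QG2u_nonneg {x : ℝ} (h0 : 0 ≤ x) (h1 : x ≤ 1) : 0 ≤ QG2u x := by
  rcases le_total x (1 / 2) with h | g1
  · exact QG2u_0 h0 h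
  exact QG2u_1 g1 h1

/-- derivative of `G2u` -/
noncomputable def dG2u (x : ℝ) : ℝ :=
    (2181 / 200) * x ^ 5 + (-1179703 / 100000) * x ^ 6 + (-967 / 500) * x ^ 7 +
      (415899 / 100000) * x ^ 8

theorem hasDerivAt_G2u (x : ℝ) : HasDerivAt G2u (dG2u x) x := by
  have h := ((((hasDerivAt_const x ((364743 / 100000) : ℝ)).add
      ((hasDerivAt_pow 6 x).const_mul (727 / 400))).add
      ((hasDerivAt_pow 7 x).const_mul (-168529 / 100000))).add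
      ((hasDerivAt_pow 8 x).const_mul (-967 / 4000))).add
      ((hasDerivAt_pow 9 x).const_mul (46211 / 100000))
  refine HasDerivAt.congr_deriv (h.congr_of_eventuallyEq (Eventually.of_forall fun y => ?_)) ?_
  · simp only [Pi.add_apply]
    unfold G2u
    ring
  · unfold dG2u
    push_cast
    ring

theorem RG2u (x : ℝ) : 3 * x ^ 5 * (G2u x - 4 * x) - dG2u x * (1 - x ^ 6) =
    ((1 - x) * (x ^ 5 * QG2u x)) := by
  unfold G2u dG2u QG2u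
  ring

theorem G2u_one : G2u 1 = 4 := by
  unfold G2u
  norm_num

theorem bound_G2u {p : ℝ} (hp : 0 < p) (hp1 : p < 1) : a2 p ≤ G2u p := by
  refine comp_le2 (P := G2u) (P' := dG2u) (hp) hp1 hasDerivAt_G2u G2u_one fun x hx => ?_
  have hx0 : 0 ≤ x := by linarith [hx.1]
  have hQ : 0 ≤ QG2u x := QG2u_nonneg (by linarith [hx.1]) hx.2.le
  have hm : 0 ≤ (1 - x) * (x ^ 5 * QG2u x) :=
    mul_nonneg (by linarith [hx.2]) (mul_nonneg (pow_nonneg hx0 5) hQ)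
  have := RG2u x
  linarith

/-- the polynomial `Q` for `F1u` -/
noncomputable def QF1u (x : ℝ) : ℝ :=
    (1399 / 10000) + (-12657 / 10000) * x ^ 1 + (26637 / 10000) * x ^ 2 +
      (6667 / 10000) * x ^ 3 + (-53333 / 10000) * x ^ 4 + (28193 / 20000) * x ^ 5 +
      (17001 / 20000) * x ^ 6 + (87281 / 20000) * x ^ 7 + (-13979 / 4000) * x ^ 8

theorem QF1u_0 {x : ℝ} (h0 : (1 / 2) ≤ x) (h1 : x ≤ (3 / 4)) : 0 ≤ QF1u x := by
  obtain ⟨u, hu⟩ : ∃ u, u = x - (1 / 2) := ⟨_, rfl⟩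
  obtain ⟨v, hv⟩ : ∃ v, v = (3 / 4) - x := ⟨_, rfl⟩
  have hu0 : 0 ≤ u := by rw [hu]; linarith
  have hv0 : 0 ≤ v := by rw [hv]; linarith
  have e : QF1u x =
      (31032 / 625) * v ^ 8 + (1171608 / 625) * u ^ 1 * v ^ 7 +
      (6200172 / 625) * u ^ 2 * v ^ 6 + (2749238 / 125) * u ^ 3 * v ^ 5 +
      (15391482 / 625) * u ^ 4 * v ^ 4 + (3574117 / 250) * u ^ 5 * v ^ 3 +
      (10271149 / 2500) * u ^ 6 * v ^ 2 + (3109357 / 5000) * u ^ 7 * v ^ 1 +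
      (314257 / 4000) * u ^ 8 := by
    rw [hu, hv]; unfold QF1u; ring
  rw [e]
  positivity

theorem QF1u_1 {x : ℝ} (h0 : (3 / 4) ≤ x) (h1 : x ≤ 1) : 0 ≤ QF1u x := by
  obtain ⟨u, hu⟩ : ∃ u, u = x - (3 / 4) := ⟨_, rfl⟩
  obtain ⟨v, hv⟩ : ∃ v, v = 1 - x := ⟨_, rfl⟩
  have hu0 : 0 ≤ u := by rw [hu]; linarith
  have hv0 : 0 ≤ v := by rw [hv]; linarith
  have e : QF1u x =
      (314257 / 4000) * v ^ 8 + (3175783 / 5000) * u ^ 1 * v ^ 7 +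
      (525182 / 125) * u ^ 2 * v ^ 6 + (11227896 / 625) * u ^ 3 * v ^ 5 +
      (26273272 / 625) * u ^ 4 * v ^ 4 + (33156896 / 625) * u ^ 5 * v ^ 3 +
      (21370112 / 625) * u ^ 6 * v ^ 2 + (5551104 / 625) * u ^ 7 * v ^ 1 +
      (12288 / 625) * u ^ 8 := by
    rw [hu, hv]; unfold QF1u; ring
  rw [e]
  positivity

theorem QF1u_nonneg {x : ℝ} (h0 : (1 / 2) ≤ x) (h1 : x ≤ 1) : 0 ≤ QF1u x := by
  rcases le_total x (3 / 4) with h | g1
  · exact QF1u_0 h0 h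
  exact QF1u_1 g1 h1

/-- derivative of `F1u` -/
noncomputable def dF1u (x : ℝ) : ℝ :=
    (-1399 / 10000) + (1757 / 1250) * x ^ 1 + (-19647 / 5000) * x ^ 2 +
      (1997 / 1000) * x ^ 3

theorem hasDerivAt_F1u (x : ℝ) : HasDerivAt F1u (dF1u x) x := by
  have h := ((((hasDerivAt_const x ((44953 / 20000) : ℝ)).add
      ((hasDerivAt_pow 1 x).const_mul (-1399 / 10000))).add
      ((hasDerivAt_pow 2 x).const_mul (1757 / 2500))).add
      ((hasDerivAt_pow 3 x).const_mul (-6549 / 5000))).add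
      ((hasDerivAt_pow 4 x).const_mul (1997 / 4000))
  refine HasDerivAt.congr_deriv (h.congr_of_eventuallyEq (Eventually.of_forall fun y => ?_)) ?_
  · simp only [Pi.add_apply]
    unfold F1u
    ring
  · unfold dF1u
    push_cast
    ring

theorem RF1u (x : ℝ) : -3 * x ^ 4 * (2 - x * F1u x) - dF1u x * (1 - x ^ 6) =
    ((1 - x) * (QF1u x)) := by
  unfold F1u dF1u QF1u
  ring

theorem F1u_one : F1u 1 = 2 := by
  unfold F1u
  norm_num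

theorem bound_F1u {p : ℝ} (hp : 1 / 2 ≤ p) (hp1 : p < 1) : a1 p ≤ F1u p := by
  refine comp_le1 (P := F1u) (P' := dF1u) (by linarith) hp1 hasDerivAt_F1u F1u_one fun x hx => ?_
  have hx0 : 0 ≤ x := by linarith [hx.1]
  have hQ : 0 ≤ QF1u x := QF1u_nonneg (by linarith [hx.1]) hx.2.le
  have hm : 0 ≤ (1 - x) * (QF1u x) :=
    mul_nonneg (by linarith [hx.2]) (hQ)
  have := RF1u x
  linarith

/-- the polynomial `Q` for `F1l` -/
noncomputable def QF1l (x : ℝ) : ℝ :=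
    (-86 / 625) + (317 / 250) * x ^ 1 + (-13307 / 5000) * x ^ 2 +
      (-1661 / 2500) * x ^ 3 + (13339 / 2500) * x ^ 4 + (-28009 / 20000) * x ^ 5 +
      (-17001 / 20000) * x ^ 6 + (-87281 / 20000) * x ^ 7 + (13979 / 4000) * x ^ 8

theorem QF1l_0 {x : ℝ} (h0 : (1 / 2) ≤ x) (h1 : x ≤ (5 / 8)) : 0 ≤ QF1l x := by
  obtain ⟨u, hu⟩ : ∃ u, u = x - (1 / 2) := ⟨_, rfl⟩
  obtain ⟨v, hv⟩ : ∃ v, v = (5 / 8) - x := ⟨_, rfl⟩
  have hu0 : 0 ≤ u := by rw [hu]; linarith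
  have hv0 : 0 ≤ v := by rw [hv]; linarith
  have e : QF1l x =
      (41797632 / 625) * v ^ 8 + (229757952 / 625) * u ^ 1 * v ^ 7 +
      (513823488 / 625) * u ^ 2 * v ^ 6 + (618147392 / 625) * u ^ 3 * v ^ 5 +
      (485878336 / 625) * u ^ 4 * v ^ 4 + (13475228 / 25) * u ^ 5 * v ^ 3 +
      (224410541 / 625) * u ^ 6 * v ^ 2 + (400079043 / 2500) * u ^ 7 * v ^ 1 +
      (604735743 / 20000) * u ^ 8 := by
    rw [hu, hv]; unfold QF1l; ring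
  rw [e]
  positivity

theorem QF1l_1 {x : ℝ} (h0 : (5 / 8) ≤ x) (h1 : x ≤ (3 / 4)) : 0 ≤ QF1l x := by
  obtain ⟨u, hu⟩ : ∃ u, u = x - (5 / 8) := ⟨_, rfl⟩
  obtain ⟨v, hv⟩ : ∃ v, v = (3 / 4) - x := ⟨_, rfl⟩
  have hu0 : 0 ≤ u := by rw [hu]; linarith
  have hv0 : 0 ≤ v := by rw [hv]; linarith
  have e : QF1l x =
      (604735743 / 20000) * v ^ 8 + (809392443 / 2500) * u ^ 1 * v ^ 7 +
      (940708991 / 625) * u ^ 2 * v ^ 6 + (2420686291 / 625) * u ^ 3 * v ^ 5 +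
      (3741921791 / 625) * u ^ 4 * v ^ 4 + (3553473444 / 625) * u ^ 5 * v ^ 3 +
      (2026015424 / 625) * u ^ 6 * v ^ 2 + (126986576 / 125) * u ^ 7 * v ^ 1 +
      (83898712 / 625) * u ^ 8 := by
    rw [hu, hv]; unfold QF1l; ring
  rw [e]
  positivity

theorem QF1l_2 {x : ℝ} (h0 : (3 / 4) ≤ x) (h1 : x ≤ (7 / 8)) : 0 ≤ QF1l x := by
  obtain ⟨u, hu⟩ : ∃ u, u = x - (3 / 4) := ⟨_, rfl⟩
  obtain ⟨v, hv⟩ : ∃ v, v = (7 / 8) - x := ⟨_, rfl⟩
  have hu0 : 0 ≤ u := by rw [hu]; linarith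
  have hv0 : 0 ≤ v := by rw [hv]; linarith
  have e : QF1l x =
      (83898712 / 625) * v ^ 8 + (707446512 / 625) * u ^ 1 * v ^ 7 +
      (2533610848 / 625) * u ^ 2 * v ^ 6 + (200438908 / 25) * u ^ 3 * v ^ 5 +
      (5953463831 / 625) * u ^ 4 * v ^ 4 + (4322297221 / 625) * u ^ 5 * v ^ 3 +
      (1860137013 / 625) * u ^ 6 * v ^ 2 + (1732745637 / 2500) * u ^ 7 * v ^ 1 +
      (1369427919 / 20000) * u ^ 8 := by
    rw [hu, hv]; unfold QF1l; ring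
  rw [e]
  positivity

theorem QF1l_3 {x : ℝ} (h0 : (7 / 8) ≤ x) (h1 : x ≤ 1) : 0 ≤ QF1l x := by
  obtain ⟨u, hu⟩ : ∃ u, u = x - (7 / 8) := ⟨_, rfl⟩
  obtain ⟨v, hv⟩ : ∃ v, v = 1 - x := ⟨_, rfl⟩
  have hu0 : 0 ≤ u := by rw [hu]; linarith
  have hv0 : 0 ≤ v := by rw [hv]; linarith
  have e : QF1l x =
      (1369427919 / 20000) * v ^ 8 + (1006110201 / 2500) * u ^ 1 * v ^ 7 +
      941640 * u ^ 2 * v ^ 6 + (783679424 / 625) * u ^ 3 * v ^ 5 +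
      (976494976 / 625) * u ^ 4 * v ^ 4 + (1450345472 / 625) * u ^ 5 * v ^ 3 +
      (317341696 / 125) * u ^ 6 * v ^ 2 + (922877952 / 625) * u ^ 7 * v ^ 1 +
      (213909504 / 625) * u ^ 8 := by
    rw [hu, hv]; unfold QF1l; ring
  rw [e]
  positivity

theorem QF1l_nonneg {x : ℝ} (h0 : (1 / 2) ≤ x) (h1 : x ≤ 1) : 0 ≤ QF1l x := by
  rcases le_total x (5 / 8) with h | g1
  · exact QF1l_0 h0 h
  rcases le_total x (3 / 4) with h | g2
  · exact QF1l_1 g1 h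
  rcases le_total x (7 / 8) with h | g3
  · exact QF1l_2 g2 h
  exact QF1l_3 g3 h1

/-- derivative of `F1l` -/
noncomputable def dF1l (x : ℝ) : ℝ :=
    (-86 / 625) + (1757 / 1250) * x ^ 1 + (-19647 / 5000) * x ^ 2 +
      (1997 / 1000) * x ^ 3

theorem hasDerivAt_F1l (x : ℝ) : HasDerivAt F1l (dF1l x) x := by
  have h := ((((hasDerivAt_const x ((44907 / 20000) : ℝ)).add
      ((hasDerivAt_pow 1 x).const_mul (-86 / 625))).add
      ((hasDerivAt_pow 2 x).const_mul (1757 / 2500))).add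
      ((hasDerivAt_pow 3 x).const_mul (-6549 / 5000))).add
      ((hasDerivAt_pow 4 x).const_mul (1997 / 4000))
  refine HasDerivAt.congr_deriv (h.congr_of_eventuallyEq (Eventually.of_forall fun y => ?_)) ?_
  · simp only [Pi.add_apply]
    unfold F1l
    ring
  · unfold dF1l
    push_cast
    ring

theorem RF1l (x : ℝ) : -3 * x ^ 4 * (2 - x * F1l x) - dF1l x * (1 - x ^ 6) =
    -((1 - x) * (QF1l x)) := by
  unfold F1l dF1l QF1l
  ring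

theorem F1l_one : F1l 1 = 2 := by
  unfold F1l
  norm_num

theorem bound_F1l {p : ℝ} (hp : 1 / 2 ≤ p) (hp1 : p < 1) : F1l p ≤ a1 p := by
  refine comp_ge1 (P := F1l) (P' := dF1l) (by linarith) hp1 hasDerivAt_F1l F1l_one fun x hx => ?_
  have hx0 : 0 ≤ x := by linarith [hx.1]
  have hQ : 0 ≤ QF1l x := QF1l_nonneg (by linarith [hx.1]) hx.2.le
  have hm : 0 ≤ (1 - x) * (QF1l x) :=
    mul_nonneg (by linarith [hx.2]) (hQ)
  have := RF1l x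
  linarith

/-- the polynomial `Q` for `F2l` -/
noncomputable def QF2l (x : ℝ) : ℝ :=
    (2573 / 2500) + (-5593 / 1250) * x ^ 1 + (47773 / 10000) * x ^ 2 +
      (13347 / 10000) * x ^ 3 + (13347 / 10000) * x ^ 4 + (-183267 / 20000) * x ^ 5 +
      (-25603 / 20000) * x ^ 6 + (249577 / 20000) * x ^ 7 + (-120491 / 20000) * x ^ 8

theorem QF2l_0 {x : ℝ} (h0 : (1 / 2) ≤ x) (h1 : x ≤ (5 / 8)) : 0 ≤ QF2l x := by
  obtain ⟨u, hu⟩ : ∃ u, u = x - (1 / 2) := ⟨_, rfl⟩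
  obtain ⟨v, hv⟩ : ∃ v, v = (5 / 8) - x := ⟨_, rfl⟩
  have hu0 : 0 ≤ u := by rw [hu]; linarith
  have hv0 : 0 ≤ v := by rw [hv]; linarith
  have e : QF2l x =
      (43849728 / 625) * v ^ 8 + (162106368 / 625) * u ^ 1 * v ^ 7 +
      (182297856 / 625) * u ^ 2 * v ^ 6 + (35567552 / 625) * u ^ 3 * v ^ 5 +
      (52381952 / 625) * u ^ 4 * v ^ 4 + (284979556 / 625) * u ^ 5 * v ^ 3 +
      (338304939 / 625) * u ^ 6 * v ^ 2 + (652574181 / 2500) * u ^ 7 * v ^ 1 +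
      (926680989 / 20000) * u ^ 8 := by
    rw [hu, hv]; unfold QF2l; ring
  rw [e]
  positivity

theorem QF2l_1 {x : ℝ} (h0 : (5 / 8) ≤ x) (h1 : x ≤ (3 / 4)) : 0 ≤ QF2l x := by
  obtain ⟨u, hu⟩ : ∃ u, u = x - (5 / 8) := ⟨_, rfl⟩
  obtain ⟨v, hv⟩ : ∃ v, v = (3 / 4) - x := ⟨_, rfl⟩
  have hu0 : 0 ≤ u := by rw [hu]; linarith
  have hv0 : 0 ≤ v := by rw [hv]; linarith
  have e : QF2l x =
      (926680989 / 20000) * v ^ 8 + (1200787797 / 2500) * u ^ 1 * v ^ 7 +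
      (1297678767 / 625) * u ^ 2 * v ^ 6 + (3044155757 / 625) * u ^ 3 * v ^ 5 +
      (4254524677 / 625) * u ^ 4 * v ^ 4 + (3646846108 / 625) * u ^ 5 * v ^ 3 +
      (1882553248 / 625) * u ^ 6 * v ^ 2 + (107632816 / 125) * u ^ 7 * v ^ 1 +
      (65643656 / 625) * u ^ 8 := by
    rw [hu, hv]; unfold QF2l; ring
  rw [e]
  positivity

theorem QF2l_2 {x : ℝ} (h0 : (3 / 4) ≤ x) (h1 : x ≤ 1) : 0 ≤ QF2l x := by
  obtain ⟨u, hu⟩ : ∃ u, u = x - (3 / 4) := ⟨_, rfl⟩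
  obtain ⟨v, hv⟩ : ∃ v, v = 1 - x := ⟨_, rfl⟩
  have hu0 : 0 ≤ u := by rw [hu]; linarith
  have hv0 : 0 ≤ v := by rw [hv]; linarith
  have e : QF2l x =
      (8205457 / 20000) * v ^ 8 + (15597487 / 5000) * u ^ 1 * v ^ 7 +
      (5740324 / 625) * u ^ 2 * v ^ 6 + (8579104 / 625) * u ^ 3 * v ^ 5 +
      (8199352 / 625) * u ^ 4 * v ^ 4 + (7539488 / 625) * u ^ 5 * v ^ 3 +
      (6565632 / 625) * u ^ 6 * v ^ 2 + (3201024 / 625) * u ^ 7 * v ^ 1 +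
      (503808 / 625) * u ^ 8 := by
    rw [hu, hv]; unfold QF2l; ring
  rw [e]
  positivity

theorem QF2l_nonneg {x : ℝ} (h0 : (1 / 2) ≤ x) (h1 : x ≤ 1) : 0 ≤ QF2l x := by
  rcases le_total x (5 / 8) with h | g1
  · exact QF2l_0 h0 h
  rcases le_total x (3 / 4) with h | g2
  · exact QF2l_1 g1 h
  exact QF2l_2 g2 h1

/-- derivative of `F2l` -/
noncomputable def dF2l (x : ℝ) : ℝ :=
    (2573 / 2500) + (-13759 / 2500) * x ^ 1 + (92517 / 10000) * x ^ 2 +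
      (-17213 / 5000) * x ^ 3

theorem hasDerivAt_F2l (x : ℝ) : HasDerivAt F2l (dF2l x) x := by
  have h := ((((hasDerivAt_const x ((69987 / 20000) : ℝ)).add
      ((hasDerivAt_pow 1 x).const_mul (2573 / 2500))).add
      ((hasDerivAt_pow 2 x).const_mul (-13759 / 5000))).add
      ((hasDerivAt_pow 3 x).const_mul (30839 / 10000))).add
      ((hasDerivAt_pow 4 x).const_mul (-17213 / 20000))
  refine HasDerivAt.congr_deriv (h.congr_of_eventuallyEq (Eventually.of_forall fun y => ?_)) ?_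
  · simp only [Pi.add_apply]
    unfold F2l
    ring
  · unfold dF2l
    push_cast
    ring

theorem RF2l (x : ℝ) : 3 * x ^ 5 * (F2l x - 4 * x) - dF2l x * (1 - x ^ 6) =
    -((1 - x) * (QF2l x)) := by
  unfold F2l dF2l QF2l
  ring

theorem F2l_one : F2l 1 = 4 := by
  unfold F2l
  norm_num

theorem bound_F2l {p : ℝ} (hp : 1 / 2 ≤ p) (hp1 : p < 1) : F2l p ≤ a2 p := by
  refine comp_ge2 (P := F2l) (P' := dF2l) (by linarith) hp1 hasDerivAt_F2l F2l_one fun x hx => ?_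
  have hx0 : 0 ≤ x := by linarith [hx.1]
  have hQ : 0 ≤ QF2l x := QF2l_nonneg (by linarith [hx.1]) hx.2.le
  have hm : 0 ≤ (1 - x) * (QF2l x) :=
    mul_nonneg (by linarith [hx.2]) (hQ)
  have := RF2l x
  linarith

/-- the polynomial `Q` for `F2u` -/
noncomputable def QF2u (x : ℝ) : ℝ :=
    (-10271 / 10000) + (8953 / 2000) * x ^ 1 + (-5969 / 1250) * x ^ 2 +
      (-533 / 400) * x ^ 3 + (-533 / 400) * x ^ 4 + (366877 / 40000) * x ^ 5 +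
      (51213 / 40000) * x ^ 6 + (-499147 / 40000) * x ^ 7 + (240989 / 40000) * x ^ 8

theorem QF2u_0 {x : ℝ} (h0 : (1 / 2) ≤ x) (h1 : x ≤ (3 / 4)) : 0 ≤ QF2u x := by
  obtain ⟨u, hu⟩ : ∃ u, u = x - (1 / 2) := ⟨_, rfl⟩
  obtain ⟨v, hv⟩ : ∃ v, v = (3 / 4) - x := ⟨_, rfl⟩
  have hu0 : 0 ≤ u := by rw [hu]; linarith
  have hv0 : 0 ≤ v := by rw [hv]; linarith
  have e : QF2u x =
      (7308 / 625) * v ^ 8 + (1631868 / 625) * u ^ 1 * v ^ 7 +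
      (6966798 / 625) * u ^ 2 * v ^ 6 + (2276711 / 125) * u ^ 3 * v ^ 5 +
      13961 * u ^ 4 * v ^ 4 + (13134781 / 2500) * u ^ 5 * v ^ 3 +
      (7146401 / 5000) * u ^ 6 * v ^ 2 + (6167457 / 10000) * u ^ 7 * v ^ 1 +
      (6100393 / 40000) * u ^ 8 := by
    rw [hu, hv]; unfold QF2u; ring
  rw [e]
  positivity

theorem QF2u_1 {x : ℝ} (h0 : (3 / 4) ≤ x) (h1 : x ≤ 1) : 0 ≤ QF2u x := by
  obtain ⟨u, hu⟩ : ∃ u, u = x - (3 / 4) := ⟨_, rfl⟩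
  obtain ⟨v, hv⟩ : ∃ v, v = 1 - x := ⟨_, rfl⟩
  have hu0 : 0 ≤ u := by rw [hu]; linarith
  have hv0 : 0 ≤ v := by rw [hv]; linarith
  have e : QF2u x =
      (6100393 / 40000) * v ^ 8 + (3646823 / 2000) * u ^ 1 * v ^ 7 +
      (6172463 / 625) * u ^ 2 * v ^ 6 + (17759508 / 625) * u ^ 3 * v ^ 5 +
      (5662612 / 125) * u ^ 4 * v ^ 4 + (24951664 / 625) * u ^ 5 * v ^ 3 +
      (11554688 / 625) * u ^ 6 * v ^ 2 + (517632 / 125) * u ^ 7 * v ^ 1 +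
      (12288 / 25) * u ^ 8 := by
    rw [hu, hv]; unfold QF2u; ring
  rw [e]
  positivity

theorem QF2u_nonneg {x : ℝ} (h0 : (1 / 2) ≤ x) (h1 : x ≤ 1) : 0 ≤ QF2u x := by
  rcases le_total x (3 / 4) with h | g1
  · exact QF2u_0 h0 h
  exact QF2u_1 g1 h1

/-- derivative of `F2u` -/
noncomputable def dF2u (x : ℝ) : ℝ :=
    (10271 / 10000) + (-13759 / 2500) * x ^ 1 + (92517 / 10000) * x ^ 2 +
      (-34427 / 10000) * x ^ 3

theorem hasDerivAt_F2u (x : ℝ) : HasDerivAt F2u (dF2u x) x := by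
  have h := ((((hasDerivAt_const x ((140059 / 40000) : ℝ)).add
      ((hasDerivAt_pow 1 x).const_mul (10271 / 10000))).add
      ((hasDerivAt_pow 2 x).const_mul (-13759 / 5000))).add
      ((hasDerivAt_pow 3 x).const_mul (30839 / 10000))).add
      ((hasDerivAt_pow 4 x).const_mul (-34427 / 40000))
  refine HasDerivAt.congr_deriv (h.congr_of_eventuallyEq (Eventually.of_forall fun y => ?_)) ?_
  · simp only [Pi.add_apply]
    unfold F2u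
    ring
  · unfold dF2u
    push_cast
    ring

theorem RF2u (x : ℝ) : 3 * x ^ 5 * (F2u x - 4 * x) - dF2u x * (1 - x ^ 6) =
    ((1 - x) * (QF2u x)) := by
  unfold F2u dF2u QF2u
  ring

theorem F2u_one : F2u 1 = 4 := by
  unfold F2u
  norm_num

theorem bound_F2u {p : ℝ} (hp : 1 / 2 ≤ p) (hp1 : p < 1) : a2 p ≤ F2u p := by
  refine comp_le2 (P := F2u) (P' := dF2u) (by linarith) hp1 hasDerivAt_F2u F2u_one fun x hx => ?_
  have hx0 : 0 ≤ x := by linarith [hx.1]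
  have hQ : 0 ≤ QF2u x := QF2u_nonneg (by linarith [hx.1]) hx.2.le
  have hm : 0 ≤ (1 - x) * (QF2u x) :=
    mul_nonneg (by linarith [hx.2]) (hQ)
  have := RF2u x
  linarith

end AlphaAux

open AlphaAux

theorem ab {p : ℝ} (h0 : 0 < p) (h1 : p < 1) : AB p (a1 p) (a2 p) where
  g1l := bound_G1l h0 h1
  g1u := bound_G1u h0 h1
  g2l := bound_G2l h0 h1
  g2u := bound_G2u h0 h1
  f1l := fun h => bound_F1l h h1
  f1u := fun h => bound_F1u h h1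
  f2l := fun h => bound_F2l h h1
  f2u := fun h => bound_F2u h h1

end Pool.Agent.OptRes
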