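import Pool.Agent.OptRes.Defs

/-!
# A priori bounds of solutions
-/

open MeasureTheory Set Filter Topology

namespace Pool.Agent.OptRes

/-! ### Integration by parts for primitives -/

private theorem apr_parts {x y : ℝ} (hxy : x ≤ y) {W g f g' : ℝ → ℝ}
    (hf : IntervalIntegrable f volume x y) (hg' : IntervalIntegrable g' volume x y)
    (hW : ∀ t ∈ Icc x y, W t = W x + ∫ u in x..t, f u)
    (hg : ∀ t ∈ Icc x y, g t = g x + ∫ u in x..t, g' u) :
    ∫ t in x..y, (f t * g t + W t * g' t) = W y * g y - W x * g x := by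
  have hc : ∀ c : ℝ, AbsolutelyContinuousOnInterval (fun _ : ℝ => c) x y := fun c =>
    (LipschitzWith.const c).lipschitzOnWith.absolutelyContinuousOnInterval
  have hF : AbsolutelyContinuousOnInterval (fun t => W x + ∫ u in x..t, f u) x y :=
    (hc (W x)).add (hf.absolutelyContinuousOnInterval_intervalIntegral (by simp))
  have hG : AbsolutelyContinuousOnInterval (fun t => g x + ∫ u in x..t, g' u) x y :=
    (hc (g x)).add (hg'.absolutelyContinuousOnInterval_intervalIntegral (by simp))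
  have h1 := hF.integral_deriv_mul_eq_sub hG
  have h2 : ∫ t in x..y, (deriv (fun t => W x + ∫ u in x..t, f u) t * (g x + ∫ u in x..t, g' u)
      + (W x + ∫ u in x..t, f u) * deriv (fun t => g x + ∫ u in x..t, g' u) t)
      = ∫ t in x..y, (f t * g t + W t * g' t) := by
    apply intervalIntegral.integral_congr_ae
    filter_upwards [hf.ae_hasDerivAt_integral, hg'.ae_hasDerivAt_integral] with t h3 h4 ht
    have ht' : t ∈ uIcc x y := uIoc_subset_uIcc ht
    have ht2 : t ∈ Icc x y := by rwa [uIcc_of_le hxy] at ht'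
    have h5 : HasDerivAt (fun t => W x + ∫ u in x..t, f u) (f t) t := by
      simpa using (h3 ht' x (by simp)).const_add (W x)
    have h6 : HasDerivAt (fun t => g x + ∫ u in x..t, g' u) (g' t) t := by
      simpa using (h4 ht' x (by simp)).const_add (g x)
    rw [h5.deriv, h6.deriv, ← hW t ht2, ← hg t ht2]
  rw [h2] at h1
  rw [h1]
  simp only [intervalIntegral.integral_same, add_zero]
  rw [← hW y ⟨hxy, le_refl _⟩, ← hg y ⟨hxy, le_refl _⟩]

/-! ### Monotonicity from one-sided derivative bounds -/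

private theorem apr_antitone {a b : ℝ} {f f' : ℝ → ℝ} (hc : ContinuousOn f (Icc a b))
    (hd : ∀ x ∈ Ioo a b, HasDerivAt f (f' x) x) (hf' : ∀ x ∈ Ioo a b, f' x ≤ 0) :
    AntitoneOn f (Icc a b) := by
  refine antitoneOn_of_deriv_nonpos (convex_Icc a b) hc ?_ ?_
  · rw [interior_Icc]
    exact fun x hx => (hd x hx).differentiableAt.differentiableWithinAt
  · rw [interior_Icc]
    intro x hx
    rw [(hd x hx).deriv]
    exact hf' x hx

/-! ### Integrability and continuity -/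

section basic

variable {L : ℝ} {m θ w : ℝ → ℝ}

private theorem apr_cont (h : Sol L m θ w) : ContinuousOn θ (Icc 0 L) :=
  fun x hx => (h.der x hx).continuousWithinAt

private theorem apr_mint (h : Sol L m θ w) : IntervalIntegrable m volume 0 L := by
  rw [intervalIntegrable_iff_integrableOn_Ioo_of_le h.L_pos.le]
  have : Integrable m (volume.restrict (Ioo 0 L)) := by
    refine Integrable.of_bound h.meas 1 ?_
    filter_upwards [h.bound] with x hx
    rw [Real.norm_eq_abs, abs_le]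
    constructor <;> linarith [hx.1, hx.2]
  exact this

private theorem apr_fint (h : Sol L m θ w) :
    IntervalIntegrable (fun t => θ t * (θ t - m t)) volume 0 L := by
  have hc : ContinuousOn θ (uIcc 0 L) := by
    rw [uIcc_of_le h.L_pos.le]; exact apr_cont h
  exact (hc.intervalIntegrable.sub (apr_mint h)).continuousOn_mul hc

private theorem apr_sub {x y : ℝ} (hx : 0 ≤ x) (hxy : x ≤ y) (hy : y ≤ L) :
    uIcc x y ⊆ uIcc 0 L := by
  rw [uIcc_of_le hxy, uIcc_of_le (hx.trans (hxy.trans hy))]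
  exact Icc_subset_Icc hx hy

private theorem apr_fint' (h : Sol L m θ w) {x y : ℝ} (hx : 0 ≤ x) (hxy : x ≤ y) (hy : y ≤ L) :
    IntervalIntegrable (fun t => θ t * (θ t - m t)) volume x y :=
  (apr_fint h).mono_set (apr_sub hx hxy hy)

/-- increments of `w` -/
private theorem apr_incr (h : Sol L m θ w) {x y : ℝ} (hx : 0 ≤ x) (hxy : x ≤ y) (hy : y ≤ L) :
    w y = w x + ∫ t in x..y, θ t * (θ t - m t) := by
  rw [h.eqn y ⟨hx.trans hxy, hy⟩, h.eqn x ⟨hx, hxy.trans hy⟩, add_assoc]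
  congr 1
  exact (intervalIntegral.integral_add_adjacent_intervals
    (apr_fint' h le_rfl hx (hxy.trans hy)) (apr_fint' h hx hxy hy)).symm

private theorem apr_wcont (h : Sol L m θ w) : ContinuousOn w (Icc 0 L) := by
  have h1 : ContinuousOn (fun x => w 0 + ∫ t in (0 : ℝ)..x, θ t * (θ t - m t)) (uIcc 0 L) := by
    refine continuousOn_const.add ?_
    exact intervalIntegral.continuousOn_primitive_interval (by
      have := apr_fint h
      rw [intervalIntegrable_iff'] at this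
      exact this)
  rw [uIcc_of_le h.L_pos.le] at h1
  exact h1.congr (fun x hx => h.eqn x hx)

end basic

theorem Sol.cont {L : ℝ} {m θ w : ℝ → ℝ} (h : Sol L m θ w) :
    ContinuousOn θ (Icc 0 L) ∧ ContinuousOn w (Icc 0 L) := ⟨apr_cont h, apr_wcont h⟩

theorem Sol.reflect {L : ℝ} {m θ w : ℝ → ℝ} (h : Sol L m θ w) :
    Sol L (fun x => m (L - x)) (fun x => θ (L - x)) (fun x => - w (L - x)) := by
  have hmp : MeasurePreserving (fun x : ℝ => L - x) (volume.restrict (Ioo 0 L))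
      (volume.restrict (Ioo 0 L)) := by
    have h1 := (Measure.measurePreserving_sub_left (volume : Measure ℝ) L).restrict_preimage
      (measurableSet_Ioo : MeasurableSet (Ioo (0 : ℝ) L))
    rw [Set.preimage_const_sub_Ioo] at h1
    simpa using h1
  refine { L_pos := h.L_pos, meas := ?_, bound := ?_, der := ?_, eqn := ?_, pos := ?_, w0 := ?_, wL := ?_ }
  · exact h.meas.comp_quasiMeasurePreserving hmp.quasiMeasurePreserving
  · exact hmp.quasiMeasurePreserving.ae h.bound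
  · intro x hx
    have hx' : L - x ∈ Icc 0 L := ⟨by linarith [hx.2], by linarith [hx.1]⟩
    have h1 := (h.der (L - x) hx')
    have h2 : HasDerivWithinAt (fun x : ℝ => L - x) (-1) (Icc 0 L) x := by
      simpa using ((hasDerivAt_id x).const_sub L).hasDerivWithinAt
    have h3 := h1.scomp x h2 (fun t ht => ⟨by linarith [ht.2], by linarith [ht.1]⟩)
    rw [neg_one_smul] at h3
    exact h3
  · intro x hx
    have h1 : ∫ t in (0 : ℝ)..x, θ (L - t) * (θ (L - t) - m (L - t))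
        = ∫ t in (L - x)..(L - 0), θ t * (θ t - m t) :=
      intervalIntegral.integral_comp_sub_left (fun t => θ t * (θ t - m t)) L
    have h2 := apr_incr h (x := L - x) (y := L) (by linarith [hx.2]) (by linarith [hx.1]) le_rfl
    simp only [sub_zero] at h1 ⊢
    rw [h1]
    linarith
  · intro x hx
    exact h.pos _ ⟨by linarith [hx.2], by linarith [hx.1]⟩
  · simp only [sub_zero, h.wL, neg_zero]
  · simp only [sub_self, h.w0, neg_zero]

/-! ### Comparison of increments -/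

private theorem apr_ae {L : ℝ} {m θ w : ℝ → ℝ} (h : Sol L m θ w) {x y : ℝ} (hx : 0 ≤ x)
    (hy : y ≤ L) {P : ℝ → Prop}
    (H : ∀ t ∈ Ioo x y, 0 ≤ m t → m t ≤ 1 → P t) :
    ∀ᵐ t ∂(volume.restrict (Icc x y)), P t := by
  have h1 : ∀ᵐ t ∂(volume.restrict (Ioo x y)), 0 ≤ m t ∧ m t ≤ 1 := by
    refine ae_mono (Measure.restrict_mono ?_ le_rfl) h.bound
    exact Ioo_subset_Ioo hx hy
  have h2 : volume.restrict (Icc x y) = volume.restrict (Ioo x y) :=
    Measure.restrict_congr_set Ioo_ae_eq_Icc.symm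
  rw [h2]
  filter_upwards [h1, ae_restrict_mem measurableSet_Ioo] with t ht ht2
  exact H t ht2 ht.1 ht.2

private theorem apr_incr_le {L : ℝ} {m θ w : ℝ → ℝ} (h : Sol L m θ w) {x y : ℝ} (hx : 0 ≤ x)
    (hxy : x ≤ y) (hy : y ≤ L) {g : ℝ → ℝ} (hg : IntervalIntegrable g volume x y)
    (H : ∀ t ∈ Ioo x y, 0 ≤ m t → m t ≤ 1 → θ t * (θ t - m t) ≤ g t) :
    w y ≤ w x + ∫ t in x..y, g t := by
  rw [apr_incr h hx hxy hy]
  have := intervalIntegral.integral_mono_ae_restrict hxy (apr_fint' h hx hxy hy) hg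
    (apr_ae h hx hy H)
  linarith

private theorem apr_incr_ge {L : ℝ} {m θ w : ℝ → ℝ} (h : Sol L m θ w) {x y : ℝ} (hx : 0 ≤ x)
    (hxy : x ≤ y) (hy : y ≤ L) {g : ℝ → ℝ} (hg : IntervalIntegrable g volume x y)
    (H : ∀ t ∈ Ioo x y, 0 ≤ m t → m t ≤ 1 → g t ≤ θ t * (θ t - m t)) :
    w x + (∫ t in x..y, g t) ≤ w y := by
  rw [apr_incr h hx hxy hy]
  have := intervalIntegral.integral_mono_ae_restrict hxy hg (apr_fint' h hx hxy hy)
    (apr_ae h hx hy H)
  linarith

/-! ### The bounds -/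

private theorem apr_nonneg {L : ℝ} {m θ w : ℝ → ℝ} (h : Sol L m θ w) {x : ℝ}
    (hx : x ∈ Icc 0 L) : 0 ≤ θ x := by
  have h1 : x ∈ closure (Ioo 0 L) := by rwa [closure_Ioo h.L_pos.ne]
  refine ContinuousWithinAt.closure_le h1 continuousWithinAt_const
    ((apr_cont h x hx).mono Ioo_subset_Icc_self) (fun y hy => (h.pos y hy).le)

/-- no maximum above `1`, except maybe at the right end -/
private theorem apr_max {L : ℝ} {m θ w : ℝ → ℝ} (h : Sol L m θ w) {x0 : ℝ}
    (hx0 : x0 ∈ Icc 0 L) (hlt : x0 < L) (hmax : ∀ t ∈ Icc 0 L, θ t ≤ θ x0) : θ x0 ≤ 1 := by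
  by_contra hcon
  push Not at hcon
  have hw0 : w x0 = 0 := by
    rcases eq_or_lt_of_le hx0.1 with h1 | h1
    · rw [← h1]; exact h.w0
    · have hd : HasDerivAt θ (w x0) x0 := (h.der x0 hx0).hasDerivAt (Icc_mem_nhds h1 hlt)
      have hm : IsLocalMax θ x0 := by
        filter_upwards [Icc_mem_nhds h1 hlt] with t ht using hmax t ht
      exact hm.hasDerivAt_eq_zero hd
  -- a right neighbourhood where `θ > 1`
  have hc := apr_cont h x0 hx0
  have h2 : ∀ᶠ t in 𝓝[Icc 0 L] x0, 1 < θ t := hc.eventually (lt_mem_nhds hcon)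
  rw [eventually_nhdsWithin_iff, Metric.eventually_nhds_iff] at h2
  obtain ⟨ε, hε, h3⟩ := h2
  set y := min (x0 + ε / 2) L with hy
  have hy1 : x0 < y := lt_min (by linarith) hlt
  have hy2 : y ≤ L := min_le_right _ _
  have hy3 : y ≤ x0 + ε / 2 := min_le_left _ _
  have h4 : ∀ t ∈ Icc x0 y, 1 < θ t := by
    intro t ht
    refine h3 ?_ ⟨hx0.1.trans ht.1, ht.2.trans hy2⟩
    rw [Real.dist_eq, abs_of_nonneg (by linarith [ht.1])]
    linarith [ht.2]
  -- minimum of `θ (θ - 1)` on `[x0,y]`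
  obtain ⟨t0, ht0, hmin⟩ := isCompact_Icc.exists_isMinOn (nonempty_Icc.2 hy1.le)
    ((apr_cont h).mono (Icc_subset_Icc hx0.1 hy2))
  have h5 : ∀ t ∈ Ioc x0 y, 0 < w t := by
    intro t ht
    have h6 := apr_incr_ge h hx0.1 ht.1.le (ht.2.trans hy2) (g := fun _ => θ t0 - 1)
      intervalIntegrable_const (by
        intro s hs hs1 hs2
        have h7 : θ t0 ≤ θ s := hmin ⟨hs.1.le, hs.2.le.trans ht.2⟩
        have h8 := h4 t0 ht0
        nlinarith)
    rw [intervalIntegral.integral_const, hw0, smul_eq_mul, zero_add] at h6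
    have h8 := h4 t0 ht0
    have h9 : 0 < (t - x0) * (θ t0 - 1) := mul_pos (by linarith [ht.1]) (by linarith)
    linarith
  have h10 : StrictMonoOn θ (Icc x0 y) := by
    refine strictMonoOn_of_deriv_pos (convex_Icc _ _)
      ((apr_cont h).mono (Icc_subset_Icc hx0.1 hy2)) ?_
    rw [interior_Icc]
    intro t ht
    have h11 : HasDerivAt θ (w t) t := (h.der t ⟨hx0.1.trans ht.1.le, ht.2.le.trans hy2⟩).hasDerivAt
      (Icc_mem_nhds (hx0.1.trans_lt ht.1) (ht.2.trans_le hy2))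
    rw [h11.deriv]
    exact h5 t ⟨ht.1, ht.2.le⟩
  have h12 := h10 ⟨le_rfl, hy1.le⟩ ⟨hy1.le, le_rfl⟩ hy1
  have h13 := hmax y ⟨hx0.1.trans hy1.le, hy2⟩
  linarith

private theorem apr_le_one {L : ℝ} {m θ w : ℝ → ℝ} (h : Sol L m θ w) {x : ℝ}
    (hx : x ∈ Icc 0 L) : θ x ≤ 1 := by
  obtain ⟨x0, hx0, hmax⟩ := isCompact_Icc.exists_isMaxOn (nonempty_Icc.2 h.L_pos.le) (apr_cont h)
  have hmax' : ∀ t ∈ Icc 0 L, θ t ≤ θ x0 := fun t ht => hmax ht
  refine (hmax' x hx).trans ?_
  rcases lt_or_eq_of_le hx0.2 with h1 | h1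
  · exact apr_max h hx0 h1 hmax'
  · have h2 := apr_max h.reflect (x0 := 0) ⟨le_rfl, h.L_pos.le⟩ h.L_pos (by
      intro t ht
      simp only [sub_zero]
      rw [← h1]
      exact hmax' _ ⟨by rw [h1]; linarith [ht.2], by rw [h1]; linarith [ht.1]⟩)
    simpa [h1] using h2

private theorem apr_w_le {L : ℝ} {m θ w : ℝ → ℝ} (h : Sol L m θ w) {x : ℝ}
    (hx : x ∈ Icc 0 L) : w x ≤ θ x := by
  by_contra hcon
  push Not at hcon
  have hWc : ContinuousOn (fun t => w t - θ t) (Icc 0 x) :=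
    ((apr_wcont h).sub (apr_cont h)).mono (Icc_subset_Icc le_rfl hx.2)
  have hS : IsCompact {t ∈ Icc 0 x | w t - θ t ≤ 0} := by
    have := hWc.preimage_isClosed_of_isClosed isClosed_Icc (isClosed_Iic (a := (0 : ℝ)))
    exact isCompact_Icc.of_isClosed_subset this (fun t ht => ht.1)
  have hne : ({t ∈ Icc 0 x | w t - θ t ≤ 0}).Nonempty :=
    ⟨0, ⟨le_rfl, hx.1⟩, by
      have := apr_nonneg h (x := 0) ⟨le_rfl, h.L_pos.le⟩
      simp only [h.w0]; linarith⟩
  obtain ⟨z, ⟨hz1, hz2⟩, hz3⟩ := hS.exists_isGreatest hne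
  have hzx : z < x := by
    rcases lt_or_eq_of_le hz1.2 with h1 | h1
    · exact h1
    · rw [h1] at hz2; linarith
  have hpos : ∀ t ∈ Ioo z x, 0 ≤ w t - θ t := by
    intro t ht
    by_contra h1
    push Not at h1
    have := hz3 ⟨⟨hz1.1.trans ht.1.le, ht.2.le⟩, h1.le⟩
    linarith [ht.1]
  have hsub : Icc z x ⊆ Icc 0 L := Icc_subset_Icc hz1.1 hx.2
  have hθi : IntervalIntegrable θ volume z x := by
    refine ContinuousOn.intervalIntegrable ?_
    rw [uIcc_of_le hzx.le]; exact (apr_cont h).mono hsub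
  have hwi : IntervalIntegrable w volume z x := by
    refine ContinuousOn.intervalIntegrable ?_
    rw [uIcc_of_le hzx.le]; exact (apr_wcont h).mono hsub
  have h1 := apr_incr_le h hz1.1 hzx.le hx.2 hθi (by
    intro t ht h2 h3
    have h4 := apr_nonneg h (hsub ⟨ht.1.le, ht.2.le⟩)
    have h5 := apr_le_one h (hsub ⟨ht.1.le, ht.2.le⟩)
    nlinarith)
  have h2 : ∫ t in z..x, w t = θ x - θ z := by
    refine intervalIntegral.integral_eq_sub_of_hasDerivAt_of_le hzx.le
      ((apr_cont h).mono hsub) ?_ hwi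
    intro t ht
    exact (h.der t (hsub ⟨ht.1.le, ht.2.le⟩)).hasDerivAt
      (Icc_mem_nhds (hz1.1.trans_lt ht.1) (ht.2.trans_le hx.2))
  have h3 : ∫ t in z..x, θ t ≤ ∫ t in z..x, w t := by
    refine intervalIntegral.integral_mono_ae_restrict hzx.le hθi hwi ?_
    refine apr_ae h hz1.1 hx.2 ?_
    intro t ht _ _
    linarith [hpos t ht]
  linarith

theorem Sol.bounds {L : ℝ} {m θ w : ℝ → ℝ} (h : Sol L m θ w) {x : ℝ} (hx : x ∈ Icc 0 L) :
    0 < θ x ∧ θ x ≤ 1 ∧ |w x| ≤ θ x := by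
  have h1 := apr_w_le h hx
  have hx' : L - x ∈ Icc 0 L := ⟨by linarith [hx.2], by linarith [hx.1]⟩
  have h2 := apr_w_le h.reflect hx'
  simp only [sub_sub_cancel] at h2
  refine ⟨?_, apr_le_one h hx, abs_le.2 ⟨by linarith, h1⟩⟩
  -- positivity at the left end
  have key : ∀ {m θ w : ℝ → ℝ}, Sol L m θ w → 0 < θ 0 := by
    intro m θ w h
    have hL := h.L_pos
    have h3 : AntitoneOn (fun t => θ t * Real.exp (-t)) (Icc 0 (L / 2)) := by
      refine apr_antitone (f' := fun t => w t * Real.exp (-t) + θ t * (Real.exp (-t) * (-1))) ?_ ?_ ?_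
      · exact ((apr_cont h).mono (Icc_subset_Icc le_rfl (by linarith))).mul
          (Real.continuous_exp.comp continuous_neg).continuousOn
      · intro t ht
        have h4 : HasDerivAt θ (w t) t := (h.der t ⟨ht.1.le, by linarith [ht.2]⟩).hasDerivAt
          (Icc_mem_nhds ht.1 (by linarith [ht.2]))
        exact h4.mul ((hasDerivAt_neg t).exp)
      · intro t ht
        have h5 := apr_w_le h (x := t) ⟨ht.1.le, by linarith [ht.2]⟩
        have h6 := Real.exp_pos (-t)
        nlinarith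
    have h7 := h3 (a := 0) ⟨le_rfl, by linarith⟩ (b := L / 2) ⟨by linarith, le_rfl⟩ (by linarith)
    simp only [neg_zero, Real.exp_zero, mul_one] at h7
    have h8 : 0 < θ (L / 2) * Real.exp (-(L / 2)) :=
      mul_pos (h.pos _ ⟨by linarith, by linarith⟩) (Real.exp_pos _)
    linarith
  rcases eq_or_lt_of_le hx.1 with h3 | h3
  · rw [← h3]; exact key h
  · rcases eq_or_lt_of_le hx.2 with h4 | h4
    · have := key h.reflect
      simp only [sub_zero] at this
      rw [h4]; exact this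
    · exact h.pos x ⟨h3, h4⟩

/-- `|θ''| ≤ 1` -/
theorem Sol.lipschitz {L : ℝ} {m θ w : ℝ → ℝ} (h : Sol L m θ w) {x y : ℝ} (hx : 0 ≤ x)
    (hxy : x ≤ y) (hy : y ≤ L) : |w y - w x| ≤ y - x := by
  have h1 := apr_incr_le h hx hxy hy (g := fun _ => 1) intervalIntegrable_const (by
    intro t ht h2 h3
    have h4 := h.bounds (x := t) ⟨hx.trans ht.1.le, ht.2.le.trans hy⟩
    nlinarith [h4.1, h4.2.1])
  have h2 := apr_incr_ge h hx hxy hy (g := fun _ => -1) intervalIntegrable_const (by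
    intro t ht h2 h3
    have h4 := h.bounds (x := t) ⟨hx.trans ht.1.le, ht.2.le.trans hy⟩
    nlinarith [h4.1, h4.2.1])
  rw [intervalIntegral.integral_const, smul_eq_mul] at h1 h2
  rw [abs_le]
  constructor <;> linarith

/-- derivative of `θ` inside -/
private theorem apr_hd {L : ℝ} {m θ w : ℝ → ℝ} (h : Sol L m θ w) {t : ℝ} (ht : t ∈ Ioo 0 L) :
    HasDerivAt θ (w t) t :=
  (h.der t ⟨ht.1.le, ht.2.le⟩).hasDerivAt (Icc_mem_nhds ht.1 ht.2)

/-- integral of `(w/θ)' = θ - m - (w/θ)²` -/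
theorem Sol.riccati {L : ℝ} {m θ w : ℝ → ℝ} (h : Sol L m θ w) {x y : ℝ} (hx : 0 ≤ x)
    (hxy : x ≤ y) (hy : y ≤ L) :
    ∫ t in x..y, (θ t - m t - (w t / θ t) ^ 2) = w y / θ y - w x / θ x := by
  have hsub : Icc x y ⊆ Icc 0 L := Icc_subset_Icc hx hy
  have hθ : ContinuousOn θ (Icc x y) := (apr_cont h).mono hsub
  have hw : ContinuousOn w (Icc x y) := (apr_wcont h).mono hsub
  have hne : ∀ t ∈ Icc x y, θ t ≠ 0 := fun t ht => (h.bounds (hsub ht)).1.ne'
  have hg'c : ContinuousOn (fun t => - w t / θ t ^ 2) (Icc x y) :=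
    hw.neg.div (hθ.pow 2) (fun t ht => pow_ne_zero 2 (hne t ht))
  have hg' : IntervalIntegrable (fun t => - w t / θ t ^ 2) volume x y := by
    refine ContinuousOn.intervalIntegrable ?_
    rwa [uIcc_of_le hxy]
  have h1 := apr_parts hxy (W := w) (g := fun t => (θ t)⁻¹) (f := fun t => θ t * (θ t - m t))
    (g' := fun t => - w t / θ t ^ 2) (apr_fint' h hx hxy hy) hg'
    (fun t ht => apr_incr h hx ht.1 (ht.2.trans hy)) (by
      intro t ht
      have h2 : ∫ u in x..t, - w u / θ u ^ 2 = (θ t)⁻¹ - (θ x)⁻¹ := by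
        refine intervalIntegral.integral_eq_sub_of_hasDerivAt_of_le (f := fun u => (θ u)⁻¹)
          ht.1 ?_ ?_ ?_
        · exact (hθ.mono (Icc_subset_Icc le_rfl ht.2)).inv₀
            (fun u hu => hne u ⟨hu.1, hu.2.trans ht.2⟩)
        · intro u hu
          exact (apr_hd h ⟨hx.trans_lt hu.1, (hu.2.trans_le ht.2).trans_le hy⟩).inv
            (hne u ⟨hu.1.le, hu.2.le.trans ht.2⟩)
        · refine hg'.mono_set ?_
          rw [uIcc_of_le hxy, uIcc_of_le ht.1]
          exact Icc_subset_Icc le_rfl ht.2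
      rw [h2]; ring)
  rw [div_eq_mul_inv, div_eq_mul_inv, ← h1]
  refine intervalIntegral.integral_congr ?_
  intro t ht
  rw [uIcc_of_le hxy] at ht
  have := hne t ht
  simp only
  field_simp
  ring

private theorem apr_sq {L : ℝ} {m θ w : ℝ → ℝ} (h : Sol L m θ w) {x y : ℝ} (hx : 0 ≤ x)
    (hxy : x ≤ y) (hy : y ≤ L) :
    ∫ t in x..y, (θ t * (θ t - m t) * w t + w t * (θ t * (θ t - m t))) = w y * w y - w x * w x :=
  apr_parts hxy (apr_fint' h hx hxy hy) (apr_fint' h hx hxy hy)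
    (fun _ ht => apr_incr h hx ht.1 (ht.2.trans hy))
    (fun _ ht => apr_incr h hx ht.1 (ht.2.trans hy))

private theorem apr_sqint {L : ℝ} {m θ w : ℝ → ℝ} (h : Sol L m θ w) {x y : ℝ} (hx : 0 ≤ x)
    (hxy : x ≤ y) (hy : y ≤ L) :
    IntervalIntegrable (fun t => θ t * (θ t - m t) * w t + w t * (θ t * (θ t - m t))) volume x y := by
  have hw : ContinuousOn w (uIcc x y) := by
    rw [uIcc_of_le hxy]; exact (apr_wcont h).mono (Icc_subset_Icc hx hy)
  exact ((apr_fint' h hx hxy hy).mul_continuousOn hw).add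
    ((apr_fint' h hx hxy hy).continuousOn_mul hw)

/-- `w²/2 - θ³/3` is nonincreasing where `w ≥ 0` -/
theorem Sol.energyL {L : ℝ} {m θ w : ℝ → ℝ} (h : Sol L m θ w) {x y : ℝ} (hx : 0 ≤ x)
    (hxy : x ≤ y) (hy : y ≤ L) (hw : ∀ t ∈ Icc x y, 0 ≤ w t) :
    w y ^ 2 / 2 - θ y ^ 3 / 3 ≤ w x ^ 2 / 2 - θ x ^ 3 / 3 := by
  have hsub : Icc x y ⊆ Icc 0 L := Icc_subset_Icc hx hy
  have hθc : ContinuousOn θ (Icc x y) := (apr_cont h).mono hsub
  have hwc : ContinuousOn w (Icc x y) := (apr_wcont h).mono hsub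
  have hgc : ContinuousOn (fun t => 2 * (θ t ^ 2 * w t)) (Icc x y) :=
    ((hθc.pow 2).mul hwc).const_mul 2 |>.congr (fun t _ => rfl)
  have hg : IntervalIntegrable (fun t => 2 * (θ t ^ 2 * w t)) volume x y := by
    refine ContinuousOn.intervalIntegrable ?_
    rwa [uIcc_of_le hxy]
  have h1 : ∫ t in x..y, 2 * (θ t ^ 2 * w t) = 2 / 3 * θ y ^ 3 - 2 / 3 * θ x ^ 3 := by
    refine intervalIntegral.integral_eq_sub_of_hasDerivAt_of_le (f := fun t => 2 / 3 * θ t ^ 3)
      hxy ((hθc.pow 3).const_mul _) ?_ hg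
    intro t ht
    have h2 := ((apr_hd h ⟨hx.trans_lt ht.1, ht.2.trans_le hy⟩).pow 3).const_mul (2 / 3)
    refine h2.congr_deriv ?_
    push_cast
    ring
  have h3 := intervalIntegral.integral_mono_ae_restrict hxy (apr_sqint h hx hxy hy) hg
    (apr_ae h hx hy (by
      intro t ht h4 h5
      have h6 := hw t ⟨ht.1.le, ht.2.le⟩
      have h7 := (h.bounds (hsub ⟨ht.1.le, ht.2.le⟩)).1
      have h8 : 0 ≤ m t * (θ t * w t) := mul_nonneg h4 (mul_nonneg h7.le h6)
      nlinarith))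
  rw [apr_sq h hx hxy hy, h1] at h3
  nlinarith

/-- `w²/2 + K(θ)` is nondecreasing where `w ≥ 0` -/
theorem Sol.energyR {L : ℝ} {m θ w : ℝ → ℝ} (h : Sol L m θ w) {x y : ℝ} (hx : 0 ≤ x)
    (hxy : x ≤ y) (hy : y ≤ L) (hw : ∀ t ∈ Icc x y, 0 ≤ w t) :
    w x ^ 2 / 2 + K (θ x) ≤ w y ^ 2 / 2 + K (θ y) := by
  have hsub : Icc x y ⊆ Icc 0 L := Icc_subset_Icc hx hy
  have hθc : ContinuousOn θ (Icc x y) := (apr_cont h).mono hsub
  have hwc : ContinuousOn w (Icc x y) := (apr_wcont h).mono hsub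
  have hgc : ContinuousOn (fun t => 2 * (θ t * (θ t - 1) * w t)) (Icc x y) :=
    ((hθc.mul (hθc.sub continuousOn_const)).mul hwc).const_mul 2 |>.congr (fun t _ => rfl)
  have hg : IntervalIntegrable (fun t => 2 * (θ t * (θ t - 1) * w t)) volume x y := by
    refine ContinuousOn.intervalIntegrable ?_
    rwa [uIcc_of_le hxy]
  have h1 : ∫ t in x..y, 2 * (θ t * (θ t - 1) * w t)
      = (2 / 3 * θ y ^ 3 - θ y ^ 2) - (2 / 3 * θ x ^ 3 - θ x ^ 2) := by
    refine intervalIntegral.integral_eq_sub_of_hasDerivAt_of_le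
      (f := fun t => 2 / 3 * θ t ^ 3 - θ t ^ 2)
      hxy (((hθc.pow 3).const_mul _).sub (hθc.pow 2)) ?_ hg
    intro t ht
    have h0 := apr_hd h ⟨hx.trans_lt ht.1, ht.2.trans_le hy⟩
    have h2 := ((h0.pow 3).const_mul (2 / 3)).sub (h0.pow 2)
    refine h2.congr_deriv ?_
    push_cast
    ring
  have h3 := intervalIntegral.integral_mono_ae_restrict hxy hg (apr_sqint h hx hxy hy)
    (apr_ae h hx hy (by
      intro t ht h4 h5
      have h6 := hw t ⟨ht.1.le, ht.2.le⟩
      have h7 := (h.bounds (hsub ⟨ht.1.le, ht.2.le⟩)).1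
      have h8 : 0 ≤ (1 - m t) * (θ t * w t) :=
        mul_nonneg (by linarith) (mul_nonneg h7.le h6)
      nlinarith))
  rw [apr_sq h hx hxy hy, h1] at h3
  simp only [K]
  nlinarith

end Pool.Agent.OptRes
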