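import Pool.Agent.OptRes.Defs

/-!
# MP_1c79f0_an, module Kin: the explicit inverse of `K`
-/

open MeasureTheory Set Filter Topology

namespace Pool.Agent.OptRes

private theorem K_sin (φ : ℝ) : 12 * K (1 / 2 + Real.sin φ) - 1 = Real.sin (3 * φ) := by
  rw [Real.sin_three_mul]
  unfold K
  ring

private theorem arcsin_third_mem (y : ℝ) :
    Real.arcsin y / 3 ∈ Icc (-(Real.pi / 6)) (Real.pi / 6) := by
  have h1 := Real.neg_pi_div_two_le_arcsin y
  have h2 := Real.arcsin_le_pi_div_two y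
  constructor <;> linarith

private theorem pi6 : Real.sin (Real.pi / 6) = 1 / 2 := Real.sin_pi_div_six

theorem Kinv_mem (x : ℝ) : Kinv x ∈ Icc (0 : ℝ) 1 := by
  unfold Kinv
  obtain ⟨h1, h2⟩ := arcsin_third_mem (12 * x - 1)
  have hpi := Real.pi_pos
  have h3 : Real.sin (-(Real.pi / 6)) ≤ Real.sin (Real.arcsin (12 * x - 1) / 3) :=
    Real.sin_le_sin_of_le_of_le_pi_div_two (by linarith) (by linarith) h1
  have h4 : Real.sin (Real.arcsin (12 * x - 1) / 3) ≤ Real.sin (Real.pi / 6) :=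
    Real.sin_le_sin_of_le_of_le_pi_div_two (by linarith) (by linarith) h2
  rw [Real.sin_neg, pi6] at h3
  rw [pi6] at h4
  constructor <;> linarith

theorem K_Kinv {x : ℝ} (h0 : 0 ≤ x) (h1 : x ≤ 1 / 6) : K (Kinv x) = x := by
  have h2 := K_sin (Real.arcsin (12 * x - 1) / 3)
  rw [mul_div_cancel₀ _ (by norm_num : (3 : ℝ) ≠ 0), Real.sin_arcsin (by linarith) (by linarith)] at h2
  unfold Kinv
  linarith

theorem K_strictMonoOn : StrictMonoOn K (Icc (0 : ℝ) 1) := by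
  intro x hx y hy hxy
  obtain ⟨hx0, hx1⟩ := hx
  obtain ⟨hy0, hy1⟩ := hy
  unfold K
  have h1 : y ^ 2 / 2 - y ^ 3 / 3 - (x ^ 2 / 2 - x ^ 3 / 3) =
      (y - x) * ((x + y) / 2 - (x ^ 2 + x * y + y ^ 2) / 3) := by ring
  have h2 : 0 < (x + y) / 2 - (x ^ 2 + x * y + y ^ 2) / 3 := by
    nlinarith [mul_nonneg hx0 (sub_nonneg.2 hx1), mul_nonneg hy0 (sub_nonneg.2 hy1),
      mul_nonneg hx0 (sub_nonneg.2 hy1), mul_nonneg hy0 (sub_nonneg.2 hx1)]
  have h3 : 0 < (y - x) * ((x + y) / 2 - (x ^ 2 + x * y + y ^ 2) / 3) :=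
    mul_pos (by linarith) h2
  linarith

private theorem K_mem {u : ℝ} (h0 : 0 ≤ u) (h1 : u ≤ 1) : 0 ≤ K u ∧ K u ≤ 1 / 6 := by
  unfold K
  constructor
  · have : u ^ 2 / 2 - u ^ 3 / 3 = u ^ 2 * (1 / 2 - u / 3) := by ring
    rw [this]
    exact mul_nonneg (sq_nonneg u) (by linarith)
  · have : 1 / 6 - (u ^ 2 / 2 - u ^ 3 / 3) = (1 - u) ^ 2 * (1 + 2 * u) / 6 := by ring
    have h2 : 0 ≤ (1 - u) ^ 2 * (1 + 2 * u) / 6 := by positivity
    linarith

theorem Kinv_K {u : ℝ} (h0 : 0 ≤ u) (h1 : u ≤ 1) : Kinv (K u) = u := by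
  obtain ⟨h2, h3⟩ := K_mem h0 h1
  exact K_strictMonoOn.injOn (Kinv_mem _) ⟨h0, h1⟩ (K_Kinv h2 h3)

theorem continuous_Kinv : Continuous Kinv := by
  unfold Kinv
  exact continuous_const.add (Real.continuous_sin.comp
    ((Real.continuous_arcsin.comp (by fun_prop)).div_const 3))

theorem Kinv_mono : Monotone Kinv := by
  intro x y hxy
  unfold Kinv
  obtain ⟨h1, h2⟩ := arcsin_third_mem (12 * x - 1)
  obtain ⟨h3, h4⟩ := arcsin_third_mem (12 * y - 1)
  have hpi := Real.pi_pos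
  have h5 : Real.arcsin (12 * x - 1) ≤ Real.arcsin (12 * y - 1) :=
    Real.monotone_arcsin (by linarith)
  have h6 := Real.sin_le_sin_of_le_of_le_pi_div_two (x := Real.arcsin (12 * x - 1) / 3)
    (y := Real.arcsin (12 * y - 1) / 3) (by linarith) (by linarith) (by linarith)
  linarith

theorem Kinv_pos {x : ℝ} (h : 0 < x) : 0 < Kinv x := by
  have h1 : 0 < min x (1 / 6) := lt_min h (by norm_num)
  have h2 : K (Kinv (min x (1 / 6))) = min x (1 / 6) := K_Kinv h1.le (min_le_right _ _)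
  have h3 : Kinv (min x (1 / 6)) ≠ 0 := by
    intro h0
    rw [h0] at h2
    unfold K at h2
    norm_num at h2
    linarith
  exact (lt_of_le_of_ne (Kinv_mem _).1 h3.symm).trans_le (Kinv_mono (min_le_left _ _))

theorem Kinv_lt_one {x : ℝ} (h : x < 1 / 6) : Kinv x < 1 := by
  have h1 : max x 0 < 1 / 6 := max_lt h (by norm_num)
  have h2 : K (Kinv (max x 0)) = max x 0 := K_Kinv (le_max_right _ _) h1.le
  have h3 : Kinv (max x 0) ≠ 1 := by
    intro h0
    rw [h0] at h2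
    unfold K at h2
    norm_num at h2
    linarith
  exact (Kinv_mono (le_max_left _ _)).trans_lt (lt_of_le_of_ne (Kinv_mem _).2 h3)

private theorem hasDerivAt_K (u : ℝ) : HasDerivAt K (u * (1 - u)) u := by
  have := ((hasDerivAt_pow 2 u).div_const 2).sub ((hasDerivAt_pow 3 u).div_const 3)
  refine this.congr_deriv ?_
  simp
  ring

theorem hasDerivAt_Kinv {x : ℝ} (h0 : 0 < x) (h1 : x < 1 / 6) :
    HasDerivAt Kinv (1 / (Kinv x * (1 - Kinv x))) x := by
  have h2 := Kinv_pos h0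
  have h3 := Kinv_lt_one h1
  have h4 : Kinv x * (1 - Kinv x) ≠ 0 := mul_ne_zero h2.ne' (by linarith)
  rw [one_div]
  refine HasDerivAt.of_local_left_inverse continuous_Kinv.continuousAt (hasDerivAt_K _) h4 ?_
  filter_upwards [Ioo_mem_nhds h0 h1] with y hy
  exact K_Kinv hy.1.le hy.2.le

end Pool.Agent.OptRes
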