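import Pool.Agent.OptRes.Defs2
import Pool.Agent.OptRes.Kin

/-!
# MP_1c79f0_an, module Kap: integrals over the right part of the half cell
-/

open MeasureTheory Set Filter Topology

namespace Pool.Agent.OptRes

private theorem pow3_lt {ρ : ℝ} (h0 : 0 < ρ) (h1 : ρ < 1) : ρ ^ 3 < 1 :=
  pow_lt_one₀ h0.le h1 (by norm_num)

theorem Dom.KD {ρ s : ℝ} (h : Dom ρ s) : KD s (ee ρ s) := by
  have h3 := pow3_lt h.ρ0 h.ρ1
  have hs := h.s0
  have hD := h.D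
  refine ⟨h.s0, h.s1, ?_, ?_⟩
  · unfold ee
    have : 0 ≤ 1 - ρ ^ 3 := by linarith
    positivity
  · unfold ee K
    unfold DD at hD
    nlinarith

private theorem K_pos {s : ℝ} (h0 : 0 < s) (h1 : s < 1) : 0 < K s := by
  unfold K
  have : s ^ 2 / 2 - s ^ 3 / 3 = s ^ 2 * (1 / 2 - s / 3) := by ring
  rw [this]
  have : 0 < 1 / 2 - s / 3 := by linarith
  positivity

private theorem KD.arg {s e τ : ℝ} (h : KD s e) (h0 : 0 ≤ τ) (h1 : τ ≤ 1) :
    K s ≤ K s + (1 - τ ^ 2) * e ∧ K s + (1 - τ ^ 2) * e ≤ K s + e := by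
  have h2 : 0 ≤ 1 - τ ^ 2 := by nlinarith
  have h3 : 0 ≤ (1 - τ ^ 2) * e := mul_nonneg h2 h.e0
  have h4 : 0 ≤ τ ^ 2 * e := mul_nonneg (sq_nonneg _) h.e0
  constructor
  · linarith
  · nlinarith

theorem Uf_mem {s e τ : ℝ} (h : KD s e) (h0 : 0 ≤ τ) (h1 : τ ≤ 1) :
    s ≤ Uf s e τ ∧ Uf s e τ ≤ Kinv (K s + e) ∧ Kinv (K s + e) < 1 := by
  obtain ⟨h2, h3⟩ := h.arg h0 h1
  refine ⟨?_, Kinv_mono h3, Kinv_lt_one h.K1⟩
  calc s = Kinv (K s) := (Kinv_K h.s0.le h.s1.le).symm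
    _ ≤ Uf s e τ := Kinv_mono h2

theorem K_Uf {s e τ : ℝ} (h : KD s e) (h0 : 0 ≤ τ) (h1 : τ ≤ 1) :
    K (Uf s e τ) = K s + (1 - τ ^ 2) * e := by
  obtain ⟨h2, h3⟩ := h.arg h0 h1
  exact K_Kinv ((K_pos h.s0 h.s1).le.trans h2) (h3.trans h.K1.le)

theorem continuous_Uf (s e : ℝ) : Continuous (Uf s e) := by
  unfold Uf
  exact continuous_Kinv.comp (by fun_prop)

private theorem Uf_one {s e : ℝ} (h : KD s e) : Uf s e 1 = s := by
  unfold Uf
  rw [one_pow, sub_self, zero_mul, add_zero, Kinv_K h.s0.le h.s1.le]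

private theorem Uf_pos {s e τ : ℝ} (h : KD s e) (h0 : 0 ≤ τ) (h1 : τ ≤ 1) :
    0 < Uf s e τ ∧ 0 < 1 - Uf s e τ := by
  obtain ⟨h2, h3, h4⟩ := Uf_mem h h0 h1
  exact ⟨h.s0.trans_le h2, by linarith⟩

private theorem hasDerivAt_Uf {s e τ : ℝ} (h : KD s e) (h0 : 0 ≤ τ) (h1 : τ ≤ 1) :
    HasDerivAt (Uf s e) (-(2 * e * τ) / (Uf s e τ * (1 - Uf s e τ))) τ := by
  obtain ⟨h2, h3⟩ := h.arg h0 h1
  have h4 := hasDerivAt_Kinv (x := K s + (1 - τ ^ 2) * e) ((K_pos h.s0 h.s1).trans_le h2)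
    (h3.trans_lt h.K1)
  have h5 : HasDerivAt (fun τ : ℝ => K s + (1 - τ ^ 2) * e) (-(2 * e * τ)) τ := by
    have := (((hasDerivAt_id τ).pow 2).const_sub 1).mul_const e |>.const_add (K s)
    refine this.congr_deriv ?_
    simp
    ring
  have h6 := h4.comp τ h5
  refine h6.congr_deriv ?_
  show 1 / (Uf s e τ * (1 - Uf s e τ)) * -(2 * e * τ) = _
  ring

private theorem contOn_aux {s e : ℝ} (h : KD s e) (m n : ℕ) :
    ContinuousOn (fun τ => 1 / (Uf s e τ ^ m * (1 - Uf s e τ) ^ n)) (uIcc (0 : ℝ) 1) := by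
  have hU := continuous_Uf s e
  refine ContinuousOn.div continuousOn_const (Continuous.continuousOn (by fun_prop)) ?_
  intro τ hτ
  rw [uIcc_of_le zero_le_one] at hτ
  obtain ⟨h1, h2⟩ := Uf_pos h hτ.1 hτ.2
  positivity

private theorem int_aux {s e : ℝ} (h : KD s e) (m n : ℕ) :
    IntervalIntegrable (fun τ => 1 / (Uf s e τ ^ m * (1 - Uf s e τ) ^ n)) volume (0 : ℝ) 1 :=
  (contOn_aux h m n).intervalIntegrable

private theorem int_aux2 {s e : ℝ} (h : KD s e) (m n : ℕ) :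
    IntervalIntegrable (fun τ => τ ^ 2 / (Uf s e τ ^ m * (1 - Uf s e τ) ^ n)) volume (0 : ℝ) 1 := by
  have h1 : (fun τ => τ ^ 2 / (Uf s e τ ^ m * (1 - Uf s e τ) ^ n)) =
      fun τ => τ ^ 2 * (1 / (Uf s e τ ^ m * (1 - Uf s e τ) ^ n)) := by
    funext τ
    rw [mul_one_div]
  rw [h1]
  exact ((Continuous.continuousOn (by fun_prop)).mul (contOn_aux h m n)).intervalIntegrable

theorem J3t_eq {s e : ℝ} (h : KD s e) : 2 * e *
    (∫ τ in (0 : ℝ)..1, τ ^ 2 / (Uf s e τ ^ 3 * (1 - Uf s e τ))) = 1 / s - kap1 s e := by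
  have hd : ∀ τ ∈ uIcc (0 : ℝ) 1, HasDerivAt (fun τ => τ * (1 / Uf s e τ))
      (1 / Uf s e τ + 2 * e * (τ ^ 2 / (Uf s e τ ^ 3 * (1 - Uf s e τ)))) τ := by
    intro τ hτ
    rw [uIcc_of_le zero_le_one] at hτ
    obtain ⟨h1, h2⟩ := Uf_pos h hτ.1 hτ.2
    have h3 := (hasDerivAt_Uf h hτ.1 hτ.2)
    have h4 := (hasDerivAt_id τ).mul (h3.inv h1.ne')
    have h5 : (fun τ => τ * (1 / Uf s e τ)) = (id * (Uf s e)⁻¹ : ℝ → ℝ) := by
      funext τ
      simp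
    rw [h5]
    refine h4.congr_deriv ?_
    simp only [id_eq, Pi.inv_apply]
    field_simp
  have i1 : IntervalIntegrable (fun τ => 1 / Uf s e τ) volume (0 : ℝ) 1 := by
    simpa using int_aux h 1 0
  have i2 : IntervalIntegrable (fun τ => τ ^ 2 / (Uf s e τ ^ 3 * (1 - Uf s e τ))) volume
      (0 : ℝ) 1 := by
    simpa using int_aux2 h 3 1
  have h6 := intervalIntegral.integral_eq_sub_of_hasDerivAt hd (i1.add (i2.const_mul (2 * e)))
  rw [intervalIntegral.integral_add i1 (i2.const_mul (2 * e)),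
    intervalIntegral.integral_const_mul, Uf_one h] at h6
  unfold kap1
  linarith

theorem Q3t_eq {s e : ℝ} (h : KD s e) : 2 * e *
    (∫ τ in (0 : ℝ)..1, τ ^ 2 / (Uf s e τ * (1 - Uf s e τ) ^ 3)) = kapw s e - 1 / (1 - s) := by
  have hd : ∀ τ ∈ uIcc (0 : ℝ) 1, HasDerivAt (fun τ => τ * (1 / (1 - Uf s e τ)))
      (1 / (1 - Uf s e τ) - 2 * e * (τ ^ 2 / (Uf s e τ * (1 - Uf s e τ) ^ 3))) τ := by
    intro τ hτ
    rw [uIcc_of_le zero_le_one] at hτ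
    obtain ⟨h1, h2⟩ := Uf_pos h hτ.1 hτ.2
    have h3 := (hasDerivAt_Uf h hτ.1 hτ.2).const_sub 1
    have h4 := (hasDerivAt_id τ).mul (h3.inv h2.ne')
    have h5 : (fun τ => τ * (1 / (1 - Uf s e τ))) = (id * (fun τ => 1 - Uf s e τ)⁻¹ : ℝ → ℝ) := by
      funext τ
      simp
    rw [h5]
    refine h4.congr_deriv ?_
    simp only [id_eq, Pi.inv_apply]
    field_simp
    ring
  have i1 : IntervalIntegrable (fun τ => 1 / (1 - Uf s e τ)) volume (0 : ℝ) 1 := by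
    simpa using int_aux h 0 1
  have i2 : IntervalIntegrable (fun τ => τ ^ 2 / (Uf s e τ * (1 - Uf s e τ) ^ 3)) volume
      (0 : ℝ) 1 := by
    simpa using int_aux2 h 1 3
  have h6 := intervalIntegral.integral_eq_sub_of_hasDerivAt hd (i1.sub (i2.const_mul (2 * e)))
  rw [intervalIntegral.integral_sub i1 (i2.const_mul (2 * e)),
    intervalIntegral.integral_const_mul, Uf_one h] at h6
  unfold kapw
  linarith

/-- `∫ 1/(u³(1-u))` -/
theorem J3_eq {s e : ℝ} (h : KD s e) : (3 * s ^ 2 - 2 * s ^ 3 + 6 * e) *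
    (∫ τ in (0 : ℝ)..1, 1 / (Uf s e τ ^ 3 * (1 - Uf s e τ))) = 3 / s + kapw s e := by
  have i1 : IntervalIntegrable (fun τ => 1 / Uf s e τ) volume (0 : ℝ) 1 := by
    simpa using int_aux h 1 0
  have iw : IntervalIntegrable (fun τ => 1 / (1 - Uf s e τ)) volume (0 : ℝ) 1 := by
    simpa using int_aux h 0 1
  have i2 : IntervalIntegrable (fun τ => τ ^ 2 / (Uf s e τ ^ 3 * (1 - Uf s e τ))) volume
      (0 : ℝ) 1 := by
    simpa using int_aux2 h 3 1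
  have h1 : (3 * s ^ 2 - 2 * s ^ 3 + 6 * e) *
      (∫ τ in (0 : ℝ)..1, 1 / (Uf s e τ ^ 3 * (1 - Uf s e τ))) =
      ∫ τ in (0 : ℝ)..1, (3 * (1 / Uf s e τ) + 1 / (1 - Uf s e τ) +
        3 * (2 * e) * (τ ^ 2 / (Uf s e τ ^ 3 * (1 - Uf s e τ)))) := by
    rw [← intervalIntegral.integral_const_mul]
    refine intervalIntegral.integral_congr fun τ hτ => ?_
    rw [uIcc_of_le zero_le_one] at hτ
    obtain ⟨h1, h2⟩ := Uf_pos h hτ.1 hτ.2
    have h3 := K_Uf h hτ.1 hτ.2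
    unfold K at h3
    have h4 : 3 * s ^ 2 - 2 * s ^ 3 + 6 * e =
        3 * Uf s e τ ^ 2 - 2 * Uf s e τ ^ 3 + 6 * e * τ ^ 2 := by
      linear_combination (-6) * h3
    show (3 * s ^ 2 - 2 * s ^ 3 + 6 * e) * (1 / (Uf s e τ ^ 3 * (1 - Uf s e τ))) = _
    rw [h4]
    field_simp
    ring
  rw [h1, intervalIntegral.integral_add ((i1.const_mul 3).add iw) (i2.const_mul (3 * (2 * e))),
    intervalIntegral.integral_add (i1.const_mul 3) iw, intervalIntegral.integral_const_mul,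
    intervalIntegral.integral_const_mul, mul_assoc 3 (2 * e), J3t_eq h]
  unfold kap1 kapw
  ring

theorem Q3_eq {s e : ℝ} (h : KD s e) : (1 - (3 * s ^ 2 - 2 * s ^ 3 + 6 * e)) *
    (∫ τ in (0 : ℝ)..1, 1 / (Uf s e τ * (1 - Uf s e τ) ^ 3)) = 3 / (1 - s) + kap1 s e := by
  have i1 : IntervalIntegrable (fun τ => 1 / Uf s e τ) volume (0 : ℝ) 1 := by
    simpa using int_aux h 1 0
  have iw : IntervalIntegrable (fun τ => 1 / (1 - Uf s e τ)) volume (0 : ℝ) 1 := by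
    simpa using int_aux h 0 1
  have i2 : IntervalIntegrable (fun τ => τ ^ 2 / (Uf s e τ * (1 - Uf s e τ) ^ 3)) volume
      (0 : ℝ) 1 := by
    simpa using int_aux2 h 1 3
  have h1 : (1 - (3 * s ^ 2 - 2 * s ^ 3 + 6 * e)) *
      (∫ τ in (0 : ℝ)..1, 1 / (Uf s e τ * (1 - Uf s e τ) ^ 3)) =
      ∫ τ in (0 : ℝ)..1, (1 / Uf s e τ + 3 * (1 / (1 - Uf s e τ)) -
        3 * (2 * e) * (τ ^ 2 / (Uf s e τ * (1 - Uf s e τ) ^ 3))) := by
    rw [← intervalIntegral.integral_const_mul]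
    refine intervalIntegral.integral_congr fun τ hτ => ?_
    rw [uIcc_of_le zero_le_one] at hτ
    obtain ⟨h1, h2⟩ := Uf_pos h hτ.1 hτ.2
    have h3 := K_Uf h hτ.1 hτ.2
    unfold K at h3
    have h4 : 3 * s ^ 2 - 2 * s ^ 3 + 6 * e =
        3 * Uf s e τ ^ 2 - 2 * Uf s e τ ^ 3 + 6 * e * τ ^ 2 := by
      linear_combination (-6) * h3
    show (1 - (3 * s ^ 2 - 2 * s ^ 3 + 6 * e)) * (1 / (Uf s e τ * (1 - Uf s e τ) ^ 3)) = _
    rw [h4]
    field_simp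
    ring
  rw [h1, intervalIntegral.integral_sub (i1.add (iw.const_mul 3)) (i2.const_mul (3 * (2 * e))),
    intervalIntegral.integral_add i1 (iw.const_mul 3), intervalIntegral.integral_const_mul,
    intervalIntegral.integral_const_mul, mul_assoc 3 (2 * e), Q3t_eq h]
  unfold kap1 kapw
  ring

end Pool.Agent.OptRes
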