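import Pool.Agent.OptRes.Defs
import Pool.Agent.OptRes.Defs2
import Pool.Agent.OptRes.Kap

/-!
# MP_1c79f0_an, module Arc: the explicit arcs of a half cell
-/

open MeasureTheory Set Filter Topology

namespace Pool.Agent.OptRes

/-- the flow of `v' = H(v)` from `0` to `V` -/
private theorem arc_flow {V : ℝ} (hV : 0 < V) {H : ℝ → ℝ} (hH : ContinuousOn H (Icc 0 V))
    (hpos : ∀ x ∈ Icc 0 V, 0 < H x) :
    ∃ v : ℝ → ℝ, v 0 = 0 ∧ v (∫ ν in (0 : ℝ)..V, 1 / H ν) = V ∧
      0 < ∫ ν in (0 : ℝ)..V, 1 / H ν ∧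
      ∀ x ∈ Icc (0 : ℝ) (∫ ν in (0 : ℝ)..V, 1 / H ν),
        v x ∈ Icc 0 V ∧ HasDerivAt v (H (v x)) x := by
  -- clamp
  set J : ℝ → ℝ := fun ν => 1 / H (projIcc 0 V hV.le ν) with hJ
  have hJc : Continuous J := by
    have h1 : Continuous (fun ν => H (projIcc 0 V hV.le ν)) := by
      have := hH.domRestrict
      exact this.comp continuous_projIcc
    exact continuous_const.div h1 (fun ν => (hpos _ (projIcc 0 V hV.le ν).2).ne')
  have hJp : ∀ ν, 0 < J ν := fun ν => one_div_pos.2 (hpos _ (projIcc 0 V hV.le ν).2)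
  have hJe : ∀ ν ∈ Icc 0 V, J ν = 1 / H ν := by
    intro ν hν
    simp only [hJ]
    rw [projIcc_of_mem hV.le hν]
  -- lower bound of J
  obtain ⟨c, hc0, hc⟩ : ∃ c : ℝ, 0 < c ∧ ∀ ν, c ≤ J ν := by
    obtain ⟨z, hz, hmin⟩ := isCompact_Icc.exists_isMinOn (nonempty_Icc.2 hV.le)
      (hJc.continuousOn (s := Icc 0 V))
    refine ⟨J z, hJp z, fun ν => ?_⟩
    have h1 := hmin (projIcc 0 V hV.le ν).2
    have h2 : J (projIcc 0 V hV.le ν) = J ν := by
      simp only [hJ]
      rw [projIcc_of_mem hV.le (projIcc 0 V hV.le ν).2]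
    rw [← h2]
    exact h1
  set X : ℝ → ℝ := fun y => ∫ ν in (0 : ℝ)..y, J ν with hX
  have hXd : ∀ y, HasDerivAt X (J y) y := fun y =>
    intervalIntegral.integral_hasDerivAt_right (hJc.intervalIntegrable _ _)
      (hJc.stronglyMeasurableAtFilter _ _) hJc.continuousAt
  have hXc : Continuous X := continuous_iff_continuousAt.2 fun y => (hXd y).continuousAt
  have hXm : StrictMono X := strictMono_of_hasDerivAt_pos hXd hJp
  have hX0 : X 0 = 0 := by simp [hX]
  have hgrow : ∀ x y, x ≤ y → c * (y - x) ≤ X y - X x := by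
    intro x y hxy
    have h1 : X y - X x = ∫ ν in x..y, J ν := by
      simp only [hX]
      rw [intervalIntegral.integral_interval_sub_left (hJc.intervalIntegrable _ _)
        (hJc.intervalIntegrable _ _)]
    rw [h1]
    have h2 : ∫ ν in x..y, c ≤ ∫ ν in x..y, J ν :=
      intervalIntegral.integral_mono_on hxy (by simp) (hJc.intervalIntegrable _ _)
        (fun ν _ => hc ν)
    simpa [mul_comm] using h2
  have hXs : Function.Surjective X := by
    intro y
    have h1 := hgrow 0 (|y| / c) (by positivity)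
    have h2 := hgrow (-(|y| / c)) 0 (by simp; positivity)
    rw [hX0] at h1 h2
    have e1 : c * (|y| / c - 0) = |y| := by field_simp; ring
    have e2 : c * (0 - -(|y| / c)) = |y| := by field_simp; ring
    rw [e1] at h1
    rw [e2] at h2
    have h3 : X (-(|y| / c)) ≤ y := by linarith [neg_abs_le y]
    have h4 : y ≤ X (|y| / c) := by linarith [le_abs_self y]
    have hle : -(|y| / c) ≤ |y| / c := by
      have : 0 ≤ |y| / c := by positivity
      linarith
    obtain ⟨z, -, hz⟩ := intermediate_value_Icc hle hXc.continuousOn ⟨h3, h4⟩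
    exact ⟨z, hz⟩
  set E := hXm.orderIsoOfSurjective X hXs with hE
  set v : ℝ → ℝ := fun x => E.symm x with hv
  have hXv : ∀ x, X (v x) = x := fun x => E.apply_symm_apply x
  have hvX : ∀ y, v (X y) = y := fun y => E.symm_apply_apply y
  have hvc : Continuous v := E.symm.continuous
  have hvm : Monotone v := E.symm.monotone
  have hXV : X V = ∫ ν in (0 : ℝ)..V, 1 / H ν := by
    simp only [hX]
    apply intervalIntegral.integral_congr
    intro ν hν
    rw [uIcc_of_le hV.le] at hν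
    exact hJe ν hν
  rw [← hXV]
  have hv0 : v 0 = 0 := by
    have := hvX 0
    rwa [hX0] at this
  refine ⟨v, hv0, hvX V, ?_, ?_⟩
  · have := hXm hV
    rwa [hX0] at this
  · intro x hx
    have hmem : v x ∈ Icc 0 V := by
      constructor
      · have := hvm hx.1
        rwa [hv0] at this
      · have := hvm hx.2
        rwa [hvX V] at this
    refine ⟨hmem, ?_⟩
    have h1 := HasDerivAt.of_local_left_inverse (hvc.continuousAt (x := x)) (hXd (v x))
      (hJp _).ne' (Eventually.of_forall hXv)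
    rw [hJe _ hmem] at h1
    simpa using h1

/-- build a segment from the velocity parametrisation -/
private theorem arc_mk {T m0 : ℝ} {v U U' : ℝ → ℝ} (hT : 0 < T) (h0 : 0 ≤ m0) (h1 : m0 ≤ 1)
    (hv : ∀ x ∈ Icc 0 T, HasDerivAt v (U (v x) * (U (v x) - m0)) x)
    (hU : ∀ x ∈ Icc 0 T, HasDerivAt U (U' x) (v x))
    (hUv : ∀ x ∈ Icc 0 T, U' x * (U (v x) * (U (v x) - m0)) = v x)
    (hpos : ∀ x ∈ Icc 0 T, 0 < U (v x)) :
    Reach T (m0 * T) (∫ x in (0 : ℝ)..T, U (v x)) (U (v 0)) (v 0) (U (v T)) (v T) := by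
  have hθd : ∀ x ∈ Icc 0 T, HasDerivAt (fun x => U (v x)) (v x) x := by
    intro x hx
    have := (hU x hx).comp x (hv x hx)
    rw [hUv x hx] at this
    exact this
  refine ⟨fun _ => m0, fun x => U (v x), v, ⟨hT, aestronglyMeasurable_const,
    Eventually.of_forall fun _ => ⟨h0, h1⟩, fun x hx => (hθd x hx).hasDerivWithinAt, ?_,
    fun x hx => hpos x (Ioo_subset_Icc_self hx)⟩, hpos, rfl, rfl, rfl, rfl, ?_, rfl⟩
  · intro x hx
    have hsub : uIcc 0 x ⊆ Icc 0 T := by
      rw [uIcc_of_le hx.1]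
      exact Icc_subset_Icc_right hx.2
    have hc : ContinuousOn (fun t => U (v t) * (U (v t) - m0)) (uIcc 0 x) := by
      have h2 : ContinuousOn (fun t => U (v t)) (uIcc 0 x) := fun t ht =>
        (hθd t (hsub ht)).continuousAt.continuousWithinAt
      exact h2.mul (h2.sub continuousOn_const)
    have := intervalIntegral.integral_eq_sub_of_hasDerivAt (f := v)
      (f' := fun t => U (v t) * (U (v t) - m0)) (fun t ht => hv t (hsub ht))
      hc.intervalIntegrable
    rw [this]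
    ring
  · simp [mul_comm]

/-- substitution `ν = v x` -/
private theorem arc_subst {T V : ℝ} {v H f : ℝ → ℝ} (hT : 0 < T) (hv0 : v 0 = 0) (hvT : v T = V)
    (hH : ContinuousOn H (Icc 0 V)) (hpos : ∀ x ∈ Icc 0 V, 0 < H x)
    (hf : ContinuousOn f (Icc 0 V))
    (hv : ∀ x ∈ Icc 0 T, v x ∈ Icc 0 V ∧ HasDerivAt v (H (v x)) x) :
    ∫ x in (0 : ℝ)..T, f (v x) = ∫ ν in (0 : ℝ)..V, f ν / H ν := by
  have hu : uIcc 0 T = Icc 0 T := uIcc_of_le hT.le
  have hvc : ContinuousOn v (Icc 0 T) := fun x hx => (hv x hx).2.continuousAt.continuousWithinAt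
  have hHv : ContinuousOn (fun x => H (v x)) (Icc 0 T) :=
    hH.comp hvc (fun x hx => (hv x hx).1)
  have hg : ContinuousOn (fun ν => f ν / H ν) (v '' uIcc 0 T) := by
    apply (hf.div hH (fun x hx => (hpos x hx).ne')).mono
    rintro _ ⟨x, hx, rfl⟩
    rw [hu] at hx
    exact (hv x hx).1
  have h := intervalIntegral.integral_comp_mul_deriv' (a := 0) (b := T) (f := v)
    (f' := fun x => H (v x)) (g := fun ν => f ν / H ν)
    (fun x hx => (hv x (by rwa [hu] at hx)).2) (by rwa [hu]) hg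
  rw [hv0, hvT] at h
  rw [← h]
  apply intervalIntegral.integral_congr
  intro x hx
  rw [hu] at hx
  have := (hpos _ (hv x hx).1).ne'
  simp only [Function.comp]
  field_simp

/-- scaling `ν = V τ` -/
private theorem arc_scale {V : ℝ} (hV : 0 < V) (f : ℝ → ℝ) :
    ∫ ν in (0 : ℝ)..V, f ν = V * ∫ τ in (0 : ℝ)..1, f (V * τ) := by
  have := intervalIntegral.integral_comp_mul_left (a := 0) (b := 1) f hV.ne'
  rw [this]
  simp only [mul_zero, mul_one, smul_eq_mul]
  field_simp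

private theorem VV_pos {ρ s : ℝ} (h : Dom ρ s) : 0 < VV ρ s ∧ VV ρ s ^ 2 = 2 * ee ρ s ∧
    0 < ee ρ s := by
  have h3 : ρ ^ 3 < 1 := pow_lt_one₀ h.ρ0.le h.ρ1 (by norm_num)
  have he : 0 < ee ρ s := by
    have hs := h.s0
    unfold ee
    have : 0 < s ^ 3 * (1 - ρ ^ 3) := mul_pos (by positivity) (by linarith)
    linarith
  exact ⟨Real.sqrt_pos.2 (by linarith), Real.sq_sqrt (by linarith), he⟩

theorem arcL {ρ s : ℝ} (h : Dom ρ s) :
    Reach (VV ρ s / s * (I2 ρ / s)) 0 (VV ρ s / s * I1 ρ) (ρ * s) 0 s (VV ρ s) := by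
  obtain ⟨hV, hV2, he⟩ := VV_pos h
  have hs := h.s0
  have hρ := h.ρ0
  have h3 : ρ ^ 3 < 1 := pow_lt_one₀ h.ρ0.le h.ρ1 (by norm_num)
  set V := VV ρ s with hVdef
  -- the base `W`
  set B : ℝ → ℝ := fun ν => (ρ * s) ^ 3 + 3 / 2 * ν ^ 2 with hB
  have hBpos : ∀ ν, 0 < B ν := fun ν => by
    simp only [hB]; positivity
  set U : ℝ → ℝ := fun ν => B ν ^ (1 / 3 : ℝ) with hU
  have hUpos : ∀ ν, 0 < U ν := fun ν => Real.rpow_pos_of_pos (hBpos ν) _
  have hBc : Continuous B := by simp only [hB]; fun_prop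
  have hUc : Continuous U := hBc.rpow_const (fun ν => Or.inl (hBpos ν).ne')
  have hU2 : ∀ ν, U ν ^ 2 = B ν ^ (2 / 3 : ℝ) := fun ν => by
    simp only [hU]
    rw [← Real.rpow_natCast, ← Real.rpow_mul (hBpos ν).le]
    norm_num
  have hUd : ∀ ν, HasDerivAt U (ν / U ν ^ 2) ν := by
    intro ν
    have hBd : HasDerivAt B (3 * ν) ν := by
      have h1 : HasDerivAt B (3 / 2 * ((2 : ℕ) * ν ^ (2 - 1) * 1)) ν := by
        have := ((hasDerivAt_id ν).pow 2).const_mul (3 / 2 : ℝ)
        exact this.const_add _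
      convert h1 using 1
      push_cast
      ring
    have h1 := hBd.rpow_const (p := (1 / 3 : ℝ)) (Or.inl (hBpos ν).ne')
    convert h1 using 1
    rw [hU2, div_eq_mul_inv, ← Real.rpow_neg (hBpos ν).le,
      show (1 / 3 : ℝ) - 1 = -(2 / 3) by norm_num]
    ring
  have hHpos : ∀ x ∈ Icc (0 : ℝ) V, 0 < U x ^ 2 := fun x _ => by
    have := hUpos x
    positivity
  obtain ⟨v, hv0, hvT, hT, hv⟩ := arc_flow hV (H := fun ν => U ν ^ 2)
    (hUc.pow 2).continuousOn hHpos
  set T := ∫ ν in (0 : ℝ)..V, 1 / U ν ^ 2 with hTdef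
  have hmk := arc_mk (T := T) (m0 := 0) (v := v) (U := U) (U' := fun x => v x / U (v x) ^ 2)
    hT le_rfl zero_le_one
    (fun x hx => by
      have := (hv x hx).2
      convert this using 1
      ring)
    (fun x _ => hUd (v x))
    (fun x _ => by
      have := (hUpos (v x)).ne'
      field_simp
      ring)
    (fun x _ => hUpos _)
  have hsub := arc_subst (f := U) hT hv0 hvT (hUc.pow 2).continuousOn hHpos hUc.continuousOn hv
  simp only [Pi.pow_apply] at hsub
  -- evaluation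
  have hBV : ∀ τ, B (V * τ) = s ^ 3 * (ρ ^ 3 + τ ^ 2 * (1 - ρ ^ 3)) := by
    intro τ
    simp only [hB]
    rw [mul_pow V τ, hV2]
    unfold ee
    ring
  have hWpos : ∀ τ ∈ Icc (0 : ℝ) 1, 0 < ρ ^ 3 + τ ^ 2 * (1 - ρ ^ 3) := by
    intro τ _
    have : 0 ≤ τ ^ 2 * (1 - ρ ^ 3) := mul_nonneg (sq_nonneg _) (by linarith)
    have : 0 < ρ ^ 3 := by positivity
    linarith
  have hUV : ∀ τ ∈ Icc (0 : ℝ) 1, U (V * τ) = s * (ρ ^ 3 + τ ^ 2 * (1 - ρ ^ 3)) ^ (1 / 3 : ℝ) := by
    intro τ hτ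
    simp only [hU]
    rw [hBV, Real.mul_rpow (by positivity) (hWpos τ hτ).le]
    congr 1
    rw [← Real.rpow_natCast, ← Real.rpow_mul hs.le]
    norm_num
  have hT2 : T = V / s * (I2 ρ / s) := by
    rw [hTdef, arc_scale hV, I2]
    have : ∫ τ in (0 : ℝ)..1, 1 / U (V * τ) ^ 2 =
        ∫ τ in (0 : ℝ)..1, (1 / s ^ 2) * (ρ ^ 3 + τ ^ 2 * (1 - ρ ^ 3)) ^ (-(2 / 3) : ℝ) := by
      apply intervalIntegral.integral_congr
      intro τ hτ
      rw [uIcc_of_le zero_le_one] at hτ
      have hW := hWpos τ hτ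
      simp only
      rw [hUV τ hτ, mul_pow, ← Real.rpow_natCast (_ ^ (1 / 3 : ℝ)), ← Real.rpow_mul hW.le,
        Real.rpow_neg hW.le]
      norm_num
      ring
    rw [this, intervalIntegral.integral_const_mul]
    generalize (∫ τ in (0 : ℝ)..1, (ρ ^ 3 + τ ^ 2 * (1 - ρ ^ 3)) ^ (-(2 / 3) : ℝ)) = Z
    field_simp
  have hN : ∫ x in (0 : ℝ)..T, U (v x) = V / s * I1 ρ := by
    rw [hsub, arc_scale hV, I1]
    have : ∫ τ in (0 : ℝ)..1, U (V * τ) / U (V * τ) ^ 2 =
        ∫ τ in (0 : ℝ)..1, (1 / s) * (ρ ^ 3 + τ ^ 2 * (1 - ρ ^ 3)) ^ (-(1 / 3) : ℝ) := by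
      apply intervalIntegral.integral_congr
      intro τ hτ
      rw [uIcc_of_le zero_le_one] at hτ
      have hW := hWpos τ hτ
      have hne := (hUpos (V * τ)).ne'
      simp only
      rw [show U (V * τ) / U (V * τ) ^ 2 = (U (V * τ))⁻¹ by field_simp]
      rw [hUV τ hτ, Real.rpow_neg hW.le]
      rw [mul_inv]
      norm_num
    rw [this, intervalIntegral.integral_const_mul]
    generalize (∫ τ in (0 : ℝ)..1, (ρ ^ 3 + τ ^ 2 * (1 - ρ ^ 3)) ^ (-(1 / 3) : ℝ)) = Z
    field_simp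
  rw [hN, zero_mul, hvT, hv0] at hmk
  have e0 : U 0 = ρ * s := by
    simp only [hU, hB]
    rw [show (ρ * s) ^ 3 + 3 / 2 * (0 : ℝ) ^ 2 = (ρ * s) ^ 3 by ring, ← Real.rpow_natCast,
      ← Real.rpow_mul (by positivity)]
    norm_num
  have eV : U V = s := by
    have := hUV 1 ⟨zero_le_one, le_rfl⟩
    rw [mul_one] at this
    rw [this]
    norm_num
  rw [e0, eV, hT2] at hmk
  exact hmk

theorem arcR {ρ s : ℝ} (h : Dom ρ s) :
    Reach (VV ρ s / s * XX ρ s) (VV ρ s / s * XX ρ s) (VV ρ s / s * kw ρ s)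
      s (VV ρ s) (bb ρ s) 0 := by
  obtain ⟨hV, hV2, he⟩ := VV_pos h
  have hs := h.s0
  have hKD := h.KD
  set V := VV ρ s with hVdef
  set e := ee ρ s with hedef
  -- `U ν = Kinv (K s + e - ν²/2)`, `U (V τ) = Uf s e τ`
  set B : ℝ → ℝ := fun ν => K s + e - ν ^ 2 / 2 with hB
  set U : ℝ → ℝ := fun ν => Kinv (B ν) with hU
  have hUc : Continuous U := by
    have hBc : Continuous B := by simp only [hB]; fun_prop
    exact continuous_Kinv.comp hBc
  have hKs : 0 < K s := by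
    have h1 := h.s1
    have : K s = s ^ 2 * (1 / 2 - s / 3) := by unfold K; ring
    rw [this]
    exact mul_pos (by positivity) (by linarith)
  have hBmem : ∀ ν ∈ Icc (0 : ℝ) V, 0 < B ν ∧ B ν < 1 / 6 := by
    intro ν hν
    have h1 : ν ^ 2 ≤ V ^ 2 := pow_le_pow_left₀ hν.1 hν.2 2
    rw [hV2] at h1
    simp only [hB]
    exact ⟨by linarith, by have := hKD.K1; nlinarith [sq_nonneg ν]⟩
  have hUmem : ∀ ν ∈ Icc (0 : ℝ) V, 0 < U ν ∧ U ν < 1 := fun ν hν =>
    ⟨Kinv_pos (hBmem ν hν).1, Kinv_lt_one (hBmem ν hν).2⟩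
  set H : ℝ → ℝ := fun ν => U ν * (1 - U ν) with hH
  have hHc : Continuous H := hUc.mul (continuous_const.sub hUc)
  have hHpos : ∀ x ∈ Icc (0 : ℝ) V, 0 < H x := fun x hx =>
    mul_pos (hUmem x hx).1 (by have := (hUmem x hx).2; linarith)
  have hUd : ∀ ν ∈ Icc (0 : ℝ) V, HasDerivAt U (-ν / H ν) ν := by
    intro ν hν
    have hBd : HasDerivAt B (-ν) ν := by
      have h1 : HasDerivAt (fun ν : ℝ => ν ^ 2 / 2) ν ν := by
        have := (hasDerivAt_pow 2 ν).div_const 2
        refine this.congr_deriv ?_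
        push_cast
        ring
      exact h1.const_sub _
    have h1 := (hasDerivAt_Kinv (hBmem ν hν).1 (hBmem ν hν).2).comp ν hBd
    refine h1.congr_deriv ?_
    change 1 / (U ν * (1 - U ν)) * -ν = -ν / (U ν * (1 - U ν))
    ring
  obtain ⟨v, hv0, hvT, hT, hv⟩ := arc_flow hV (H := H) hHc.continuousOn hHpos
  set T := ∫ ν in (0 : ℝ)..V, 1 / H ν with hTdef
  have hrev : ∀ x ∈ Icc (0 : ℝ) T, T - x ∈ Icc (0 : ℝ) T := fun x hx =>
    ⟨by linarith [hx.2], by linarith [hx.1]⟩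
  have hmk := arc_mk (T := T) (m0 := 1) (v := fun x => v (T - x)) (U := U)
    (U' := fun x => -v (T - x) / H (v (T - x)))
    hT zero_le_one le_rfl
    (fun x hx => by
      have h1 := (hv _ (hrev x hx)).2
      have h2 : HasDerivAt (fun x : ℝ => T - x) (-1) x := by
        simpa using (hasDerivAt_id x).const_sub T
      have h3 := h1.comp x h2
      refine h3.congr_deriv ?_
      change U (v (T - x)) * (1 - U (v (T - x))) * -1 = U (v (T - x)) * (U (v (T - x)) - 1)
      ring)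
    (fun x hx => hUd _ (hv _ (hrev x hx)).1)
    (fun x hx => by
      have h1 := (hHpos _ (hv _ (hrev x hx)).1).ne'
      have h2 : U (v (T - x)) * (U (v (T - x)) - 1) = - H (v (T - x)) := by
        simp only [hH]; ring
      rw [h2]
      field_simp)
    (fun x hx => (hUmem _ (hv _ (hrev x hx)).1).1)
  have hrefl : ∫ x in (0 : ℝ)..T, U (v (T - x)) = ∫ x in (0 : ℝ)..T, U (v x) := by
    have := intervalIntegral.integral_comp_sub_left (a := 0) (b := T) (fun x => U (v x)) T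
    rw [this]
    simp
  have hsub := arc_subst (f := U) hT hv0 hvT hHc.continuousOn hHpos hUc.continuousOn hv
  -- evaluation
  have hUV : ∀ τ, U (V * τ) = Uf s e τ := by
    intro τ
    simp only [hU, hB, Uf]
    congr 1
    rw [mul_pow, hV2]
    ring
  have hu : ∀ τ ∈ Icc (0 : ℝ) 1, 0 < Uf s e τ ∧ Uf s e τ < 1 := by
    intro τ hτ
    obtain ⟨h1, h2, h3⟩ := Uf_mem hKD hτ.1 hτ.2
    exact ⟨by linarith, by linarith⟩
  have hc1 : ContinuousOn (fun τ => 1 / Uf s e τ) (uIcc (0 : ℝ) 1) := by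
    rw [uIcc_of_le zero_le_one]
    exact continuousOn_const.div (continuous_Uf s e).continuousOn (fun τ hτ => (hu τ hτ).1.ne')
  have hc2 : ContinuousOn (fun τ => 1 / (1 - Uf s e τ)) (uIcc (0 : ℝ) 1) := by
    rw [uIcc_of_le zero_le_one]
    refine continuousOn_const.div (continuous_const.sub (continuous_Uf s e)).continuousOn
      (fun τ hτ => ?_)
    have := (hu τ hτ).2
    linarith
  have hT2 : T = V / s * XX ρ s := by
    rw [hTdef, arc_scale hV, XX, k1, kw, ← hedef, kap1, kapw]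
    have : ∫ τ in (0 : ℝ)..1, 1 / H (V * τ) =
        (∫ τ in (0 : ℝ)..1, 1 / Uf s e τ) + ∫ τ in (0 : ℝ)..1, 1 / (1 - Uf s e τ) := by
      rw [← intervalIntegral.integral_add hc1.intervalIntegrable hc2.intervalIntegrable]
      apply intervalIntegral.integral_congr
      intro τ hτ
      rw [uIcc_of_le zero_le_one] at hτ
      have h1 := (hu τ hτ).1
      have h2 := (hu τ hτ).2
      have h3 : 1 - Uf s e τ ≠ 0 := by linarith
      simp only [H]
      rw [hUV]
      field_simp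
      ring
    rw [this]
    field_simp
  have hN : ∫ x in (0 : ℝ)..T, U (v (T - x)) = V / s * kw ρ s := by
    rw [hrefl, hsub, arc_scale hV, kw, ← hedef, kapw]
    have : ∫ τ in (0 : ℝ)..1, U (V * τ) / H (V * τ) = ∫ τ in (0 : ℝ)..1, 1 / (1 - Uf s e τ) := by
      apply intervalIntegral.integral_congr
      intro τ hτ
      rw [uIcc_of_le zero_le_one] at hτ
      have h1 := (hu τ hτ).1
      have h2 := (hu τ hτ).2
      have h3 : 1 - Uf s e τ ≠ 0 := by linarith
      simp only [H]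
      rw [hUV]
      field_simp
    rw [this]
    field_simp
  rw [hN, one_mul] at hmk
  simp only [sub_zero, sub_self] at hmk
  rw [hvT, hv0] at hmk
  have e0 : U 0 = bb ρ s := by
    simp only [hU, hB, bb]
    congr 1
    rw [← hedef]
    ring
  have eV : U V = s := by
    have := hUV 1
    rw [mul_one] at this
    rw [this, Uf]
    rw [show K s + (1 - (1 : ℝ) ^ 2) * e = K s by ring]
    exact Kinv_K hs.le h.s1.le
  rw [e0, eV, hT2] at hmk
  exact hmk

end Pool.Agent.OptRes
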