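import Pool.Agent.OptRes.Defs2
import Pool.Agent.OptRes.Kin
import Pool.Agent.OptRes.Kap

/-!
# Every pair `a < b` is realized by a half cell
-/

open MeasureTheory Set Filter Topology

namespace Pool.Agent.OptRes

theorem exists_dom {a b : ℝ} (h0 : 0 < a) (h1 : a < b) (h2 : b < 1) :
    ∃ ρ s, Dom ρ s ∧ ρ * s = a ∧ bb ρ s = b := by
  have hb0 : 0 < b := h0.trans h1
  have hK1 : K a < K b := K_strictMonoOn ⟨h0.le, (h1.trans h2).le⟩ ⟨hb0.le, h2.le⟩ h1
  have hK2 : K b < K 1 := K_strictMonoOn ⟨hb0.le, h2.le⟩ ⟨zero_le_one, le_rfl⟩ h2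
  have hK1' : K 1 = 1 / 6 := by norm_num [K]
  rw [hK1'] at hK2
  have ha3 : 0 < a ^ 3 := pow_pos h0 3
  set S := 2 / 3 * a ^ 3 + 2 * K b with hS
  have hSa : a ^ 2 < S := by
    have : a ^ 2 = 2 / 3 * a ^ 3 + 2 * K a := by simp only [K]; ring
    linarith
  have hSb : S < b ^ 2 := by
    have h3 : a ^ 3 < b ^ 3 := pow_lt_pow_left₀ h1 h0.le (by norm_num)
    have : 2 * K b = b ^ 2 - 2 / 3 * b ^ 3 := by simp only [K]; ring
    rw [hS]; linarith
  have hS0 : 0 < S := lt_trans (by positivity) hSa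
  set s := Real.sqrt S with hs
  have hss : s ^ 2 = S := Real.sq_sqrt hS0.le
  have hs0 : 0 < s := Real.sqrt_pos.2 hS0
  have has : a < s := Real.lt_sqrt_of_sq_lt hSa
  have hsb : s < b := by
    rw [hs, Real.sqrt_lt' hb0]; exact hSb
  have hs1 : s < 1 := hsb.trans h2
  have hρs : a / s * s = a := by field_simp
  have hρ3 : s ^ 3 * (a / s) ^ 3 = a ^ 3 := by
    rw [← mul_pow, mul_comm s, hρs]
  have hdom : Dom (a / s) s := by
    refine ⟨div_pos h0 hs0, (div_lt_one hs0).2 has, hs0, hs1, ?_⟩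
    have : DD (a / s) s = 1 - 6 * K b := by
      simp only [DD]
      rw [mul_assoc, hρ3, hss, hS]; ring
    rw [this]; linarith
  refine ⟨a / s, s, hdom, hρs, ?_⟩
  have h4 : K s + ee (a / s) s = K b := by
    have : K s + ee (a / s) s = s ^ 2 / 2 - s ^ 3 * (a / s) ^ 3 / 3 := by
      simp only [K, ee]; ring
    rw [this, hρ3, hss, hS]; ring
  rw [bb, h4]
  exact Kinv_K hb0.le h2.le

end Pool.Agent.OptRes
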