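import Pool.Agent.OptRes.Defs

/-!
# The functions `I1`, `I2`
-/

open MeasureTheory Set Filter Topology

namespace Pool.Agent.OptRes

namespace IoneAux

theorem W_pos {r σ : ℝ} (h0 : 0 < r) (h1 : r ≤ 1) : 0 < r + σ ^ 2 * (1 - r) := by
  nlinarith [sq_nonneg σ, mul_nonneg (sq_nonneg σ) (sub_nonneg.2 h1)]

theorem W_ge {r σ : ℝ} (h1 : r ≤ 1) : r ≤ r + σ ^ 2 * (1 - r) := by
  nlinarith [sq_nonneg σ, mul_nonneg (sq_nonneg σ) (sub_nonneg.2 h1)]

theorem W_le {r σ : ℝ} (h1 : r ≤ 1) (hσ : σ ∈ Icc (0 : ℝ) 1) : r + σ ^ 2 * (1 - r) ≤ 1 := by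
  have h2 : σ ^ 2 ≤ 1 := by nlinarith [hσ.1, hσ.2]
  nlinarith [mul_le_mul_of_nonneg_right h2 (sub_nonneg.2 h1)]

theorem cont_W {r : ℝ} (a : ℝ) (h0 : 0 < r) (h1 : r ≤ 1) :
    Continuous (fun σ : ℝ => (r + σ ^ 2 * (1 - r)) ^ a) :=
  Continuous.rpow_const (by fun_prop) (fun σ => Or.inl (W_pos h0 h1).ne')

theorem cont_W2 {r : ℝ} (a : ℝ) (h0 : 0 < r) (h1 : r ≤ 1) :
    Continuous (fun σ : ℝ => σ ^ 2 * (r + σ ^ 2 * (1 - r)) ^ a) :=
  (continuous_id.pow 2).mul (cont_W a h0 h1)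

/-- `∫ W^a` -/
noncomputable def J (a r : ℝ) : ℝ := ∫ σ in (0 : ℝ)..1, (r + σ ^ 2 * (1 - r)) ^ a

/-- `∫ σ² W^a` -/
noncomputable def M (a r : ℝ) : ℝ := ∫ σ in (0 : ℝ)..1, σ ^ 2 * (r + σ ^ 2 * (1 - r)) ^ a

theorem idA {r : ℝ} (a : ℝ) (h0 : 0 < r) (h1 : r ≤ 1) :
    J a r + 2 * a * (1 - r) * M (a - 1) r = 1 := by
  have hd : ∀ σ ∈ uIcc (0 : ℝ) 1, HasDerivAt (fun σ : ℝ => σ * (r + σ ^ 2 * (1 - r)) ^ a)
      ((r + σ ^ 2 * (1 - r)) ^ a + 2 * a * (1 - r) * (σ ^ 2 * (r + σ ^ 2 * (1 - r)) ^ (a - 1)))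
      σ := by
    intro σ _
    have hW : HasDerivAt (fun σ : ℝ => r + σ ^ 2 * (1 - r)) (2 * σ * (1 - r)) σ := by
      have := ((hasDerivAt_pow 2 σ).mul_const (1 - r)).const_add r
      simpa using this
    have hp := hW.rpow_const (p := a) (Or.inl (W_pos h0 h1).ne')
    have := (hasDerivAt_id σ).mul hp
    refine this.congr_deriv ?_
    simp only [id]
    ring
  have i1 : IntervalIntegrable (fun σ : ℝ => (r + σ ^ 2 * (1 - r)) ^ a) volume 0 1 :=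
    (cont_W a h0 h1).intervalIntegrable 0 1
  have i2 : IntervalIntegrable (fun σ : ℝ => 2 * a * (1 - r) *
      (σ ^ 2 * (r + σ ^ 2 * (1 - r)) ^ (a - 1))) volume 0 1 :=
    (continuous_const.mul (cont_W2 (a - 1) h0 h1)).intervalIntegrable 0 1
  have hint := intervalIntegral.integral_eq_sub_of_hasDerivAt hd (i1.add i2)
  rw [intervalIntegral.integral_add i1 i2, intervalIntegral.integral_const_mul] at hint
  have h2 : (r + 1 ^ 2 * (1 - r) : ℝ) = 1 := by ring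
  simp only [h2, Real.one_rpow, zero_mul, sub_zero, mul_one] at hint
  exact hint

theorem idB {r : ℝ} (a : ℝ) (h0 : 0 < r) (h1 : r ≤ 1) :
    J a r = r * J (a - 1) r + (1 - r) * M (a - 1) r := by
  have i1 : IntervalIntegrable (fun σ : ℝ => r * (r + σ ^ 2 * (1 - r)) ^ (a - 1)) volume 0 1 :=
    (continuous_const.mul (cont_W (a - 1) h0 h1)).intervalIntegrable 0 1
  have i2 : IntervalIntegrable (fun σ : ℝ => (1 - r) *
      (σ ^ 2 * (r + σ ^ 2 * (1 - r)) ^ (a - 1))) volume 0 1 :=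
    (continuous_const.mul (cont_W2 (a - 1) h0 h1)).intervalIntegrable 0 1
  unfold J M
  rw [← intervalIntegral.integral_const_mul, ← intervalIntegral.integral_const_mul,
    ← intervalIntegral.integral_add i1 i2]
  refine intervalIntegral.integral_congr fun σ _ => ?_
  have hp := W_pos (σ := σ) h0 h1
  have : (r + σ ^ 2 * (1 - r)) ^ a = (r + σ ^ 2 * (1 - r)) ^ (a - 1) * (r + σ ^ 2 * (1 - r)) := by
    rw [← Real.rpow_add_one hp.ne']
    ring_nf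
  rw [this]
  ring

theorem J_pos {r : ℝ} (a : ℝ) (h0 : 0 < r) (h1 : r ≤ 1) : 0 < J a r :=
  intervalIntegral.intervalIntegral_pos_of_pos_on ((cont_W a h0 h1).intervalIntegrable 0 1)
    (fun _ _ => Real.rpow_pos_of_pos (W_pos h0 h1) a) one_pos

theorem J_one (a : ℝ) : J a 1 = 1 := by
  unfold J
  simp

theorem J_ge {r a : ℝ} (h0 : 0 < r) (h1 : r ≤ 1) (ha : a ≤ 0) : 1 ≤ J a r := by
  have h : (∫ _ in (0 : ℝ)..1, (1 : ℝ)) ≤ J a r := by
    unfold J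
    refine intervalIntegral.integral_mono_on zero_le_one (by simp)
      ((cont_W a h0 h1).intervalIntegrable 0 1) fun σ hσ => ?_
    exact Real.one_le_rpow_of_pos_of_le_one_of_nonpos (W_pos h0 h1) (W_le h1 hσ) ha
  simpa using h

theorem J_anti {r r' a : ℝ} (h0 : 0 < r) (h : r ≤ r') (h1 : r' ≤ 1) (ha : a ≤ 0) :
    J a r' ≤ J a r := by
  unfold J
  refine intervalIntegral.integral_mono_on zero_le_one
    ((cont_W a (h0.trans_le h) h1).intervalIntegrable 0 1)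
    ((cont_W a h0 (h.trans h1)).intervalIntegrable 0 1) fun σ hσ => ?_
  refine Real.rpow_le_rpow_of_nonpos (W_pos h0 (h.trans h1)) ?_ ha
  have h2 : σ ^ 2 ≤ 1 := by nlinarith [hσ.1, hσ.2]
  nlinarith

theorem J_exp {r a b : ℝ} (h0 : 0 < r) (h1 : r ≤ 1) (hab : b ≤ a) : J a r ≤ J b r := by
  unfold J
  refine intervalIntegral.integral_mono_on zero_le_one
    ((cont_W a h0 h1).intervalIntegrable 0 1)
    ((cont_W b h0 h1).intervalIntegrable 0 1) fun σ hσ => ?_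
  exact Real.rpow_le_rpow_of_exponent_ge (W_pos h0 h1) (W_le h1 hσ) hab

theorem J_continuousAt {r a : ℝ} (h0 : 0 < r) (h1 : r ≤ 1) :
    ContinuousWithinAt (J a) (Ioc 0 1) r := by
  have hc : Continuous (fun x : ℝ => ∫ σ in (0 : ℝ)..1, (max (r / 2) (x + σ ^ 2 * (1 - x))) ^ a) := by
    refine intervalIntegral.continuous_parametric_intervalIntegral_of_continuous' ?_ 0 1
    refine Continuous.rpow_const (by fun_prop) (fun p => Or.inl ?_)
    have : 0 < r / 2 := by positivity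
    exact (lt_max_of_lt_left this).ne'
  have hE : ∀ x ∈ Ioc (r / 2) 1, J a x = ∫ σ in (0 : ℝ)..1, (max (r / 2) (x + σ ^ 2 * (1 - x))) ^ a := by
    intro x hx
    unfold J
    refine intervalIntegral.integral_congr fun σ _ => ?_
    rw [max_eq_right (hx.1.le.trans (W_ge hx.2))]
  have hr : r ∈ Ioc (r / 2) 1 := ⟨by linarith, h1⟩
  refine (hc.continuousWithinAt (s := Ioc 0 1) (x := r)).congr_of_eventuallyEq ?_ (hE r hr)
  have h3 : Ioi (r / 2) ∈ 𝓝[Ioc 0 1] r := mem_nhdsWithin_of_mem_nhds (Ioi_mem_nhds hr.1)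
  filter_upwards [h3, self_mem_nhdsWithin] with x hx hx'
  exact hE x ⟨hx, hx'.2⟩

theorem hasDerivAt_J {r : ℝ} (a : ℝ) (h0 : 0 < r) (h1 : r < 1) :
    HasDerivAt (J a) (a * (J (a - 1) r - M (a - 1) r)) r := by
  -- a small ball
  set ε : ℝ := min (r / 2) (1 - r) with hε
  have hεpos : 0 < ε := lt_min (by linarith) (by linarith)
  have hball : ∀ x ∈ Metric.ball r ε, r / 2 < x ∧ x < 1 := by
    intro x hx
    rw [Metric.mem_ball, Real.dist_eq, abs_lt] at hx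
    have h3 : ε ≤ r / 2 := min_le_left _ _
    have h4 : ε ≤ 1 - r := min_le_right _ _
    constructor <;> linarith [hx.1, hx.2]
  obtain ⟨C, hC⟩ : ∃ C : ℝ, ∀ w ∈ Icc (r / 2) (1 : ℝ), |a * w ^ (a - 1)| ≤ C := by
    have hcont : ContinuousOn (fun w : ℝ => a * w ^ (a - 1)) (Icc (r / 2) 1) := by
      refine continuousOn_const.mul (ContinuousOn.rpow_const continuousOn_id ?_)
      intro w hw
      have : 0 < r / 2 := by positivity
      exact Or.inl (this.trans_le hw.1).ne'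
    obtain ⟨C, hC⟩ := isCompact_Icc.exists_bound_of_continuousOn hcont
    exact ⟨C, fun w hw => by simpa [Real.norm_eq_abs] using hC w hw⟩
  have hder := intervalIntegral.hasDerivAt_integral_of_dominated_loc_of_deriv_le
    (μ := volume) (a := 0) (b := 1) (𝕜 := ℝ) (E := ℝ)
    (F := fun x σ => (x + σ ^ 2 * (1 - x)) ^ a)
    (F' := fun x σ => (1 - σ ^ 2) * (a * (x + σ ^ 2 * (1 - x)) ^ (a - 1)))
    (x₀ := r) (s := Metric.ball r ε) (bound := fun _ => C)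
    (Metric.ball_mem_nhds r hεpos) ?_ ?_ ?_ ?_ ?_ ?_
  · refine (hder.2).congr_deriv ?_
    unfold J M
    rw [← intervalIntegral.integral_sub ((cont_W (a - 1) h0 h1.le).intervalIntegrable 0 1)
      ((cont_W2 (a - 1) h0 h1.le).intervalIntegrable 0 1),
      ← intervalIntegral.integral_const_mul]
    refine intervalIntegral.integral_congr fun σ _ => ?_
    ring
  · filter_upwards [Metric.ball_mem_nhds r hεpos] with x hx
    exact (cont_W a (by linarith [(hball x hx).1]) (hball x hx).2.le).aestronglyMeasurable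
  · exact (cont_W a h0 h1.le).intervalIntegrable 0 1
  · exact (((continuous_const.sub (continuous_id.pow 2)).mul
      (continuous_const.mul (cont_W (a - 1) h0 h1.le)))).aestronglyMeasurable
  · refine Eventually.of_forall fun σ hσ x hx => ?_
    rw [uIoc_of_le zero_le_one] at hσ
    have hb := hball x hx
    have hσ' : σ ∈ Icc (0 : ℝ) 1 := ⟨hσ.1.le, hσ.2⟩
    have h5 : |1 - σ ^ 2| ≤ 1 := by
      rw [abs_le]
      constructor <;> nlinarith [hσ.1, hσ.2]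
    have h6 := hC (x + σ ^ 2 * (1 - x)) ⟨hb.1.le.trans (W_ge hb.2.le), W_le hb.2.le hσ'⟩
    rw [Real.norm_eq_abs, abs_mul]
    calc |1 - σ ^ 2| * |a * (x + σ ^ 2 * (1 - x)) ^ (a - 1)|
        ≤ 1 * |a * (x + σ ^ 2 * (1 - x)) ^ (a - 1)| :=
          mul_le_mul_of_nonneg_right h5 (abs_nonneg _)
      _ ≤ C := by rw [one_mul]; exact h6
  · simp
  · refine Eventually.of_forall fun σ hσ x hx => ?_
    have hb := hball x hx
    have hW : HasDerivAt (fun x : ℝ => x + σ ^ 2 * (1 - x)) (1 + σ ^ 2 * (-1)) x :=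
      (hasDerivAt_id x).add (((hasDerivAt_id x).const_sub 1).const_mul (σ ^ 2))
    have hp := hW.rpow_const (p := a) (Or.inl (W_pos (by linarith [hb.1]) hb.2.le).ne')
    refine hp.congr_deriv ?_
    ring

theorem I1_eq (ρ : ℝ) : I1 ρ = J (-(1 / 3)) (ρ ^ 3) := rfl
theorem I2_eq (ρ : ℝ) : I2 ρ = J (-(2 / 3)) (ρ ^ 3) := rfl

theorem cube_mem {ρ : ℝ} (h0 : 0 < ρ) (h1 : ρ ≤ 1) : 0 < ρ ^ 3 ∧ ρ ^ 3 ≤ 1 :=
  ⟨by positivity, pow_le_one₀ h0.le h1⟩

end IoneAux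

open IoneAux

theorem one_le_I1 {ρ : ℝ} (h0 : 0 < ρ) (h1 : ρ ≤ 1) : 1 ≤ I1 ρ :=
  J_ge (cube_mem h0 h1).1 (cube_mem h0 h1).2 (by norm_num)

theorem I1_lt_three {ρ : ℝ} (h0 : 0 < ρ) (h1 : ρ ≤ 1) : I1 ρ < 3 := by
  have hc := cube_mem h0 h1
  have hA := idA (-(1 / 3)) hc.1 hc.2
  have hB := idB (-(1 / 3)) hc.1 hc.2
  have hp := J_pos (-(1 / 3) - 1) hc.1 hc.2
  rw [← I1_eq] at hA hB
  nlinarith [mul_pos hc.1 hp]

theorem I1_le_I2 {ρ : ℝ} (h0 : 0 < ρ) (h1 : ρ ≤ 1) : I1 ρ ≤ I2 ρ :=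
  J_exp (cube_mem h0 h1).1 (cube_mem h0 h1).2 (by norm_num)

theorem I1_antitoneOn : AntitoneOn I1 (Ioc (0 : ℝ) 1) := fun x hx y hy hxy =>
  J_anti (cube_mem hx.1 hx.2).1 (pow_le_pow_left₀ hx.1.le hxy 3) (cube_mem hy.1 hy.2).2
    (by norm_num)

theorem I2_antitoneOn : AntitoneOn I2 (Ioc (0 : ℝ) 1) := fun x hx y hy hxy =>
  J_anti (cube_mem hx.1 hx.2).1 (pow_le_pow_left₀ hx.1.le hxy 3) (cube_mem hy.1 hy.2).2
    (by norm_num)

theorem I1_one : I1 1 = 1 := by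
  rw [I1_eq, one_pow, J_one]

theorem I2_one : I2 1 = 1 := by
  rw [I2_eq, one_pow, J_one]

theorem continuousOn_I1 : ContinuousOn I1 (Ioc (0 : ℝ) 1) := by
  intro x hx
  have hc := cube_mem hx.1 hx.2
  exact ContinuousWithinAt.comp (g := J (-(1 / 3))) (f := fun x : ℝ => x ^ 3)
    (J_continuousAt hc.1 hc.2) (continuous_pow 3).continuousWithinAt
    (fun y hy => cube_mem hy.1 hy.2)

theorem continuousOn_I2 : ContinuousOn I2 (Ioc (0 : ℝ) 1) := by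
  intro x hx
  have hc := cube_mem hx.1 hx.2
  exact ContinuousWithinAt.comp (g := J (-(2 / 3))) (f := fun x : ℝ => x ^ 3)
    (J_continuousAt hc.1 hc.2) (continuous_pow 3).continuousWithinAt
    (fun y hy => cube_mem hy.1 hy.2)

theorem hasDerivAt_I1 {ρ : ℝ} (h0 : 0 < ρ) (h1 : ρ < 1) :
    HasDerivAt I1 ((ρ ^ 3 * (I1 ρ - 1) / qq ρ - (3 - I1 ρ) / 2) / ρ) ρ := by
  have hc : 0 < ρ ^ 3 ∧ ρ ^ 3 < 1 := ⟨by positivity, pow_lt_one₀ h0.le h1 (by norm_num)⟩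
  have hA := idA (-(1 / 3)) hc.1 hc.2.le
  have hB := idB (-(1 / 3)) hc.1 hc.2.le
  have hd : HasDerivAt (fun x : ℝ => J (-(1 / 3)) (x ^ 3)) _ ρ :=
    HasDerivAt.comp (h₂ := J (-(1 / 3))) (h := fun x : ℝ => x ^ 3) ρ
      (hasDerivAt_J (-(1 / 3)) hc.1 hc.2) (hasDerivAt_pow 3 ρ)
  refine hd.congr_deriv ?_
  rw [← I1_eq] at hA hB
  set Jv := J (-(1 / 3) - 1) (ρ ^ 3)
  set Mv := M (-(1 / 3) - 1) (ρ ^ 3)
  have hq : qq ρ ≠ 0 := by
    unfold qq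
    have : 0 < 1 - ρ ^ 3 := by linarith [hc.2]
    positivity
  have hM : Mv = (I1 ρ - 1) / qq ρ := by
    rw [eq_div_iff hq]
    unfold qq
    linarith
  have hJ : Jv = (3 - I1 ρ) / 2 / ρ ^ 3 := by
    rw [eq_div_iff hc.1.ne']
    have h2 : (1 - ρ ^ 3) * Mv = 3 / 2 * (I1 ρ - 1) := by linarith
    linarith
  rw [hJ, hM]
  field_simp
  ring

theorem hasDerivAt_I2 {ρ : ℝ} (h0 : 0 < ρ) (h1 : ρ < 1) :
    HasDerivAt I2 ((ρ ^ 3 * (I2 ρ - 1) / qq ρ - (3 + I2 ρ) / 2) / ρ) ρ := by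
  have hc : 0 < ρ ^ 3 ∧ ρ ^ 3 < 1 := ⟨by positivity, pow_lt_one₀ h0.le h1 (by norm_num)⟩
  have hA := idA (-(2 / 3)) hc.1 hc.2.le
  have hB := idB (-(2 / 3)) hc.1 hc.2.le
  have hd : HasDerivAt (fun x : ℝ => J (-(2 / 3)) (x ^ 3)) _ ρ :=
    HasDerivAt.comp (h₂ := J (-(2 / 3))) (h := fun x : ℝ => x ^ 3) ρ
      (hasDerivAt_J (-(2 / 3)) hc.1 hc.2) (hasDerivAt_pow 3 ρ)
  refine hd.congr_deriv ?_
  rw [← I2_eq] at hA hB
  set Jv := J (-(2 / 3) - 1) (ρ ^ 3)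
  set Mv := M (-(2 / 3) - 1) (ρ ^ 3)
  have hq : qq ρ ≠ 0 := by
    unfold qq
    have : 0 < 1 - ρ ^ 3 := by linarith [hc.2]
    positivity
  have hM : Mv = (I2 ρ - 1) / (2 * qq ρ) := by
    rw [eq_div_iff (mul_ne_zero two_ne_zero hq)]
    unfold qq
    linarith
  have hJ : Jv = (3 + I2 ρ) / 4 / ρ ^ 3 := by
    rw [eq_div_iff hc.1.ne']
    have h2 : (1 - ρ ^ 3) * Mv = 3 / 4 * (I2 ρ - 1) := by linarith
    linarith
  rw [hJ, hM]
  field_simp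
  ring

end Pool.Agent.OptRes
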