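import Pool.Agent.OptRes.Apriori
import Pool.Agent.OptRes.Geo
import Pool.Agent.OptRes.Ione

/-!
# The cell inequality
-/

open MeasureTheory Set Filter Topology

namespace Pool.Agent.OptRes

namespace CellAux

noncomputable def Aa (l Ψ u : ℝ) : ℝ := Ψ - (1 - l) * u

theorem Aa_nonneg {l Ψ u : ℝ} (h0 : 0 ≤ Ψ) (h1 : 1 - l ≤ Ψ) (hu0 : 0 ≤ u) (hu1 : u ≤ 1) :
    0 ≤ Aa l Ψ u := by
  unfold Aa
  nlinarith [mul_nonneg h0 (sub_nonneg.2 hu1), mul_nonneg hu0 (sub_nonneg.2 h1)]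

theorem alg {l A t w v : ℝ} (hl : 0 ≤ l) (hA : 0 ≤ A) (ht : 0 < t) (hw : 0 < w) (hwv : w ≤ v) :
    l * (w / t) ^ 2 - A ≤ (l * v / t ^ 2 - A / v) * w := by
  have hv : 0 < v := hw.trans_le hwv
  have h1 : w / v ≤ 1 := (div_le_one hv).2 hwv
  have h2 : (l * v / t ^ 2 - A / v) * w - (l * (w / t) ^ 2 - A)
      = l * (w * (v - w)) / t ^ 2 + A * (1 - w / v) := by
    field_simp
    ring
  have h3 : 0 ≤ l * (w * (v - w)) / t ^ 2 := by
    have : 0 ≤ v - w := by linarith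
    positivity
  have h4 : 0 ≤ A * (1 - w / v) := mul_nonneg hA (by linarith)
  linarith

/-! ### the left potential -/

noncomputable def UL (a ν : ℝ) : ℝ := (a ^ 3 + 3 / 2 * ν ^ 2) ^ ((1 : ℝ) / 3)

theorem rt3 {x : ℝ} (hx : 0 ≤ x) : (x ^ 3) ^ ((1 : ℝ) / 3) = x := by
  rw [← Real.rpow_natCast, ← Real.rpow_mul hx]
  norm_num

theorem UL_pos {a : ℝ} (ha : 0 < a) (ν : ℝ) : 0 < UL a ν :=
  Real.rpow_pos_of_pos (by positivity) _

theorem UL_cont (a : ℝ) : Continuous (UL a) :=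
  Continuous.rpow_const (by fun_prop) (fun _ => Or.inr (by norm_num))

theorem UL_eq {a ν t : ℝ} (ht : 0 ≤ t) (h : a ^ 3 + 3 / 2 * ν ^ 2 = t ^ 3) : UL a ν = t := by
  unfold UL; rw [h, rt3 ht]

noncomputable def HL (l Ψ a ν : ℝ) : ℝ :=
  l * ν ^ 2 / UL a ν ^ 4 - Aa l Ψ (UL a ν) / UL a ν ^ 2

theorem HL_cont (l Ψ : ℝ) {a : ℝ} (ha : 0 < a) : Continuous (HL l Ψ a) := by
  have h1 := UL_cont a
  have h2 : ∀ ν, UL a ν ≠ 0 := fun ν => (UL_pos ha ν).ne'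
  unfold HL Aa
  refine Continuous.sub ?_ ?_
  · exact ((continuous_const.mul (continuous_id.pow 2)).div (h1.pow 4) (fun ν => pow_ne_zero _ (h2 ν)))
  · exact ((continuous_const.sub (continuous_const.mul h1)).div (h1.pow 2)
      (fun ν => pow_ne_zero _ (h2 ν)))

/-! ### the right potential -/

noncomputable def UR (b s ν : ℝ) : ℝ := max s (Kinv (K b - ν ^ 2 / 2))

theorem UR_cont (b s : ℝ) : Continuous (UR b s) :=
  continuous_const.max (continuous_Kinv.comp (by fun_prop))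

theorem UR_ge (b s ν : ℝ) : s ≤ UR b s ν := le_max_left _ _

theorem UR_lt {b s : ℝ} (hs : s < 1) (hb0 : 0 ≤ b) (hb1 : b < 1) (ν : ℝ) : UR b s ν < 1 := by
  refine max_lt hs ?_
  refine lt_of_le_of_lt (Kinv_mono (show K b - ν ^ 2 / 2 ≤ K b by nlinarith [sq_nonneg ν])) ?_
  rw [Kinv_K hb0 hb1.le]; exact hb1

noncomputable def HR (l Ψ b s ν : ℝ) : ℝ :=
  (l * ν ^ 2 / UR b s ν ^ 2 - Aa l Ψ (UR b s ν)) / (UR b s ν * (1 - UR b s ν))

theorem HR_cont (l Ψ : ℝ) {b s : ℝ} (hs0 : 0 < s) (hs : s < 1) (hb0 : 0 ≤ b) (hb1 : b < 1) :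
    Continuous (HR l Ψ b s) := by
  have h1 := UR_cont b s
  have h2 : ∀ ν, UR b s ν ≠ 0 := fun ν => (hs0.trans_le (UR_ge b s ν)).ne'
  have h3 : ∀ ν, 1 - UR b s ν ≠ 0 := fun ν => (sub_pos.2 (UR_lt hs hb0 hb1 ν)).ne'
  unfold HR Aa
  refine Continuous.div (Continuous.sub ?_ ?_) ?_ (fun ν => mul_ne_zero (h2 ν) (h3 ν))
  · exact ((continuous_const.mul (continuous_id.pow 2)).div (h1.pow 2) (fun ν => pow_ne_zero _ (h2 ν)))
  · exact continuous_const.sub (continuous_const.mul h1)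
  · exact h1.mul (continuous_const.sub h1)

theorem int_hasDeriv {f : ℝ → ℝ} (hf : Continuous f) (x : ℝ) :
    HasDerivAt (fun v => ∫ t in (0 : ℝ)..v, f t) (f x) x :=
  intervalIntegral.integral_hasDerivAt_right (hf.intervalIntegrable _ _)
    hf.aestronglyMeasurable.stronglyMeasurableAtFilter hf.continuousAt

/-! ### comparison on a piece -/

theorem pay_cont {L : ℝ} {m θ w : ℝ → ℝ} (h : Sol L m θ w) (l Ψ : ℝ) :
    ContinuousOn (pay l Ψ θ w) (Icc 0 L) := by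
  have h1 := h.cont.1
  have h2 := h.cont.2
  unfold pay
  refine ContinuousOn.sub (continuousOn_const.mul ((h2.div h1 ?_).pow 2)) ?_
  · exact fun x hx => (h.bounds hx).1.ne'
  · exact continuousOn_const.sub (continuousOn_const.mul h1)

theorem piece {L : ℝ} {m θ w : ℝ → ℝ} (h : Sol L m θ w) {l Ψ : ℝ} (hl : 0 ≤ l)
    (hΨ : 0 ≤ Ψ) (hΨ1 : 1 - l ≤ Ψ) {p q : ℝ} (hp : 0 ≤ p) (hpq : p ≤ q) (hq : q ≤ L)
    {G v : ℝ → ℝ} (hG : ContinuousOn G (Icc p q))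
    (hwv : ∀ x ∈ Ioo p q, 0 < w x ∧ w x ≤ v x)
    (hG' : ∀ x ∈ Ioo p q,
      HasDerivAt G ((l * v x / θ x ^ 2 - Aa l Ψ (θ x) / v x) * w x) x) :
    ∫ x in p..q, pay l Ψ θ w x ≤ G q - G p := by
  refine intervalIntegral.integral_le_sub_of_hasDeriv_right_of_le hpq hG
    (fun x hx => (hG' x hx).hasDerivWithinAt) ?_ ?_
  · exact ((pay_cont h l Ψ).mono (Icc_subset_Icc hp hq)).integrableOn_Icc
  · intro x hx
    have hb := h.bounds (x := x) ⟨hp.trans hx.1.le, hx.2.le.trans hq⟩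
    have h1 := alg hl (Aa_nonneg hΨ hΨ1 hb.1.le hb.2.1) hb.1 (hwv x hx).1 (hwv x hx).2
    simpa only [pay, Aa] using h1

/-! ### evaluation of the potentials -/

theorem pw {W : ℝ} (hW : 0 < W) : W ^ (-(1 / 3) : ℝ) = (W ^ ((1 : ℝ) / 3))⁻¹ ∧
    W ^ (-(2 / 3) : ℝ) = ((W ^ ((1 : ℝ) / 3)) ^ 2)⁻¹ ∧
    W ^ (-(1 / 3) - 1 : ℝ) = ((W ^ ((1 : ℝ) / 3)) ^ 4)⁻¹ := by
  refine ⟨Real.rpow_neg hW.le _, ?_, ?_⟩
  · rw [← Real.rpow_natCast, ← Real.rpow_mul hW.le, ← Real.rpow_neg hW.le]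
    norm_num
  · rw [← Real.rpow_natCast, ← Real.rpow_mul hW.le, ← Real.rpow_neg hW.le]
    norm_num

theorem intL {l Ψ ρ s : ℝ} (hd : Dom ρ s) :
    s * ∫ σ in (0 : ℝ)..1, HL l Ψ (ρ * s) (VV ρ s * σ) = I1 ρ - l - Ψ * (I2 ρ / s) := by
  have hs := hd.s0
  have hρ3 : 0 < ρ ^ 3 ∧ ρ ^ 3 ≤ 1 := ⟨pow_pos hd.ρ0 3, pow_le_one₀ hd.ρ0.le hd.ρ1.le⟩
  have hee : 0 ≤ ee ρ s := hd.KD.e0
  have hV2 : VV ρ s ^ 2 = 2 * ee ρ s := Real.sq_sqrt (by linarith)
  have hq : ∀ σ : ℝ, 0 < ρ ^ 3 + σ ^ 2 * (1 - ρ ^ 3) := fun σ => IoneAux.W_pos hρ3.1 hρ3.2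
  have h1 : ∀ σ : ℝ, HL l Ψ (ρ * s) (VV ρ s * σ) =
      l * (VV ρ s ^ 2 / s ^ 4) * (σ ^ 2 * (ρ ^ 3 + σ ^ 2 * (1 - ρ ^ 3)) ^ (-(1 / 3) - 1 : ℝ))
      + (-(Ψ / s ^ 2)) * (ρ ^ 3 + σ ^ 2 * (1 - ρ ^ 3)) ^ (-(2 / 3) : ℝ)
      + (1 - l) / s * (ρ ^ 3 + σ ^ 2 * (1 - ρ ^ 3)) ^ (-(1 / 3) : ℝ) := by
    intro σ
    obtain ⟨p1, p2, p3⟩ := pw (hq σ)
    rw [p1, p2, p3]
    set P := (ρ ^ 3 + σ ^ 2 * (1 - ρ ^ 3)) ^ ((1 : ℝ) / 3) with hP
    have hPpos : 0 < P := Real.rpow_pos_of_pos (hq σ) _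
    have hP3 : P ^ 3 = ρ ^ 3 + σ ^ 2 * (1 - ρ ^ 3) := by
      rw [hP, ← Real.rpow_natCast, ← Real.rpow_mul (hq σ).le]
      norm_num
    have hU : UL (ρ * s) (VV ρ s * σ) = s * P := by
      refine UL_eq (by positivity) ?_
      rw [mul_pow s P, hP3, mul_pow (VV ρ s), hV2]
      simp only [ee]
      ring
    unfold HL Aa
    rw [hU]
    field_simp
    ring
  have i1 : IntervalIntegrable (fun σ : ℝ => l * (VV ρ s ^ 2 / s ^ 4) *
      (σ ^ 2 * (ρ ^ 3 + σ ^ 2 * (1 - ρ ^ 3)) ^ (-(1 / 3) - 1 : ℝ))) volume 0 1 :=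
    (continuous_const.mul (IoneAux.cont_W2 _ hρ3.1 hρ3.2)).intervalIntegrable 0 1
  have i2 : IntervalIntegrable (fun σ : ℝ => (-(Ψ / s ^ 2)) *
      (ρ ^ 3 + σ ^ 2 * (1 - ρ ^ 3)) ^ (-(2 / 3) : ℝ)) volume 0 1 :=
    (continuous_const.mul (IoneAux.cont_W _ hρ3.1 hρ3.2)).intervalIntegrable 0 1
  have i3 : IntervalIntegrable (fun σ : ℝ => (1 - l) / s *
      (ρ ^ 3 + σ ^ 2 * (1 - ρ ^ 3)) ^ (-(1 / 3) : ℝ)) volume 0 1 :=
    (continuous_const.mul (IoneAux.cont_W _ hρ3.1 hρ3.2)).intervalIntegrable 0 1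
  have h2 := IoneAux.idA (-(1 / 3)) hρ3.1 hρ3.2
  rw [← IoneAux.I1_eq] at h2
  have h3 : ∫ σ in (0 : ℝ)..1, HL l Ψ (ρ * s) (VV ρ s * σ) =
      l * (VV ρ s ^ 2 / s ^ 4) * IoneAux.M (-(1 / 3) - 1) (ρ ^ 3) + (-(Ψ / s ^ 2)) * I2 ρ
      + (1 - l) / s * I1 ρ := by
    simp_rw [h1]
    rw [intervalIntegral.integral_add (i1.add i2) i3, intervalIntegral.integral_add i1 i2,
      intervalIntegral.integral_const_mul, intervalIntegral.integral_const_mul,
      intervalIntegral.integral_const_mul]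
    rfl
  rw [h3, hV2]
  have h4 : (2 / 3) * (1 - ρ ^ 3) * IoneAux.M (-(1 / 3) - 1) (ρ ^ 3) = I1 ρ - 1 := by
    linarith
  have h5 : s * (l * (2 * ee ρ s / s ^ 4) * IoneAux.M (-(1 / 3) - 1) (ρ ^ 3) + -(Ψ / s ^ 2) * I2 ρ
      + (1 - l) / s * I1 ρ) = l * ((2 / 3) * (1 - ρ ^ 3) * IoneAux.M (-(1 / 3) - 1) (ρ ^ 3))
      - Ψ * (I2 ρ / s) + (1 - l) * I1 ρ := by
    simp only [ee]
    field_simp
    ring
  rw [h5, h4]
  ring

theorem bb_mem {ρ s : ℝ} (hd : Dom ρ s) : s ≤ bb ρ s ∧ bb ρ s < 1 ∧ K (bb ρ s) = K s + ee ρ s := by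
  have hk := hd.KD
  have h1 := Uf_mem hk (τ := 0) le_rfl zero_le_one
  refine ⟨h1.1.trans h1.2.1, h1.2.2, ?_⟩
  refine K_Kinv ?_ hk.K1.le
  have : 0 ≤ K s := by
    simp only [K]
    nlinarith [mul_nonneg (sq_nonneg s) (sub_nonneg.2 hk.s1.le), sq_nonneg s]
  linarith [hk.e0]

theorem intR {l Ψ ρ s : ℝ} (hd : Dom ρ s) :
    s * ∫ τ in (0 : ℝ)..1, HR l Ψ (bb ρ s) s (VV ρ s * τ) =
      l + kw ρ s - l * XX ρ s - Ψ * XX ρ s := by
  have hs := hd.s0
  have hk := hd.KD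
  have hee : 0 ≤ ee ρ s := hk.e0
  have hV2 : VV ρ s ^ 2 = 2 * ee ρ s := Real.sq_sqrt (by linarith)
  obtain ⟨hb1, hb2, hb3⟩ := bb_mem hd
  have hU : ∀ τ ∈ Icc (0 : ℝ) 1, 0 < Uf s (ee ρ s) τ ∧ Uf s (ee ρ s) τ < 1 := by
    intro τ hτ
    have := Uf_mem hk hτ.1 hτ.2
    exact ⟨hs.trans_le this.1, lt_of_le_of_lt this.2.1 this.2.2⟩
  have h1 : ∀ τ ∈ uIcc (0 : ℝ) 1, HR l Ψ (bb ρ s) s (VV ρ s * τ) =
      l * (2 * ee ρ s * (τ ^ 2 / (Uf s (ee ρ s) τ ^ 3 * (1 - Uf s (ee ρ s) τ))))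
      + (-Ψ) * (1 / Uf s (ee ρ s) τ) + (1 - l - Ψ) * (1 / (1 - Uf s (ee ρ s) τ)) := by
    intro τ hτ
    rw [uIcc_of_le zero_le_one] at hτ
    have hUR : UR (bb ρ s) s (VV ρ s * τ) = Uf s (ee ρ s) τ := by
      have h2 : K (bb ρ s) - (VV ρ s * τ) ^ 2 / 2 = K s + (1 - τ ^ 2) * ee ρ s := by
        rw [hb3, mul_pow, hV2]; ring
      unfold UR
      rw [h2]
      exact max_eq_right (Uf_mem hk hτ.1 hτ.2).1
    have h3 := (hU τ hτ).1.ne'
    have h4 : 1 - Uf s (ee ρ s) τ ≠ 0 := (sub_pos.2 (hU τ hτ).2).ne'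
    unfold HR Aa
    rw [hUR, mul_pow, hV2]
    field_simp
    ring
  have hUc := continuous_Uf s (ee ρ s)
  have i1 : IntervalIntegrable (fun τ : ℝ => 2 * ee ρ s *
      (τ ^ 2 / (Uf s (ee ρ s) τ ^ 3 * (1 - Uf s (ee ρ s) τ)))) volume 0 1 := by
    refine ContinuousOn.intervalIntegrable ?_
    rw [uIcc_of_le zero_le_one]
    refine continuousOn_const.mul ((continuous_id.pow 2).continuousOn.div
      ((hUc.pow 3).mul (continuous_const.sub hUc)).continuousOn ?_)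
    intro τ hτ
    exact mul_ne_zero (pow_ne_zero _ (hU τ hτ).1.ne') (sub_pos.2 (hU τ hτ).2).ne'
  have i2 : IntervalIntegrable (fun τ : ℝ => 1 / Uf s (ee ρ s) τ) volume 0 1 := by
    refine ContinuousOn.intervalIntegrable ?_
    rw [uIcc_of_le zero_le_one]
    exact continuousOn_const.div hUc.continuousOn (fun τ hτ => (hU τ hτ).1.ne')
  have i3 : IntervalIntegrable (fun τ : ℝ => 1 / (1 - Uf s (ee ρ s) τ)) volume 0 1 := by
    refine ContinuousOn.intervalIntegrable ?_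
    rw [uIcc_of_le zero_le_one]
    exact continuousOn_const.div (continuous_const.sub hUc).continuousOn
      (fun τ hτ => (sub_pos.2 (hU τ hτ).2).ne')
  have h3 : ∫ τ in (0 : ℝ)..1, HR l Ψ (bb ρ s) s (VV ρ s * τ) =
      l * (1 / s - kap1 s (ee ρ s)) + (-Ψ) * kap1 s (ee ρ s)
      + (1 - l - Ψ) * kapw s (ee ρ s) := by
    rw [intervalIntegral.integral_congr h1,
      intervalIntegral.integral_add ((i1.const_mul l).add (i2.const_mul _)) (i3.const_mul _),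
      intervalIntegral.integral_add (i1.const_mul l) (i2.const_mul _),
      intervalIntegral.integral_const_mul l, intervalIntegral.integral_const_mul,
      intervalIntegral.integral_const_mul, intervalIntegral.integral_const_mul, J3t_eq hk]
    rfl
  rw [h3]
  simp only [kw, XX, k1]
  field_simp
  ring

end CellAux

open CellAux in
theorem cell_nonpos {L : ℝ} {m θ w : ℝ → ℝ} (h : Sol L m θ w) {l Ψ : ℝ} (hl : 0 ≤ l)
    (hv : Valid l Ψ) {x1 x2 : ℝ} (h1 : 0 ≤ x1) (h12 : x1 < x2) (h2 : x2 ≤ L)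
    (hw1 : w x1 = 0) (hw2 : w x2 = 0) (hpos : ∀ x ∈ Ioo x1 x2, 0 < w x) :
    ∫ x in x1..x2, pay l Ψ θ w x ≤ 0 := by
  obtain ⟨hΨ, hΨ1, hF⟩ := hv
  have hsub : Icc x1 x2 ⊆ Icc 0 L := Icc_subset_Icc h1 h2
  have hθc : ContinuousOn θ (Icc x1 x2) := h.cont.1.mono hsub
  have hw0 : ∀ t ∈ Icc x1 x2, 0 ≤ w t := by
    intro t ht
    rcases eq_or_lt_of_le ht.1 with h3 | h3
    · rw [← h3, hw1]
    · rcases eq_or_lt_of_le ht.2 with h4 | h4
      · rw [h4, hw2]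
      · exact (hpos t ⟨h3, h4⟩).le
  have hder : ∀ x ∈ Ioo x1 x2, HasDerivAt θ (w x) x := fun x hx =>
    (h.der x (hsub ⟨hx.1.le, hx.2.le⟩)).hasDerivAt
      (Icc_mem_nhds (h1.trans_lt hx.1) (hx.2.trans_le h2))
  have hmono : StrictMonoOn θ (Icc x1 x2) := by
    refine strictMonoOn_of_deriv_pos (convex_Icc _ _) hθc ?_
    rw [interior_Icc]
    intro x hx
    rw [(hder x hx).deriv]; exact hpos x hx
  set a := θ x1 with ha
  set b := θ x2 with hb
  have hx1m : x1 ∈ Icc x1 x2 := ⟨le_rfl, h12.le⟩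
  have hx2m : x2 ∈ Icc x1 x2 := ⟨h12.le, le_rfl⟩
  have hab : a < b := hmono hx1m hx2m h12
  have ha0 : 0 < a := (h.bounds (hsub hx1m)).1
  have hb1' : b ≤ 1 := (h.bounds (hsub hx2m)).2.1
  -- energies
  have hEL : ∀ x ∈ Icc x1 x2, w x ^ 2 ≤ 2 / 3 * (θ x ^ 3 - a ^ 3) := by
    intro x hx
    have := h.energyL h1 hx.1 (hx.2.trans h2) (fun t ht => hw0 t ⟨ht.1, ht.2.trans hx.2⟩)
    rw [hw1] at this
    linarith
  have hER : ∀ x ∈ Icc x1 x2, w x ^ 2 ≤ 2 * (K b - K (θ x)) := by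
    intro x hx
    have := h.energyR (h1.trans hx.1) hx.2 h2 (fun t ht => hw0 t ⟨hx.1.trans ht.1, ht.2⟩)
    rw [hw2] at this
    linarith
  -- b < 1
  have hb1 : b < 1 := by
    rcases lt_or_eq_of_le hb1' with h3 | h3
    · exact h3
    · exfalso
      have hK1 : K b = 1 / 6 := by rw [h3]; norm_num [K]
      have hle : ∀ x ∈ Icc x1 x2, w x ≤ 1 - θ x := by
        intro x hx
        have h4 := hER x hx
        have hbd := h.bounds (hsub hx)
        rw [hK1] at h4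
        have h5 : 2 * (1 / 6 - K (θ x)) = (1 - θ x) ^ 2 * (1 + 2 * θ x) / 3 := by
          simp only [K]; ring
        rw [h5] at h4
        have h6 : w x ^ 2 ≤ (1 - θ x) ^ 2 := by
          nlinarith [mul_nonneg (sq_nonneg (1 - θ x)) (sub_nonneg.2 hbd.2.1)]
        exact abs_le_of_sq_le_sq' h6 (by linarith [hbd.2.1]) |>.2
      have hmonoE : MonotoneOn (fun t => (1 - θ t) * Real.exp t) (Icc x1 x2) := by
        refine monotoneOn_of_deriv_nonneg (convex_Icc _ _)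
          ((continuousOn_const.sub hθc).mul Real.continuous_exp.continuousOn) ?_ ?_
        · rw [interior_Icc]
          intro x hx
          exact (((hder x hx).const_sub 1).mul
            (Real.hasDerivAt_exp x)).differentiableAt.differentiableWithinAt
        · rw [interior_Icc]
          intro x hx
          have h6 := ((hder x hx).const_sub 1).mul (Real.hasDerivAt_exp x)
          have h7 : deriv (fun t => (1 - θ t) * Real.exp t) x
              = -w x * Real.exp x + (1 - θ x) * Real.exp x := h6.deriv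
          rw [h7]
          have h8 := hle x ⟨hx.1.le, hx.2.le⟩
          have h9 := Real.exp_pos x
          nlinarith
      have h4 := hmonoE hx1m hx2m h12.le
      simp only at h4
      rw [← ha, ← hb, h3, sub_self, zero_mul] at h4
      have h5 : 0 < (1 - a) * Real.exp x1 := mul_pos (by linarith) (Real.exp_pos _)
      linarith
  obtain ⟨ρ, s, hd, hρs, hbb⟩ := exists_dom ha0 hab hb1
  have hs := hd.s0
  have hb0 : 0 < b := ha0.trans hab
  obtain ⟨hsb', -, hKb⟩ := bb_mem hd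
  rw [hbb] at hsb' hKb
  have hee : 0 < ee ρ s := by
    have : ρ ^ 3 < 1 := pow_lt_one₀ hd.ρ0.le hd.ρ1 (by norm_num)
    simp only [ee]
    have : 0 < s ^ 3 * (1 - ρ ^ 3) := mul_pos (pow_pos hs 3) (by linarith)
    linarith
  have hV2 : VV ρ s ^ 2 = 2 * ee ρ s := Real.sq_sqrt (by linarith)
  have has : a < s := by
    rw [← hρs]
    have := mul_lt_mul_of_pos_right hd.ρ1 hs
    linarith
  have hsb : s < b := by
    rcases lt_or_eq_of_le hsb' with h3 | h3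
    · exact h3
    · exfalso; rw [← h3] at hKb; linarith
  -- the switching point
  obtain ⟨xs, hxs, hθs⟩ : s ∈ θ '' Icc x1 x2 :=
    intermediate_value_Icc h12.le hθc ⟨has.le, hsb.le⟩
  have hxs1 : x1 < xs := by
    rcases lt_or_eq_of_le hxs.1 with h3 | h3
    · exact h3
    · exfalso; rw [← h3, ← ha] at hθs; linarith
  have hxs2 : xs < x2 := by
    rcases lt_or_eq_of_le hxs.2 with h3 | h3
    · exact h3
    · exfalso; rw [h3, ← hb] at hθs; linarith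
  -- left piece
  have hHLc := HL_cont l Ψ ha0
  have hHRc : Continuous (HR l Ψ b s) := HR_cont l Ψ hs hd.s1 hb0.le hb1
  have hL : ∫ x in x1..xs, pay l Ψ θ w x ≤ ∫ ν in (0 : ℝ)..VV ρ s, HL l Ψ a ν := by
    have hsubL : Icc x1 xs ⊆ Icc x1 x2 := Icc_subset_Icc le_rfl hxs2.le
    have hc : ContinuousOn (fun x => Real.sqrt (2 / 3 * (θ x ^ 3 - a ^ 3))) (Icc x1 xs) :=
      Real.continuous_sqrt.comp_continuousOn
        (continuousOn_const.mul (((hθc.mono hsubL).pow 3).sub continuousOn_const))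
    have hgc : Continuous (fun v => ∫ t in (0 : ℝ)..v, HL l Ψ a t) :=
      continuous_iff_continuousAt.2 fun v => (int_hasDeriv hHLc v).continuousAt
    have key := piece h hl hΨ hΨ1 h1 hxs1.le (hxs2.le.trans h2)
      (G := fun x => ∫ t in (0 : ℝ)..Real.sqrt (2 / 3 * (θ x ^ 3 - a ^ 3)), HL l Ψ a t)
      (v := fun x => Real.sqrt (2 / 3 * (θ x ^ 3 - a ^ 3)))
      (hgc.comp_continuousOn hc) ?_ ?_
    · have e1 : Real.sqrt (2 / 3 * (θ x1 ^ 3 - a ^ 3)) = 0 := by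
        rw [← ha, sub_self, mul_zero, Real.sqrt_zero]
      have e2 : Real.sqrt (2 / 3 * (θ xs ^ 3 - a ^ 3)) = VV ρ s := by
        rw [hθs, ← hρs]
        unfold VV
        congr 1
        simp only [ee]; ring
      simp only [e1, e2, intervalIntegral.integral_same, sub_zero] at key
      exact key
    · intro x hx
      have hx' : x ∈ Icc x1 x2 := ⟨hx.1.le, hx.2.le.trans hxs2.le⟩
      refine ⟨hpos x ⟨hx.1, hx.2.trans hxs2⟩, Real.le_sqrt_of_sq_le (hEL x hx')⟩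
    · intro x hx
      have hx' : x ∈ Icc x1 x2 := ⟨hx.1.le, hx.2.le.trans hxs2.le⟩
      have hθa : a < θ x := hmono hx1m hx' hx.1
      have hθ0 : 0 < θ x := ha0.trans hθa
      have h3 : a ^ 3 < θ x ^ 3 := pow_lt_pow_left₀ hθa ha0.le (by norm_num)
      have h4 : 0 < 2 / 3 * (θ x ^ 3 - a ^ 3) := by linarith
      have hd1 : HasDerivAt (fun x => 2 / 3 * (θ x ^ 3 - a ^ 3)) (2 * θ x ^ 2 * w x) x := by
        have := (((hder x ⟨hx.1, hx.2.trans hxs2⟩).pow 3).sub_const (a ^ 3)).const_mul (2 / 3)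
        refine this.congr_deriv ?_
        push_cast; ring
      have hd2 := hd1.sqrt h4.ne'
      have hd3 := (int_hasDeriv hHLc (Real.sqrt (2 / 3 * (θ x ^ 3 - a ^ 3)))).comp x hd2
      set v := Real.sqrt (2 / 3 * (θ x ^ 3 - a ^ 3)) with hvdef
      have hv0 : 0 < v := Real.sqrt_pos.2 h4
      have hv2 : v ^ 2 = 2 / 3 * (θ x ^ 3 - a ^ 3) := Real.sq_sqrt h4.le
      refine hd3.congr_deriv ?_
      have hUL : UL a v = θ x := UL_eq hθ0.le (by rw [hv2]; ring)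
      unfold HL
      rw [hUL]
      field_simp
  have hR : ∫ x in xs..x2, pay l Ψ θ w x ≤ ∫ ν in (0 : ℝ)..VV ρ s, HR l Ψ b s ν := by
    have hsubR : Icc xs x2 ⊆ Icc x1 x2 := Icc_subset_Icc hxs1.le le_rfl
    have hKc : Continuous K := by unfold K; fun_prop
    have hc : ContinuousOn (fun x => Real.sqrt (2 * (K b - K (θ x)))) (Icc xs x2) :=
      Real.continuous_sqrt.comp_continuousOn
        (continuousOn_const.mul (continuousOn_const.sub (hKc.comp_continuousOn (hθc.mono hsubR))))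
    have hgc : Continuous (fun v => -∫ t in (0 : ℝ)..v, HR l Ψ b s t) :=
      continuous_iff_continuousAt.2 fun v => (int_hasDeriv hHRc v).continuousAt.neg
    have key := piece h hl hΨ hΨ1 (h1.trans hxs1.le) hxs2.le h2
      (G := fun x => -∫ t in (0 : ℝ)..Real.sqrt (2 * (K b - K (θ x))), HR l Ψ b s t)
      (v := fun x => Real.sqrt (2 * (K b - K (θ x))))
      (hgc.comp_continuousOn hc) ?_ ?_
    · have e1 : Real.sqrt (2 * (K b - K (θ x2))) = 0 := by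
        rw [← hb, sub_self, mul_zero, Real.sqrt_zero]
      have e2 : Real.sqrt (2 * (K b - K (θ xs))) = VV ρ s := by
        rw [hθs, hKb]
        unfold VV
        congr 1
        ring
      simp only [e1, e2, intervalIntegral.integral_same] at key
      linarith
    · intro x hx
      have hx' : x ∈ Icc x1 x2 := ⟨hxs1.le.trans hx.1.le, hx.2.le⟩
      refine ⟨hpos x ⟨hxs1.trans hx.1, hx.2⟩, Real.le_sqrt_of_sq_le (hER x hx')⟩
    · intro x hx
      have hx' : x ∈ Icc x1 x2 := ⟨hxs1.le.trans hx.1.le, hx.2.le⟩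
      have hθs' : s < θ x := by rw [← hθs]; exact hmono hxs hx' hx.1
      have hθb : θ x < b := hmono hx' hx2m hx.2
      have hθ0 : 0 < θ x := hs.trans hθs'
      have hθ1 : θ x < 1 := hθb.trans hb1
      have h3 : K (θ x) < K b := K_strictMonoOn ⟨hθ0.le, hθ1.le⟩ ⟨hb0.le, hb1'⟩ hθb
      have h4 : 0 < 2 * (K b - K (θ x)) := by linarith
      have hd0 : HasDerivAt (fun x => K (θ x)) (θ x * (1 - θ x) * w x) x := by
        have hh := hder x ⟨hxs1.trans hx.1, hx.2⟩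
        have := ((hh.pow 2).div_const 2).sub ((hh.pow 3).div_const 3)
        refine this.congr_deriv ?_
        push_cast; ring
      have hd1 : HasDerivAt (fun x => 2 * (K b - K (θ x))) (-2 * (θ x * (1 - θ x) * w x)) x := by
        have := (hd0.const_sub (K b)).const_mul 2
        refine this.congr_deriv ?_
        ring
      have hd2 := hd1.sqrt h4.ne'
      have hd3 := ((int_hasDeriv hHRc (Real.sqrt (2 * (K b - K (θ x))))).neg).comp x hd2
      set v := Real.sqrt (2 * (K b - K (θ x))) with hvdef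
      have hv0 : 0 < v := Real.sqrt_pos.2 h4
      have hv2 : v ^ 2 = 2 * (K b - K (θ x)) := Real.sq_sqrt h4.le
      refine hd3.congr_deriv ?_
      have hUR : UR b s v = θ x := by
        have : K b - v ^ 2 / 2 = K (θ x) := by rw [hv2]; ring
        unfold UR
        rw [this, Kinv_K hθ0.le hθ1.le]
        exact max_eq_right hθs'.le
      have h5 : 1 - θ x ≠ 0 := (sub_pos.2 hθ1).ne'
      unfold HR
      rw [hUR]
      field_simp
  -- sum
  have hpi : ∀ p q, x1 ≤ p → p ≤ q → q ≤ x2 → IntervalIntegrable (pay l Ψ θ w) volume p q := by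
    intro p q hp hpq hq
    refine ContinuousOn.intervalIntegrable ?_
    rw [uIcc_of_le hpq]
    exact (pay_cont h l Ψ).mono (Icc_subset_Icc (h1.trans hp) (hq.trans h2))
  rw [← intervalIntegral.integral_add_adjacent_intervals (hpi x1 xs le_rfl hxs1.le hxs2.le)
    (hpi xs x2 hxs1.le hxs2.le le_rfl)]
  have hcL : ∫ ν in (0 : ℝ)..VV ρ s, HL l Ψ a ν
      = VV ρ s * ∫ σ in (0 : ℝ)..1, HL l Ψ a (VV ρ s * σ) := by
    have := intervalIntegral.smul_integral_comp_mul_left (a := (0 : ℝ)) (b := 1)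
      (fun ν => HL l Ψ a ν) (VV ρ s)
    rw [smul_eq_mul, mul_zero, mul_one] at this
    exact this.symm
  have hcR : ∫ ν in (0 : ℝ)..VV ρ s, HR l Ψ b s ν
      = VV ρ s * ∫ σ in (0 : ℝ)..1, HR l Ψ b s (VV ρ s * σ) := by
    have := intervalIntegral.smul_integral_comp_mul_left (a := (0 : ℝ)) (b := 1)
      (fun ν => HR l Ψ b s ν) (VV ρ s)
    rw [smul_eq_mul, mul_zero, mul_one] at this
    exact this.symm
  have hiL := intL (l := l) (Ψ := Ψ) hd
  have hiR := intR (l := l) (Ψ := Ψ) hd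
  rw [hρs] at hiL
  rw [hbb] at hiR
  have hFs := hF ρ s hd
  have hsum : s * ((∫ σ in (0 : ℝ)..1, HL l Ψ a (VV ρ s * σ))
      + ∫ σ in (0 : ℝ)..1, HR l Ψ b s (VV ρ s * σ)) = F l Ψ ρ s := by
    rw [mul_add, hiL, hiR]
    simp only [F]; ring
  have hneg : (∫ σ in (0 : ℝ)..1, HL l Ψ a (VV ρ s * σ))
      + (∫ σ in (0 : ℝ)..1, HR l Ψ b s (VV ρ s * σ)) ≤ 0 := by
    by_contra hcon
    push Not at hcon
    have := mul_pos hs hcon
    linarith
  have hVn : 0 ≤ VV ρ s := Real.sqrt_nonneg _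
  calc _ ≤ (∫ ν in (0 : ℝ)..VV ρ s, HL l Ψ a ν) + ∫ ν in (0 : ℝ)..VV ρ s, HR l Ψ b s ν :=
        add_le_add hL hR
    _ = VV ρ s * ((∫ σ in (0 : ℝ)..1, HL l Ψ a (VV ρ s * σ))
      + ∫ σ in (0 : ℝ)..1, HR l Ψ b s (VV ρ s * σ)) := by rw [hcL, hcR]; ring
    _ ≤ 0 := mul_nonpos_of_nonneg_of_nonpos hVn hneg

end Pool.Agent.OptRes
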