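import Pool.Agent.OptRes.Defs2

/-!
# Gluing, reversing and constant segments
-/

open MeasureTheory Set Filter Topology

namespace Pool.Agent.OptRes

section basic

variable {L : ℝ} {m θ w : ℝ → ℝ}

private theorem glu_cont (h : Seg L m θ w) : ContinuousOn θ (Icc 0 L) :=
  fun x hx => (h.der x hx).continuousWithinAt

private theorem glu_mint (h : Seg L m θ w) : IntervalIntegrable m volume 0 L := by
  rw [intervalIntegrable_iff_integrableOn_Ioo_of_le h.L_pos.le]
  have : Integrable m (volume.restrict (Ioo 0 L)) := by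
    refine Integrable.of_bound h.meas 1 ?_
    filter_upwards [h.bound] with x hx
    rw [Real.norm_eq_abs, abs_le]
    constructor <;> linarith [hx.1, hx.2]
  exact this

private theorem glu_tint (h : Seg L m θ w) : IntervalIntegrable θ volume 0 L := by
  have hc : ContinuousOn θ (uIcc 0 L) := by
    rw [uIcc_of_le h.L_pos.le]; exact glu_cont h
  exact hc.intervalIntegrable

private theorem glu_fint (h : Seg L m θ w) :
    IntervalIntegrable (fun t => θ t * (θ t - m t)) volume 0 L := by
  have hc : ContinuousOn θ (uIcc 0 L) := by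
    rw [uIcc_of_le h.L_pos.le]; exact glu_cont h
  exact (hc.intervalIntegrable.sub (glu_mint h)).continuousOn_mul hc

private theorem glu_sub {x y : ℝ} (hx : 0 ≤ x) (hxy : x ≤ y) (hy : y ≤ L) :
    uIcc x y ⊆ uIcc 0 L := by
  rw [uIcc_of_le hxy, uIcc_of_le (hx.trans (hxy.trans hy))]
  exact Icc_subset_Icc hx hy

private theorem glu_fint' (h : Seg L m θ w) {x y : ℝ} (hx : 0 ≤ x) (hxy : x ≤ y) (hy : y ≤ L) :
    IntervalIntegrable (fun t => θ t * (θ t - m t)) volume x y :=
  (glu_fint h).mono_set (glu_sub hx hxy hy)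

private theorem glu_incr (h : Seg L m θ w) {x y : ℝ} (hx : 0 ≤ x) (hxy : x ≤ y) (hy : y ≤ L) :
    w y = w x + ∫ t in x..y, θ t * (θ t - m t) := by
  rw [h.eqn y ⟨hx.trans hxy, hy⟩, h.eqn x ⟨hx, hxy.trans hy⟩, add_assoc]
  congr 1
  exact (intervalIntegral.integral_add_adjacent_intervals
    (glu_fint' h le_rfl hx (hxy.trans hy)) (glu_fint' h hx hxy hy)).symm

end basic

/-- glued function -/
private noncomputable def glu (L : ℝ) (f g : ℝ → ℝ) (x : ℝ) : ℝ := if x ≤ L then f x else g (x - L)

private theorem glu_left {L : ℝ} {f g : ℝ → ℝ} {x : ℝ} (h : x ≤ L) : glu L f g x = f x :=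
  if_pos h

private theorem glu_right {L : ℝ} {f g : ℝ → ℝ} {x : ℝ} (h : L < x) : glu L f g x = g (x - L) :=
  if_neg (not_le.2 h)

private theorem glu_intL {L x : ℝ} {f g : ℝ → ℝ} (hx : 0 ≤ x) (hxL : x ≤ L) :
    ∫ t in (0 : ℝ)..x, glu L f g t = ∫ t in (0 : ℝ)..x, f t := by
  refine intervalIntegral.integral_congr fun t ht => ?_
  rw [uIcc_of_le hx] at ht
  exact glu_left (ht.2.trans hxL)

private theorem glu_intR {L x : ℝ} {f g : ℝ → ℝ} (hL : 0 ≤ L) (hx : 0 ≤ x)
    (hf : IntervalIntegrable f volume 0 L) (hg : IntervalIntegrable g volume 0 x) :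
    ∫ t in (0 : ℝ)..(L + x), glu L f g t =
      (∫ t in (0 : ℝ)..L, f t) + ∫ t in (0 : ℝ)..x, g t := by
  have h1 : IntervalIntegrable (glu L f g) volume 0 L := by
    refine hf.congr ?_
    intro t ht
    rw [uIoc_of_le hL] at ht
    exact (glu_left ht.2).symm
  have hg' : IntervalIntegrable (fun t => g (t - L)) volume L (L + x) := by
    have := hg.comp_sub_right L
    simpa [add_comm] using this
  have h2 : IntervalIntegrable (glu L f g) volume L (L + x) := by
    refine hg'.congr ?_
    intro t ht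
    rw [uIoc_of_le (by linarith)] at ht
    exact (glu_right ht.1).symm
  rw [← intervalIntegral.integral_add_adjacent_intervals h1 h2, glu_intL hL le_rfl]
  congr 1
  have h3 : ∫ t in L..(L + x), glu L f g t = ∫ t in L..(L + x), g (t - L) := by
    refine intervalIntegral.integral_congr_ae (Eventually.of_forall fun t ht => ?_)
    rw [uIoc_of_le (by linarith)] at ht
    exact glu_right ht.1
  rw [h3, intervalIntegral.integral_comp_sub_right]
  simp

private theorem glu_qmp (L L' : ℝ) :
    Measure.QuasiMeasurePreserving (fun x : ℝ => x - L) (volume.restrict (Ioo L (L + L')))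
      (volume.restrict (Ioo 0 L')) := by
  have h1 := (measurePreserving_sub_right (volume : Measure ℝ) L).quasiMeasurePreserving
  refine h1.restrict ?_
  intro x hx
  exact ⟨by linarith [hx.1], by linarith [hx.2]⟩

private theorem glu_ae {L L' : ℝ} {P : ℝ → Prop}
    (h1 : ∀ᵐ x ∂(volume.restrict (Ioo 0 L)), P x)
    (h2 : ∀ᵐ x ∂(volume.restrict (Ioo L (L + L'))), P x) :
    ∀ᵐ x ∂(volume.restrict (Ioo 0 (L + L'))), P x := by
  rw [ae_restrict_iff' measurableSet_Ioo] at h1 h2 ⊢
  have h3 : ∀ᵐ x ∂(volume : Measure ℝ), x ≠ L := by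
    rw [ae_iff]
    simp
  filter_upwards [h1, h2, h3] with x hx1 hx2 hx3 hx
  rcases lt_trichotomy x L with h | h | h
  · exact hx1 ⟨hx.1, h⟩
  · exact absurd h hx3
  · exact hx2 ⟨h, hx.2⟩

private theorem glu_seg {L L' : ℝ} {m θ w m' θ' w' : ℝ → ℝ} (h : Seg L m θ w)
    (h' : Seg L' m' θ' w') (hθ : θ L = θ' 0) (hw : w L = w' 0) (hpos : ∀ x ∈ Icc 0 L, 0 < θ x) :
    Seg (L + L') (glu L m m') (glu L θ θ') (glu L w w') := by
  have hL := h.L_pos
  have hL' := h'.L_pos
  have hq := glu_qmp L L'
  refine { L_pos := by linarith, meas := ?_, bound := ?_, der := ?_, eqn := ?_, pos := ?_ }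
  · have h1 : AEStronglyMeasurable (glu L m m') (volume.restrict (Ioc 0 L)) := by
      rw [← restrict_Ioo_eq_restrict_Ioc]
      refine h.meas.congr ?_
      refine (ae_restrict_mem measurableSet_Ioo).mono fun x hx => ?_
      exact (glu_left hx.2.le).symm
    have h2 : AEStronglyMeasurable (glu L m m') (volume.restrict (Ioo L (L + L'))) := by
      refine (h'.meas.comp_quasiMeasurePreserving hq).congr ?_
      refine (ae_restrict_mem measurableSet_Ioo).mono fun x hx => ?_
      exact (glu_right hx.1).symm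
    have h3 := (aestronglyMeasurable_union_iff.2 ⟨h1, h2⟩)
    refine h3.mono_measure (Measure.restrict_mono ?_ le_rfl)
    intro x hx
    rcases le_or_gt x L with hx1 | hx1
    · exact Or.inl ⟨hx.1, hx1⟩
    · exact Or.inr ⟨hx1, hx.2⟩
  · refine glu_ae ?_ ?_
    · filter_upwards [h.bound, ae_restrict_mem measurableSet_Ioo] with x hx hx'
      rw [glu_left hx'.2.le]
      exact hx
    · filter_upwards [hq.ae h'.bound, ae_restrict_mem measurableSet_Ioo] with x hx hx'
      rw [glu_right hx'.1]
      exact hx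
  · intro x hx
    have e1 : HasDerivWithinAt (glu L θ θ') (glu L w w' x) (Icc 0 L) x := by
      rcases le_or_gt x L with hx1 | hx1
      · rw [glu_left hx1]
        refine (h.der x ⟨hx.1, hx1⟩).congr (fun y hy => glu_left hy.2) (glu_left hx1)
      · refine HasFDerivWithinAt.of_notMem_closure ?_
        rw [closure_Icc]
        intro h2
        linarith [h2.2]
    have key : ∀ (f g : ℝ → ℝ), f L = g 0 → ∀ y ∈ Icc L (L + L'), glu L f g y = g (y - L) := by
      intro f g hfg y hy
      rcases eq_or_lt_of_le hy.1 with h2 | h2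
      · rw [← h2, glu_left le_rfl, sub_self, hfg]
      · exact glu_right h2
    have e2 : HasDerivWithinAt (glu L θ θ') (glu L w w' x) (Icc L (L + L')) x := by
      rcases le_or_gt L x with hx1 | hx1
      · have hxm : x ∈ Icc L (L + L') := ⟨hx1, hx.2⟩
        rw [key w w' hw x hxm]
        have h3 : HasDerivWithinAt (fun y : ℝ => y - L) 1 (Icc L (L + L')) x :=
          ((hasDerivAt_id x).sub_const L).hasDerivWithinAt
        have hmt : MapsTo (fun y : ℝ => y - L) (Icc L (L + L')) (Icc 0 L') :=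
          fun y hy => ⟨by linarith [hy.1], by linarith [hy.2]⟩
        have h4 := (h'.der (x - L) ⟨by linarith, by linarith [hx.2]⟩).scomp x h3 hmt
        rw [one_smul] at h4
        exact h4.congr (fun y hy => key θ θ' hθ y hy) (key θ θ' hθ x hxm)
      · refine HasFDerivWithinAt.of_notMem_closure ?_
        rw [closure_Icc]
        intro h2
        linarith [h2.1]
    have e3 := e1.union e2
    rwa [Icc_union_Icc_eq_Icc hL.le (by linarith)] at e3
  · intro x hx
    have hf : (fun t => glu L θ θ' t * (glu L θ θ' t - glu L m m' t)) =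
        glu L (fun t => θ t * (θ t - m t)) (fun t => θ' t * (θ' t - m' t)) := by
      ext t
      unfold glu
      split_ifs <;> rfl
    rw [hf, glu_left (f := w) hL.le]
    rcases le_or_gt x L with hx1 | hx1
    · rw [glu_left hx1, glu_intL hx.1 hx1]
      exact h.eqn x ⟨hx.1, hx1⟩
    · rw [glu_right hx1]
      have h5 : x = L + (x - L) := by ring
      rw [h5, glu_intR hL.le (by linarith) (glu_fint h)
        (glu_fint' h' le_rfl (by linarith) (by linarith [hx.2])), ← h5,
        h'.eqn (x - L) ⟨by linarith, by linarith [hx.2]⟩, ← hw,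
        h.eqn L ⟨hL.le, le_rfl⟩]
      ring
  · intro x hx
    rcases le_or_gt x L with hx1 | hx1
    · rw [glu_left hx1]
      exact hpos x ⟨hx.1.le, hx1⟩
    · rw [glu_right hx1]
      exact h'.pos _ ⟨by linarith, by linarith [hx.2]⟩

theorem Reach.glue {L M N u v u' v' L' M' N' u'' v'' : ℝ} (h : Reach L M N u v u' v')
    (h' : Reach L' M' N' u' v' u'' v'') : Reach (L + L') (M + M') (N + N') u v u'' v'' := by
  obtain ⟨m, θ, w, hs, hp, h0, h1, h2, h3, h4, h5⟩ := h
  obtain ⟨m', θ', w', hs', hp', h0', h1', h2', h3', h4', h5'⟩ := h'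
  have hL := hs.L_pos
  have hL' := hs'.L_pos
  have hg : L < L + L' := by linarith
  refine ⟨glu L m m', glu L θ θ', glu L w w', glu_seg hs hs' (by rw [h2, h0']) (by rw [h3, h1']) hp,
    ?_, ?_, ?_, ?_, ?_, ?_, ?_⟩
  · intro x hx
    rcases le_or_gt x L with hx1 | hx1
    · rw [glu_left hx1]
      exact hp x ⟨hx.1, hx1⟩
    · rw [glu_right hx1]
      exact hp' _ ⟨by linarith, by linarith [hx.2]⟩
  · rw [glu_left hL.le, h0]
  · rw [glu_left hL.le, h1]
  · rw [glu_right hg, add_sub_cancel_left, h2']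
  · rw [glu_right hg, add_sub_cancel_left, h3']
  · rw [glu_intR hL.le hL'.le (glu_mint hs) (glu_mint hs'), h4, h4']
  · rw [glu_intR hL.le hL'.le (glu_tint hs) (glu_tint hs'), h5, h5']

theorem Reach.reverse {L M N u v u' v' : ℝ} (h : Reach L M N u v u' v') :
    Reach L M N u' (-v') u (-v) := by
  obtain ⟨m, θ, w, hs, hp, h0, h1, h2, h3, h4, h5⟩ := h
  have hmp : MeasurePreserving (fun x : ℝ => L - x) (volume.restrict (Ioo 0 L))
      (volume.restrict (Ioo 0 L)) := by
    have h1 := (Measure.measurePreserving_sub_left (volume : Measure ℝ) L).restrict_preimage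
      (measurableSet_Ioo : MeasurableSet (Ioo (0 : ℝ) L))
    rw [Set.preimage_const_sub_Ioo] at h1
    simpa using h1
  refine ⟨fun x => m (L - x), fun x => θ (L - x), fun x => - w (L - x),
    { L_pos := hs.L_pos, meas := ?_, bound := ?_, der := ?_, eqn := ?_, pos := ?_ },
    ?_, ?_, ?_, ?_, ?_, ?_, ?_⟩
  · exact hs.meas.comp_quasiMeasurePreserving hmp.quasiMeasurePreserving
  · exact hmp.quasiMeasurePreserving.ae hs.bound
  · intro x hx
    have hx' : L - x ∈ Icc 0 L := ⟨by linarith [hx.2], by linarith [hx.1]⟩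
    have h1 := (hs.der (L - x) hx')
    have h2 : HasDerivWithinAt (fun x : ℝ => L - x) (-1) (Icc 0 L) x := by
      simpa using ((hasDerivAt_id x).const_sub L).hasDerivWithinAt
    have h3 := h1.scomp x h2 (fun t ht => ⟨by linarith [ht.2], by linarith [ht.1]⟩)
    rw [neg_one_smul] at h3
    exact h3
  · intro x hx
    have h1 : ∫ t in (0 : ℝ)..x, θ (L - t) * (θ (L - t) - m (L - t))
        = ∫ t in (L - x)..(L - 0), θ t * (θ t - m t) :=
      intervalIntegral.integral_comp_sub_left (fun t => θ t * (θ t - m t)) L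
    have h2 := glu_incr hs (x := L - x) (y := L) (by linarith [hx.2]) (by linarith [hx.1]) le_rfl
    simp only [sub_zero] at h1 ⊢
    rw [h1]
    linarith
  · intro x hx
    exact hs.pos _ ⟨by linarith [hx.2], by linarith [hx.1]⟩
  · intro x hx
    exact hp _ ⟨by linarith [hx.2], by linarith [hx.1]⟩
  · simp only [sub_zero, h2]
  · simp only [sub_zero, h3]
  · simp only [sub_self, h0]
  · simp only [sub_self, h1]
  · rw [intervalIntegral.integral_comp_sub_left]
    simp only [sub_self, sub_zero, h4]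
  · rw [intervalIntegral.integral_comp_sub_left]
    simp only [sub_self, sub_zero, h5]

theorem Reach.const {c L : ℝ} (h0 : 0 < c) (h1 : c ≤ 1) (hL : 0 < L) :
    Reach L (c * L) (c * L) c 0 c 0 := by
  refine ⟨fun _ => c, fun _ => c, fun _ => 0,
    { L_pos := hL, meas := aestronglyMeasurable_const, bound := ?_, der := ?_, eqn := ?_,
      pos := fun _ _ => h0 }, fun _ _ => h0, rfl, rfl, rfl, rfl, ?_, ?_⟩
  · exact Eventually.of_forall fun _ => ⟨h0.le, h1⟩
  · intro x _
    exact (hasDerivAt_const x c).hasDerivWithinAt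
  · intro x _
    simp
  · simp [mul_comm]
  · simp [mul_comm]

theorem Reach.sol {L M N u u' : ℝ} (h : Reach L M N u 0 u' 0) :
    ∃ m θ w : ℝ → ℝ, Sol L m θ w ∧ ∫ x in (0 : ℝ)..L, m x = M ∧ ∫ x in (0 : ℝ)..L, θ x = N := by
  obtain ⟨m, θ, w, hs, hp, h0, h1, h2, h3, h4, h5⟩ := h
  exact ⟨m, θ, w, { hs with w0 := h1, wL := h3 }, h4, h5⟩

end Pool.Agent.OptRes
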