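import Pool.Agent.OptRes.Defs
import Pool.Agent.OptRes.Defs2
import Pool.Agent.OptRes.Geo
import Pool.Agent.OptRes.Glue
import Pool.Agent.OptRes.Arc

/-!
# MP_1c79f0_an, module Comp: the competitor
-/

open MeasureTheory Set Filter Topology

namespace Pool.Agent.OptRes

private theorem comp_pos {L M N u v u' v' : ℝ} (h : Reach L M N u v u' v') : 0 < L ∧ 0 ≤ N := by
  obtain ⟨m, θ, w, hS, hpos, -, -, -, -, -, hN⟩ := h
  refine ⟨hS.L_pos, ?_⟩
  rw [← hN]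
  exact intervalIntegral.integral_nonneg hS.L_pos.le (fun x hx => (hpos x hx).le)

/-- half cell from `a = ρ s` to `b` -/
private theorem comp_half {ρ s : ℝ} (h : Dom ρ s) :
    Reach (VV ρ s / s * (I2 ρ / s) + VV ρ s / s * XX ρ s) (0 + VV ρ s / s * XX ρ s)
      (VV ρ s / s * I1 ρ + VV ρ s / s * kw ρ s) (ρ * s) 0 (bb ρ s) 0 :=
  (arcL h).glue (arcR h)

private theorem comp_connect {u v : ℝ} (hu0 : 0 < u) (hu1 : u < 1) (hv0 : 0 < v) (hv1 : v < 1) :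
    ∃ L M N : ℝ, Reach L M N u 0 v 0 := by
  rcases lt_trichotomy u v with huv | huv | huv
  · obtain ⟨ρ, s, hd, h1, h2⟩ := exists_dom hu0 huv hv1
    have := comp_half hd
    rw [h1, h2] at this
    exact ⟨_, _, _, this⟩
  · subst huv
    exact ⟨_, _, _, Reach.const hu0 hu1.le one_pos⟩
  · obtain ⟨ρ, s, hd, h1, h2⟩ := exists_dom hv0 huv hu1
    have := (comp_half hd).reverse
    rw [neg_zero, h1, h2] at this
    exact ⟨_, _, _, this⟩

private theorem comp_copies {T M N a : ℝ} (h : Reach T M N a 0 a 0) (n : ℕ) :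
    Reach ((n + 1 : ℕ) * T) ((n + 1 : ℕ) * M) ((n + 1 : ℕ) * N) a 0 a 0 := by
  induction n with
  | zero => simpa using h
  | succ n ih =>
    have := ih.glue h
    push_cast at this ⊢
    convert this using 1 <;> ring

theorem competitor {ρ s m₀ : ℝ} (h : Dom ρ s) (hm : mbar ρ s = m₀) (h0 : 0 < m₀) (h1 : m₀ < 1) :
    ∃ C L₀ : ℝ, ∀ L ≥ L₀, ∃ m θ w : ℝ → ℝ, Sol L m θ w ∧
      ∫ x in (0 : ℝ)..L, m x = m₀ * L ∧ tbar ρ s * L - C ≤ ∫ x in (0 : ℝ)..L, θ x := by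
  have hs := h.s0
  have ha0 : 0 < ρ * s := mul_pos h.ρ0 hs
  have ha1 : ρ * s < 1 := by
    have : ρ * s < 1 * 1 := mul_lt_mul h.ρ1 h.s1.le hs zero_le_one
    simpa using this
  set a := ρ * s with ha
  -- the full cell
  have hhalf := comp_half h
  have hfull := hhalf.glue (by have := hhalf.reverse; rwa [neg_zero] at this)
  set T := VV ρ s / s * (I2 ρ / s) + VV ρ s / s * XX ρ s with hT
  set M := 0 + VV ρ s / s * XX ρ s with hM
  set N := VV ρ s / s * I1 ρ + VV ρ s / s * kw ρ s with hN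
  have hTpos : 0 < T := (comp_pos hhalf).1
  have hT' : T = VV ρ s / s * (I2 ρ / s + XX ρ s) := by rw [hT]; ring
  have hden : I2 ρ / s + XX ρ s ≠ 0 := by
    intro h2
    rw [hT', h2, mul_zero] at hTpos
    exact lt_irrefl _ hTpos
  have hMT : M = m₀ * T := by
    rw [← hm, hT', hM, mbar]
    generalize I2 ρ / s + XX ρ s = D at hden
    field_simp
    ring
  have hNT : N = tbar ρ s * T := by
    rw [hT', hN, tbar]
    generalize I2 ρ / s + XX ρ s = D at hden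
    field_simp
  -- connections
  have hc1 : 0 < m₀ / 2 ∧ m₀ / 2 < 1 := ⟨by linarith, by linarith⟩
  have hc2 : 0 < (1 + m₀) / 2 ∧ (1 + m₀) / 2 < 1 := ⟨by linarith, by linarith⟩
  obtain ⟨l1, μ1, n1, hr1⟩ := comp_connect ha0 ha1 hc2.1 hc2.2
  obtain ⟨l2, μ2, n2, hr2⟩ := comp_connect hc2.1 hc2.2 hc1.1 hc1.2
  have hp1 := comp_pos hr1
  have hp2 := comp_pos hr2
  set δ := m₀ * (l1 + l2) - (μ1 + μ2) with hδ
  -- the threshold
  obtain ⟨R0, hR0, hRa, hRb⟩ : ∃ R0 : ℝ, 0 < R0 ∧ 2 * |δ| < m₀ * R0 ∧ 2 * |δ| < (1 - m₀) * R0 := by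
    have h2 : 0 < 1 - m₀ := by linarith
    refine ⟨(2 * |δ| + 1) / m₀ + (2 * |δ| + 1) / (1 - m₀), by positivity, ?_, ?_⟩
    · have e1 : m₀ * ((2 * |δ| + 1) / m₀ + (2 * |δ| + 1) / (1 - m₀)) =
          2 * |δ| + 1 + m₀ * ((2 * |δ| + 1) / (1 - m₀)) := by field_simp
      rw [e1]
      have : 0 < m₀ * ((2 * |δ| + 1) / (1 - m₀)) := by positivity
      linarith
    · have e1 : (1 - m₀) * ((2 * |δ| + 1) / m₀ + (2 * |δ| + 1) / (1 - m₀)) =
          2 * |δ| + 1 + (1 - m₀) * ((2 * |δ| + 1) / m₀) := by field_simp; ring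
      rw [e1]
      have : 0 < (1 - m₀) * ((2 * |δ| + 1) / m₀) := by positivity
      linarith
  refine ⟨|tbar ρ s| * (l1 + l2 + R0 + 2 * T), l1 + l2 + R0 + 2 * T, fun L hL => ?_⟩
  -- number of copies
  have hq : 1 ≤ (L - (l1 + l2) - R0) / (2 * T) := by
    rw [le_div_iff₀ (by linarith)]
    linarith
  obtain ⟨n, hn⟩ : ∃ n : ℕ, ⌊(L - (l1 + l2) - R0) / (2 * T)⌋₊ = n + 1 := by
    have : 1 ≤ ⌊(L - (l1 + l2) - R0) / (2 * T)⌋₊ := Nat.le_floor (by exact_mod_cast hq)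
    exact ⟨⌊(L - (l1 + l2) - R0) / (2 * T)⌋₊ - 1, by omega⟩
  have hfl1 : ((n + 1 : ℕ) : ℝ) ≤ (L - (l1 + l2) - R0) / (2 * T) := by
    rw [← hn]; exact Nat.floor_le (by linarith)
  have hfl2 : (L - (l1 + l2) - R0) / (2 * T) < ((n + 1 : ℕ) : ℝ) + 1 := by
    rw [← hn]; exact Nat.lt_floor_add_one _
  rw [le_div_iff₀ (by linarith)] at hfl1
  rw [div_lt_iff₀ (by linarith)] at hfl2
  set k : ℝ := ((n + 1 : ℕ) : ℝ) with hk
  have hk0 : 0 < k := by rw [hk]; positivity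
  set R := L - (l1 + l2) - k * (2 * T) with hR
  have hR1 : R0 ≤ R := by rw [hR]; linarith
  have hR2 : R < R0 + 2 * T := by rw [hR]; nlinarith
  set d2 := m₀ * R + 2 * δ with hd2
  set d1 := (1 - m₀) * R - 2 * δ with hd1
  have habs := abs_le.1 (le_refl |δ|)
  have hd2p : 0 < d2 := by
    have : m₀ * R0 ≤ m₀ * R := mul_le_mul_of_nonneg_left hR1 h0.le
    rw [hd2]; linarith [habs.1]
  have hd1p : 0 < d1 := by
    have : (1 - m₀) * R0 ≤ (1 - m₀) * R := mul_le_mul_of_nonneg_left hR1 (by linarith)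
    rw [hd1]; linarith [habs.2]
  have hcop := comp_copies hfull n
  rw [← hk] at hcop
  have hall := (((hcop.glue hr1).glue (Reach.const hc2.1 hc2.2.le hd2p)).glue hr2).glue
    (Reach.const hc1.1 hc1.2.le hd1p)
  obtain ⟨m, θ, w, hS, hmI, hθI⟩ := hall.sol
  have hLe : k * (T + T) + l1 + d2 + l2 + d1 = L := by
    rw [hd1, hd2, hR]; ring
  rw [hLe] at hS hmI hθI
  refine ⟨m, θ, w, hS, ?_, ?_⟩
  · rw [hmI, hMT, hd1, hd2, hR, hδ]
    ring
  · rw [hθI]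
    have h3 : 0 ≤ (1 + m₀) / 2 * d2 := by positivity
    have h4 : 0 ≤ m₀ / 2 * d1 := by positivity
    have h5 : k * (N + N) = tbar ρ s * L - tbar ρ s * (l1 + l2 + R) := by
      rw [hNT, hR]; ring
    have h6 : tbar ρ s * (l1 + l2 + R) ≤ |tbar ρ s| * (l1 + l2 + R0 + 2 * T) := by
      have h7 : 0 ≤ l1 + l2 + R := by linarith [hp1.1, hp2.1]
      calc tbar ρ s * (l1 + l2 + R) ≤ |tbar ρ s| * (l1 + l2 + R) :=
            mul_le_mul_of_nonneg_right (le_abs_self _) h7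
        _ ≤ |tbar ρ s| * (l1 + l2 + R0 + 2 * T) :=
            mul_le_mul_of_nonneg_left (by linarith) (abs_nonneg _)
    linarith [hp1.2, hp2.2]

end Pool.Agent.OptRes
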