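import Pool.Agent.OptRes.KapD
import Pool.Agent.OptRes.Ione

/-!
# Critical point equations at maxima
-/

open MeasureTheory Set Filter Topology

namespace Pool.Agent.OptRes

namespace CritAux

theorem alg {i1 i2 k w m ψ r q s P Q t : ℝ} (hq : q ≠ 0) (hqr : q = 2 / 3 * (1 - r))
    (hs : 1 - s ≠ 0) (ht : (1 - s) * t = s) (hE0 : i1 - ψ * i2 = (1 + m) * k + m * w)
    (hR : (r * (i1 - 1) / q - (3 - i1) / 2) - ψ * (r * (i2 - 1) / q - (3 + i2) / 2)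
      - (1 + m) * (r * s * P - r / q * (1 - k)) - m * (r / q * (w - t) - r * s ^ 3 * Q) = 0)
    (hS : ψ * i2 - (1 + m) * (k + 3 / 2 * (1 - k) - (1 - s * r) * P)
      - m * (w - 3 / 2 * (w - t) + s ^ 2 * (1 - s * r) * Q) = 0) :
    m + (1 - s) * ψ = q * ((1 - s) * ((1 + m) * P - m * s ^ 2 * Q)) ∧
    3 - i1 - (3 + i2) * ψ = 2 * r * ((1 - s) * ((1 + m) * P - m * s ^ 2 * Q)) := by
  obtain ⟨z, hz⟩ : ∃ z, z = r / q := ⟨_, rfl⟩
  have hzq : z * q = r := by rw [hz]; field_simp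
  have hR1 : (z * (i1 - 1) - (3 - i1) / 2) - ψ * (z * (i2 - 1) - (3 + i2) / 2)
      - (1 + m) * (r * s * P - z * (1 - k)) - m * (z * (w - t) - r * s ^ 3 * Q) = 0 := by
    rw [hz]
    rw [← hR]
    ring
  -- multiplied by `1 - s`
  have hR2 : z * (m + (1 - s) * ψ) - (1 - s) * (3 - i1 - (3 + i2) * ψ) / 2
      - r * s * ((1 - s) * ((1 + m) * P - m * s ^ 2 * Q)) = 0 := by
    linear_combination (1 - s) * hR1 - z * m * ht - z * (1 - s) * hE0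
  have hS2 : - (1 - s) * (3 - i1 - (3 + i2) * ψ) / 2 - 3 / 2 * (m + (1 - s) * ψ)
      + (1 - s * r) * ((1 - s) * ((1 + m) * P - m * s ^ 2 * Q)) = 0 := by
    linear_combination (1 - s) * hS + 3 / 2 * m * ht + (1 - s) / 2 * hE0
  have hB : m + (1 - s) * ψ = q * ((1 - s) * ((1 + m) * P - m * s ^ 2 * Q)) := by
    linear_combination q * hR2 - q * hS2 - (m + (1 - s) * ψ) * hzq
      - 3 / 2 * (m + (1 - s) * ψ) * hqr
  refine ⟨hB, ?_⟩
  have h3 : (1 - s) * (3 - i1 - (3 + i2) * ψ - 2 * r * ((1 - s) * ((1 + m) * P - m * s ^ 2 * Q)))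
      = 0 := by
    linear_combination (-2) * hS2 - 3 * hB -
      3 * ((1 - s) * ((1 + m) * P - m * s ^ 2 * Q)) * hqr
  have h4 := (mul_eq_zero.1 h3).resolve_left hs
  linarith

end CritAux

theorem crit_of_max {l Ψ ρ s : ℝ} (hl : 0 < l) (hv : Valid l Ψ) (hΨ : 0 < Ψ) (hm : 1 - l < Ψ)
    (hd : Dom ρ s) (hF : F l Ψ ρ s = 0) : Crit l Ψ ρ s := by
  have hρ0 := hd.ρ0
  have hρ1 := hd.ρ1
  have hs0 := hd.s0
  have hs1 := hd.s1
  have hD := hd.D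
  have hr1 : ρ ^ 3 < 1 := pow_lt_one₀ hρ0.le hρ1 (by norm_num)
  have hq : 0 < qq ρ := by
    unfold qq
    linarith
  have hc : 0 < cc ρ s := by
    unfold cc
    have : s * ρ ^ 3 < 1 := by
      calc s * ρ ^ 3 < 1 * 1 := by
            refine mul_lt_mul'' hs1 hr1 hs0.le (by positivity)
        _ = 1 := by ring
    linarith
  -- derivative in `ρ`
  have hA : HasDerivAt (fun x => F l Ψ x s) 
      ((ρ ^ 3 * (I1 ρ - 1) / qq ρ - (3 - I1 ρ) / 2) / ρ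
        + (dkwr ρ s * (1 / ρ) + dkws ρ s * (0 / s))
        - l * ((dk1r ρ s * (1 / ρ) + dk1s ρ s * (0 / s))
            + (dkwr ρ s * (1 / ρ) + dkws ρ s * (0 / s)))
        - Ψ * ((ρ ^ 3 * (I2 ρ - 1) / qq ρ - (3 + I2 ρ) / 2) / ρ / s
            + ((dk1r ρ s * (1 / ρ) + dk1s ρ s * (0 / s))
            + (dkwr ρ s * (1 / ρ) + dkws ρ s * (0 / s))))) ρ := by
    have e1 := hasDerivAt_k1 (hasDerivAt_id ρ) (hasDerivAt_const ρ s) hd
    have e2 := hasDerivAt_kw (hasDerivAt_id ρ) (hasDerivAt_const ρ s) hd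
    have e3 := hasDerivAt_I1 hρ0 hρ1
    have e4 := hasDerivAt_I2 hρ0 hρ1
    exact ((e3.add e2).sub ((e1.add e2).const_mul l)).sub
      (((e4.div_const s).add (e1.add e2)).const_mul Ψ)
  have hB : HasDerivAt (fun x => F l Ψ ρ x) 
      (0 + (dkwr ρ s * (0 / ρ) + dkws ρ s * (1 / s))
        - l * ((dk1r ρ s * (0 / ρ) + dk1s ρ s * (1 / s))
            + (dkwr ρ s * (0 / ρ) + dkws ρ s * (1 / s)))
        - Ψ * (I2 ρ * (-(s ^ 2)⁻¹)
            + ((dk1r ρ s * (0 / ρ) + dk1s ρ s * (1 / s))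
            + (dkwr ρ s * (0 / ρ) + dkws ρ s * (1 / s))))) s := by
    have e1 := hasDerivAt_k1 (hasDerivAt_const s ρ) (hasDerivAt_id s) hd
    have e2 := hasDerivAt_kw (hasDerivAt_const s ρ) (hasDerivAt_id s) hd
    have e3 := hasDerivAt_const s (I1 ρ)
    have e4 := (hasDerivAt_inv hs0.ne').const_mul (I2 ρ)
    exact ((e3.add e2).sub ((e1.add e2).const_mul l)).sub
      ((e4.add (e1.add e2)).const_mul Ψ)
  -- local maxima
  have hmA : IsLocalMax (fun x => F l Ψ x s) ρ := by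
    have o1 : ∀ᶠ x in 𝓝 ρ, 0 < DD x s := by
      have : ContinuousAt (fun x => DD x s) ρ := by
        unfold DD
        fun_prop
      exact this.eventually (lt_mem_nhds hD)
    filter_upwards [o1, lt_mem_nhds hρ0, gt_mem_nhds hρ1] with x h1 h2 h3
    rw [hF]
    exact hv.2.2 x s ⟨h2, h3, hs0, hs1, h1⟩
  have hmB : IsLocalMax (fun x => F l Ψ ρ x) s := by
    have o1 : ∀ᶠ x in 𝓝 s, 0 < DD ρ x := by
      have : ContinuousAt (fun x => DD ρ x) s := by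
        unfold DD
        fun_prop
      exact this.eventually (lt_mem_nhds hD)
    filter_upwards [o1, lt_mem_nhds hs0, gt_mem_nhds hs1] with x h1 h2 h3
    rw [hF]
    exact hv.2.2 ρ x ⟨hρ0, hρ1, h2, h3, h1⟩
  have zA := hmA.hasDerivAt_eq_zero hA
  have zB := hmB.hasDerivAt_eq_zero hB
  have h1s : (1 : ℝ) - s ≠ 0 := by linarith
  have hE0 : I1 ρ - Ψ / s * I2 ρ = (1 + (Ψ + l - 1)) * k1 ρ s + (Ψ + l - 1) * kw ρ s := by
    have : F l Ψ ρ s = I1 ρ + kw ρ s - l * (k1 ρ s + kw ρ s) -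
        Ψ * (I2 ρ / s + (k1 ρ s + kw ρ s)) := rfl
    rw [this] at hF
    have h2 : Ψ / s * I2 ρ = Ψ * (I2 ρ / s) := by ring
    rw [h2]
    linarith
  have hst : (1 - s) * (s / (1 - s)) = s := by field_simp
  have hRR : (ρ ^ 3 * (I1 ρ - 1) / qq ρ - (3 - I1 ρ) / 2)
      - Ψ / s * (ρ ^ 3 * (I2 ρ - 1) / qq ρ - (3 + I2 ρ) / 2)
      - (1 + (Ψ + l - 1)) * (ρ ^ 3 * s * ((3 + kw ρ s) / cc ρ s) - ρ ^ 3 / qq ρ * (1 - k1 ρ s))
      - (Ψ + l - 1) * (ρ ^ 3 / qq ρ * (kw ρ s - s / (1 - s))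
        - ρ ^ 3 * s ^ 3 * ((3 * s / (1 - s) + k1 ρ s) / DD ρ s)) = 0 := by
    have h5 : dk1r ρ s = ρ ^ 3 * s * ((3 + kw ρ s) / cc ρ s) - ρ ^ 3 / qq ρ * (1 - k1 ρ s) := by
      unfold dk1r
      ring
    have h6 : dkwr ρ s = ρ ^ 3 / qq ρ * (kw ρ s - s / (1 - s))
        - ρ ^ 3 * s ^ 3 * ((3 * s / (1 - s) + k1 ρ s) / DD ρ s) := by
      unfold dkwr
      ring
    rw [← h5, ← h6]
    have h7 : ρ * (1 / ρ) = 1 := by field_simp
    have h8 := congrArg (fun z => ρ * z) zA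
    simp only [mul_zero] at h8
    obtain ⟨X1, hX1⟩ : ∃ X1, X1 = ρ ^ 3 * (I1 ρ - 1) / qq ρ - (3 - I1 ρ) / 2 := ⟨_, rfl⟩
    obtain ⟨X2, hX2⟩ : ∃ X2, X2 = ρ ^ 3 * (I2 ρ - 1) / qq ρ - (3 + I2 ρ) / 2 := ⟨_, rfl⟩
    rw [← hX1, ← hX2] at h8 ⊢
    have h9 : ρ * (X1 / ρ + (dkwr ρ s * (1 / ρ) + dkws ρ s * (0 / s)) -
        l * (dk1r ρ s * (1 / ρ) + dk1s ρ s * (0 / s) +
          (dkwr ρ s * (1 / ρ) + dkws ρ s * (0 / s))) -
        Ψ * (X2 / ρ / s + (dk1r ρ s * (1 / ρ) + dk1s ρ s * (0 / s) +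
          (dkwr ρ s * (1 / ρ) + dkws ρ s * (0 / s))))) =
        X1 - Ψ / s * X2 - (1 + (Ψ + l - 1)) * dk1r ρ s - (Ψ + l - 1) * dkwr ρ s := by
      field_simp
      ring
    rw [← h9]
    exact h8
  have hSS : Ψ / s * I2 ρ
      - (1 + (Ψ + l - 1)) * (k1 ρ s + 3 / 2 * (1 - k1 ρ s)
        - (1 - s * ρ ^ 3) * ((3 + kw ρ s) / cc ρ s))
      - (Ψ + l - 1) * (kw ρ s - 3 / 2 * (kw ρ s - s / (1 - s))
        + s ^ 2 * (1 - s * ρ ^ 3) * ((3 * s / (1 - s) + k1 ρ s) / DD ρ s)) = 0 := by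
    have h5 : dk1s ρ s = k1 ρ s + 3 / 2 * (1 - k1 ρ s)
        - (1 - s * ρ ^ 3) * ((3 + kw ρ s) / cc ρ s) := by
      unfold dk1s
      ring
    have h6 : dkws ρ s = kw ρ s - 3 / 2 * (kw ρ s - s / (1 - s))
        + s ^ 2 * (1 - s * ρ ^ 3) * ((3 * s / (1 - s) + k1 ρ s) / DD ρ s) := by
      unfold dkws
      ring
    rw [← h5, ← h6]
    have h8 := congrArg (fun z => s * z) zB
    simp only [mul_zero] at h8
    have h9 : s * (0 + (dkwr ρ s * (0 / ρ) + dkws ρ s * (1 / s)) -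
        l * (dk1r ρ s * (0 / ρ) + dk1s ρ s * (1 / s) +
          (dkwr ρ s * (0 / ρ) + dkws ρ s * (1 / s))) -
        Ψ * (I2 ρ * (-(s ^ 2)⁻¹) + (dk1r ρ s * (0 / ρ) + dk1s ρ s * (1 / s) +
          (dkwr ρ s * (0 / ρ) + dkws ρ s * (1 / s))))) =
        Ψ / s * I2 ρ - (1 + (Ψ + l - 1)) * dk1s ρ s - (Ψ + l - 1) * dkws ρ s := by
      field_simp
      ring
    rw [← h9]
    exact h8
  have key := CritAux.alg (q := qq ρ) hq.ne' rfl h1s hst hE0 hRR hSS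
  have hC : (1 - s) * ((1 + (Ψ + l - 1)) * ((3 + kw ρ s) / cc ρ s)
      - (Ψ + l - 1) * s ^ 2 * ((3 * s / (1 - s) + k1 ρ s) / DD ρ s)) =
      (Ψ + l) * ((1 - s) * (3 + kw ρ s)) / cc ρ s
      - (Ψ + l - 1) * s ^ 2 * (3 * s + (1 - s) * k1 ρ s) / DD ρ s := by
    field_simp
    ring
  rw [hC] at key
  refine ⟨hd, hl, by linarith, hΨ, key.2, ?_, ?_⟩
  · rw [← key.1]
    field_simp
    ring
  · rw [hE0]
    ring

end Pool.Agent.OptRes
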