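import Mathlib

/-!
# Optimal resource distributions: the admissible class, the logistic equation, maximizers
-/

open MeasureTheory Set Filter Topology

namespace Pool.Agent.OptRes

noncomputable section

/-! ### The original problem -/

/-- The admissible class `𝓜`: `0 ≤ m ≤ κ` almost everywhere on `(0,1)` and `∫ m = m₀`. -/
structure Adm (κ m₀ : ℝ) (m : ℝ → ℝ) : Prop where
  meas : AEStronglyMeasurable m (volume.restrict (Ioo (0 : ℝ) 1))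
  bound : ∀ᵐ x ∂(volume.restrict (Ioo (0 : ℝ) 1)), 0 ≤ m x ∧ m x ≤ κ
  mass : ∫ x in (0 : ℝ)..1, m x = m₀

/-- `θ` is a positive solution of `μ θ'' + θ (m - θ) = 0` on `(0,1)` with `θ'(0) = θ'(1) = 0`:
`θ` is differentiable on `[0,1]` with derivative `w`, and
`μ w(x) = - ∫_0^x θ (m - θ)` for `x ∈ [0,1]`, `w(1) = 0`. -/
structure IsSol (μ : ℝ) (m θ : ℝ → ℝ) : Prop where
  pos : ∀ x ∈ Ioo (0 : ℝ) 1, 0 < θ x
  ex : ∃ w : ℝ → ℝ, (∀ x ∈ Icc (0 : ℝ) 1, HasDerivWithinAt θ (w x) (Icc 0 1) x) ∧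
    (∀ x ∈ Icc (0 : ℝ) 1, μ * w x = - ∫ t in (0 : ℝ)..x, θ t * (m t - θ t)) ∧ w 1 = 0

/-- `m` is a maximizer of the total population `∫ θ_{m,μ}` over the admissible class. -/
def IsMaximizer (κ m₀ μ : ℝ) (m : ℝ → ℝ) : Prop :=
  Adm κ m₀ m ∧ ∃ θ, IsSol μ m θ ∧
    ∀ m' θ', Adm κ m₀ m' → IsSol μ m' θ' →
      ∫ x in (0 : ℝ)..1, θ' x ≤ ∫ x in (0 : ℝ)..1, θ x

end

end Pool.Agent.OptRes
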