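import Mathlib
import Pool.Agent.OptRes.Problem

/-!
# Optimal resource distributions with small diffusivity: definitions

Everything is scaled to `κ = 1`, diffusivity one, on a long interval `[0, L]`.
-/

open MeasureTheory Set Filter Topology

namespace Pool.Agent.OptRes

noncomputable section

/-! ### The scaled problem -/

/-- A segment of a solution of `θ'' = θ (θ - m)`, `0 ≤ m ≤ 1`, on `[0, L]` (no boundary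
conditions), with `w = θ'`. -/
structure Seg (L : ℝ) (m θ w : ℝ → ℝ) : Prop where
  L_pos : 0 < L
  meas : AEStronglyMeasurable m (volume.restrict (Ioo 0 L))
  bound : ∀ᵐ x ∂(volume.restrict (Ioo 0 L)), 0 ≤ m x ∧ m x ≤ 1
  der : ∀ x ∈ Icc 0 L, HasDerivWithinAt θ (w x) (Icc 0 L) x
  eqn : ∀ x ∈ Icc 0 L, w x = w 0 + ∫ t in (0 : ℝ)..x, θ t * (θ t - m t)
  pos : ∀ x ∈ Ioo 0 L, 0 < θ x

/-- A Neumann solution on `[0, L]`. -/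
structure Sol (L : ℝ) (m θ w : ℝ → ℝ) : Prop extends Seg L m θ w where
  w0 : w 0 = 0
  wL : w L = 0

/-- The continuous payoff density (after elimination of `m`). -/
def pay (l Ψ : ℝ) (θ w : ℝ → ℝ) (x : ℝ) : ℝ :=
  l * (w x / θ x) ^ 2 - (Ψ - (1 - l) * θ x)

/-! ### The half cell -/

/-- `K(u) = u²/2 - u³/3` -/
def K (u : ℝ) : ℝ := u ^ 2 / 2 - u ^ 3 / 3

/-- the inverse of `K : [0,1] → [0,1/6]`, explicitly -/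
def Kinv (x : ℝ) : ℝ := 1 / 2 + Real.sin (Real.arcsin (12 * x - 1) / 3)

/-- `q(ρ)` -/
def qq (ρ : ℝ) : ℝ := 2 / 3 * (1 - ρ ^ 3)

/-- `c(ρ,s)` -/
def cc (ρ s : ℝ) : ℝ := 3 - 2 * s * ρ ^ 3

/-- `D₁(ρ,s) = 1 - s² c = 1 - 6 K(b)` -/
def DD (ρ s : ℝ) : ℝ := 1 - 3 * s ^ 2 + 2 * s ^ 3 * ρ ^ 3

/-- The domain of half cells: `a = ρ s` is the minimum, `s` the value at the switch. -/
structure Dom (ρ s : ℝ) : Prop where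
  ρ0 : 0 < ρ
  ρ1 : ρ < 1
  s0 : 0 < s
  s1 : s < 1
  D : 0 < DD ρ s

/-- The value of `θ` in the right part of the half cell (`m = 1`), at the point where
`θ' = τ V`. -/
def Uf (s e τ : ℝ) : ℝ := Kinv (K s + (1 - τ ^ 2) * e)

/-- `κ₁ = ∫₀¹ dτ / u_τ` -/
def kap1 (s e : ℝ) : ℝ := ∫ τ in (0 : ℝ)..1, 1 / Uf s e τ

/-- `κ_w = ∫₀¹ dτ / (1 - u_τ)` -/
def kapw (s e : ℝ) : ℝ := ∫ τ in (0 : ℝ)..1, 1 / (1 - Uf s e τ)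

/-- `V²/2` as a function of `(ρ,s)` -/
def ee (ρ s : ℝ) : ℝ := s ^ 3 * (1 - ρ ^ 3) / 3

def k1 (ρ s : ℝ) : ℝ := s * kap1 s (ee ρ s)

def kw (ρ s : ℝ) : ℝ := s * kapw s (ee ρ s)

def XX (ρ s : ℝ) : ℝ := k1 ρ s + kw ρ s

def I1 (ρ : ℝ) : ℝ := ∫ σ in (0 : ℝ)..1, (ρ ^ 3 + σ ^ 2 * (1 - ρ ^ 3)) ^ (-(1 / 3) : ℝ)

def I2 (ρ : ℝ) : ℝ := ∫ σ in (0 : ℝ)..1, (ρ ^ 3 + σ ^ 2 * (1 - ρ ^ 3)) ^ (-(2 / 3) : ℝ)

/-- payoff of the half cell divided by `V/s` -/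
def F (l Ψ ρ s : ℝ) : ℝ := I1 ρ + kw ρ s - l * XX ρ s - Ψ * (I2 ρ / s + XX ρ s)

/-- `Ψ` is an upper bound for the mean payoff `θ - l m` of all half cells and of the constants. -/
def Valid (l Ψ : ℝ) : Prop :=
  0 ≤ Ψ ∧ 1 - l ≤ Ψ ∧ ∀ ρ s, Dom ρ s → F l Ψ ρ s ≤ 0

/-- mean of `m` over the half cell -/
def mbar (ρ s : ℝ) : ℝ := XX ρ s / (I2 ρ / s + XX ρ s)

/-- mean of `θ` over the half cell -/
def tbar (ρ s : ℝ) : ℝ := (I1 ρ + kw ρ s) / (I2 ρ / s + XX ρ s)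

/-- the critical point equations (in terms of `m = Ψ + l - 1` and `ψ = Ψ / s`) -/
structure Crit (l Ψ ρ s : ℝ) : Prop where
  dom : Dom ρ s
  l_pos : 0 < l
  m_pos : 0 < Ψ + l - 1
  Ψ_pos : 0 < Ψ
  eqL : 3 - I1 ρ - (3 + I2 ρ) * (Ψ / s) = 2 * ρ ^ 3 *
    ((Ψ + l) * ((1 - s) * (3 + kw ρ s)) / cc ρ s
      - (Ψ + l - 1) * s ^ 2 * (3 * s + (1 - s) * k1 ρ s) / DD ρ s)
  eqR : l - 1 + Ψ / s = qq ρ *
    ((Ψ + l) * ((1 - s) * (3 + kw ρ s)) / cc ρ s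
      - (Ψ + l - 1) * s ^ 2 * (3 * s + (1 - s) * k1 ρ s) / DD ρ s)
  eqE : I1 ρ - Ψ / s * I2 ρ = (Ψ + l) * k1 ρ s + (Ψ + l - 1) * kw ρ s

end

end Pool.Agent.OptRes
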