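import Pool.Agent.OptRes.Defs2
import Pool.Agent.OptRes.Kap

/-!
# MP_1c79f0_an, module KapB: bounds and continuity of `k1`, `kw`
-/

open MeasureTheory Set Filter Topology

namespace Pool.Agent.OptRes

private theorem KD.U {s e τ : ℝ} (h : KD s e) (h0 : 0 ≤ τ) (h1 : τ ≤ 1) :
    s ≤ Uf s e τ ∧ 0 < Uf s e τ ∧ 0 < 1 - Uf s e τ ∧ Uf s e τ ≤ Kinv (K s + e) := by
  obtain ⟨h2, h3, h4⟩ := Uf_mem h h0 h1
  exact ⟨h2, h.s0.trans_le h2, by linarith, h3⟩

private theorem KD.c1 {s e : ℝ} (h : KD s e) :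
    ContinuousOn (fun τ => 1 / Uf s e τ) (Icc (0 : ℝ) 1) := by
  have hU := continuous_Uf s e
  refine ContinuousOn.div continuousOn_const hU.continuousOn fun τ hτ => ?_
  exact (h.U hτ.1 hτ.2).2.1.ne'

private theorem KD.cw {s e : ℝ} (h : KD s e) :
    ContinuousOn (fun τ => 1 / (1 - Uf s e τ)) (Icc (0 : ℝ) 1) := by
  have hU := continuous_Uf s e
  refine ContinuousOn.div continuousOn_const (Continuous.continuousOn (by fun_prop)) fun τ hτ => ?_
  exact (h.U hτ.1 hτ.2).2.2.1.ne'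

private theorem KD.i1 {s e : ℝ} (h : KD s e) :
    IntervalIntegrable (fun τ => 1 / Uf s e τ) volume (0 : ℝ) 1 := by
  refine ContinuousOn.intervalIntegrable ?_
  rw [uIcc_of_le zero_le_one]
  exact h.c1

private theorem KD.iw {s e : ℝ} (h : KD s e) :
    IntervalIntegrable (fun τ => 1 / (1 - Uf s e τ)) volume (0 : ℝ) 1 := by
  refine ContinuousOn.intervalIntegrable ?_
  rw [uIcc_of_le zero_le_one]
  exact h.cw

private theorem int_le_const {f : ℝ → ℝ} {c : ℝ} (hf : IntervalIntegrable f volume (0 : ℝ) 1)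
    (h : ∀ τ ∈ Icc (0 : ℝ) 1, f τ ≤ c) : ∫ τ in (0 : ℝ)..1, f τ ≤ c := by
  have := intervalIntegral.integral_mono_on zero_le_one hf
    (intervalIntegrable_const (c := c)) h
  simpa using this

private theorem const_le_int {f : ℝ → ℝ} {c : ℝ} (hf : IntervalIntegrable f volume (0 : ℝ) 1)
    (h : ∀ τ ∈ Icc (0 : ℝ) 1, c ≤ f τ) : c ≤ ∫ τ in (0 : ℝ)..1, f τ := by
  have := intervalIntegral.integral_mono_on zero_le_one
    (intervalIntegrable_const (c := c)) hf h
  simpa using this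

theorem k1_pos {ρ s : ℝ} (h : Dom ρ s) : 0 < k1 ρ s := by
  have hk := h.KD
  have h1 : 1 ≤ kap1 s (ee ρ s) := by
    refine const_le_int hk.i1 fun τ hτ => ?_
    obtain ⟨_, h3, h4, _⟩ := hk.U hτ.1 hτ.2
    rw [le_div_iff₀ h3]
    linarith
  unfold k1
  exact mul_pos h.s0 (by linarith)

theorem k1_le_one {ρ s : ℝ} (h : Dom ρ s) : k1 ρ s ≤ 1 := by
  have hk := h.KD
  have h1 : kap1 s (ee ρ s) ≤ 1 / s := by
    refine int_le_const hk.i1 fun τ hτ => ?_
    obtain ⟨h2, _, _, _⟩ := hk.U hτ.1 hτ.2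
    exact one_div_le_one_div_of_le h.s0 h2
  unfold k1
  calc s * kap1 s (ee ρ s) ≤ s * (1 / s) := mul_le_mul_of_nonneg_left h1 h.s0.le
    _ = 1 := by rw [mul_one_div, div_self h.s0.ne']

theorem kw_ge {ρ s : ℝ} (h : Dom ρ s) : s / (1 - s) ≤ kw ρ s := by
  have hk := h.KD
  have h1 : 1 / (1 - s) ≤ kapw s (ee ρ s) := by
    refine const_le_int hk.iw fun τ hτ => ?_
    obtain ⟨h2, _, h4, _⟩ := hk.U hτ.1 hτ.2
    exact one_div_le_one_div_of_le h4 (by linarith)
  unfold kw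
  calc s / (1 - s) = s * (1 / (1 - s)) := by rw [mul_one_div]
    _ ≤ s * kapw s (ee ρ s) := mul_le_mul_of_nonneg_left h1 h.s0.le

private theorem cubic {u s θ : ℝ} (hs0 : 0 < s) (hs1 : s < 1) (hu : s ≤ u) (hu1 : u ≤ 1)
    (h1 : 1 ≤ θ) (h2 : 6 * s ^ 2 ≤ θ * (1 + 2 * s)) :
    6 * s ^ 2 * (1 - s) ≤ θ * (u * (3 * (u + s) - 2 * (u ^ 2 + u * s + s ^ 2))) := by
  set P := u * (3 * (u + s) - 2 * (u ^ 2 + u * s + s ^ 2)) with hP
  have hs1' : 0 < 1 - s := by linarith
  by_cases hA : 0 ≤ -2 * u ^ 2 + (3 - 4 * s) * u + 6 * s - 6 * s ^ 2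
  · have h3 : P - 6 * s ^ 2 * (1 - s) =
        (u - s) * (-2 * u ^ 2 + (3 - 4 * s) * u + 6 * s - 6 * s ^ 2) := by rw [hP]; ring
    have h4 : 0 ≤ (u - s) * (-2 * u ^ 2 + (3 - 4 * s) * u + 6 * s - 6 * s ^ 2) :=
      mul_nonneg (by linarith) hA
    have h5 : 0 < 6 * s ^ 2 * (1 - s) := by positivity
    have h6 : 0 ≤ P := by linarith
    nlinarith
  · push Not at hA
    have h3 : 3 - 4 * s < 2 * u := by
      by_contra h
      push Not at h
      have h4 : 0 ≤ u * (3 - 4 * s - 2 * u) := mul_nonneg (by linarith) (by linarith)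
      have h5 : 0 < s * (1 - s) := by positivity
      nlinarith
    have h4 : P - (1 - s) * (1 + 2 * s) =
        (1 - u) * (2 * u ^ 2 - (1 - 2 * s) * u - (1 - s) * (1 + 2 * s)) := by rw [hP]; ring
    have h5 : 0 ≤ 2 * u ^ 2 - (1 - 2 * s) * u - (1 - s) * (1 + 2 * s) := by
      have h6 : 0 < (1 - s) * (2 * u + 4 * s - 1) := mul_pos hs1' (by linarith)
      nlinarith
    have h6 : 0 ≤ (1 - u) * (2 * u ^ 2 - (1 - 2 * s) * u - (1 - s) * (1 + 2 * s)) :=
      mul_nonneg (by linarith) h5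
    have h7 : (1 - s) * (1 + 2 * s) ≤ P := by linarith
    calc 6 * s ^ 2 * (1 - s) ≤ θ * (1 + 2 * s) * (1 - s) :=
          mul_le_mul_of_nonneg_right h2 hs1'.le
      _ = θ * ((1 - s) * (1 + 2 * s)) := by ring
      _ ≤ θ * P := mul_le_mul_of_nonneg_left h7 (by linarith)

theorem k1_ge {ρ s θ : ℝ} (h : Dom ρ s) (h1 : 1 ≤ θ) (h2 : 6 * s ^ 2 ≤ θ * (1 + 2 * s)) :
    1 - θ * s * qq ρ / (3 * (1 - s)) ≤ k1 ρ s := by
  have hk := h.KD
  have hs := h.s0
  have hs1 : 0 < 1 - s := by linarith [h.s1]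
  have hpt : ∀ τ ∈ Icc (0 : ℝ) 1,
      1 / s - θ / (s ^ 3 * (1 - s)) * ((1 - τ ^ 2) * ee ρ s) ≤ 1 / Uf s (ee ρ s) τ := by
    intro τ hτ
    obtain ⟨h3, h4, h5, _⟩ := hk.U hτ.1 hτ.2
    set u := Uf s (ee ρ s) τ with hu
    have h6 : K u - K s = (1 - τ ^ 2) * ee ρ s := by
      rw [hu, K_Uf hk hτ.1 hτ.2]; ring
    rw [← h6]
    have h7 := cubic hs h.s1 h3 (by linarith) h1 h2
    have h8 : 1 / u - (1 / s - θ / (s ^ 3 * (1 - s)) * (K u - K s)) =
        (u - s) * (θ * (u * (3 * (u + s) - 2 * (u ^ 2 + u * s + s ^ 2))) -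
          6 * s ^ 2 * (1 - s)) / (6 * s ^ 3 * (1 - s) * u) := by
      unfold K
      field_simp
      ring
    have h9 : 0 ≤ (u - s) * (θ * (u * (3 * (u + s) - 2 * (u ^ 2 + u * s + s ^ 2))) -
          6 * s ^ 2 * (1 - s)) / (6 * s ^ 3 * (1 - s) * u) := by
      apply div_nonneg
      · exact mul_nonneg (by linarith) (by linarith)
      · positivity
    linarith
  have hint : ∫ τ in (0 : ℝ)..1, (1 / s - θ / (s ^ 3 * (1 - s)) * ((1 - τ ^ 2) * ee ρ s)) =
      1 / s - θ / (s ^ 3 * (1 - s)) * (2 / 3 * ee ρ s) := by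
    have hi : IntervalIntegrable (fun τ : ℝ => θ / (s ^ 3 * (1 - s)) * ((1 - τ ^ 2) * ee ρ s))
        volume (0 : ℝ) 1 := Continuous.intervalIntegrable (by fun_prop) _ _
    rw [intervalIntegral.integral_sub (intervalIntegrable_const) hi,
      intervalIntegral.integral_const_mul, intervalIntegral.integral_mul_const,
      intervalIntegral.integral_sub (intervalIntegrable_const)
        (Continuous.intervalIntegrable (by fun_prop) _ _), integral_pow]
    norm_num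
  have h3 : 1 / s - θ / (s ^ 3 * (1 - s)) * (2 / 3 * ee ρ s) ≤ kap1 s (ee ρ s) := by
    rw [← hint]
    exact intervalIntegral.integral_mono_on zero_le_one
      (Continuous.intervalIntegrable (by fun_prop) _ _) hk.i1 hpt
  unfold k1
  calc 1 - θ * s * qq ρ / (3 * (1 - s))
      = s * (1 / s - θ / (s ^ 3 * (1 - s)) * (2 / 3 * ee ρ s)) := by
        unfold qq ee
        field_simp
    _ ≤ s * kap1 s (ee ρ s) := mul_le_mul_of_nonneg_left h3 hs.le

private theorem DD_eq (ρ s : ℝ) : DD ρ s = 1 - 6 * (K s + ee ρ s) := by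
  unfold DD K ee
  ring

theorem kw_le {ρ s : ℝ} (h : Dom ρ s) : kw ρ s * Real.sqrt (DD ρ s) ≤ s * Real.sqrt 3 := by
  have hk := h.KD
  obtain ⟨_, h3, h4⟩ := Uf_mem hk le_rfl zero_le_one
  set b := Kinv (K s + ee ρ s) with hb
  have hsb : s ≤ b := by
    have := (Uf_mem hk zero_le_one le_rfl)
    exact this.1.trans this.2.1
  have hb1 : 0 < 1 - b := by linarith
  have hs := h.s0
  have h5 : kapw s (ee ρ s) ≤ 1 / (1 - b) := by
    refine int_le_const hk.iw fun τ hτ => ?_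
    obtain ⟨_, _, _, h6⟩ := hk.U hτ.1 hτ.2
    exact one_div_le_one_div_of_le hb1 (by linarith)
  have hKs : 0 ≤ K s + ee ρ s := by
    have h7 := K_Uf hk zero_le_one le_rfl
    have h8 := K_Uf hk le_rfl zero_le_one
    have : 0 ≤ K s := by
      unfold K
      have : s ^ 2 / 2 - s ^ 3 / 3 = s ^ 2 * (1 / 2 - s / 3) := by ring
      rw [this]
      exact mul_nonneg (sq_nonneg s) (by linarith [h.s1])
    linarith [hk.e0]
  have hKb : K b = K s + ee ρ s := K_Kinv hKs hk.K1.le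
  have h6 : DD ρ s ≤ 3 * (1 - b) ^ 2 := by
    rw [DD_eq, ← hKb]
    unfold K
    have : 3 * (1 - b) ^ 2 - (1 - 6 * (b ^ 2 / 2 - b ^ 3 / 3)) = 2 * (1 - b) ^ 3 := by ring
    have h7 : 0 ≤ 2 * (1 - b) ^ 3 := by positivity
    linarith
  have h7 : Real.sqrt (DD ρ s) ≤ Real.sqrt 3 * (1 - b) := by
    calc Real.sqrt (DD ρ s) ≤ Real.sqrt (3 * (1 - b) ^ 2) := Real.sqrt_le_sqrt h6
      _ = Real.sqrt 3 * (1 - b) := by
        rw [Real.sqrt_mul (by norm_num), Real.sqrt_sq hb1.le]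
  unfold kw
  calc s * kapw s (ee ρ s) * Real.sqrt (DD ρ s)
      ≤ s * (1 / (1 - b)) * (Real.sqrt 3 * (1 - b)) :=
        mul_le_mul (mul_le_mul_of_nonneg_left h5 hs.le) h7 (Real.sqrt_nonneg _) (by positivity)
    _ = s * Real.sqrt 3 := by field_simp

theorem kw_log {ρ s : ℝ} (h : Dom ρ s) :
    s * Real.log (1 + 1 / Real.sqrt (DD ρ s)) ≤ kw ρ s := by
  have hk := h.KD
  have hs := h.s0
  set x := Real.sqrt (DD ρ s) with hx
  have hx0 : 0 < x := Real.sqrt_pos.2 h.D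
  have hx2 : x ^ 2 = DD ρ s := Real.sq_sqrt h.D.le
  have hKs : 0 ≤ K s := by
    unfold K
    have : s ^ 2 / 2 - s ^ 3 / 3 = s ^ 2 * (1 / 2 - s / 3) := by ring
    rw [this]
    exact mul_nonneg (sq_nonneg s) (by linarith [h.s1])
  have h6e : 6 * ee ρ s ≤ 1 := by linarith [hk.K1]
  have hpt : ∀ τ ∈ Icc (0 : ℝ) 1, 1 / (x + τ) ≤ 1 / (1 - Uf s (ee ρ s) τ) := by
    intro τ hτ
    obtain ⟨_, h4, h5, _⟩ := hk.U hτ.1 hτ.2
    have hK := K_Uf hk hτ.1 hτ.2
    set u := Uf s (ee ρ s) τ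
    refine one_div_le_one_div_of_le h5 ?_
    have h6 : (1 - u) ^ 2 ≤ (x + τ) ^ 2 := by
      have h7 : (1 - u) ^ 2 * (1 + 2 * u) = 1 - 6 * K u := by unfold K; ring
      have h8 : (1 - u) ^ 2 ≤ (1 - u) ^ 2 * (1 + 2 * u) := by nlinarith [sq_nonneg (1 - u)]
      have h9 : 1 - 6 * K u = x ^ 2 + 6 * ee ρ s * τ ^ 2 := by
        rw [hK, hx2, DD_eq]; ring
      have h10 : 6 * ee ρ s * τ ^ 2 ≤ τ ^ 2 := by nlinarith [sq_nonneg τ]
      have h11 : 0 ≤ x * τ := mul_nonneg hx0.le hτ.1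
      nlinarith
    exact (pow_le_pow_iff_left₀ h5.le (by linarith [hτ.1]) (by norm_num)).1 h6
  have hcont : ContinuousOn (fun τ : ℝ => 1 / (x + τ)) (Icc (0 : ℝ) 1) := by
    refine ContinuousOn.div continuousOn_const (Continuous.continuousOn (by fun_prop)) ?_
    intro τ hτ
    have := hτ.1
    positivity
  have hint : ∫ τ in (0 : ℝ)..1, 1 / (x + τ) = Real.log (1 + 1 / x) := by
    have hd : ∀ τ ∈ uIcc (0 : ℝ) 1, HasDerivAt (fun τ => Real.log (x + τ)) (1 / (x + τ)) τ := by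
      intro τ hτ
      rw [uIcc_of_le zero_le_one] at hτ
      have h4 : x + τ ≠ 0 := by have := hτ.1; positivity
      exact ((hasDerivAt_id τ).const_add x).log h4
    rw [intervalIntegral.integral_eq_sub_of_hasDerivAt hd
      (by rw [intervalIntegrable_iff_integrableOn_Icc_of_le zero_le_one]
          exact hcont.integrableOn_Icc),
      add_zero, ← Real.log_div (by positivity) hx0.ne']
    congr 1
    field_simp
  have h3 : Real.log (1 + 1 / x) ≤ kapw s (ee ρ s) := by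
    rw [← hint]
    refine intervalIntegral.integral_mono_on zero_le_one ?_ hk.iw hpt
    rw [intervalIntegrable_iff_integrableOn_Icc_of_le zero_le_one]
    exact hcont.integrableOn_Icc
  unfold kw
  exact mul_le_mul_of_nonneg_left h3 hs.le

theorem wt_bd {ρ s : ℝ} (h : Dom ρ s) :
    DD ρ s * ((1 - s) * kw ρ s - s) ≤ 2165 / 10000 * (1 + DD ρ s) := by
  have hk := kw_le h
  set x := Real.sqrt (DD ρ s) with hx
  have hx0 : 0 < x := Real.sqrt_pos.2 h.D
  have hx2 : DD ρ s = x ^ 2 := (Real.sq_sqrt h.D.le).symm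
  have hs := h.s0
  have hs1 : 0 < 1 - s := by linarith [h.s1]
  rw [hx2]
  set c := Real.sqrt 3 * (s * (1 - s)) with hc
  have h1 : x ^ 2 * ((1 - s) * kw ρ s) ≤ c * x := by
    calc x ^ 2 * ((1 - s) * kw ρ s) = (x * (1 - s)) * (kw ρ s * x) := by ring
      _ ≤ (x * (1 - s)) * (s * Real.sqrt 3) :=
          mul_le_mul_of_nonneg_left hk (by positivity)
      _ = c * x := by rw [hc]; ring
  have h2 : c ^ 2 ≤ 4 * (2165 / 10000 + s) * (2165 / 10000) := by
    rw [hc, mul_pow, Real.sq_sqrt (by norm_num : (0 : ℝ) ≤ 3)]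
    have h3 : (s * (1 - s)) ^ 2 ≤ s / 4 := by
      have h4 : s * (1 - s) ≤ 1 / 4 := by nlinarith [sq_nonneg (s - 1 / 2)]
      have h5 : 0 ≤ s * (1 - s) := by positivity
      nlinarith
    nlinarith
  have h3 : 0 ≤ (2165 / 10000 + s) * x ^ 2 - c * x + 2165 / 10000 := by
    have h4 : 0 ≤ 4 * (2165 / 10000 + s) *
        ((2165 / 10000 + s) * x ^ 2 - c * x + 2165 / 10000) := by
      have h5 : 4 * (2165 / 10000 + s) *
          ((2165 / 10000 + s) * x ^ 2 - c * x + 2165 / 10000) =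
          (2 * (2165 / 10000 + s) * x - c) ^ 2 +
            (4 * (2165 / 10000 + s) * (2165 / 10000) - c ^ 2) := by ring
      rw [h5]
      have := sq_nonneg (2 * (2165 / 10000 + s) * x - c)
      linarith
    exact nonneg_of_mul_nonneg_right h4 (by positivity)
  nlinarith

private theorem KD_of_Dom1 {p : ℝ × ℝ} (h : p ∈ Dom1) : KD p.2 (ee p.1 p.2) := by
  obtain ⟨h1, h2, h3, h4, h5⟩ := h
  refine ⟨h3, h4, ?_, ?_⟩
  · unfold ee
    have : p.1 ^ 3 ≤ 1 := pow_le_one₀ h1.le h2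
    have h6 : 0 ≤ 1 - p.1 ^ 3 := by linarith
    positivity
  · rw [DD_eq] at h5
    linarith

private theorem cont_K : Continuous K := by
  unfold K
  fun_prop

private theorem cont_arg (τ : ℝ) :
    Continuous fun p : ℝ × ℝ => K p.2 + (1 - τ ^ 2) * ee p.1 p.2 := by
  have := cont_K
  unfold ee
  fun_prop

theorem continuousOn_k1 : ContinuousOn (fun p : ℝ × ℝ => k1 p.1 p.2) Dom1 := by
  intro p hp
  unfold k1
  refine continuous_snd.continuousWithinAt.mul ?_
  unfold kap1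
  have hs := (KD_of_Dom1 hp).s0
  refine intervalIntegral.continuousWithinAt_of_dominated_interval
    (bound := fun _ => 2 / p.2) ?_ ?_ intervalIntegrable_const ?_
  · filter_upwards [self_mem_nhdsWithin] with q hq
    rw [uIoc_of_le zero_le_one]
    exact (((KD_of_Dom1 hq).c1.mono Ioc_subset_Icc_self).aestronglyMeasurable measurableSet_Ioc)
  · have h1 : ∀ᶠ q : ℝ × ℝ in 𝓝[Dom1] p, p.2 / 2 < q.2 :=
      (continuous_snd.continuousAt.eventually_const_lt (by linarith)).filter_mono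
        nhdsWithin_le_nhds
    filter_upwards [self_mem_nhdsWithin, h1] with q hq hq2
    refine Eventually.of_forall fun τ hτ => ?_
    rw [uIoc_of_le zero_le_one] at hτ
    obtain ⟨h3, h4, _, _⟩ := (KD_of_Dom1 hq).U hτ.1.le hτ.2
    rw [Real.norm_of_nonneg (by positivity)]
    calc 1 / Uf q.2 (ee q.1 q.2) τ ≤ 1 / (p.2 / 2) :=
          one_div_le_one_div_of_le (by positivity) (hq2.le.trans h3)
      _ = 2 / p.2 := by field_simp
  · refine Eventually.of_forall fun τ hτ => ?_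
    rw [uIoc_of_le zero_le_one] at hτ
    obtain ⟨_, h4, _, _⟩ := (KD_of_Dom1 hp).U hτ.1.le hτ.2
    refine ContinuousWithinAt.div continuousWithinAt_const ?_ h4.ne'
    exact (continuous_Kinv.comp (cont_arg τ)).continuousWithinAt

theorem continuousOn_kw : ContinuousOn (fun p : ℝ × ℝ => kw p.1 p.2) Dom1 := by
  intro p hp
  unfold kw
  refine continuous_snd.continuousWithinAt.mul ?_
  unfold kapw
  have hb : Kinv (K p.2 + ee p.1 p.2) < 1 := Kinv_lt_one (KD_of_Dom1 hp).K1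
  set b := Kinv (K p.2 + ee p.1 p.2)
  have hb1 : 0 < 1 - b := by linarith
  refine intervalIntegral.continuousWithinAt_of_dominated_interval
    (bound := fun _ => 2 / (1 - b)) ?_ ?_ intervalIntegrable_const ?_
  · filter_upwards [self_mem_nhdsWithin] with q hq
    rw [uIoc_of_le zero_le_one]
    exact (((KD_of_Dom1 hq).cw.mono Ioc_subset_Icc_self).aestronglyMeasurable measurableSet_Ioc)
  · have hc : Continuous fun q : ℝ × ℝ => Kinv (K q.2 + ee q.1 q.2) := by
      have := cont_K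
      have := continuous_Kinv
      unfold ee
      fun_prop
    have h1 : ∀ᶠ q : ℝ × ℝ in 𝓝[Dom1] p, Kinv (K q.2 + ee q.1 q.2) < (1 + b) / 2 :=
      (hc.continuousAt.eventually_lt_const (show b < (1 + b) / 2 by linarith)).filter_mono
        nhdsWithin_le_nhds
    filter_upwards [self_mem_nhdsWithin, h1] with q hq hq2
    refine Eventually.of_forall fun τ hτ => ?_
    rw [uIoc_of_le zero_le_one] at hτ
    obtain ⟨_, _, h5, h6⟩ := (KD_of_Dom1 hq).U hτ.1.le hτ.2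
    rw [Real.norm_of_nonneg (by positivity)]
    calc 1 / (1 - Uf q.2 (ee q.1 q.2) τ) ≤ 1 / ((1 - b) / 2) :=
          one_div_le_one_div_of_le (by positivity) (by linarith)
      _ = 2 / (1 - b) := by field_simp
  · refine Eventually.of_forall fun τ hτ => ?_
    rw [uIoc_of_le zero_le_one] at hτ
    obtain ⟨_, _, h5, _⟩ := (KD_of_Dom1 hp).U hτ.1.le hτ.2
    refine ContinuousWithinAt.div continuousWithinAt_const ?_ h5.ne'
    exact continuousWithinAt_const.sub
      (continuous_Kinv.comp (cont_arg τ)).continuousWithinAt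

private theorem Uf_zero {s : ℝ} (h0 : 0 < s) (h1 : s < 1) (τ : ℝ) : Uf s (ee 1 s) τ = s := by
  unfold Uf ee
  rw [one_pow, sub_self, mul_zero, zero_div, mul_zero, add_zero, Kinv_K h0.le h1.le]

theorem k1_one {s : ℝ} (h0 : 0 < s) (h1 : s < 1) : k1 1 s = 1 := by
  unfold k1 kap1
  simp only [Uf_zero h0 h1]
  simp [h0.ne']

theorem kw_one {s : ℝ} (h0 : 0 < s) (h1 : s < 1) : kw 1 s = s / (1 - s) := by
  unfold kw kapw
  simp only [Uf_zero h0 h1]
  simp [div_eq_mul_inv]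

end Pool.Agent.OptRes
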