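import Pool.Agent.OptRes.Defs2
import Pool.Agent.OptRes.Ione
import Pool.Agent.OptRes.KapB
import Pool.Agent.OptRes.Alpha

/-!
# The optimal mean payoff `Ps l`
-/

open MeasureTheory Set Filter Topology

namespace Pool.Agent.OptRes

private theorem I2_pos' {ρ s : ℝ} (h : Dom ρ s) : 1 ≤ I2 ρ :=
  le_trans (one_le_I1 h.ρ0 h.ρ1.le) (I1_le_I2 h.ρ0 h.ρ1.le)

private theorem kw_pos' {ρ s : ℝ} (h : Dom ρ s) : 0 < kw ρ s :=
  lt_of_lt_of_le (div_pos h.s0 (by linarith [h.s1])) (kw_ge h)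

private theorem XX_pos' {ρ s : ℝ} (h : Dom ρ s) : 0 < XX ρ s :=
  add_pos (k1_pos h) (kw_pos' h)

private theorem I2s_pos' {ρ s : ℝ} (h : Dom ρ s) : 0 < I2 ρ / s :=
  div_pos (lt_of_lt_of_le one_pos (I2_pos' h)) h.s0

theorem den_pos {ρ s : ℝ} (h : Dom ρ s) : 0 < I2 ρ / s + XX ρ s :=
  add_pos (I2s_pos' h) (XX_pos' h)

theorem F_eq {l Ψ ρ s : ℝ} (h : Dom ρ s) :
    F l Ψ ρ s = (Phi l ρ s - Ψ) * (I2 ρ / s + XX ρ s) := by
  have hd := (den_pos h).ne'
  unfold F Phi tbar mbar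
  generalize I2 ρ / s + XX ρ s = D at *
  field_simp

theorem mbar_mem {ρ s : ℝ} (h : Dom ρ s) : 0 < mbar ρ s ∧ mbar ρ s < 1 := by
  constructor
  · exact div_pos (XX_pos' h) (den_pos h)
  · rw [mbar, div_lt_one (den_pos h)]
    linarith [I2s_pos' h]

theorem tbar_le_one {ρ s : ℝ} (h : Dom ρ s) : tbar ρ s ≤ 1 := by
  rw [tbar, div_le_one (den_pos h)]
  have h1 : I1 ρ ≤ I2 ρ / s := by
    refine le_trans (I1_le_I2 h.ρ0 h.ρ1.le) ?_
    rw [le_div_iff₀ h.s0]
    have := I2_pos' h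
    nlinarith [h.s1]
  have h2 := k1_pos h
  simp only [XX]
  linarith

theorem Phi_le_one {l ρ s : ℝ} (hl : 0 ≤ l) (h : Dom ρ s) : Phi l ρ s ≤ 1 := by
  have h1 := tbar_le_one h
  have h2 := (mbar_mem h).1
  unfold Phi
  nlinarith [mul_nonneg hl h2.le]

private theorem bdd' {l : ℝ} (hl : 0 ≤ l) : BddAbove (PhiSet l) := by
  refine ⟨1, ?_⟩
  rintro x (rfl | rfl | ⟨ρ, s, hd, rfl⟩)
  · exact zero_le_one
  · linarith
  · exact Phi_le_one hl hd

private theorem ne' (l : ℝ) : (PhiSet l).Nonempty := ⟨0, Or.inl rfl⟩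

theorem Phi_le_Ps {l ρ s : ℝ} (hl : 0 ≤ l) (h : Dom ρ s) : Phi l ρ s ≤ Ps l :=
  le_csSup (bdd' hl) (Or.inr (Or.inr ⟨ρ, s, h, rfl⟩))

theorem Ps_valid {l : ℝ} (hl : 0 ≤ l) : Valid l (Ps l) := by
  refine ⟨le_csSup (bdd' hl) (Or.inl rfl), le_csSup (bdd' hl) (Or.inr (Or.inl rfl)), ?_⟩
  intro ρ s h
  rw [F_eq h]
  exact mul_nonpos_of_nonpos_of_nonneg (by linarith [Phi_le_Ps hl h]) (den_pos h).le

theorem Ps_zero : Ps 0 = 1 := by
  apply le_antisymm
  · apply csSup_le (ne' 0)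
    rintro x (rfl | rfl | ⟨ρ, s, hd, rfl⟩)
    · exact zero_le_one
    · linarith
    · exact Phi_le_one le_rfl hd
  · have := (Ps_valid le_rfl).2.1
    linarith

theorem Ps_antitone {l l' : ℝ} (hl : 0 ≤ l) (h : l ≤ l') : Ps l' ≤ Ps l := by
  apply csSup_le (ne' l')
  rintro x (rfl | rfl | ⟨ρ, s, hd, rfl⟩)
  · exact (Ps_valid hl).1
  · linarith [(Ps_valid hl).2.1]
  · refine le_trans ?_ (Phi_le_Ps hl hd)
    unfold Phi
    nlinarith [(mbar_mem hd).1]

theorem Ps_lip {l l' : ℝ} (hl : 0 ≤ l) (h : l ≤ l') : Ps l ≤ Ps l' + (l' - l) := by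
  have hl' : 0 ≤ l' := le_trans hl h
  apply csSup_le (ne' l)
  rintro x (rfl | rfl | ⟨ρ, s, hd, rfl⟩)
  · linarith [(Ps_valid hl').1]
  · linarith [(Ps_valid hl').2.1]
  · have h1 := Phi_le_Ps hl' hd
    have h2 := (mbar_mem hd).2
    have h3 : (l' - l) * mbar ρ s ≤ (l' - l) * 1 := mul_le_mul_of_nonneg_left h2.le (by linarith)
    have h4 : Phi l ρ s = Phi l' ρ s + (l' - l) * mbar ρ s := by unfold Phi; ring
    linarith

theorem Ps_continuousOn : ContinuousOn Ps (Ici 0) := by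
  have : LipschitzOnWith 1 Ps (Ici 0) := by
    apply LipschitzOnWith.of_dist_le_mul
    intro x hx y hy
    rw [Real.dist_eq, Real.dist_eq, NNReal.coe_one, one_mul]
    rcases le_total x y with h | h
    · have h1 := Ps_antitone hx h
      have h2 := Ps_lip hx h
      rw [abs_of_nonneg (by linarith), abs_of_nonpos (by linarith)]
      linarith
    · have h1 := Ps_antitone hy h
      have h2 := Ps_lip hy h
      rw [abs_of_nonpos (by linarith), abs_of_nonneg (by linarith)]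
      linarith
  exact this.continuousOn

/-- `I1(p²) ≥ 3 - 4 p` -/
theorem I1_lower {p : ℝ} (h0 : 0 < p) (h1 : p < 1) : 3 - 4 * p ≤ I1 (p ^ 2) := by
  have h := (ab h0 h1).g1u
  have hG : G1u p ≤ 4 := by
    unfold G1u
    have e1 : p ^ 5 ≤ 1 := pow_le_one₀ h0.le h1.le
    have e0 : 0 ≤ p ^ 5 := by positivity
    have e2 : -12024 / 10000 + p * (110267 / 100000 + p * (15371 / 100000 + p * (-2965 / 10000)))
        ≤ 1 := by
      have : p * (110267 / 100000 + p * (15371 / 100000 + p * (-2965 / 10000))) ≤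
          1 * (110267 / 100000 + 15371 / 100000) := by
        apply mul_le_mul h1.le _ _ zero_le_one
        · nlinarith
        · nlinarith
      linarith
    nlinarith
  have h2 : a1 p ≤ 4 := h.trans hG
  rw [a1, div_le_iff₀ h0] at h2
  linarith

theorem Ps_pos {l : ℝ} (hl : 0 ≤ l) (h3 : l < 3) : 0 < Ps l := by
  rcases lt_or_ge l 1 with h | h
  · linarith [(Ps_valid hl).2.1]
  -- choose `p`
  set p : ℝ := min (1 / 2) ((3 - l) / 8) with hp
  have hp0 : 0 < p := lt_min (by norm_num) (by linarith)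
  have hp1 : p < 1 := lt_of_le_of_lt (min_le_left _ _) (by norm_num)
  have hp2 : p ≤ (3 - l) / 8 := min_le_right _ _
  have hI := I1_lower hp0 hp1
  have hI' : (3 - l) / 2 ≤ I1 (p ^ 2) - l := by linarith
  set s : ℝ := min (1 / 2) ((3 - l) / 32) with hs
  have hs0 : 0 < s := lt_min (by norm_num) (by linarith)
  have hs1 : s ≤ 1 / 2 := min_le_left _ _
  have hs2 : s ≤ (3 - l) / 32 := min_le_right _ _
  have hD : 1 / 4 ≤ DD (p ^ 2) s := by
    unfold DD
    have : 0 ≤ 2 * s ^ 3 * (p ^ 2) ^ 3 := by positivity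
    nlinarith
  have hd : Dom (p ^ 2) s := ⟨by positivity, by nlinarith, hs0, by linarith, by linarith⟩
  have hk := k1_le_one hd
  have hw := kw_le hd
  have hkw : kw (p ^ 2) s ≤ 4 * s := by
    have e1 : 1 / 2 ≤ Real.sqrt (DD (p ^ 2) s) := by
      apply Real.le_sqrt_of_sq_le
      linarith
    have e2 : Real.sqrt 3 ≤ 2 := by
      rw [Real.sqrt_le_left (by norm_num)]
      norm_num
    have e3 := kw_pos' hd
    nlinarith [mul_le_mul_of_nonneg_left e1 e3.le, mul_le_mul_of_nonneg_left e2 hs0.le]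
  have hnum : 0 < I1 (p ^ 2) + kw (p ^ 2) s - l * XX (p ^ 2) s := by
    have e1 : l * XX (p ^ 2) s = l * k1 (p ^ 2) s + l * kw (p ^ 2) s := by unfold XX; ring
    have e2 : l * k1 (p ^ 2) s ≤ l * 1 := mul_le_mul_of_nonneg_left hk hl
    have e3 : (l - 1) * kw (p ^ 2) s ≤ (l - 1) * (4 * s) :=
      mul_le_mul_of_nonneg_left hkw (by linarith)
    have e4 : (l - 1) * (4 * s) ≤ 2 * (4 * ((3 - l) / 32)) := by
      apply mul_le_mul (by linarith) (by linarith) (by linarith) (by norm_num)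
    nlinarith
  have hPhi : 0 < Phi l (p ^ 2) s := by
    have : Phi l (p ^ 2) s = (I1 (p ^ 2) + kw (p ^ 2) s - l * XX (p ^ 2) s) /
        (I2 (p ^ 2) / s + XX (p ^ 2) s) := by
      unfold Phi tbar mbar
      ring
    rw [this]
    exact div_pos hnum (den_pos hd)
  exact lt_of_lt_of_le hPhi (Phi_le_Ps hl hd)

end Pool.Agent.OptRes
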