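import Pool.Agent.OptRes.ExA

/-!
# Compactness for the half cells of almost optimal payoff
-/

open MeasureTheory Set Filter Topology

namespace Pool.Agent.OptRes

private theorem I2_pos'' {ρ s : ℝ} (h : Dom ρ s) : 1 ≤ I2 ρ :=
  le_trans (one_le_I1 h.ρ0 h.ρ1.le) (I1_le_I2 h.ρ0 h.ρ1.le)

private theorem kw_pos'' {ρ s : ℝ} (h : Dom ρ s) : 0 < kw ρ s :=
  lt_of_lt_of_le (div_pos h.s0 (by linarith [h.s1])) (kw_ge h)

private theorem XX_pos'' {ρ s : ℝ} (h : Dom ρ s) : 0 < XX ρ s :=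
  add_pos (k1_pos h) (kw_pos'' h)

/-- the first upper bound of `Phi` -/
theorem Phi_le_a {l ρ s : ℝ} (hl : 0 ≤ l) (h : Dom ρ s) :
    Phi l ρ s ≤ (3 + kw ρ s) * s / I2 ρ := by
  have h1 := I2_pos'' h
  have h2 := kw_pos'' h
  have h3 := XX_pos'' h
  have h4 := I1_lt_three h.ρ0 h.ρ1.le
  have h5 := one_le_I1 h.ρ0 h.ρ1.le
  have h6 : tbar ρ s ≤ (3 + kw ρ s) * s / I2 ρ := by
    have e : (3 + kw ρ s) * s / I2 ρ = (3 + kw ρ s) / (I2 ρ / s) := by
      field_simp
    rw [e, tbar]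
    have hs := h.s0
    apply div_le_div₀ (by linarith) (by linarith) (by positivity) (by linarith)
  have h7 := mul_nonneg hl (mbar_mem h).1.le
  unfold Phi
  linarith

/-- the second upper bound of `Phi` -/
theorem Phi_le_b {l ρ s : ℝ} (hl : 0 ≤ l) (h : Dom ρ s) :
    Phi l ρ s ≤ 3 / kw ρ s + max 0 (1 - l) := by
  have h1 := I2_pos'' h
  have h2 := kw_pos'' h
  have h3 := k1_pos h
  have h4 := I1_lt_three h.ρ0 h.ρ1.le
  have h5 := one_le_I1 h.ρ0 h.ρ1.le
  have hs := h.s0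
  have h6 : 0 < I2 ρ / s := by positivity
  have e : Phi l ρ s = I1 ρ / (I2 ρ / s + XX ρ s) - l * k1 ρ s / (I2 ρ / s + XX ρ s)
      + (1 - l) * (kw ρ s / (I2 ρ / s + XX ρ s)) := by
    unfold Phi tbar mbar XX
    ring
  have hD : 0 < I2 ρ / s + XX ρ s := den_pos h
  have hkD : kw ρ s ≤ I2 ρ / s + XX ρ s := by unfold XX; linarith
  have e1 : I1 ρ / (I2 ρ / s + XX ρ s) ≤ 3 / kw ρ s :=
    div_le_div₀ (by norm_num) h4.le h2 hkD
  have e2 : 0 ≤ l * k1 ρ s / (I2 ρ / s + XX ρ s) := by positivity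
  have e3 : kw ρ s / (I2 ρ / s + XX ρ s) ≤ 1 := by
    rw [div_le_one hD]; exact hkD
  have e4 : 0 ≤ kw ρ s / (I2 ρ / s + XX ρ s) := by positivity
  have e5 : (1 - l) * (kw ρ s / (I2 ρ / s + XX ρ s)) ≤ max 0 (1 - l) := by
    calc (1 - l) * (kw ρ s / (I2 ρ / s + XX ρ s))
        ≤ max 0 (1 - l) * (kw ρ s / (I2 ρ / s + XX ρ s)) :=
          mul_le_mul_of_nonneg_right (le_max_right _ _) e4
      _ ≤ max 0 (1 - l) * 1 := mul_le_mul_of_nonneg_left e3 (le_max_left _ _)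
      _ = _ := mul_one _
  rw [e]
  linarith

/-- `I2(ρ) ≥ 1 / √ρ - 3` -/
theorem I2_lower {ρ : ℝ} (h0 : 0 < ρ) (h1 : ρ < 1) : 1 / Real.sqrt ρ - 3 ≤ I2 ρ := by
  have hp0 : 0 < Real.sqrt ρ := Real.sqrt_pos.2 h0
  have hp1 : Real.sqrt ρ < 1 := by
    rw [Real.sqrt_lt' one_pos]; linarith
  have hsq : Real.sqrt ρ ^ 2 = ρ := Real.sq_sqrt h0.le
  have h := (ab hp0 hp1).g2l
  set p := Real.sqrt ρ with hp
  have hG : 1 ≤ G2l p := by
    unfold G2l
    have e1 : p ^ 6 ≤ 1 := pow_le_one₀ hp0.le hp1.le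
    have e0 : 0 ≤ p ^ 6 := by positivity
    have e2 : -2 ≤ 182467 / 100000 + p * (-168529 / 100000 + p * (-24175 / 100000 +
        p * (46211 / 100000))) := by
      have a0 : -(24175 / 100000 : ℝ) ≤ p * (-24175 / 100000 + p * (46211 / 100000)) := by
        nlinarith [mul_pos hp0 hp0]
      have a1 : -(2 : ℝ) ≤ -168529 / 100000 + p * (-24175 / 100000 + p * (46211 / 100000)) := by
        linarith
      nlinarith [mul_le_mul_of_nonneg_left a1 hp0.le]
    nlinarith [mul_le_mul_of_nonneg_left e2 e0]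
  have h2 : 1 ≤ a2 p := hG.trans h
  rw [a2, hsq] at h2
  rw [sub_le_iff_le_add, div_le_iff₀ hp0]
  linarith

theorem compactness {l v : ℝ} (_hl : 0 ≤ l) (hv0 : 0 < v) (hv1 : 1 - l < v) (ln ρn sn : ℕ → ℝ)
    (hln : ∀ n, 0 ≤ ln n) (hlim : Tendsto ln atTop (𝓝 l)) (hdom : ∀ n, Dom (ρn n) (sn n))
    (hPhi : Tendsto (fun n => Phi (ln n) (ρn n) (sn n)) atTop (𝓝 v)) :
    ∃ ρ s, Dom ρ s ∧ Phi l ρ s = v ∧ ∃ φ : ℕ → ℕ, StrictMono φ ∧
      Tendsto (fun n => mbar (ρn (φ n)) (sn (φ n))) atTop (𝓝 (mbar ρ s)) := by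
  -- a convergent subsequence
  have hcomp : IsCompact ((Icc (0 : ℝ) 1) ×ˢ (Icc (0 : ℝ) 1)) := isCompact_Icc.prod isCompact_Icc
  obtain ⟨⟨ρ, s⟩, hmem, φ, hφ, hlimφ⟩ := hcomp.tendsto_subseq
    (x := fun n => (ρn n, sn n))
    (fun n => ⟨⟨(hdom n).ρ0.le, (hdom n).ρ1.le⟩, ⟨(hdom n).s0.le, (hdom n).s1.le⟩⟩)
  have hρlim : Tendsto (fun n => ρn (φ n)) atTop (𝓝 ρ) :=
    (continuous_fst.tendsto (ρ, s)).comp hlimφ
  have hslim : Tendsto (fun n => sn (φ n)) atTop (𝓝 s) :=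
    (continuous_snd.tendsto (ρ, s)).comp hlimφ
  have hllim : Tendsto (fun n => ln (φ n)) atTop (𝓝 l) := hlim.comp hφ.tendsto_atTop
  have hPlim : Tendsto (fun n => Phi (ln (φ n)) (ρn (φ n)) (sn (φ n))) atTop (𝓝 v) :=
    hPhi.comp hφ.tendsto_atTop
  have hρ01 : ρ ∈ Icc (0 : ℝ) 1 := hmem.1
  have hs01 : s ∈ Icc (0 : ℝ) 1 := hmem.2
  have hdom' : ∀ n, Dom (ρn (φ n)) (sn (φ n)) := fun n => hdom _
  have hln' : ∀ n, 0 ≤ ln (φ n) := fun n => hln _
  generalize hr' : (fun n => ρn (φ n)) = r at *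
  have hr : ∀ n, ρn (φ n) = r n := fun n => congrFun hr' n
  generalize hs' : (fun n => sn (φ n)) = t at *
  have ht : ∀ n, sn (φ n) = t n := fun n => congrFun hs' n
  generalize hl' : (fun n => ln (φ n)) = lam at *
  have hL : ∀ n, ln (φ n) = lam n := fun n => congrFun hl' n
  simp only [hr, ht, hL] at hdom' hln' hPlim
  have hDlim : Tendsto (fun n => DD (r n) (t n)) atTop (𝓝 (DD ρ s)) := by
    unfold DD
    exact ((tendsto_const_nhds.sub ((hslim.pow 2).const_mul 3)).add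
      (((hslim.pow 3).const_mul 2).mul (hρlim.pow 3)))
  have hD0 : 0 ≤ DD ρ s := ge_of_tendsto' hDlim (fun n => (hdom' n).D.le)
  have hv2 : max 0 (1 - l) < v := max_lt hv0 hv1
  -- general bound of `kw` when `DD ρ s > 0`
  have hkwb : 0 < DD ρ s → Tendsto (fun n => t n * Real.sqrt 3 / Real.sqrt (DD (r n) (t n)))
      atTop (𝓝 (s * Real.sqrt 3 / Real.sqrt (DD ρ s))) := by
    intro hD
    have h1 : Tendsto (fun n => Real.sqrt (DD (r n) (t n))) atTop (𝓝 (Real.sqrt (DD ρ s))) :=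
      (Real.continuous_sqrt.tendsto _).comp hDlim
    exact (hslim.mul_const _).div h1 (Real.sqrt_pos.2 hD).ne'
  have hkwle : ∀ n, kw (r n) (t n) ≤ t n * Real.sqrt 3 / Real.sqrt (DD (r n) (t n)) := by
    intro n
    rw [le_div_iff₀ (Real.sqrt_pos.2 (hdom' n).D)]
    exact kw_le (hdom' n)
  -- (a) `s > 0`
  have hs0 : 0 < s := by
    rcases hs01.1.lt_or_eq with h | h
    · exact h
    exfalso
    have hD : 0 < DD ρ s := by rw [← h]; unfold DD; norm_num
    have h1 := hkwb hD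
    have h2 : Tendsto (fun n => (3 + t n * Real.sqrt 3 / Real.sqrt (DD (r n) (t n))) * t n) atTop
        (𝓝 ((3 + s * Real.sqrt 3 / Real.sqrt (DD ρ s)) * s)) := (h1.const_add 3).mul hslim
    rw [← h, mul_zero] at h2
    have h3 : ∀ n, Phi (lam n) (r n) (t n) ≤
        (3 + t n * Real.sqrt 3 / Real.sqrt (DD (r n) (t n))) * t n := by
      intro n
      have hd := hdom' n
      refine (Phi_le_a (hln' n) hd).trans ?_
      have e1 := I2_pos'' hd
      have e2 := kw_pos'' hd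
      have e3 := hd.s0
      rw [div_le_iff₀ (by linarith)]
      have e4 : (3 + kw (r n) (t n)) * t n ≤
          (3 + t n * Real.sqrt 3 / Real.sqrt (DD (r n) (t n))) * t n :=
        mul_le_mul_of_nonneg_right (by linarith [hkwle n]) e3.le
      have e5 : 0 ≤ (3 + t n * Real.sqrt 3 / Real.sqrt (DD (r n) (t n))) * t n := by
        have := hkwle n
        apply mul_nonneg _ e3.le
        linarith
      nlinarith
    have := le_of_tendsto_of_tendsto' hPlim h2 h3
    linarith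
  -- (b) `DD ρ s > 0`
  have hD : 0 < DD ρ s := by
    rcases hD0.lt_or_eq with h | h
    · exact h
    exfalso
    rw [← h] at hDlim
    have hsq : Tendsto (fun n => Real.sqrt (DD (r n) (t n))) atTop (𝓝[>] 0) := by
      apply tendsto_nhdsWithin_of_tendsto_nhds_of_eventually_within
      · have := (Real.continuous_sqrt.tendsto 0).comp hDlim
        rwa [Real.sqrt_zero] at this
      · exact Eventually.of_forall fun n => Real.sqrt_pos.2 (hdom' n).D
    have h1 : Tendsto (fun n => 1 / Real.sqrt (DD (r n) (t n))) atTop atTop := by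
      simp only [one_div]
      exact tendsto_inv_nhdsGT_zero.comp hsq
    have h2 : Tendsto (fun n => Real.log (1 + 1 / Real.sqrt (DD (r n) (t n)))) atTop atTop :=
      Real.tendsto_log_atTop.comp (tendsto_atTop_add_const_left _ _ h1)
    have h3 : Tendsto (fun n => t n * Real.log (1 + 1 / Real.sqrt (DD (r n) (t n)))) atTop atTop :=
      hslim.pos_mul_atTop hs0 h2
    have h4 : Tendsto (fun n => kw (r n) (t n)) atTop atTop :=
      tendsto_atTop_mono (fun n => kw_log (hdom' n)) h3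
    have h5 : Tendsto (fun n => 3 / kw (r n) (t n) + max 0 (1 - lam n)) atTop
        (𝓝 (0 + max 0 (1 - l))) := by
      apply Tendsto.add (h4.const_div_atTop 3)
      exact (tendsto_const_nhds).max (tendsto_const_nhds.sub hllim)
    have := le_of_tendsto_of_tendsto' hPlim h5 (fun n => Phi_le_b (hln' n) (hdom' n))
    linarith
  -- (c) `ρ > 0`
  have hρ0 : 0 < ρ := by
    rcases hρ01.1.lt_or_eq with h | h
    · exact h
    exfalso
    have hsq : Tendsto (fun n => Real.sqrt (r n)) atTop (𝓝[>] 0) := by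
      apply tendsto_nhdsWithin_of_tendsto_nhds_of_eventually_within
      · rw [← h] at hρlim
        have := (Real.continuous_sqrt.tendsto 0).comp hρlim
        rwa [Real.sqrt_zero] at this
      · exact Eventually.of_forall fun n => Real.sqrt_pos.2 (hdom' n).ρ0
    have h1 : Tendsto (fun n => 1 / Real.sqrt (r n) - 3) atTop atTop := by
      simp only [one_div]
      exact tendsto_atTop_add_const_right _ _ (tendsto_inv_nhdsGT_zero.comp hsq)
    have h2 : Tendsto (fun n => I2 (r n)) atTop atTop :=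
      tendsto_atTop_mono (fun n => I2_lower (hdom' n).ρ0 (hdom' n).ρ1) h1
    have h3 := ((hkwb hD).const_add 3).mul hslim
    have h4 : Tendsto (fun n => (3 + t n * Real.sqrt 3 / Real.sqrt (DD (r n) (t n))) * t n /
        I2 (r n)) atTop (𝓝 0) := h3.div_atTop h2
    have h5 : ∀ n, Phi (lam n) (r n) (t n) ≤
        (3 + t n * Real.sqrt 3 / Real.sqrt (DD (r n) (t n))) * t n / I2 (r n) := by
      intro n
      have hd := hdom' n
      refine (Phi_le_a (hln' n) hd).trans ?_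
      have e1 := I2_pos'' hd
      apply div_le_div_of_nonneg_right _ (by linarith)
      exact mul_le_mul_of_nonneg_right (by linarith [hkwle n]) hd.s0.le
    have := le_of_tendsto_of_tendsto' hPlim h4 h5
    linarith
  -- `s < 1`
  have hs1 : s < 1 := by
    rcases hs01.2.lt_or_eq with h | h
    · exact h
    exfalso
    rw [h] at hD
    unfold DD at hD
    have : ρ ^ 3 ≤ 1 := pow_le_one₀ hρ0.le hρ01.2
    linarith
  have hmem1 : (ρ, s) ∈ Dom1 := ⟨hρ0, hρ01.2, hs0, hs1, hD⟩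
  have hmemn : ∀ n, (r n, t n) ∈ Dom1 := fun n =>
    ⟨(hdom' n).ρ0, (hdom' n).ρ1.le, (hdom' n).s0, (hdom' n).s1, (hdom' n).D⟩
  have hpair : Tendsto (fun n => (r n, t n)) atTop (𝓝[Dom1] (ρ, s)) := by
    apply tendsto_nhdsWithin_of_tendsto_nhds_of_eventually_within
    · exact hρlim.prodMk_nhds hslim
    · exact Eventually.of_forall hmemn
  have hk1 : Tendsto (fun n => k1 (r n) (t n)) atTop (𝓝 (k1 ρ s)) :=
    Tendsto.comp (continuousOn_k1 (ρ, s) hmem1) hpair
  have hkw : Tendsto (fun n => kw (r n) (t n)) atTop (𝓝 (kw ρ s)) :=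
    Tendsto.comp (continuousOn_kw (ρ, s) hmem1) hpair
  have hIoc : Tendsto r atTop (𝓝[Ioc 0 1] ρ) := by
    apply tendsto_nhdsWithin_of_tendsto_nhds_of_eventually_within _ hρlim
    exact Eventually.of_forall fun n => ⟨(hdom' n).ρ0, (hdom' n).ρ1.le⟩
  have hI1 : Tendsto (fun n => I1 (r n)) atTop (𝓝 (I1 ρ)) :=
    Tendsto.comp (continuousOn_I1 ρ ⟨hρ0, hρ01.2⟩) hIoc
  have hI2 : Tendsto (fun n => I2 (r n)) atTop (𝓝 (I2 ρ)) :=
    Tendsto.comp (continuousOn_I2 ρ ⟨hρ0, hρ01.2⟩) hIoc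
  have hXX : Tendsto (fun n => XX (r n) (t n)) atTop (𝓝 (XX ρ s)) := hk1.add hkw
  have hden : Tendsto (fun n => I2 (r n) / t n + XX (r n) (t n)) atTop
      (𝓝 (I2 ρ / s + XX ρ s)) := (hI2.div hslim hs0.ne').add hXX
  -- `ρ < 1`
  have hρ1 : ρ < 1 := by
    rcases hρ01.2.lt_or_eq with h | h
    · exact h
    exfalso
    subst h
    have h1 : I2 1 / s + XX 1 s = 1 / (s * (1 - s)) := by
      have : 1 - s ≠ 0 := by linarith
      rw [I2_one, XX, k1_one hs0 hs1, kw_one hs0 hs1]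
      field_simp
      ring
    have h2 : I2 1 / s + XX 1 s ≠ 0 := by
      rw [h1]
      have : 0 < 1 - s := by linarith
      positivity
    have h3 : Tendsto (fun n => Phi (lam n) (r n) (t n)) atTop (𝓝 (tbar 1 s - l * mbar 1 s)) := by
      unfold Phi tbar mbar
      exact ((hI1.add hkw).div hden h2).sub (hllim.mul (hXX.div hden h2))
    have h4 : tbar 1 s = s := by
      have e : 1 - s ≠ 0 := by linarith
      rw [tbar, h1, I1_one, kw_one hs0 hs1]
      field_simp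
      ring
    have h5 : mbar 1 s = s := by
      have e : 1 - s ≠ 0 := by linarith
      rw [mbar, h1, XX, k1_one hs0 hs1, kw_one hs0 hs1]
      field_simp
      ring
    have h6 : v = s - l * s := by
      rw [h4, h5] at h3
      exact tendsto_nhds_unique hPlim h3
    rcases le_total l 1 with hl1 | hl1
    · nlinarith
    · nlinarith
  have hdomρ : Dom ρ s := ⟨hρ0, hρ1, hs0, hs1, hD⟩
  have hdne := (den_pos hdomρ).ne'
  have hmbar : Tendsto (fun n => mbar (r n) (t n)) atTop (𝓝 (mbar ρ s)) := by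
    unfold mbar
    exact hXX.div hden hdne
  refine ⟨ρ, s, hdomρ, ?_, φ, hφ, ?_⟩
  · have h3 : Tendsto (fun n => Phi (lam n) (r n) (t n)) atTop (𝓝 (Phi l ρ s)) := by
      have : Tendsto (fun n => tbar (r n) (t n)) atTop (𝓝 (tbar ρ s)) := by
        unfold tbar
        exact (hI1.add hkw).div hden hdne
      exact this.sub (hllim.mul hmbar)
    exact tendsto_nhds_unique h3 hPlim
  · simp only [hr, ht]
    exact hmbar

theorem attained {l : ℝ} (hl : 0 ≤ l) (h0 : 0 < Ps l) (h1 : 1 - l < Ps l) :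
    ∃ ρ s, Dom ρ s ∧ Phi l ρ s = Ps l := by
  have hmax : max 0 (1 - l) < Ps l := max_lt h0 h1
  have key : ∀ n : ℕ, ∃ ρ s, Dom ρ s ∧ Ps l - 1 / ((n : ℝ) + 1) < Phi l ρ s := by
    intro n
    have hn : (0 : ℝ) < 1 / ((n : ℝ) + 1) := by positivity
    have hlt : max (max 0 (1 - l)) (Ps l - 1 / ((n : ℝ) + 1)) < Ps l :=
      max_lt hmax (by linarith)
    obtain ⟨x, hx, hxlt⟩ := exists_lt_of_lt_csSup (s := PhiSet l) ⟨0, Or.inl rfl⟩ hlt
    have hx1 : max 0 (1 - l) < x := lt_of_le_of_lt (le_max_left _ _) hxlt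
    have hx2 : Ps l - 1 / ((n : ℝ) + 1) < x := lt_of_le_of_lt (le_max_right _ _) hxlt
    rcases hx with rfl | rfl | ⟨ρ, s, hd, rfl⟩
    · exact absurd (le_max_left 0 (1 - l)) (not_le.2 hx1)
    · exact absurd (le_max_right 0 (1 - l)) (not_le.2 hx1)
    · exact ⟨ρ, s, hd, hx2⟩
  choose ρn sn hdom hgt using key
  have hPhi : Tendsto (fun n => Phi ((fun _ : ℕ => l) n) (ρn n) (sn n)) atTop (𝓝 (Ps l)) := by
    have h2 : Tendsto (fun n : ℕ => Ps l - 1 / ((n : ℝ) + 1)) atTop (𝓝 (Ps l - 0)) :=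
      tendsto_const_nhds.sub tendsto_one_div_add_atTop_nhds_zero_nat
    rw [sub_zero] at h2
    exact tendsto_of_tendsto_of_tendsto_of_le_of_le h2 tendsto_const_nhds
      (fun n => (hgt n).le) (fun n => Phi_le_Ps hl (hdom n))
  obtain ⟨ρ, s, hd, hP, -⟩ := compactness hl h0 h1 (fun _ => l) ρn sn (fun _ => hl)
    tendsto_const_nhds hdom hPhi
  exact ⟨ρ, s, hd, hP⟩

end Pool.Agent.OptRes
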