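import Mathlib

/-!
# A small verified interval checker

Intervals have integer endpoints, scaled by `SC = 2 ^ 50`.  Expressions in finitely many real
variables are evaluated by naive interval arithmetic; `verify` subdivides a box of base
variables until the target is seen to be positive (or a constraint is violated) on each part.
Derived variables come with lists of lower and upper bounds which are expressions in the
previous variables.
-/

namespace Pool.Agent.OptRes

/-- The scale. -/
def SC : Int := 1125899906842624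

/-- Intervals; `top` is the whole line. -/
inductive Iv where
  | top : Iv
  | mk (lo hi : Int) : Iv

/-- Expressions. -/
inductive Ex where
  | q (n : Int) (d : Nat) : Ex
  | v (i : Nat) : Ex
  | add (a b : Ex) : Ex
  | sub (a b : Ex) : Ex
  | mul (a b : Ex) : Ex
  | sq (a : Ex) : Ex
  | div (a b : Ex) : Ex

namespace Ex

/-- Real value of an expression. -/
noncomputable def ev (x : ℕ → ℝ) : Ex → ℝ
  | q n d => (n : ℝ) / (d : ℝ)
  | v i => x i
  | add a b => a.ev x + b.ev x
  | sub a b => a.ev x - b.ev x
  | mul a b => a.ev x * b.ev x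
  | sq a => a.ev x ^ 2
  | div a b => a.ev x / b.ev x

instance : Add Ex := ⟨Ex.add⟩
instance : Sub Ex := ⟨Ex.sub⟩
instance : Mul Ex := ⟨Ex.mul⟩
instance : Div Ex := ⟨Ex.div⟩
instance (n : ℕ) : OfNat Ex n := ⟨Ex.q (Int.ofNat n) 1⟩

@[simp] theorem ev_add (x : ℕ → ℝ) (a b : Ex) : (a + b).ev x = a.ev x + b.ev x := rfl
@[simp] theorem ev_sub (x : ℕ → ℝ) (a b : Ex) : (a - b).ev x = a.ev x - b.ev x := rfl
@[simp] theorem ev_mul (x : ℕ → ℝ) (a b : Ex) : (a * b).ev x = a.ev x * b.ev x := rfl
@[simp] theorem ev_div (x : ℕ → ℝ) (a b : Ex) : (a / b).ev x = a.ev x / b.ev x := rfl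
@[simp] theorem ev_sq (x : ℕ → ℝ) (a : Ex) : (Ex.sq a).ev x = a.ev x ^ 2 := rfl
@[simp] theorem ev_v (x : ℕ → ℝ) (i : ℕ) : (Ex.v i).ev x = x i := rfl
@[simp] theorem ev_q (x : ℕ → ℝ) (n : Int) (d : ℕ) : (Ex.q n d).ev x = (n : ℝ) / (d : ℝ) := rfl
@[simp] theorem ev_two (x : ℕ → ℝ) : (2 : Ex).ev x = 2 := by
  show ((Int.ofNat 2 : Int) : ℝ) / ((1 : ℕ) : ℝ) = _
  simp
@[simp] theorem ev_three (x : ℕ → ℝ) : (3 : Ex).ev x = 3 := by
  show ((Int.ofNat 3 : Int) : ℝ) / ((1 : ℕ) : ℝ) = _
  simp
@[simp] theorem ev_four (x : ℕ → ℝ) : (4 : Ex).ev x = 4 := by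
  show ((Int.ofNat 4 : Int) : ℝ) / ((1 : ℕ) : ℝ) = _
  simp
@[simp] theorem ev_five (x : ℕ → ℝ) : (5 : Ex).ev x = 5 := by
  show ((Int.ofNat 5 : Int) : ℝ) / ((1 : ℕ) : ℝ) = _
  simp
@[simp] theorem ev_six (x : ℕ → ℝ) : (6 : Ex).ev x = 6 := by
  show ((Int.ofNat 6 : Int) : ℝ) / ((1 : ℕ) : ℝ) = _
  simp
@[simp] theorem ev_eight (x : ℕ → ℝ) : (8 : Ex).ev x = 8 := by
  show ((Int.ofNat 8 : Int) : ℝ) / ((1 : ℕ) : ℝ) = _
  simp
@[simp] theorem ev_zero (x : ℕ → ℝ) : (0 : Ex).ev x = 0 := by
  show ((Int.ofNat 0 : Int) : ℝ) / ((1 : ℕ) : ℝ) = _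
  simp
@[simp] theorem ev_one (x : ℕ → ℝ) : (1 : Ex).ev x = 1 := by
  show ((Int.ofNat 1 : Int) : ℝ) / ((1 : ℕ) : ℝ) = _
  simp

end Ex

namespace Iv

/-- membership -/
def Mem (x : ℝ) : Iv → Prop
  | top => True
  | mk lo hi => (lo : ℝ) ≤ x * (SC : ℝ) ∧ x * (SC : ℝ) ≤ (hi : ℝ)

/-- floor of `n / d` -/
def fl (n d : Int) : Int := n / d
/-- ceiling of `n / d` -/
def ce (n d : Int) : Int := -((-n) / d)

def minI (a b : Int) : Int := bif decide (a ≤ b) then a else b
def maxI (a b : Int) : Int := bif decide (a ≤ b) then b else a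

def add : Iv → Iv → Iv
  | mk a b, mk c d => mk (a + c) (b + d)
  | _, _ => top
def sub : Iv → Iv → Iv
  | mk a b, mk c d => mk (a - d) (b - c)
  | _, _ => top
def mul : Iv → Iv → Iv
  | mk a b, mk c d =>
    bif (decide (0 ≤ a) && decide (0 ≤ c)) then mk (fl (a * c) SC) (ce (b * d) SC)
    else mk (fl (minI (minI (a * c) (a * d)) (minI (b * c) (b * d))) SC)
      (ce (maxI (maxI (a * c) (a * d)) (maxI (b * c) (b * d))) SC)
  | _, _ => top
def sq : Iv → Iv
  | mk a b =>
    bif decide (0 ≤ a) then mk (fl (a * a) SC) (ce (b * b) SC)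
    else bif decide (b ≤ 0) then mk (fl (b * b) SC) (ce (a * a) SC)
    else mk 0 (ce (maxI (a * a) (b * b)) SC)
  | _ => top
def div : Iv → Iv → Iv
  | mk a b, mk c d =>
    bif decide (1 ≤ c) then
      mk (bif decide (0 ≤ a) then fl (a * SC) d else fl (a * SC) c)
        (bif decide (0 ≤ b) then ce (b * SC) c else ce (b * SC) d)
    else top
  | _, _ => top

end Iv

/-- look up a variable -/
def look : List Iv → Nat → Iv
  | [], _ => Iv.top
  | a :: _, 0 => a
  | _ :: l, n + 1 => look l n

/-- interval evaluation -/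
def Ex.iv (env : List Iv) : Ex → Iv
  | q n d => match d with
    | 0 => Iv.top
    | k + 1 => Iv.mk (Iv.fl (n * SC) (Int.ofNat (k + 1))) (Iv.ce (n * SC) (Int.ofNat (k + 1)))
  | v i => look env i
  | add a b => Iv.add (a.iv env) (b.iv env)
  | sub a b => Iv.sub (a.iv env) (b.iv env)
  | mul a b => Iv.mul (a.iv env) (b.iv env)
  | sq a => Iv.sq (a.iv env)
  | div a b => Iv.div (a.iv env) (b.iv env)

/-- best lower bound -/
def loOf (env : List Iv) : List Ex → Option Int
  | [] => none
  | e :: l =>
    match e.iv env, loOf env l with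
    | Iv.mk a _, none => some a
    | Iv.mk a _, some b => some (Iv.maxI a b)
    | Iv.top, r => r

/-- best upper bound -/
def hiOf (env : List Iv) : List Ex → Option Int
  | [] => none
  | e :: l =>
    match e.iv env, hiOf env l with
    | Iv.mk _ a, none => some a
    | Iv.mk _ a, some b => some (Iv.minI a b)
    | Iv.top, r => r

/-- interval of a derived variable -/
def derIv (env : List Iv) (los his : List Ex) : Iv :=
  match loOf env los, hiOf env his with
  | some a, some b => Iv.mk a b
  | _, _ => Iv.top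

/-- derived variables: equal to an expression, or bounded by expressions -/
inductive Der where
  | eq (e : Ex) : Der
  | bd (los his : List Ex) : Der

/-- interval of a derived variable -/
def Der.iv (env : List Iv) : Der → Iv
  | eq e => e.iv env
  | bd los his => derIv env los his

/-- append an entry -/
def snoc : List Iv → Iv → List Iv
  | [], y => [y]
  | a :: l, y => a :: snoc l y

/-- append the derived variables -/
def derive : List Der → List Iv → List Iv
  | [], env => env
  | d :: rest, env => derive rest (snoc env (d.iv env))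

/-- some constraint is certainly violated -/
def anyNeg (env : List Iv) : List Ex → Bool
  | [] => false
  | e :: l =>
    (match e.iv env with
      | Iv.mk _ b => decide (b < 0)
      | Iv.top => false) || anyNeg env l

/-- all targets are certainly positive -/
def allPos (env : List Iv) : List Ex → Bool
  | [] => true
  | e :: l =>
    (match e.iv env with
      | Iv.mk a _ => decide (0 < a)
      | Iv.top => false) && allPos env l

/-- index of the widest interval -/
def widest : List Iv → List Int → Nat → Nat → Int → Nat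
  | Iv.mk a b :: l, w :: ws, i, best, bw =>
    bif decide (bw < (b - a) * w) then widest l ws (i + 1) i ((b - a) * w)
    else widest l ws (i + 1) best bw
  | _, _, _, best, _ => best

/-- replace an entry -/
def setAt : List Iv → Nat → Iv → List Iv
  | [], _, _ => []
  | _ :: l, 0, y => y :: l
  | a :: l, n + 1, y => a :: setAt l n y

structure Prob where
  der : List Der
  con : List Ex
  tgt : List Ex
  wts : List Int

/-- the checker -/
def verify (P : Prob) : Nat → List Iv → Bool
  | 0, _ => false
  | n + 1, box =>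
    let env := derive P.der box
    anyNeg env P.con || (allPos env P.tgt ||
      (let i := widest box P.wts 0 0 (-1)
       match look box i with
       | Iv.mk a b => verify P n (setAt box i (Iv.mk a ((a + b) / 2))) &&
          verify P n (setAt box i (Iv.mk ((a + b) / 2) b))
       | Iv.top => false))

/-- number of boxes used (for experiments) -/
def count (P : Prob) : Nat → List Iv → Nat × Nat
  | 0, _ => (0, 1)
  | n + 1, box =>
    let env := derive P.der box
    if anyNeg env P.con then (1, 0) else if allPos env P.tgt then (1, 0) else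
      let i := widest box P.wts 0 0 (-1)
      match look box i with
       | Iv.mk a b =>
          let r1 := count P n (setAt box i (Iv.mk a ((a + b) / 2)))
          let r2 := count P n (setAt box i (Iv.mk ((a + b) / 2) b))
          (1 + r1.1 + r2.1, r1.2 + r2.2)
       | Iv.top => (1, 1)

/-! ### Soundness -/

theorem SC_pos : (0 : ℝ) < (SC : ℝ) := by unfold SC; norm_num

theorem fl_le (n d : Int) (hd : 0 < d) : ((Iv.fl n d : Int) : ℝ) * (d : ℝ) ≤ (n : ℝ) := by
  have h : Iv.fl n d * d ≤ n := Int.ediv_mul_le n hd.ne'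
  exact_mod_cast h

theorem le_ce (n d : Int) (hd : 0 < d) : (n : ℝ) ≤ ((Iv.ce n d : Int) : ℝ) * (d : ℝ) := by
  have h : (-n) / d * d ≤ -n := Int.ediv_mul_le (-n) hd.ne'
  have h' : n ≤ Iv.ce n d * d := by unfold Iv.ce; linarith
  exact_mod_cast h'

theorem minI_le_left (a b : Int) : Iv.minI a b ≤ a := by
  unfold Iv.minI
  by_cases h : a ≤ b <;> simp [h]; omega

theorem minI_le_right (a b : Int) : Iv.minI a b ≤ b := by
  unfold Iv.minI
  by_cases h : a ≤ b <;> simp [h]

theorem le_maxI_left (a b : Int) : a ≤ Iv.maxI a b := by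
  unfold Iv.maxI
  by_cases h : a ≤ b <;> simp [h]

theorem le_maxI_right (a b : Int) : b ≤ Iv.maxI a b := by
  unfold Iv.maxI
  by_cases h : a ≤ b <;> simp [h]; omega

theorem bil_lower {a b c d X Y m : ℝ} (h1 : a ≤ X) (h2 : X ≤ b) (h3 : c ≤ Y) (h4 : Y ≤ d)
    (m1 : m ≤ a * c) (m2 : m ≤ a * d) (m3 : m ≤ b * c) (m4 : m ≤ b * d) : m ≤ X * Y := by
  by_cases hX : 0 ≤ X
  · have h5 : X * c ≤ X * Y := mul_le_mul_of_nonneg_left h3 hX
    have h6 : m ≤ X * c := by
      by_cases hc : 0 ≤ c
      · exact m1.trans (mul_le_mul_of_nonneg_right h1 hc)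
      · exact m3.trans (mul_le_mul_of_nonpos_right h2 (le_of_not_ge hc))
    linarith
  · have hX' : X ≤ 0 := le_of_not_ge hX
    have h5 : X * d ≤ X * Y := mul_le_mul_of_nonpos_left h4 hX'
    have h6 : m ≤ X * d := by
      by_cases hc : 0 ≤ d
      · exact m2.trans (mul_le_mul_of_nonneg_right h1 hc)
      · exact m4.trans (mul_le_mul_of_nonpos_right h2 (le_of_not_ge hc))
    linarith

theorem bil_upper {a b c d X Y m : ℝ} (h1 : a ≤ X) (h2 : X ≤ b) (h3 : c ≤ Y) (h4 : Y ≤ d)
    (m1 : a * c ≤ m) (m2 : a * d ≤ m) (m3 : b * c ≤ m) (m4 : b * d ≤ m) : X * Y ≤ m := by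
  have := bil_lower (a := -b) (b := -a) (c := c) (d := d) (X := -X) (Y := Y) (m := -m)
    (by linarith) (by linarith) h3 h4 (by linarith) (by linarith) (by linarith) (by linarith)
  linarith

namespace Iv

theorem mem_add {x y : ℝ} {I J : Iv} (hx : Mem x I) (hy : Mem y J) : Mem (x + y) (add I J) := by
  cases I with
  | top => cases J <;> trivial
  | mk a b =>
    cases J with
    | top => trivial
    | mk c d =>
      obtain ⟨h1, h2⟩ := hx
      obtain ⟨h3, h4⟩ := hy
      refine ⟨?_, ?_⟩ <;> push_cast <;> linarith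

theorem mem_sub {x y : ℝ} {I J : Iv} (hx : Mem x I) (hy : Mem y J) : Mem (x - y) (sub I J) := by
  cases I with
  | top => cases J <;> trivial
  | mk a b =>
    cases J with
    | top => trivial
    | mk c d =>
      obtain ⟨h1, h2⟩ := hx
      obtain ⟨h3, h4⟩ := hy
      refine ⟨?_, ?_⟩ <;> push_cast <;> linarith

theorem SCi_pos : (0 : Int) < SC := by decide

theorem scale_lo {n : Int} {z : ℝ} (h : (n : ℝ) ≤ z * (SC : ℝ) * (SC : ℝ)) :
    ((fl n SC : Int) : ℝ) ≤ z * (SC : ℝ) := by
  have h1 := fl_le n SC SCi_pos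
  have h2 : ((fl n SC : Int) : ℝ) * (SC : ℝ) ≤ (z * (SC : ℝ)) * (SC : ℝ) := h1.trans h
  exact le_of_mul_le_mul_right h2 SC_pos

theorem scale_hi {n : Int} {z : ℝ} (h : z * (SC : ℝ) * (SC : ℝ) ≤ (n : ℝ)) :
    z * (SC : ℝ) ≤ ((ce n SC : Int) : ℝ) := by
  have h1 := le_ce n SC SCi_pos
  have h2 : (z * (SC : ℝ)) * (SC : ℝ) ≤ ((ce n SC : Int) : ℝ) * (SC : ℝ) := h.trans h1
  exact le_of_mul_le_mul_right h2 SC_pos

theorem mem_mul {x y : ℝ} {I J : Iv} (hx : Mem x I) (hy : Mem y J) : Mem (x * y) (mul I J) := by
  cases I with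
  | top => cases J <;> trivial
  | mk a b =>
    cases J with
    | top => trivial
    | mk c d =>
      obtain ⟨h1, h2⟩ := hx
      obtain ⟨h3, h4⟩ := hy
      have e : x * y * (SC : ℝ) * (SC : ℝ) = (x * (SC : ℝ)) * (y * (SC : ℝ)) := by ring
      by_cases hh : 0 ≤ a ∧ 0 ≤ c
      · have hm : mul (mk a b) (mk c d) = mk (fl (a * c) SC) (ce (b * d) SC) := by
          simp [mul, hh.1, hh.2]
        rw [hm]
        have ha : (0 : ℝ) ≤ a := by exact_mod_cast hh.1
        have hc : (0 : ℝ) ≤ c := by exact_mod_cast hh.2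
        refine ⟨scale_lo ?_, scale_hi ?_⟩
        · rw [e]; push_cast
          exact mul_le_mul h1 h3 hc (ha.trans h1)
        · rw [e]; push_cast
          exact mul_le_mul h2 h4 (hc.trans h3) ((ha.trans h1).trans h2)
      · have hm : mul (mk a b) (mk c d) =
            mk (fl (minI (minI (a * c) (a * d)) (minI (b * c) (b * d))) SC)
              (ce (maxI (maxI (a * c) (a * d)) (maxI (b * c) (b * d))) SC) := by
          have : (decide (0 ≤ a) && decide (0 ≤ c)) = false := by
            rw [Bool.and_eq_false_iff]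
            by_cases h0 : 0 ≤ a
            · right; simp; by_contra hcon; exact hh ⟨h0, by omega⟩
            · left; simp; omega
          simp only [mul, this, cond_false]
        rw [hm]
        refine ⟨scale_lo ?_, scale_hi ?_⟩
        · rw [e]
          have l1 : minI (minI (a * c) (a * d)) (minI (b * c) (b * d)) ≤ a * c :=
            (minI_le_left _ _).trans (minI_le_left _ _)
          have l2 : minI (minI (a * c) (a * d)) (minI (b * c) (b * d)) ≤ a * d :=
            (minI_le_left _ _).trans (minI_le_right _ _)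
          have l3 : minI (minI (a * c) (a * d)) (minI (b * c) (b * d)) ≤ b * c :=
            (minI_le_right _ _).trans (minI_le_left _ _)
          have l4 : minI (minI (a * c) (a * d)) (minI (b * c) (b * d)) ≤ b * d :=
            (minI_le_right _ _).trans (minI_le_right _ _)
          exact bil_lower h1 h2 h3 h4 (by exact_mod_cast l1) (by exact_mod_cast l2)
            (by exact_mod_cast l3) (by exact_mod_cast l4)
        · rw [e]
          have l1 : a * c ≤ maxI (maxI (a * c) (a * d)) (maxI (b * c) (b * d)) :=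
            (le_maxI_left _ _).trans (le_maxI_left _ _)
          have l2 : a * d ≤ maxI (maxI (a * c) (a * d)) (maxI (b * c) (b * d)) :=
            (le_maxI_right _ _).trans (le_maxI_left _ _)
          have l3 : b * c ≤ maxI (maxI (a * c) (a * d)) (maxI (b * c) (b * d)) :=
            (le_maxI_left _ _).trans (le_maxI_right _ _)
          have l4 : b * d ≤ maxI (maxI (a * c) (a * d)) (maxI (b * c) (b * d)) :=
            (le_maxI_right _ _).trans (le_maxI_right _ _)
          exact bil_upper h1 h2 h3 h4 (by exact_mod_cast l1) (by exact_mod_cast l2)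
            (by exact_mod_cast l3) (by exact_mod_cast l4)

theorem mem_sq {x : ℝ} {I : Iv} (hx : Mem x I) : Mem (x ^ 2) (sq I) := by
  cases I with
  | top => trivial
  | mk a b =>
    obtain ⟨h1, h2⟩ := hx
    have e : x ^ 2 * (SC : ℝ) * (SC : ℝ) = (x * (SC : ℝ)) * (x * (SC : ℝ)) := by ring
    by_cases ha : 0 ≤ a
    · have hm : sq (mk a b) = mk (fl (a * a) SC) (ce (b * b) SC) := by simp [sq, ha]
      rw [hm]
      have ha' : (0 : ℝ) ≤ a := by exact_mod_cast ha
      refine ⟨scale_lo ?_, scale_hi ?_⟩
      · rw [e]; push_cast; exact mul_le_mul h1 h1 ha' (ha'.trans h1)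
      · rw [e]; push_cast
        exact mul_le_mul h2 h2 (ha'.trans h1) ((ha'.trans h1).trans h2)
    · by_cases hb : b ≤ 0
      · have hm : sq (mk a b) = mk (fl (b * b) SC) (ce (a * a) SC) := by simp [sq, ha, hb]
        rw [hm]
        have hb' : (b : ℝ) ≤ 0 := by exact_mod_cast hb
        refine ⟨scale_lo ?_, scale_hi ?_⟩
        · rw [e]; push_cast; nlinarith
        · rw [e]; push_cast; nlinarith
      · have hm : sq (mk a b) = mk 0 (ce (maxI (a * a) (b * b)) SC) := by simp [sq, ha, hb]
        rw [hm]
        have l1 : ((a * a : Int) : ℝ) ≤ (maxI (a * a) (b * b) : Int) := by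
          exact_mod_cast le_maxI_left _ _
        have l2 : ((b * b : Int) : ℝ) ≤ (maxI (a * a) (b * b) : Int) := by
          exact_mod_cast le_maxI_right _ _
        push_cast at l1 l2
        refine ⟨?_, scale_hi ?_⟩
        · push_cast; exact mul_nonneg (sq_nonneg x) SC_pos.le
        · rw [e]
          by_cases hX : 0 ≤ x * (SC : ℝ)
          · nlinarith
          · nlinarith

theorem div_lo {n d : Int} {z y : ℝ} (hd : 0 < d) (hy : 0 < y * (SC : ℝ))
    (h : (n : ℝ) * (SC : ℝ) * (y * (SC : ℝ)) ≤ z * (SC : ℝ) * (SC : ℝ) * (d : ℝ)) :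
    ((fl (n * SC) d : Int) : ℝ) ≤ z / y * (SC : ℝ) := by
  have h1 := fl_le (n * SC) d hd
  push_cast at h1
  have hS := SC_pos
  have hy0 : 0 < y := by
    by_contra hcon
    have : y * (SC : ℝ) ≤ 0 := mul_nonpos_of_nonpos_of_nonneg (le_of_not_gt hcon) hS.le
    linarith
  have hd' : (0 : ℝ) < d := by exact_mod_cast hd
  have e1 : z / y * (SC : ℝ) = (z * (SC : ℝ)) / y := by ring
  rw [e1, le_div_iff₀ hy0]
  have h2 : ((fl (n * SC) d : Int) : ℝ) * (d : ℝ) * (y * (SC : ℝ)) ≤
      z * (SC : ℝ) * (SC : ℝ) * (d : ℝ) :=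
    (mul_le_mul_of_nonneg_right h1 hy.le).trans h
  have h3 : (((fl (n * SC) d : Int) : ℝ) * y) * ((SC : ℝ) * (d : ℝ)) ≤
      (z * (SC : ℝ)) * ((SC : ℝ) * (d : ℝ)) := by nlinarith [h2]
  exact le_of_mul_le_mul_right h3 (mul_pos hS hd')

theorem div_hi {n d : Int} {z y : ℝ} (hd : 0 < d) (hy : 0 < y * (SC : ℝ))
    (h : z * (SC : ℝ) * (SC : ℝ) * (d : ℝ) ≤ (n : ℝ) * (SC : ℝ) * (y * (SC : ℝ))) :
    z / y * (SC : ℝ) ≤ ((ce (n * SC) d : Int) : ℝ) := by
  have h1 := le_ce (n * SC) d hd
  push_cast at h1
  have hS := SC_pos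
  have hy0 : 0 < y := by
    by_contra hcon
    have : y * (SC : ℝ) ≤ 0 := mul_nonpos_of_nonpos_of_nonneg (le_of_not_gt hcon) hS.le
    linarith
  have hd' : (0 : ℝ) < d := by exact_mod_cast hd
  have e1 : z / y * (SC : ℝ) = (z * (SC : ℝ)) / y := by ring
  rw [e1, div_le_iff₀ hy0]
  have h2 : z * (SC : ℝ) * (SC : ℝ) * (d : ℝ) ≤
      ((ce (n * SC) d : Int) : ℝ) * (d : ℝ) * (y * (SC : ℝ)) :=
    h.trans (mul_le_mul_of_nonneg_right h1 hy.le)
  have h3 : (z * (SC : ℝ)) * ((SC : ℝ) * (d : ℝ)) ≤
      (((ce (n * SC) d : Int) : ℝ) * y) * ((SC : ℝ) * (d : ℝ)) := by nlinarith [h2]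
  exact le_of_mul_le_mul_right h3 (mul_pos hS hd')

theorem mem_div {x y : ℝ} {I J : Iv} (hx : Mem x I) (hy : Mem y J) : Mem (x / y) (div I J) := by
  cases I with
  | top => cases J <;> trivial
  | mk a b =>
    cases J with
    | top => trivial
    | mk c d =>
      obtain ⟨h1, h2⟩ := hx
      obtain ⟨h3, h4⟩ := hy
      by_cases hc : 1 ≤ c
      · have hc' : (1 : ℝ) ≤ c := by exact_mod_cast hc
        have hY : 0 < y * (SC : ℝ) := by linarith
        have hd : 0 < d := by
          have : (0 : ℝ) < d := by linarith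
          exact_mod_cast this
        have hd' : (0 : ℝ) < d := by exact_mod_cast hd
        have hS := SC_pos
        have hm : div (mk a b) (mk c d) =
          mk (bif decide (0 ≤ a) then fl (a * SC) d else fl (a * SC) c)
            (bif decide (0 ≤ b) then ce (b * SC) c else ce (b * SC) d) := by
          simp [div, hc]
        rw [hm]
        refine ⟨?_, ?_⟩
        · by_cases ha : 0 ≤ a
          · simp only [ha, decide_true, cond_true]
            apply div_lo hd hY
            have ha' : (0 : ℝ) ≤ a := by exact_mod_cast ha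
            have : (a : ℝ) * (y * (SC : ℝ)) ≤ (x * (SC : ℝ)) * (d : ℝ) :=
              mul_le_mul h1 h4 hY.le (ha'.trans h1)
            nlinarith [mul_le_mul_of_nonneg_right this hS.le]
          · simp only [ha, decide_false, cond_false]
            apply div_lo (by omega) hY
            have ha' : (a : ℝ) ≤ 0 := by
              have : a ≤ 0 := by omega
              exact_mod_cast this
            have h5 : (a : ℝ) * (y * (SC : ℝ)) ≤ (a : ℝ) * (c : ℝ) :=
              mul_le_mul_of_nonpos_left h3 ha'
            have h6 : (a : ℝ) * (c : ℝ) ≤ (x * (SC : ℝ)) * (c : ℝ) :=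
              mul_le_mul_of_nonneg_right h1 (by linarith)
            nlinarith [mul_le_mul_of_nonneg_right (h5.trans h6) hS.le]
        · by_cases hb : 0 ≤ b
          · simp only [hb, decide_true, cond_true]
            apply div_hi (by omega) hY
            have hb' : (0 : ℝ) ≤ b := by exact_mod_cast hb
            have h5 : (b : ℝ) * (c : ℝ) ≤ (b : ℝ) * (y * (SC : ℝ)) :=
              mul_le_mul_of_nonneg_left h3 hb'
            have h6 : (x * (SC : ℝ)) * (c : ℝ) ≤ (b : ℝ) * (c : ℝ) :=
              mul_le_mul_of_nonneg_right h2 (by linarith)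
            nlinarith [mul_le_mul_of_nonneg_right (h6.trans h5) hS.le]
          · simp only [hb, decide_false, cond_false]
            apply div_hi hd hY
            have hb' : (b : ℝ) ≤ 0 := by
              have : b ≤ 0 := by omega
              exact_mod_cast this
            have h5 : (b : ℝ) * (d : ℝ) ≤ (b : ℝ) * (y * (SC : ℝ)) :=
              mul_le_mul_of_nonpos_left h4 hb'
            have h6 : (x * (SC : ℝ)) * (d : ℝ) ≤ (b : ℝ) * (d : ℝ) :=
              mul_le_mul_of_nonneg_right h2 hd'.le
            nlinarith [mul_le_mul_of_nonneg_right (h6.trans h5) hS.le]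
      · have hm : div (mk a b) (mk c d) = top := by simp [div, hc]
        rw [hm]; trivial

end Iv

theorem mem_iv (x : ℕ → ℝ) (env : List Iv) (h : ∀ i, Iv.Mem (x i) (look env i)) (e : Ex) :
    Iv.Mem (e.ev x) (e.iv env) := by
  induction e with
  | q n d =>
    cases d with
    | zero => trivial
    | succ k =>
      have hk : (0 : Int) < Int.ofNat (k + 1) := Int.natCast_succ_pos k
      have hk' : (0 : ℝ) < ((Int.ofNat (k + 1) : Int) : ℝ) := by exact_mod_cast hk
      have e1 : (Ex.q n (k + 1)).ev x * (SC : ℝ) =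
          ((n * SC : Int) : ℝ) / ((Int.ofNat (k + 1) : Int) : ℝ) := by
        simp only [Ex.ev, Int.ofNat_eq_natCast]; push_cast; ring
      refine ⟨?_, ?_⟩
      · rw [e1, le_div_iff₀ hk']
        exact fl_le _ _ hk
      · rw [e1, div_le_iff₀ hk']
        exact le_ce _ _ hk
  | v i => exact h i
  | add a b ha hb => exact Iv.mem_add ha hb
  | sub a b ha hb => exact Iv.mem_sub ha hb
  | mul a b ha hb => exact Iv.mem_mul ha hb
  | sq a ha => exact Iv.mem_sq ha
  | div a b ha hb => exact Iv.mem_div ha hb

theorem loOf_le (x : ℕ → ℝ) (env : List Iv) (h : ∀ i, Iv.Mem (x i) (look env i)) (z : ℝ)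
    (l : List Ex) (hl : ∀ e ∈ l, e.ev x ≤ z) (a : Int) (ha : loOf env l = some a) :
    (a : ℝ) ≤ z * (SC : ℝ) := by
  induction l generalizing a with
  | nil => simp [loOf] at ha
  | cons e l ih =>
    have he := mem_iv x env h e
    have hez : e.ev x ≤ z := hl e (by simp)
    have hl' : ∀ e ∈ l, e.ev x ≤ z := fun e he => hl e (by simp [he])
    simp only [loOf] at ha
    cases hI : e.iv env with
    | top =>
      rw [hI] at ha
      exact ih hl' a ha
    | mk p q =>
      rw [hI] at ha he
      have h1 : (p : ℝ) ≤ z * (SC : ℝ) :=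
        he.1.trans (mul_le_mul_of_nonneg_right hez SC_pos.le)
      cases hr : loOf env l with
      | none =>
        rw [hr] at ha
        simp only [Option.some.injEq] at ha
        rw [← ha]; exact h1
      | some b =>
        rw [hr] at ha
        simp only [Option.some.injEq] at ha
        have h2 := ih hl' b hr
        rw [← ha]
        unfold Iv.maxI
        by_cases hpb : p ≤ b
        · simpa [hpb] using h2
        · simpa [hpb] using h1

theorem le_hiOf (x : ℕ → ℝ) (env : List Iv) (h : ∀ i, Iv.Mem (x i) (look env i)) (z : ℝ)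
    (l : List Ex) (hl : ∀ e ∈ l, z ≤ e.ev x) (a : Int) (ha : hiOf env l = some a) :
    z * (SC : ℝ) ≤ (a : ℝ) := by
  induction l generalizing a with
  | nil => simp [hiOf] at ha
  | cons e l ih =>
    have he := mem_iv x env h e
    have hez : z ≤ e.ev x := hl e (by simp)
    have hl' : ∀ e ∈ l, z ≤ e.ev x := fun e he => hl e (by simp [he])
    simp only [hiOf] at ha
    cases hI : e.iv env with
    | top =>
      rw [hI] at ha
      exact ih hl' a ha
    | mk p q =>
      rw [hI] at ha he
      have h1 : z * (SC : ℝ) ≤ (q : ℝ) :=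
        (mul_le_mul_of_nonneg_right hez SC_pos.le).trans he.2
      cases hr : hiOf env l with
      | none =>
        rw [hr] at ha
        simp only [Option.some.injEq] at ha
        rw [← ha]; exact h1
      | some b =>
        rw [hr] at ha
        simp only [Option.some.injEq] at ha
        have h2 := ih hl' b hr
        rw [← ha]
        unfold Iv.minI
        by_cases hpb : q ≤ b
        · simpa [hpb] using h1
        · simpa [hpb] using h2

theorem mem_derIv (x : ℕ → ℝ) (env : List Iv) (h : ∀ i, Iv.Mem (x i) (look env i)) (z : ℝ)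
    (los his : List Ex) (h1 : ∀ e ∈ los, e.ev x ≤ z) (h2 : ∀ e ∈ his, z ≤ e.ev x) :
    Iv.Mem z (derIv env los his) := by
  unfold derIv
  cases hl : loOf env los with
  | none => trivial
  | some a =>
    cases hh : hiOf env his with
    | none => trivial
    | some b => exact ⟨loOf_le x env h z los h1 a hl, le_hiOf x env h z his h2 b hh⟩

theorem look_snoc (env : List Iv) (y : Iv) (i : ℕ) :
    look (snoc env y) i = if i < env.length then look env i else
      if i = env.length then y else Iv.top := by
  induction env generalizing i with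
  | nil =>
    cases i with
    | zero => rfl
    | succ n => cases n <;> rfl
  | cons a l ih =>
    cases i with
    | zero => simp [snoc, look]
    | succ n => simp [snoc, look, ih]

theorem length_snoc (env : List Iv) (y : Iv) : (snoc env y).length = env.length + 1 := by
  induction env with
  | nil => rfl
  | cons a l ih => simp [snoc, ih]

/-- the real values satisfy the definitions of the derived variables -/
def DerOK (x : ℕ → ℝ) : List Der → ℕ → Prop
  | [], _ => True
  | Der.eq e :: l, n => x n = e.ev x ∧ DerOK x l (n + 1)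
  | Der.bd los his :: l, n =>
    ((∀ e ∈ los, e.ev x ≤ x n) ∧ (∀ e ∈ his, x n ≤ e.ev x)) ∧ DerOK x l (n + 1)

theorem look_ge (env : List Iv) (i : ℕ) (hi : env.length ≤ i) : look env i = Iv.top := by
  induction env generalizing i with
  | nil => cases i <;> rfl
  | cons a l ih =>
    cases i with
    | zero => simp at hi
    | succ n => exact ih n (by simpa using hi)

theorem mem_derive (x : ℕ → ℝ) (ds : List Der) (env : List Iv)
    (h : ∀ i, Iv.Mem (x i) (look env i)) (hd : DerOK x ds env.length) :
    ∀ i, Iv.Mem (x i) (look (derive ds env) i) := by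
  induction ds generalizing env with
  | nil => exact h
  | cons d ds ih =>
    have key : Iv.Mem (x env.length) (d.iv env) ∧ DerOK x ds (env.length + 1) := by
      cases d with
      | eq e =>
        obtain ⟨h1, h2⟩ := hd
        refine ⟨?_, h2⟩
        rw [h1]
        exact mem_iv x env h e
      | bd los his =>
        obtain ⟨⟨h1, h2⟩, h3⟩ := hd
        exact ⟨mem_derIv x env h _ los his h1 h2, h3⟩
    apply ih (snoc env (d.iv env))
    · intro i
      rw [look_snoc]
      by_cases hi : i < env.length
      · rw [if_pos hi]; exact h i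
      · rw [if_neg hi]
        by_cases hi' : i = env.length
        · rw [if_pos hi', hi']; exact key.1
        · rw [if_neg hi']; trivial
    · rw [length_snoc]; exact key.2

theorem anyNeg_sound (x : ℕ → ℝ) (env : List Iv) (h : ∀ i, Iv.Mem (x i) (look env i))
    (l : List Ex) (hl : ∀ e ∈ l, 0 ≤ e.ev x) : anyNeg env l = false := by
  induction l with
  | nil => rfl
  | cons e l ih =>
    have he := mem_iv x env h e
    have h0 : 0 ≤ e.ev x := hl e (by simp)
    simp only [anyNeg, ih (fun e he => hl e (by simp [he])), Bool.or_false]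
    cases hI : e.iv env with
    | top => rfl
    | mk a b =>
      rw [hI] at he
      simp only [decide_eq_false_iff_not, not_lt]
      have : (0 : ℝ) ≤ b := (mul_nonneg h0 SC_pos.le).trans he.2
      exact_mod_cast this

theorem allPos_sound (x : ℕ → ℝ) (env : List Iv) (h : ∀ i, Iv.Mem (x i) (look env i))
    (l : List Ex) (hl : allPos env l = true) : ∀ e ∈ l, 0 < e.ev x := by
  induction l with
  | nil => simp
  | cons e l ih =>
    have he := mem_iv x env h e
    simp only [allPos, Bool.and_eq_true] at hl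
    intro e' he'
    rcases List.mem_cons.1 he' with rfl | he'
    · cases hI : e'.iv env with
      | top => rw [hI] at hl; simp at hl
      | mk a b =>
        rw [hI] at hl he
        have ha : 0 < a := by simpa using hl.1
        have ha' : (0 : ℝ) < a := by exact_mod_cast ha
        have h1 : 0 < e'.ev x * (SC : ℝ) := lt_of_lt_of_le ha' he.1
        by_contra hcon
        have : e'.ev x * (SC : ℝ) ≤ 0 :=
          mul_nonpos_of_nonpos_of_nonneg (le_of_not_gt hcon) SC_pos.le
        linarith
    · exact ih hl.2 e' he'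

theorem length_setAt (l : List Iv) (i : ℕ) (y : Iv) : (setAt l i y).length = l.length := by
  induction l generalizing i with
  | nil => rfl
  | cons a l ih =>
    cases i with
    | zero => rfl
    | succ n => simp [setAt, ih]

theorem look_setAt (x : ℕ → ℝ) (l : List Iv) (i : ℕ) (y : Iv)
    (h : ∀ j, Iv.Mem (x j) (look l j)) (hy : Iv.Mem (x i) y) :
    ∀ j, Iv.Mem (x j) (look (setAt l i y) j) := by
  induction l generalizing i x with
  | nil => intro j; cases j <;> trivial
  | cons a l ih =>
    cases i with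
    | zero =>
      intro j
      cases j with
      | zero => exact hy
      | succ n => exact h (n + 1)
    | succ n =>
      intro j
      cases j with
      | zero => exact h 0
      | succ k => exact ih (fun j => x (j + 1)) n (fun j => h (j + 1)) hy k

/-- **Soundness of the checker.** -/
theorem verify_sound (P : Prob) (fuel : ℕ) (box : List Iv) (hv : verify P fuel box = true)
    (x : ℕ → ℝ) (hb : ∀ i, Iv.Mem (x i) (look box i)) (hd : DerOK x P.der box.length)
    (hc : ∀ e ∈ P.con, 0 ≤ e.ev x) : ∀ e ∈ P.tgt, 0 < e.ev x := by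
  induction fuel generalizing box with
  | zero => simp [verify] at hv
  | succ n ih =>
    have henv := mem_derive x P.der box hb hd
    simp only [verify, anyNeg_sound x _ henv P.con hc, Bool.false_or, Bool.or_eq_true] at hv
    rcases hv with hv | hv
    · exact allPos_sound x _ henv P.tgt hv
    · cases hI : look box (widest box P.wts 0 0 (-1)) with
      | top => rw [hI] at hv; simp at hv
      | mk a b =>
        rw [hI] at hv
        simp only [Bool.and_eq_true] at hv
        have hx := hb (widest box P.wts 0 0 (-1))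
        rw [hI] at hx
        obtain ⟨hx1, hx2⟩ := hx
        by_cases hmid : x (widest box P.wts 0 0 (-1)) * (SC : ℝ) ≤ (((a + b) / 2 : Int) : ℝ)
        · exact ih _ hv.1 (look_setAt x _ _ _ hb ⟨hx1, hmid⟩) (by rw [length_setAt]; exact hd)
        · exact ih _ hv.2 (look_setAt x _ _ _ hb ⟨(lt_of_not_ge hmid).le, hx2⟩)
            (by rw [length_setAt]; exact hd)

/-! ### Convenience -/

/-- the valuation given by a list of reals -/
noncomputable def vec : List ℝ → ℕ → ℝ
  | [], _ => 0
  | a :: _, 0 => a
  | _ :: l, n + 1 => vec l n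

@[simp] theorem vec_zero (a : ℝ) (l : List ℝ) : vec (a :: l) 0 = a := rfl
@[simp] theorem vec_succ (a : ℝ) (l : List ℝ) (n : ℕ) : vec (a :: l) (n + 1) = vec l n := rfl

/-- the interval `[l / d, h / d]`, rounded outwards -/
def bx (l h : Int) (d : Int) : Iv := Iv.mk (Iv.fl (l * SC) d) (Iv.ce (h * SC) d)

theorem mem_bx {l h d : Int} (hd : 0 < d) {x : ℝ} (h1 : (l : ℝ) / (d : ℝ) ≤ x)
    (h2 : x ≤ (h : ℝ) / (d : ℝ)) : Iv.Mem x (bx l h d) := by
  have hd' : (0 : ℝ) < d := by exact_mod_cast hd
  have hS := SC_pos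
  rw [div_le_iff₀ hd'] at h1
  rw [le_div_iff₀ hd'] at h2
  have e1 := fl_le (l * SC) d hd
  have e2 := le_ce (h * SC) d hd
  push_cast at e1 e2
  refine ⟨?_, ?_⟩
  · have : ((Iv.fl (l * SC) d : Int) : ℝ) * (d : ℝ) ≤ (x * (SC : ℝ)) * (d : ℝ) := by
      nlinarith [mul_le_mul_of_nonneg_right h1 hS.le]
    exact le_of_mul_le_mul_right this hd'
  · have : (x * (SC : ℝ)) * (d : ℝ) ≤ ((Iv.ce (h * SC) d : Int) : ℝ) * (d : ℝ) := by
      nlinarith [mul_le_mul_of_nonneg_right h2 hS.le]
    exact le_of_mul_le_mul_right this hd'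

end Pool.Agent.OptRes
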