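import Pool.Agent.OptRes.Defs
import Pool.Agent.OptRes.Defs2
import Pool.Agent.OptRes.Ivl

/-!
# Interval arithmetic for the a priori bound `ρ < 1.05 s` of critical points
-/

set_option linter.unusedSimpArgs false
set_option linter.unusedVariables false

open Set

namespace Pool.Agent.OptRes

open Ex

namespace NumT1

def qd (n : Int) (d : Nat) : Ex := Ex.q n d
def vp : Ex := Ex.v 0
def vs : Ex := Ex.v 1
def eG1u : Ex := qd 224252 100000 + v 4 * (Ex.sq vp) * (qd (-12024) 10000 + vp * (qd 110267 100000 + vp * (qd 15371 100000 + vp * qd (-2965) 10000)))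
def eG1l : Ex := qd 223732 100000 + v 4 * (Ex.sq vp) * (qd (-11972) 10000 + vp * (qd 110267 100000 + vp * (qd 15371 100000 + vp * qd (-2965) 10000)))
def eG2l : Ex := qd 364026 100000 + v 5 * (qd 182467 100000 + vp * (qd (-168529) 100000 + vp * (qd (-24175) 100000 + vp * qd 46211 100000)))
def eG2u : Ex := qd 364743 100000 + v 5 * (qd 18175 10000 + vp * (qd (-168529) 100000 + vp * (qd (-24175) 100000 + vp * qd 46211 100000)))
def eF1u : Ex := qd 224765 100000 + vp * (qd (-1399) 10000 + vp * (qd 7028 10000 + vp * (qd (-13098) 10000 + vp * qd 49925 100000)))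
def eF1l : Ex := qd 224535 100000 + vp * (qd (-1376) 10000 + vp * (qd 7028 10000 + vp * (qd (-13098) 10000 + vp * qd 49925 100000)))
def eF2l : Ex := qd 349935 100000 + vp * (qd 10292 10000 + vp * (qd (-27518) 10000 + vp * (qd 30839 10000 + vp * qd (-86065) 100000)))
def eF2u : Ex := qd 3501475 1000000 + vp * (qd 10271 10000 + vp * (qd (-27518) 10000 + vp * (qd 30839 10000 + vp * qd (-860675) 1000000)))

/-- region in `(p,s)`; `kf` is the factor in the lower bound of `k1` -/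
def PT (l1 u1 l2 u2 kf : Ex) : Prob where
  der := [ .eq (1 - vs), -- 2 os
           .eq (vp * vp * vp), -- 3 p^3
           .eq (v 3), -- 4 p^3
           .eq (Ex.sq (v 3)), -- 5 r = p^6
           .eq (v 5 * vp), -- 6 p^7
           .eq ((1 - v 5)/3), -- 7 tau
           .bd [l1] [u1],   -- 8 al1
           .bd [l2] [u2],   -- 9 al2
           .eq (3 - 2*vs*v 5), -- 10 c
           .bd [1 - 3*Ex.sq vs + 2*vs*Ex.sq vs * v 5, 0] [1 - 3*Ex.sq vs + 2*vs*Ex.sq vs * v 5], -- 11 D1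
           .eq (2*v 7*(3-2*vs)/v 10), -- 12 g1
           .eq (v 7 * v 9 + v 2 * v 6), -- 13 Den
           .eq (v 9 - 3*vp), -- 14 w = al2-3p
           .eq (1 - kf * vs * (2 * v 7) / v 2), -- 15 k1
           .eq (v 15 + vs / v 2) -- 16 X
         ]
  con := [v 11, Ex.sq vp - qd 105 100 * vs]
  tgt := [ (v 12 * v 13 - v 2 * v 7 * v 8 * Ex.sq vp) * (v 16 * v 13 - v 14 * v 5) * v 11
           - ((3 - vp*v 8 - v 15) * v 13 - v 14 * v 7 * v 8 * vp) *
             ((v 11 * (1 - v 12) + 2 * v 7 * Ex.sq vs * (1 + 2*vs)) * v 13 - v 2 * v 6 * v 11),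
           v 12 * v 13 - v 2 * v 7 * v 8 * Ex.sq vp,
           v 16 * v 13 - v 14 * v 5]
  wts := [1, 1]

/-- conclusion of the main inequality -/
def Concl (p s x1 x2 κ : ℝ) : Prop :=
  ∀ (τ Den g k X W D : ℝ) (_ : τ = (1 - p ^ 6) / 3)
    (_ : Den = τ * x2 + (1 - s) * p ^ 7) (_ : g = 2 * τ * (3 - 2 * s) / (3 - 2 * s * p ^ 6))
    (_ : k = 1 - κ * s * (2 * τ) / (1 - s)) (_ : X = k + s / (1 - s)) (_ : W = x2 - 3 * p)
    (_ : D = 1 - 3 * s ^ 2 + 2 * s ^ 3 * p ^ 6),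
    0 < g * Den - (1 - s) * τ * x1 * p ^ 2 ∧ 0 < X * Den - W * p ^ 6 ∧
    ((3 - p * x1 - k) * Den - W * τ * x1 * p) *
      ((D * (1 - g) + 2 * τ * s ^ 2 * (1 + 2 * s)) * Den - (1 - s) * p ^ 7 * D) <
    (g * Den - (1 - s) * τ * x1 * p ^ 2) * (X * Den - W * p ^ 6) * D

theorem vA2 : verify (PT eG1l eG1u eG2l eG2u (qd 1 3)) 20
    [bx 3 5 10, bx 0 6077 10000] = true := by decide +kernel
theorem vA3 : verify (PT eF1l eF1u eF2l eF2u (qd 1 3)) 20
    [bx 5000 8175 10000, bx 0 6077 10000] = true := by decide +kernel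
theorem vA4 : verify (PT eF1l eF1u eF2l eF2u (qd 3436 10000)) 20
    [bx 5000 8175 10000, bx 6076 6200 10000] = true := by decide +kernel

/-- transfer from the checker to real numbers -/
theorem transfer {l1 u1 l2 u2 kf : Ex} {a b c d e f : Int} (hb : 0 < b) (hd : 0 < d)
    (hv : verify (PT l1 u1 l2 u2 kf) 20 [bx a e b, bx c f d] = true)
    {p s x1 x2 κ : ℝ} (hp0 : (a : ℝ) / b ≤ p) (hp1 : p ≤ (e : ℝ) / b)
    (hs0 : (c : ℝ) / d ≤ s) (hs1 : s ≤ (f : ℝ) / d)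
    (hps : 105 / 100 * s ≤ p ^ 2) (hD : 0 < 1 - 3 * s ^ 2 + 2 * s ^ 3 * p ^ 6)
    (hl1 : ∀ y : List ℝ, l1.ev (vec (p :: s :: (1 - s) :: p ^ 3 :: p ^ 3 :: p ^ 6 :: y)) ≤ x1)
    (hu1 : ∀ y : List ℝ, x1 ≤ u1.ev (vec (p :: s :: (1 - s) :: p ^ 3 :: p ^ 3 :: p ^ 6 :: y)))
    (hl2 : ∀ y : List ℝ, l2.ev (vec (p :: s :: (1 - s) :: p ^ 3 :: p ^ 3 :: p ^ 6 :: y)) ≤ x2)
    (hu2 : ∀ y : List ℝ, x2 ≤ u2.ev (vec (p :: s :: (1 - s) :: p ^ 3 :: p ^ 3 :: p ^ 6 :: y)))
    (hkf : ∀ x : ℕ → ℝ, kf.ev x = κ) : Concl p s x1 x2 κ := by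
  intro τ Den g k X W D hτ hDen hg hk hX hW hDD
  have key := verify_sound _ 20 _ hv
    (vec [p, s, 1 - s, p ^ 3, p ^ 3, p ^ 6, p ^ 7, τ, x1, x2, 3 - 2 * s * p ^ 6, D, g, Den, W, k, X])
    (fun i => by
      match i with
      | 0 => exact mem_bx hb hp0 hp1
      | 1 => exact mem_bx hd hs0 hs1
      | (n+2) => trivial)
    (by
      simp only [PT, DerOK, List.length, vp, vs, qd, ev_add, ev_sub, ev_mul, ev_div, ev_sq, ev_v,
        ev_q, ev_zero, ev_one, ev_two, ev_three, vec, List.mem_cons, List.not_mem_nil, or_false,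
        forall_eq_or_imp, forall_eq, and_true, hkf]
      refine ⟨trivial, by ring, trivial, by ring, by ring, hτ, ⟨hl1 _, hu1 _⟩, ⟨hl2 _, hu2 _⟩, trivial,
        ⟨⟨?_, ?_⟩, ?_⟩, hg, hDen, hW, hk, hX⟩
      · rw [hDD]; apply le_of_eq; ring
      · rw [hDD]; exact hD.le
      · rw [hDD]; apply le_of_eq; ring)
    (by
      simp only [PT, vp, vs, qd, ev_add, ev_sub, ev_mul, ev_div, ev_sq, ev_v, ev_q, ev_zero, ev_one,
        ev_two, ev_three, vec, List.mem_cons, List.not_mem_nil, or_false, forall_eq_or_imp, forall_eq]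
      refine ⟨?_, ?_⟩
      · rw [hDD]; exact hD.le
      · push_cast; linarith)
  simp only [PT, vp, vs, qd, ev_add, ev_sub, ev_mul, ev_div, ev_sq, ev_v, ev_q, ev_zero, ev_one,
    ev_two, ev_three, vec, List.mem_cons, List.not_mem_nil, or_false, forall_eq_or_imp,
    forall_eq] at key
  obtain ⟨k1, k2, k3⟩ := key
  refine ⟨k2, k3, ?_⟩
  linarith

/-- region `p ≤ 3/10`, variables `p` and `x = s / p^2` -/
def PH : Prob where
  der := [ .eq (v 1 * Ex.sq vp), -- 2 s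
           .eq (vp * vp * vp), -- 3 p^3
           .eq (v 3), -- 4 p^3
           .eq (Ex.sq (v 3)), -- 5 r = p^6
           .eq (v 5 * vp), -- 6 p^7
           .eq ((1 - v 5)/3), -- 7 tau
           .bd [eG1l] [eG1u],   -- 8 al1
           .bd [eG2l] [eG2u],   -- 9 al2
           .eq (3 - 2*v 2*v 5), -- 10 c
           .eq (1 - 3*Ex.sq (v 2) + 2*v 2*Ex.sq (v 2) * v 5), -- 11 D1
           .eq (2*v 7*(3-2*v 2)/v 10), -- 12 g1
           .eq (v 7 * v 9 + (1 - v 2) * v 6), -- 13 Den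
           .eq (v 9 - 3*vp), -- 14 w = al2-3p
           .eq (qd 1 3 * v 2 * (2 * v 7) / (1 - v 2)), -- 15 kappa = 1 - k1
           .eq (1 - v 15 + v 2 / (1 - v 2)), -- 16 X
           .eq (1 - v 12 + 2 * v 7 * Ex.sq (v 2) * (1 + 2 * v 2) / v 11) -- 17 G
         ]
  con := []
  tgt := [ Ex.sq (v 13) * vp * ((v 1 * v 12 - v 1 * (2 * v 7) / 3)/ (1 - v 2) - (4 * v 1 + 6 * Ex.sq (Ex.sq vp) - 8 * v 1 * v 5)/ v 10
              - (2 + v 15) * Ex.sq vp * Ex.sq (v 1) * (2 * v 7) * (1 + 2 * v 2)/v 11)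
            + (v 8 * (v 13 + v 14 * v 7) * v 17 * v 13 + (2 + v 15) * v 13 * (1 - v 2) * v 5
               + v 6 * (1 - v 2) * v 7 * v 8 * v 14
               - (vp * (1 - v 2) * v 7 * v 8 * v 16 * v 13 + v 3 * Ex.sq vp * v 14 * v 12 * v 13 + v 6 * v 8 * (v 13 + v 14 * v 7) * (1 - v 2))),
           v 12 * v 13 - (1 - v 2) * v 7 * v 8 * Ex.sq vp,
           v 16 * v 13 - v 14 * v 5]
  wts := [4, 1]

theorem vH : verify PH 20 [bx 0 3 10, bx 0 20 21] = true := by decide +kernel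

theorem regH {p s x1 x2 : ℝ} (hp0 : 0 < p) (hp1 : p ≤ 3 / 10) (hs0 : 0 < s)
    (hps : 105 / 100 * s ≤ p ^ 2) (hD : 0 < 1 - 3 * s ^ 2 + 2 * s ^ 3 * p ^ 6)
    (hA : AB p x1 x2) : Concl p s x1 x2 (1 / 3) := by
  intro τ Den g k X W D hτ hDen hg hk hX hW hDD
  have hp2 : 0 < p ^ 2 := by positivity
  have hx1 : s / p ^ 2 ≤ 20 / 21 := by
    rw [div_le_iff₀ hp2]; linarith
  have hx0 : 0 ≤ s / p ^ 2 := by positivity
  have hs1 : s < 1 := by nlinarith
  have hos : (0 : ℝ) < 1 - s := by linarith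
  have hc : (0 : ℝ) < 3 - 2 * s * p ^ 6 := by
    have h6 : p ^ 6 ≤ 1 := pow_le_one₀ hp0.le (by linarith)
    nlinarith [mul_nonneg hs0.le (sub_nonneg.2 h6)]
  have hD' : 0 < D := hDD ▸ hD
  set x := s / p ^ 2 with hxdef
  have hsx : s = x * p ^ 2 := by rw [hxdef]; field_simp
  obtain ⟨G, hG⟩ : ∃ G, G = 1 - g + 2 * τ * s ^ 2 * (1 + 2 * s) / D := ⟨_, rfl⟩
  obtain ⟨κ, hκ⟩ : ∃ κ, κ = 1 / 3 * s * (2 * τ) / (1 - s) := ⟨_, rfl⟩
  have hXκ : X = 1 - κ + s / (1 - s) := by rw [hX, hk, hκ]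
  have key := verify_sound _ 20 _ vH
    (vec [p, x, s, p ^ 3, p ^ 3, p ^ 6, p ^ 7, τ, x1, x2, 3 - 2 * s * p ^ 6, D, g, Den, W, κ, X, G])
    (fun i => by
      match i with
      | 0 => exact mem_bx (by norm_num) (by norm_num; exact hp0.le) (by norm_num; linarith)
      | 1 => exact mem_bx (by norm_num) (by norm_num; exact hx0) (by norm_num; linarith)
      | (n+2) => trivial)
    (by
      have q1 := hA.g1l
      have q2 := hA.g1u
      have q3 := hA.g2l
      have q4 := hA.g2u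
      unfold G1l at q1
      unfold G1u at q2
      unfold G2l at q3
      unfold G2u at q4
      simp only [PH, DerOK, List.length, eG1l, eG1u, eG2l, eG2u, vp, vs, qd, ev_add, ev_sub, ev_mul,
        ev_div, ev_sq, ev_v, ev_q, ev_zero, ev_one, ev_two, ev_three, vec, List.mem_cons,
        List.not_mem_nil, or_false, forall_eq_or_imp, forall_eq, and_true]
      push_cast
      refine ⟨hsx, by ring, trivial, by ring, by ring, hτ, ⟨?_, ?_⟩, ⟨?_, ?_⟩, trivial,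
        ?_, hg, hDen, hW, hκ, hXκ, hG⟩
      · refine le_trans (le_of_eq ?_) q1; ring
      · refine le_trans q2 (le_of_eq ?_); ring
      · refine le_trans (le_of_eq ?_) q3; ring
      · refine le_trans q4 (le_of_eq ?_); ring
      · rw [hDD]; ring)
    (by intro e he; simp [PH] at he)
  simp only [PH, vp, vs, qd, ev_add, ev_sub, ev_mul, ev_div, ev_sq, ev_v, ev_q, ev_zero, ev_one,
    ev_two, ev_three, ev_four, ev_six, ev_eight, vec, List.mem_cons, List.not_mem_nil, or_false,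
    forall_eq_or_imp, forall_eq] at key
  obtain ⟨k1, k2, k3⟩ := key
  refine ⟨k2, k3, ?_⟩
  have h3g : 3 * g - 2 = - (p ^ 2 * ((4 * x + 6 * (p ^ 2) ^ 2 - 8 * x * p ^ 6) / (3 - 2 * s * p ^ 6))) := by
    have hgc : g * (3 - 2 * s * p ^ 6) = 2 * τ * (3 - 2 * s) := by
      rw [hg]; exact div_mul_cancel₀ _ hc.ne'
    have h1 : (3 * g - 2) * (3 - 2 * s * p ^ 6) =
        - (p ^ 2 * (4 * x + 6 * (p ^ 2) ^ 2 - 8 * x * p ^ 6)) := by
      have : (3 * g - 2) * (3 - 2 * s * p ^ 6) = 3 * (g * (3 - 2 * s * p ^ 6)) -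
        2 * (3 - 2 * s * p ^ 6) := by ring
      rw [this, hgc, hτ, hsx]; ring
    rw [← mul_div_assoc, ← neg_div, eq_div_iff hc.ne', h1]
  have hDG : (D * (1 - g) + 2 * τ * s ^ 2 * (1 + 2 * s)) = D * G := by
    rw [hG]; field_simp
  have e2 : 2 * τ * s ^ 2 * (1 + 2 * s) / D = G - (1 - g) := by rw [hG]; ring
  -- the bracket
  have hbr : g * X - (3 - k) * G = p ^ 2 * ((x * g - x * (2 * τ) / 3) / (1 - s)
      - (4 * x + 6 * (p ^ 2) ^ 2 - 8 * x * p ^ 6) / (3 - 2 * s * p ^ 6)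
      - (2 + κ) * p ^ 2 * x ^ 2 * (2 * τ) * (1 + 2 * s) / D) := by
    have e3 : (x * g - x * (2 * τ) / 3) / (1 - s) * p ^ 2 = g * (s / (1 - s)) - κ := by
      rw [hκ, hsx]; ring
    have e4 : (2 + κ) * p ^ 2 * x ^ 2 * (2 * τ) * (1 + 2 * s) / D * p ^ 2 =
        (2 + κ) * (G - (1 - g)) := by
      rw [← e2]
      have : s ^ 2 = x ^ 2 * p ^ 2 * p ^ 2 := by rw [hsx]; ring
      rw [this]; ring
    have e5 : k = 1 - κ := by rw [hk, hκ]
    have e6 : p ^ 2 * ((x * g - x * (2 * τ) / 3) / (1 - s)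
      - (4 * x + 6 * (p ^ 2) ^ 2 - 8 * x * p ^ 6) / (3 - 2 * s * p ^ 6)
      - (2 + κ) * p ^ 2 * x ^ 2 * (2 * τ) * (1 + 2 * s) / D) =
      (x * g - x * (2 * τ) / 3) / (1 - s) * p ^ 2
      + (- (p ^ 2 * ((4 * x + 6 * (p ^ 2) ^ 2 - 8 * x * p ^ 6) / (3 - 2 * s * p ^ 6))))
      - (2 + κ) * p ^ 2 * x ^ 2 * (2 * τ) * (1 + 2 * s) / D * p ^ 2 := by ring
    rw [e6, e3, e4, ← h3g, hXκ, e5]
    ring
  have k1' := mul_pos hp0 k1
  have fin : (g * Den - (1 - s) * τ * x1 * p ^ 2) * (X * Den - W * p ^ 6) * D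
      - ((3 - p * x1 - k) * Den - W * τ * x1 * p) *
      ((D * (1 - g) + 2 * τ * s ^ 2 * (1 + 2 * s)) * Den - (1 - s) * p ^ 7 * D)
      = D * (p * (Den ^ 2 * p * ((x * g - x * (2 * τ) / 3) / (1 - s)
      - (4 * x + 6 * (p ^ 2) ^ 2 - 8 * x * p ^ 6) / (3 - 2 * s * p ^ 6)
      - (2 + κ) * p ^ 2 * x ^ 2 * (2 * τ) * (1 + 2 * s) / D)
      + (x1 * (Den + W * τ) * G * Den + (2 + κ) * Den * (1 - s) * p ^ 6
               + p ^ 7 * (1 - s) * τ * x1 * W
               - (p * (1 - s) * τ * x1 * X * Den + p ^ 3 * p ^ 2 * W * g * Den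
                 + p ^ 7 * x1 * (Den + W * τ) * (1 - s))))) := by
    rw [hDG]
    have e5 : k = 1 - κ := by rw [hk, hκ]
    linear_combination (D * Den ^ 2) * hbr - D * Den * (1 - s) * p ^ 7 * e5
  have := mul_pos hD' k1'
  linarith

end NumT1

open NumT1 in
theorem num_T1 {p s x1 x2 κ : ℝ} (hp0 : 0 < p) (hp1 : p ≤ 8175 / 10000) (hs0 : 0 < s)
    (hps : 105 / 100 * s ≤ p ^ 2) (hD : 0 < 1 - 3 * s ^ 2 + 2 * s ^ 3 * p ^ 6)
    (hκ : (s ≤ 6077 / 10000 ∧ κ = 1 / 3) ∨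
      (6076 / 10000 ≤ s ∧ s ≤ 62 / 100 ∧ κ = 3436 / 10000))
    (hA : AB p x1 x2) (τ Den g k X W D : ℝ) (hτ : τ = (1 - p ^ 6) / 3)
    (hDen : Den = τ * x2 + (1 - s) * p ^ 7) (hg : g = 2 * τ * (3 - 2 * s) / (3 - 2 * s * p ^ 6))
    (hk : k = 1 - κ * s * (2 * τ) / (1 - s)) (hX : X = k + s / (1 - s)) (hW : W = x2 - 3 * p)
    (hDD : D = 1 - 3 * s ^ 2 + 2 * s ^ 3 * p ^ 6) :
    0 < g * Den - (1 - s) * τ * x1 * p ^ 2 ∧ 0 < X * Den - W * p ^ 6 ∧
    ((3 - p * x1 - k) * Den - W * τ * x1 * p) *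
      ((D * (1 - g) + 2 * τ * s ^ 2 * (1 + 2 * s)) * Den - (1 - s) * p ^ 7 * D) <
    (g * Den - (1 - s) * τ * x1 * p ^ 2) * (X * Den - W * p ^ 6) * D := by
  have hf1 := hA.g1l
  have hf2 := hA.g1u
  have hf3 := hA.g2l
  have hf4 := hA.g2u
  have hf5 := hA.f1l
  have hf6 := hA.f1u
  have hf7 := hA.f2l
  have hf8 := hA.f2u
  unfold G1l at hf1
  unfold G1u at hf2
  unfold G2l at hf3
  unfold G2u at hf4
  unfold F1l at hf5
  unfold F1u at hf6
  unfold F2l at hf7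
  unfold F2u at hf8
  suffices h : Concl p s x1 x2 κ from h τ Den g k X W D hτ hDen hg hk hX hW hDD
  rcases hκ with ⟨hs1, rfl⟩ | ⟨hs1, hs2, rfl⟩
  · by_cases h3 : p ≤ 3 / 10
    · exact regH hp0 h3 hs0 hps hD hA
    · by_cases h5 : p ≤ 1 / 2
      · refine transfer (b := 10) (d := 10000) (by norm_num) (by norm_num) vA2
          (by norm_num; linarith) (by norm_num; linarith) (by norm_num; linarith)
          (by norm_num; linarith) hps hD ?_ ?_ ?_ ?_ ?_
        all_goals intro y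
        all_goals simp only [eG1l, eG1u, eG2l, eG2u, vp, qd, ev_add, ev_mul, ev_sq, ev_v, ev_q, vec]
        all_goals push_cast
        · refine le_trans (le_of_eq ?_) hf1; ring
        · refine le_trans hf2 (le_of_eq ?_); ring
        · refine le_trans (le_of_eq ?_) hf3; ring
        · refine le_trans hf4 (le_of_eq ?_); ring
        · ring
      · have h5' : 1 / 2 ≤ p := by linarith
        refine transfer (b := 10000) (d := 10000) (by norm_num) (by norm_num) vA3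
          (by norm_num; linarith) (by norm_num; linarith) (by norm_num; linarith)
          (by norm_num; linarith) hps hD ?_ ?_ ?_ ?_ ?_
        all_goals intro y
        all_goals simp only [eF1l, eF1u, eF2l, eF2u, vp, qd, ev_add, ev_mul, ev_sq, ev_v, ev_q, vec]
        all_goals push_cast
        · refine le_trans (le_of_eq ?_) (hf5 h5'); ring
        · refine le_trans (hf6 h5') (le_of_eq ?_); ring
        · refine le_trans (le_of_eq ?_) (hf7 h5'); ring
        · refine le_trans (hf8 h5') (le_of_eq ?_); ring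
        · ring
  · have h5' : 1 / 2 ≤ p := by nlinarith
    refine transfer (b := 10000) (d := 10000) (by norm_num) (by norm_num) vA4
      (by norm_num; linarith) (by norm_num; linarith) (by norm_num; linarith)
      (by norm_num; linarith) hps hD ?_ ?_ ?_ ?_ ?_
    all_goals intro y
    all_goals simp only [eF1l, eF1u, eF2l, eF2u, vp, qd, ev_add, ev_mul, ev_sq, ev_v, ev_q, vec]
    all_goals push_cast
    · refine le_trans (le_of_eq ?_) (hf5 h5'); ring
    · refine le_trans (hf6 h5') (le_of_eq ?_); ring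
    · refine le_trans (le_of_eq ?_) (hf7 h5'); ring
    · refine le_trans (hf8 h5') (le_of_eq ?_); ring
    · ring

end Pool.Agent.OptRes
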