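import Pool.Agent.OptRes.Defs
import Pool.Agent.OptRes.Defs2
import Pool.Agent.OptRes.Ivl

/-!
# Interval arithmetic near `ρ = 1`
-/

set_option linter.unusedSimpArgs false
set_option linter.unusedVariables false

open Set

namespace Pool.Agent.OptRes

open Ex

namespace NumT1a

def qd (n : Int) (d : Nat) : Ex := Ex.q n d
def vp : Ex := Ex.v 0
def vs : Ex := Ex.v 1
def eF1u : Ex := qd 224765 100000 + vp * (qd (-1399) 10000 + vp * (qd 7028 10000 + vp * (qd (-13098) 10000 + vp * qd 49925 100000)))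
def eF1l : Ex := qd 224535 100000 + vp * (qd (-1376) 10000 + vp * (qd 7028 10000 + vp * (qd (-13098) 10000 + vp * qd 49925 100000)))
def eF2l : Ex := qd 349935 100000 + vp * (qd 10292 10000 + vp * (qd (-27518) 10000 + vp * (qd 30839 10000 + vp * qd (-86065) 100000)))
def eF2u : Ex := qd 3501475 1000000 + vp * (qd 10271 10000 + vp * (qd (-27518) 10000 + vp * (qd 30839 10000 + vp * qd (-860675) 1000000)))
/-- `(2 - p F1l)/(1-p)` -/
def eQ : Ex :=
  2 + vp * (qd (-24535) 100000 + vp * (qd (-10775) 100000 + vp * (qd (-81055) 100000 + vp * (qd 49925 100000))))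
/-- `1 + p + ... + p^5` -/
def eS : Ex := 1 + vp * (1 + vp * (1 + vp * (1 + vp * (1 + vp))))

def PA : Prob where
  der := [ .eq (1 - vs), -- 2 os
           .eq (vp * vp * vp), -- 3 p^3
           .eq (v 3), -- 4 p^3
           .eq (Ex.sq (v 3)), -- 5 r = p^6
           .eq (v 5 * vp), -- 6 p^7
           .eq ((1 - v 5)/3), -- 7 tau
           .bd [eF1l] [eF1u],   -- 8 al1
           .bd [eF2l] [eF2u],   -- 9 al2
           .eq (3 * eQ / eS) -- 10 j
           ]
  con := []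
  tgt := [ (v 9 - 3 * vp) * v 8 * vp - (v 10 + qd 1 3 * 2 * vs / v 2) * (v 7 * v 9 + v 2 * v 6),
    v 9 - 0]
  wts := [1, 1]

theorem vPA : verify PA 20 [bx 8175 10000 10000, bx 0 6077 10000] = true := by decide +kernel

def PD : Prob where
  der := [ .eq (vp * vp * vp), -- 1 p^3
           .eq (Ex.sq (v 1)), -- 2 r = p^6
           .eq (v 2 * vp), -- 3 p^7
           .eq ((1 - v 2)/3), -- 4 tau
           .bd [eF1l] [eF1u],   -- 5 al1
           .bd [eF2l] [eF2u],   -- 6 al2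
           .eq (3 * eQ / eS) -- 7 j
           ]
  con := []
  tgt := [ (v 6 - 3 * vp) * v 5 * vp - (v 7 * v 4 * v 6 + qd 3924 10000 * (v 7 * v 3 + qd 2 3 * v 6) + qd 4051 10000 * v 3),
    v 6 - qd 36 10, v 7 - 0]
  wts := [1]

theorem vPD : verify PD 20 [bx 8175 10000 10000] = true := by decide +kernel

/-- `(F2u - 4p)/(1-p)` -/
def eQ2 : Ex :=
  qd 3501475 1000000 + vp * (qd 528575 1000000 + vp * (qd (-2223225) 1000000 + vp * (qd 860675 1000000)))

def PX : Prob where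
  der := [ .eq (vp * vp * vp), -- 2 p^3
           .eq (Ex.sq (v 2)), -- 3 r = p^6
           .eq (v 3 * vp), -- 4 p^7
           .bd [eF2l] [eF2u],   -- 5 al2
           .eq (3 * eQ2 / eS) -- 6 k
           ]
  con := []
  tgt := [ v 5 - 2 * qd 2 3 * vs * v 4 - v 3 * v 6, v 5 - 0]
  wts := [1, 1]

theorem vPX : verify PX 20 [bx 8175 10000 10000, bx 0 1 1] = true := by decide +kernel

theorem S_pos {p : ℝ} (hp : 0 < p) : 0 < 1 + p * (1 + p * (1 + p * (1 + p * (1 + p)))) := by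
  positivity

theorem J_bound {p x1 : ℝ} (hp0 : 8175 / 10000 ≤ p) (hp1 : p < 1)
    (h : F1l p ≤ x1) :
    2 - p * x1 ≤ (1 - p ^ 6) / 3 * (3 * (2 + p * (-24535 / 100000 + p * (-10775 / 100000 +
      p * (-81055 / 100000 + p * (49925 / 100000))))) / (1 + p * (1 + p * (1 + p * (1 + p * (1 + p)))))) := by
  have hp : 0 < p := by linarith
  have hS := S_pos hp
  have e : (1 - p ^ 6) / 3 * (3 * (2 + p * (-24535 / 100000 + p * (-10775 / 100000 +
      p * (-81055 / 100000 + p * (49925 / 100000))))) / (1 + p * (1 + p * (1 + p * (1 + p * (1 + p)))))) =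
      (1 - p) * (2 + p * (-24535 / 100000 + p * (-10775 / 100000 +
      p * (-81055 / 100000 + p * (49925 / 100000))))) := by
    rw [mul_div_assoc', div_eq_iff hS.ne']; ring
  rw [e]
  unfold F1l at h
  nlinarith [mul_le_mul_of_nonneg_left h hp.le]

theorem K_bound {p x2 : ℝ} (hp0 : 8175 / 10000 ≤ p) (hp1 : p < 1)
    (h : x2 ≤ F2u p) :
    x2 - 4 * p ≤ (1 - p ^ 6) / 3 * (3 * (3501475 / 1000000 + p * (528575 / 1000000 +
      p * (-2223225 / 1000000 + p * (860675 / 1000000)))) /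
      (1 + p * (1 + p * (1 + p * (1 + p * (1 + p)))))) := by
  have hp : 0 < p := by linarith
  have hS := S_pos hp
  have e : (1 - p ^ 6) / 3 * (3 * (3501475 / 1000000 + p * (528575 / 1000000 +
      p * (-2223225 / 1000000 + p * (860675 / 1000000)))) /
      (1 + p * (1 + p * (1 + p * (1 + p * (1 + p)))))) =
      (1 - p) * (3501475 / 1000000 + p * (528575 / 1000000 +
      p * (-2223225 / 1000000 + p * (860675 / 1000000)))) := by
    rw [mul_div_assoc', div_eq_iff hS.ne']; ring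
  rw [e]
  unfold F2u at h
  nlinarith

end NumT1a

open NumT1a in
theorem num_T1a {p s x1 x2 : ℝ} (hp0 : 8175 / 10000 ≤ p) (hp1 : p < 1) (hs0 : 0 < s)
    (hs1 : s ≤ 6077 / 10000) (hA : AB p x1 x2) (τ Den k W : ℝ) (hτ : τ = (1 - p ^ 6) / 3)
    (hDen : Den = τ * x2 + (1 - s) * p ^ 7)
    (hk : k = 1 - 1 / 3 * s * (2 * τ) / (1 - s)) (hW : W = x2 - 3 * p) :
    (3 - p * x1 - k) * Den < W * τ * x1 * p := by
  have hp : 0 < p := by linarith
  have h5 : 1 / 2 ≤ p := by linarith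
  have q1 := hA.f1l h5
  have q2 := hA.f1u h5
  have q3 := hA.f2l h5
  have q4 := hA.f2u h5
  have hJ := J_bound hp0 hp1 q1
  unfold F1l at q1
  unfold F1u at q2
  unfold F2l at q3
  unfold F2u at q4
  obtain ⟨J, hJd⟩ : ∃ J, J = 3 * (2 + p * (-24535 / 100000 + p * (-10775 / 100000 +
      p * (-81055 / 100000 + p * (49925 / 100000))))) /
      (1 + p * (1 + p * (1 + p * (1 + p * (1 + p))))) := ⟨_, rfl⟩
  rw [← hJd, ← hτ] at hJ
  have key := verify_sound _ 20 _ vPA
    (vec [p, s, 1 - s, p ^ 3, p ^ 3, p ^ 6, p ^ 7, τ, x1, x2, J])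
    (fun i => by
      match i with
      | 0 => exact mem_bx (by norm_num) (by norm_num; linarith) (by norm_num; linarith)
      | 1 => exact mem_bx (by norm_num) (by norm_num; exact hs0.le) (by norm_num; linarith)
      | (n+2) => trivial)
    (by
      simp only [PA, DerOK, List.length, eF1l, eF1u, eF2l, eF2u, eQ, eS, vp, vs, qd, ev_add, ev_sub,
        ev_mul, ev_div, ev_sq, ev_v, ev_q, ev_zero, ev_one, ev_two, ev_three, vec, List.mem_cons,
        List.not_mem_nil, or_false, forall_eq_or_imp, forall_eq, and_true]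
      push_cast
      exact ⟨trivial, by ring, trivial, by ring, by ring, hτ, ⟨by linarith, by linarith⟩,
        ⟨by linarith, by linarith⟩, hJd⟩)
    (by intro e he; simp [PA] at he)
  simp only [PA, vp, vs, qd, ev_add, ev_sub, ev_mul, ev_div, ev_sq, ev_v, ev_q, ev_zero, ev_one,
    ev_two, ev_three, ev_four, ev_six, ev_eight, vec, List.mem_cons, List.not_mem_nil, or_false,
    forall_eq_or_imp, forall_eq] at key
  push_cast at key
  obtain ⟨t1, t2⟩ := key
  have hos : (0 : ℝ) < 1 - s := by linarith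
  have hp6 : p ^ 6 < 1 := pow_lt_one₀ hp.le hp1 (by norm_num)
  have hτ0 : 0 < τ := by rw [hτ]; linarith
  have hDen0 : 0 < Den := by
    rw [hDen]; have : 0 < x2 := by linarith
    positivity
  have e1 : 3 - p * x1 - k ≤ τ * (J + 1 / 3 * 2 * s / (1 - s)) := by
    rw [hk]
    have : τ * (J + 1 / 3 * 2 * s / (1 - s)) = τ * J + 1 / 3 * s * (2 * τ) / (1 - s) := by ring
    rw [this]; linarith
  calc (3 - p * x1 - k) * Den ≤ τ * (J + 1 / 3 * 2 * s / (1 - s)) * Den :=
        mul_le_mul_of_nonneg_right e1 hDen0.le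
    _ < W * τ * x1 * p := by
        rw [hDen, hW]
        nlinarith [mul_pos hτ0 t1]

open NumT1a in
theorem num_T1d {p s x1 x2 : ℝ} (hp0 : 8175 / 10000 ≤ p) (hp1 : p < 1)
    (hs0 : 6076 / 10000 ≤ s) (hs1 : s < 1) (hD : 0 < 1 - 3 * s ^ 2 + 2 * s ^ 3 * p ^ 6)
    (hA : AB p x1 x2) (τ Den k W : ℝ) (hτ : τ = (1 - p ^ 6) / 3)
    (hDen : Den = τ * x2 + (1 - s) * p ^ 7)
    (hk : k = 1 - 6 * s ^ 2 / (1 + 2 * s) * s * (2 * τ) / (3 * (1 - s))) (hW : W = x2 - 3 * p) :
    (3 - p * x1 - k) * Den < W * τ * x1 * p := by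
  have hp : 0 < p := by linarith
  have h5 : 1 / 2 ≤ p := by linarith
  have q1 := hA.f1l h5
  have q2 := hA.f1u h5
  have q3 := hA.f2l h5
  have q4 := hA.f2u h5
  have hJ := J_bound hp0 hp1 q1
  unfold F1l at q1
  unfold F1u at q2
  unfold F2l at q3
  unfold F2u at q4
  obtain ⟨J, hJd⟩ : ∃ J, J = 3 * (2 + p * (-24535 / 100000 + p * (-10775 / 100000 +
      p * (-81055 / 100000 + p * (49925 / 100000))))) /
      (1 + p * (1 + p * (1 + p * (1 + p * (1 + p))))) := ⟨_, rfl⟩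
  rw [← hJd, ← hτ] at hJ
  have key := verify_sound _ 20 _ vPD
    (vec [p, p ^ 3, p ^ 6, p ^ 7, τ, x1, x2, J])
    (fun i => by
      match i with
      | 0 => exact mem_bx (by norm_num) (by norm_num; linarith) (by norm_num; linarith)
      | (n+1) => trivial)
    (by
      simp only [PD, DerOK, List.length, eF1l, eF1u, eF2l, eF2u, eQ, eS, vp, vs, qd, ev_add, ev_sub,
        ev_mul, ev_div, ev_sq, ev_v, ev_q, ev_zero, ev_one, ev_two, ev_three, vec, List.mem_cons,
        List.not_mem_nil, or_false, forall_eq_or_imp, forall_eq, and_true]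
      push_cast
      exact ⟨by ring, by ring, by ring, hτ, ⟨by linarith, by linarith⟩,
        ⟨by linarith, by linarith⟩, hJd⟩)
    (by intro e he; simp [PD] at he)
  simp only [PD, vp, vs, qd, ev_add, ev_sub, ev_mul, ev_div, ev_sq, ev_v, ev_q, ev_zero, ev_one,
    ev_two, ev_three, ev_four, ev_six, ev_eight, vec, List.mem_cons, List.not_mem_nil, or_false,
    forall_eq_or_imp, forall_eq] at key
  push_cast at key
  obtain ⟨t1, t2, t3⟩ := key
  have hos : (0 : ℝ) < 1 - s := by linarith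
  have hs : 0 < s := by linarith
  have hp6 : p ^ 6 < 1 := pow_lt_one₀ hp.le hp1 (by norm_num)
  have hp7 : p ^ 7 < 1 := pow_lt_one₀ hp.le hp1 (by norm_num)
  have hp7' : 0 < p ^ 7 := by positivity
  have hτ0 : 0 < τ := by rw [hτ]; linarith
  have hx2 : 0 < x2 := by linarith
  have hJ0 : 0 < J := by linarith
  have hDen0 : 0 < Den := by rw [hDen]; positivity
  have h12 : (0 : ℝ) < 1 + 2 * s := by linarith
  obtain ⟨h, hh⟩ : ∃ h, h = 4 * s ^ 3 / (1 + 2 * s) := ⟨_, rfl⟩
  have hh1 : h ≤ 4051 / 10000 + 24 / 10 * (s - 6076 / 10000) := by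
    rw [hh, div_le_iff₀ h12]
    nlinarith [mul_nonneg (sub_nonneg.2 hs0) hos.le,
      mul_nonneg (mul_nonneg (sub_nonneg.2 hs0) hos.le) hs.le]
  have hh0 : 0 < h := by rw [hh]; positivity
  -- use of `D > 0`
  have hDτ : h * τ / (1 - s) ≤ 2 / 3 * (1 - s) := by
    have e1 : 6 * s ^ 3 * τ ≤ (1 - s) ^ 2 * (1 + 2 * s) := by
      rw [hτ]; nlinarith
    rw [div_le_iff₀ hos, hh, div_mul_eq_mul_div, div_le_iff₀ h12]
    nlinarith
  have e1 : 3 - p * x1 - k ≤ τ * (J + h / (1 - s)) := by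
    rw [hk]
    have e2 : τ * (J + h / (1 - s)) = τ * J + 6 * s ^ 2 / (1 + 2 * s) * s * (2 * τ) / (3 * (1 - s)) := by
      rw [hh]; field_simp; ring
    rw [e2]; linarith
  have e3 : (J + h / (1 - s)) * Den ≤ J * τ * x2 + 3924 / 10000 * (J * p ^ 7 + 2 / 3 * x2)
      + 4051 / 10000 * p ^ 7 := by
    have e4 : (J + h / (1 - s)) * Den = J * τ * x2 + (1 - s) * (J * p ^ 7) +
        h * τ / (1 - s) * x2 + h * p ^ 7 := by
      rw [hDen]; field_simp; ring
    rw [e4]
    have e5 := mul_le_mul_of_nonneg_right hDτ hx2.le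
    have e6 := mul_le_mul_of_nonneg_right hh1 hp7'.le
    have e7 : 24 / 10 * p ^ 7 ≤ J * p ^ 7 + 2 / 3 * x2 := by
      have e9 := mul_pos hJ0 hp7'
      linarith
    have e8 := mul_le_mul_of_nonneg_left e7 (sub_nonneg.2 hs0)
    linarith
  calc (3 - p * x1 - k) * Den ≤ τ * (J + h / (1 - s)) * Den :=
        mul_le_mul_of_nonneg_right e1 hDen0.le
    _ = τ * ((J + h / (1 - s)) * Den) := by ring
    _ ≤ τ * (J * τ * x2 + 3924 / 10000 * (J * p ^ 7 + 2 / 3 * x2) + 4051 / 10000 * p ^ 7) :=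
        mul_le_mul_of_nonneg_left e3 hτ0.le
    _ < W * τ * x1 * p := by
        rw [hW]
        nlinarith [mul_pos hτ0 t1]

open NumT1a in
theorem num_X {p s x1 x2 θ : ℝ} (hp0 : 8175 / 10000 ≤ p) (hp1 : p < 1) (hs0 : 0 < s) (hs1 : s < 1)
    (hθ1 : 1 ≤ θ) (hθ2 : θ ≤ 2) (hA : AB p x1 x2) (τ Den W : ℝ) (hτ : τ = (1 - p ^ 6) / 3)
    (hDen : Den = τ * x2 + (1 - s) * p ^ 7) (hW : W = x2 - 3 * p) :
    W * p ^ 6 ≤ (1 - θ * s * (2 * τ) / (3 * (1 - s)) + s / (1 - s)) * Den := by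
  have hp : 0 < p := by linarith
  have h5 : 1 / 2 ≤ p := by linarith
  have q3 := hA.f2l h5
  have q4 := hA.f2u h5
  have hJ := K_bound hp0 hp1 q4
  unfold F2l at q3
  unfold F2u at q4
  obtain ⟨J, hJd⟩ : ∃ J, J = 3 * (3501475 / 1000000 + p * (528575 / 1000000 +
      p * (-2223225 / 1000000 + p * (860675 / 1000000)))) /
      (1 + p * (1 + p * (1 + p * (1 + p * (1 + p))))) := ⟨_, rfl⟩
  rw [← hJd, ← hτ] at hJ
  have key := verify_sound _ 20 _ vPX
    (vec [p, s, p ^ 3, p ^ 6, p ^ 7, x2, J])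
    (fun i => by
      match i with
      | 0 => exact mem_bx (by norm_num) (by norm_num; linarith) (by norm_num; linarith)
      | 1 => exact mem_bx (by norm_num) (by norm_num; exact hs0.le) (by norm_num; linarith)
      | (n+2) => trivial)
    (by
      simp only [PX, DerOK, List.length, eF2l, eF2u, eQ2, eS, vp, vs, qd, ev_add, ev_sub,
        ev_mul, ev_div, ev_sq, ev_v, ev_q, ev_zero, ev_one, ev_two, ev_three, vec, List.mem_cons,
        List.not_mem_nil, or_false, forall_eq_or_imp, forall_eq, and_true]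
      push_cast
      exact ⟨by ring, by ring, by ring, ⟨by linarith, by linarith⟩, hJd⟩)
    (by intro e he; simp [PX] at he)
  simp only [PX, vp, vs, qd, ev_add, ev_sub, ev_mul, ev_div, ev_sq, ev_v, ev_q, ev_zero, ev_one,
    ev_two, ev_three, ev_four, ev_six, ev_eight, vec, List.mem_cons, List.not_mem_nil, or_false,
    forall_eq_or_imp, forall_eq] at key
  push_cast at key
  obtain ⟨t1, t2⟩ := key
  have hos : (0 : ℝ) < 1 - s := by linarith
  have hp6 : p ^ 6 < 1 := pow_lt_one₀ hp.le hp1 (by norm_num)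
  have hp60 : 0 < p ^ 6 := by positivity
  have hp7 : 0 < p ^ 7 := by positivity
  have hτ0 : 0 < τ := by rw [hτ]; linarith
  have hτ1 : τ ≤ 1 / 3 := by rw [hτ]; linarith
  obtain ⟨X, hX⟩ : ∃ X, X = 1 - θ * s * (2 * τ) / (3 * (1 - s)) + s / (1 - s) := ⟨_, rfl⟩
  rw [← hX]
  have hX' : X * (1 - s) = 1 - 2 / 3 * θ * s * τ := by
    rw [hX]; field_simp; ring
  have hθτ : θ * τ ≤ 2 * (1 / 3) := mul_le_mul hθ2 hτ1 hτ0.le (by norm_num)
  have hX1 : 1 ≤ X := by
    have : 1 * (1 - s) ≤ X * (1 - s) := by rw [hX']; nlinarith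
    exact le_of_mul_le_mul_right this hos
  have e1 : X * Den = X * τ * x2 + (1 - 2 / 3 * θ * s * τ) * p ^ 7 := by
    rw [hDen, ← hX']; ring
  have e2 : W * p ^ 6 = (x2 - 4 * p) * p ^ 6 + p ^ 7 := by rw [hW]; ring
  rw [e1, e2]
  have hx2 : 0 < x2 := by linarith
  have e3 := mul_le_mul_of_nonneg_right hJ hp60.le
  have e4 := mul_pos hτ0 t1
  have e5 : τ * x2 ≤ X * τ * x2 := by
    have := mul_le_mul_of_nonneg_right hX1 (mul_pos hτ0 hx2).le
    linarith
  have e6 : θ * (s * τ * p ^ 7) ≤ 2 * (s * τ * p ^ 7) :=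
    mul_le_mul_of_nonneg_right hθ2 (by positivity)
  nlinarith

end Pool.Agent.OptRes
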