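import Pool.Agent.OptRes.KapB
import Pool.Agent.OptRes.Ione
import Pool.Agent.OptRes.Alpha
import Pool.Agent.OptRes.NumT1
import Pool.Agent.OptRes.NumT1a

/-!
# MP_1c79f0_an: a priori bounds for critical half cells
-/

open MeasureTheory Set Filter Topology

namespace Pool.Agent.OptRes

namespace T1Aux

/-- The data of a critical half cell in the variables of the numerical lemmas. -/
structure Data (l Ψ ρ s p x1 x2 τ Den : ℝ) : Prop where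
  p0 : 0 < p
  p1 : p < 1
  hp : p ^ 2 = ρ
  hA : AB p x1 x2
  hI1 : I1 ρ = 3 - p * x1
  hI2 : I2 ρ * p = x2 - 3 * p
  x2pos : 0 < x2
  hτ : τ = (1 - p ^ 6) / 3
  τ0 : 0 < τ
  hDen : Den = τ * x2 + (1 - s) * p ^ 7
  Den0 : 0 < Den
  e1 : Ψ / s * Den = τ * x1 * p ^ 2 - (Ψ + l - 1) * p ^ 7
  e2 : (Ψ + l - 1) * (XX ρ s * Den - (x2 - 3 * p) * p ^ 6) =
    (3 - p * x1 - k1 ρ s) * Den - (x2 - 3 * p) * τ * x1 * p
  e3 : (Ψ + l - 1) * ((1 - 2 * τ * ((1 - s) * (3 + kw ρ s)) / cc ρ s +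
      2 * τ * s ^ 2 * (3 * s + (1 - s) * k1 ρ s) / DD ρ s) * Den - (1 - s) * p ^ 7) =
    2 * τ * ((1 - s) * (3 + kw ρ s)) / cc ρ s * Den - (1 - s) * τ * x1 * p ^ 2

theorem exists_data {l Ψ ρ s : ℝ} (h : Crit l Ψ ρ s) :
    ∃ p x1 x2 τ Den : ℝ, Data l Ψ ρ s p x1 x2 τ Den := by
  have hρ0 := h.dom.ρ0
  have hρ1 := h.dom.ρ1
  have hs0 := h.dom.s0
  have hs1 := h.dom.s1
  have hD := h.dom.D
  obtain ⟨p, hp0, hp⟩ : ∃ p : ℝ, 0 < p ∧ p ^ 2 = ρ :=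
    ⟨Real.sqrt ρ, Real.sqrt_pos.2 hρ0, Real.sq_sqrt hρ0.le⟩
  have hp1 : p < 1 := by nlinarith
  have hA := ab hp0 hp1
  set x1 := a1 p with hx1
  set x2 := a2 p with hx2
  have hI1 : I1 ρ = 3 - p * x1 := by
    rw [hx1, a1, hp]
    field_simp
    ring
  have hI2 : I2 ρ * p = x2 - 3 * p := by
    rw [hx2, a2, hp]
    ring
  have hI2pos : 1 ≤ I2 ρ := (one_le_I1 hρ0 hρ1.le).trans (I1_le_I2 hρ0 hρ1.le)
  have x2pos : 0 < x2 := by nlinarith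
  have hp6 : p ^ 6 = ρ ^ 3 := by rw [← hp]; ring
  have hp6lt : p ^ 6 < 1 := pow_lt_one₀ hp0.le hp1 (by norm_num)
  set τ := (1 - p ^ 6) / 3 with hτ
  have τ0 : 0 < τ := by rw [hτ]; linarith
  set Den := τ * x2 + (1 - s) * p ^ 7 with hDen
  have hp7 : 0 < p ^ 7 := by positivity
  have Den0 : 0 < Den := by
    have h1 : 0 < τ * x2 := mul_pos τ0 x2pos
    have h2 : 0 < (1 - s) * p ^ 7 := mul_pos (by linarith) hp7
    linarith
  have hq : qq ρ = 2 * τ := by rw [qq, ← hp6, hτ]; ring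
  set m := Ψ + l - 1 with hm
  have hm1 : Ψ + l = 1 + m := by rw [hm]; ring
  set ψ := Ψ / s with hψ
  have hΨ : Ψ = s * ψ := by rw [hψ]; field_simp
  set C := (Ψ + l) * ((1 - s) * (3 + kw ρ s)) / cc ρ s
      - m * s ^ 2 * (3 * s + (1 - s) * k1 ρ s) / DD ρ s with hC
  have eL : 3 - I1 ρ - (3 + I2 ρ) * ψ = 2 * ρ ^ 3 * C := h.eqL
  have eR : l - 1 + ψ = qq ρ * C := h.eqR
  have eE : I1 ρ - ψ * I2 ρ = (Ψ + l) * k1 ρ s + m * kw ρ s := h.eqE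
  have eR' : m + (1 - s) * ψ = 2 * τ * C := by
    rw [← hq, ← eR, hm]
    linear_combination hΨ
  have e1 : ψ * Den = τ * x1 * p ^ 2 - m * p ^ 7 := by
    have h1 : p * x1 * p - x2 * ψ = 2 * p ^ 6 * C * p := by
      rw [hp6, ← eL, hI1]
      linear_combination ψ * hI2
    rw [hDen]
    linear_combination (-τ) * h1 + (p ^ 7) * eR'
  refine ⟨p, x1, x2, τ, Den, hp0, hp1, hp, hA, hI1, hI2, x2pos, hτ, τ0, hDen, Den0, e1, ?_, ?_⟩
  · have h2 : p * (I1 ρ - ψ * I2 ρ) = p * ((Ψ + l) * k1 ρ s + m * kw ρ s) := by rw [eE]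
    have h3 : p * ((3 - p * x1 - k1 ρ s) - m * XX ρ s) = ψ * (x2 - 3 * p) := by
      rw [hI1, hm1] at h2
      rw [XX]
      linear_combination h2 + ψ * hI2
    have h4 : p * ((m * (XX ρ s * Den - (x2 - 3 * p) * p ^ 6)) -
        ((3 - p * x1 - k1 ρ s) * Den - (x2 - 3 * p) * τ * x1 * p)) = 0 := by
      linear_combination (-Den) * h3 - (x2 - 3 * p) * e1
    have h5 := (mul_eq_zero.1 h4).resolve_left hp0.ne'
    linarith
  · have h6 : 2 * τ * C = (1 + m) * (2 * τ * ((1 - s) * (3 + kw ρ s)) / cc ρ s) -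
        m * (2 * τ * s ^ 2 * (3 * s + (1 - s) * k1 ρ s) / DD ρ s) := by
      rw [hC, hm1]
      ring
    rw [h6] at eR'
    linear_combination (Den) * eR' - (1 - s) * e1

variable {l Ψ ρ s p x1 x2 τ Den : ℝ}

theorem Data.qq (d : Data l Ψ ρ s p x1 x2 τ Den) : qq ρ = 2 * τ := by
  rw [Pool.Agent.OptRes.qq, ← d.hp, d.hτ]; ring

theorem Data.P1 (h : Crit l Ψ ρ s) (d : Data l Ψ ρ s p x1 x2 τ Den) {θ : ℝ} (h1 : 1 ≤ θ)
    (h2 : 6 * s ^ 2 ≤ θ * (1 + 2 * s)) (k : ℝ) (hk : k = 1 - θ / 3 * s * (2 * τ) / (1 - s)) :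
    (Ψ + l - 1) * ((k + s / (1 - s)) * Den - (x2 - 3 * p) * p ^ 6) ≤
      (3 - p * x1 - k) * Den - (x2 - 3 * p) * τ * x1 * p := by
  have hs1 : 0 < 1 - s := by have := h.dom.s1; linarith
  have a1 := k1_ge h.dom h1 h2
  rw [d.qq] at a1
  have a1' : k ≤ k1 ρ s := by
    have : 1 - θ * s * (2 * τ) / (3 * (1 - s)) = k := by rw [hk]; field_simp
    rw [← this]; exact a1
  have a2 := kw_ge h.dom
  have hX : k + s / (1 - s) ≤ XX ρ s := by rw [XX]; linarith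
  have hm := h.m_pos
  have hD := d.Den0
  have e2 := d.e2
  have b1 : (Ψ + l - 1) * ((k + s / (1 - s)) * Den) ≤ (Ψ + l - 1) * (XX ρ s * Den) :=
    mul_le_mul_of_nonneg_left (mul_le_mul_of_nonneg_right hX hD.le) hm.le
  have b2 : k * Den ≤ k1 ρ s * Den := mul_le_mul_of_nonneg_right a1' hD.le
  nlinarith

theorem Data.P2 (h : Crit l Ψ ρ s) (d : Data l Ψ ρ s p x1 x2 τ Den) (g : ℝ)
    (hg : g = 2 * τ * (3 - 2 * s) / (3 - 2 * s * p ^ 6)) :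
    g * Den - (1 - s) * τ * x1 * p ^ 2 ≤
    (Ψ + l - 1) * ((1 - g + 2 * τ * s ^ 2 * (1 + 2 * s) / DD ρ s) * Den - (1 - s) * p ^ 7) := by
  have hs0 := h.dom.s0
  have hs1 : 0 < 1 - s := by have := h.dom.s1; linarith
  have hm := h.m_pos
  have hD := d.Den0
  have hDD := h.dom.D
  have hτ := d.τ0
  have hp6 : p ^ 6 = ρ ^ 3 := by rw [← d.hp]; ring
  have hcc : 0 < cc ρ s := by
    rw [cc]
    have : ρ ^ 3 < 1 := pow_lt_one₀ h.dom.ρ0.le h.dom.ρ1 (by norm_num)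
    have h3 : 0 < ρ ^ 3 := by have := h.dom.ρ0; positivity
    nlinarith
  have hg' : g = 2 * τ * (3 - 2 * s) / cc ρ s := by rw [hg, hp6, cc]
  have n1 : 3 - 2 * s ≤ (1 - s) * (3 + kw ρ s) := by
    have := kw_ge h.dom
    have h4 : (1 - s) * (s / (1 - s)) = s := by field_simp
    nlinarith [mul_le_mul_of_nonneg_left this hs1.le]
  have n2 : 3 * s + (1 - s) * k1 ρ s ≤ 1 + 2 * s := by
    have := k1_le_one h.dom
    nlinarith
  have c1 : g ≤ 2 * τ * ((1 - s) * (3 + kw ρ s)) / cc ρ s := by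
    rw [hg']
    exact div_le_div_of_nonneg_right (mul_le_mul_of_nonneg_left n1 (by positivity)) hcc.le
  have c2 : 2 * τ * s ^ 2 * (3 * s + (1 - s) * k1 ρ s) / DD ρ s ≤
      2 * τ * s ^ 2 * (1 + 2 * s) / DD ρ s :=
    div_le_div_of_nonneg_right (mul_le_mul_of_nonneg_left n2 (by positivity)) hDD.le
  have e3 := d.e3
  generalize 2 * τ * ((1 - s) * (3 + kw ρ s)) / cc ρ s = g1 at *
  generalize 2 * τ * s ^ 2 * (3 * s + (1 - s) * k1 ρ s) / DD ρ s = g2 at *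
  generalize 2 * τ * s ^ 2 * (1 + 2 * s) / DD ρ s = g3 at *
  generalize Ψ + l - 1 = m at *
  have b1 : g * Den ≤ g1 * Den := mul_le_mul_of_nonneg_right c1 hD.le
  have b2 : m * (g * Den) ≤ m * (g1 * Den) := mul_le_mul_of_nonneg_left b1 hm.le
  have b3 : m * (g2 * Den) ≤ m * (g3 * Den) :=
    mul_le_mul_of_nonneg_left (mul_le_mul_of_nonneg_right c2 hD.le) hm.le
  nlinarith

theorem p_lt (h : Crit l Ψ ρ s) (d : Data l Ψ ρ s p x1 x2 τ Den) : p < 8175 / 10000 := by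
  by_contra hcon
  push Not at hcon
  have hs0 := h.dom.s0
  have hs1 := h.dom.s1
  have hm := h.m_pos
  by_cases hc : 6 * s ^ 2 ≤ 1 + 2 * s
  · have hs2 : s ≤ 6077 / 10000 := by nlinarith
    have b := d.P1 h (θ := 1) le_rfl (by linarith) (1 - 1 / 3 * s * (2 * τ) / (1 - s)) rfl
    have n1 := num_T1a hcon d.p1 hs0 hs2 d.hA τ Den _ _ d.hτ d.hDen rfl rfl
    have n2 := num_X (θ := 1) hcon d.p1 hs0 hs1 le_rfl (by norm_num) d.hA τ Den _ d.hτ d.hDen rfl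
    have e : (1 : ℝ) - 1 * s * (2 * τ) / (3 * (1 - s)) = 1 - 1 / 3 * s * (2 * τ) / (1 - s) := by
      have : (1 : ℝ) - s ≠ 0 := by linarith
      field_simp
    rw [e] at n2
    nlinarith [mul_nonneg hm.le (sub_nonneg.2 n2)]
  · push Not at hc
    have hs2 : 6076 / 10000 ≤ s := by
      by_contra hlt
      push Not at hlt
      nlinarith
    have h12 : 0 < 1 + 2 * s := by linarith
    have hθ1 : 1 ≤ 6 * s ^ 2 / (1 + 2 * s) := by
      rw [le_div_iff₀ h12]; linarith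
    have hθ2 : 6 * s ^ 2 / (1 + 2 * s) ≤ 2 := by
      rw [div_le_iff₀ h12]; nlinarith
    have hθ3 : 6 * s ^ 2 ≤ 6 * s ^ 2 / (1 + 2 * s) * (1 + 2 * s) := by
      rw [div_mul_cancel₀ _ h12.ne']
    have hD : 0 < 1 - 3 * s ^ 2 + 2 * s ^ 3 * p ^ 6 := by
      have hp6 : p ^ 6 = ρ ^ 3 := by rw [← d.hp]; ring
      rw [hp6]; exact h.dom.D
    have e : (1 : ℝ) - 6 * s ^ 2 / (1 + 2 * s) / 3 * s * (2 * τ) / (1 - s) =
        1 - 6 * s ^ 2 / (1 + 2 * s) * s * (2 * τ) / (3 * (1 - s)) := by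
      have : (1 : ℝ) - s ≠ 0 := by linarith
      field_simp
    have b := d.P1 h hθ1 hθ3 (1 - 6 * s ^ 2 / (1 + 2 * s) * s * (2 * τ) / (3 * (1 - s))) e.symm
    have n1 := num_T1d hcon d.p1 hs2 hs1 hD d.hA τ Den _ _ d.hτ d.hDen rfl rfl
    have n2 := num_X hcon d.p1 hs0 hs1 hθ1 hθ2 d.hA τ Den _ d.hτ d.hDen rfl
    nlinarith [mul_nonneg hm.le (sub_nonneg.2 n2)]

theorem s_lt (h : Crit l Ψ ρ s) (d : Data l Ψ ρ s p x1 x2 τ Den) : s < 62 / 100 := by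
  by_contra hcon
  push Not at hcon
  have hp := p_lt h d
  have hs1 := h.dom.s1
  have hp0 := d.p0
  have hp6 : p ^ 6 = ρ ^ 3 := by rw [← d.hp]; ring
  have hr : ρ ^ 3 ≤ 2986 / 10000 := by
    rw [← hp6]
    calc p ^ 6 ≤ (8175 / 10000) ^ 6 := pow_le_pow_left₀ hp0.le hp.le 6
      _ ≤ _ := by norm_num
  have hD := h.dom.D
  rw [DD] at hD
  have h3 : 0 < s ^ 3 := by have := h.dom.s0; positivity
  have h4 : 2 * s ^ 3 * ρ ^ 3 ≤ 2 * s ^ 3 * (2986 / 10000) :=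
    mul_le_mul_of_nonneg_left hr (by positivity)
  nlinarith [mul_nonneg (sub_nonneg.2 hcon) (sub_nonneg.2 hs1.le),
    mul_nonneg (mul_nonneg (sub_nonneg.2 hcon) (sub_nonneg.2 hs1.le)) h.dom.s0.le]

end T1Aux

open T1Aux

theorem crit_rho {l Ψ ρ s : ℝ} (h : Crit l Ψ ρ s) : ρ < 67 / 100 := by
  obtain ⟨p, x1, x2, τ, Den, d⟩ := exists_data h
  have hp := p_lt h d
  have hp0 := d.p0
  rw [← d.hp]
  nlinarith

theorem crit_T1 {l Ψ ρ s : ℝ} (h : Crit l Ψ ρ s) : ρ < 105 / 100 * s := by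
  obtain ⟨p, x1, x2, τ, Den, d⟩ := exists_data h
  by_contra hcon
  push Not at hcon
  have hp := p_lt h d
  have hp0 := d.p0
  have hs := s_lt h d
  have hs0 := h.dom.s0
  have hs1 := h.dom.s1
  have hm := h.m_pos
  have hp6 : p ^ 6 = ρ ^ 3 := by rw [← d.hp]; ring
  have hD : 0 < 1 - 3 * s ^ 2 + 2 * s ^ 3 * p ^ 6 := by
    rw [hp6]; exact h.dom.D
  have hDD : DD ρ s = 1 - 3 * s ^ 2 + 2 * s ^ 3 * p ^ 6 := by rw [DD, hp6]
  have key : ∀ κ θ : ℝ, κ = θ / 3 → 1 ≤ θ → 6 * s ^ 2 ≤ θ * (1 + 2 * s) →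
      ((s ≤ 6077 / 10000 ∧ κ = 1 / 3) ∨
      (6076 / 10000 ≤ s ∧ s ≤ 62 / 100 ∧ κ = 3436 / 10000)) → False := by
    intro κ θ hκθ hθ1 hθ2 hκ
    have b1 := d.P1 h hθ1 hθ2 (1 - κ * s * (2 * τ) / (1 - s)) (by rw [hκθ])
    have b2 := d.P2 h _ rfl
    obtain ⟨n1, n2, n3⟩ := num_T1 d.p0 hp.le hs0 (by rw [d.hp]; exact hcon) hD hκ d.hA τ Den
      (2 * τ * (3 - 2 * s) / (3 - 2 * s * p ^ 6)) (1 - κ * s * (2 * τ) / (1 - s))
      (1 - κ * s * (2 * τ) / (1 - s) + s / (1 - s)) (x2 - 3 * p)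
      (1 - 3 * s ^ 2 + 2 * s ^ 3 * p ^ 6) d.hτ d.hDen rfl rfl rfl rfl rfl
    rw [hDD] at b2
    set D := 1 - 3 * s ^ 2 + 2 * s ^ 3 * p ^ 6 with hDdef
    have e : (D * (1 - 2 * τ * (3 - 2 * s) / (3 - 2 * s * p ^ 6)) + 2 * τ * s ^ 2 * (1 + 2 * s)) *
        Den - (1 - s) * p ^ 7 * D = D * ((1 - 2 * τ * (3 - 2 * s) / (3 - 2 * s * p ^ 6) +
          2 * τ * s ^ 2 * (1 + 2 * s) / D) * Den - (1 - s) * p ^ 7) := by
      have h1 : D * (2 * τ * s ^ 2 * (1 + 2 * s) / D) = 2 * τ * s ^ 2 * (1 + 2 * s) := by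
        rw [mul_div_assoc', mul_div_cancel_left₀ _ hD.ne']
      linear_combination (-Den) * h1
    rw [e] at n3
    generalize (1 - 2 * τ * (3 - 2 * s) / (3 - 2 * s * p ^ 6) +
          2 * τ * s ^ 2 * (1 + 2 * s) / D) * Den - (1 - s) * p ^ 7 = P2 at *
    generalize 2 * τ * (3 - 2 * s) / (3 - 2 * s * p ^ 6) * Den - (1 - s) * τ * x1 * p ^ 2 = Q2 at *
    generalize (1 - κ * s * (2 * τ) / (1 - s) + s / (1 - s)) * Den - (x2 - 3 * p) * p ^ 6 = P1 at *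
    generalize (3 - p * x1 - (1 - κ * s * (2 * τ) / (1 - s))) * Den -
      (x2 - 3 * p) * τ * x1 * p = Q1 at *
    generalize Ψ + l - 1 = m at *
    have hP2 : 0 < P2 := by
      by_contra hle
      push Not at hle
      have := mul_nonpos_of_nonneg_of_nonpos hm.le hle
      linarith
    have c1 : Q2 * P1 ≤ m * P2 * P1 := mul_le_mul_of_nonneg_right b2 n2.le
    have c2 : m * P1 * P2 ≤ Q1 * P2 := mul_le_mul_of_nonneg_right b1 hP2.le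
    have c3 : Q2 * P1 * D ≤ Q1 * P2 * D := by
      apply mul_le_mul_of_nonneg_right _ hD.le
      linarith
    nlinarith
  by_cases hc : 6 * s ^ 2 ≤ 1 + 2 * s
  · have hs2 : s ≤ 6077 / 10000 := by nlinarith
    exact key (1 / 3) 1 (by norm_num) le_rfl (by linarith) (Or.inl ⟨hs2, rfl⟩)
  · push Not at hc
    have hs2 : 6076 / 10000 ≤ s := by
      by_contra hlt
      push Not at hlt
      nlinarith
    exact key (3436 / 10000) (10308 / 10000) (by norm_num) (by norm_num) (by nlinarith)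
      (Or.inr ⟨hs2, hs.le, rfl⟩)

theorem crit_s {l Ψ ρ s : ℝ} (h : Crit l Ψ ρ s) : s < 6125 / 10000 := by
  by_contra hcon
  push Not at hcon
  obtain ⟨p, x1, x2, τ, Den, d⟩ := exists_data h
  have hs := s_lt h d
  have h1 := crit_T1 h
  have hs0 := h.dom.s0
  have hρ0 := h.dom.ρ0
  have hD := h.dom.D
  rw [DD] at hD
  have h2 : ρ ^ 3 ≤ (105 / 100 * s) ^ 3 := pow_le_pow_left₀ hρ0.le h1.le 3
  have h3 : 2 * s ^ 3 * ρ ^ 3 ≤ 2 * s ^ 3 * (105 / 100 * s) ^ 3 :=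
    mul_le_mul_of_nonneg_left h2 (by positivity)
  have h4 : 2 * s ^ 3 * (105 / 100 * s) ^ 3 = 2.31525 * (s ^ 2) ^ 3 := by ring
  have t1 : (6125 / 10000) ^ 2 ≤ s ^ 2 := pow_le_pow_left₀ (by norm_num) hcon 2
  have t2 : s ^ 2 ≤ (62 / 100) ^ 2 := pow_le_pow_left₀ hs0.le hs.le 2
  generalize s ^ 2 = t at *
  have t3 : (0 : ℝ) ≤ t := le_trans (by norm_num) t1
  nlinarith [mul_nonneg (sub_nonneg.2 t1) (sub_nonneg.2 t2),
    mul_nonneg (mul_nonneg (sub_nonneg.2 t1) (sub_nonneg.2 t2)) t3]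

end Pool.Agent.OptRes
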