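import Pool.Agent.OptRes.Defs
import Pool.Agent.OptRes.Defs2
import Pool.Agent.OptRes.Ivl

/-!
# Interval arithmetic for the bound `E ≤ 0.62` at critical points
-/

set_option linter.unusedSimpArgs false
set_option linter.unusedVariables false

open Set

namespace Pool.Agent.OptRes

open Ex

namespace NumI4

def qd (n : Int) (d : Nat) : Ex := Ex.q n d
def vp : Ex := Ex.v 0
def vs : Ex := Ex.v 1
def eG1u : Ex := qd 224252 100000 + v 4 * (Ex.sq vp) * (qd (-12024) 10000 + vp * (qd 110267 100000 + vp * (qd 15371 100000 + vp * qd (-2965) 10000)))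
def eG1l : Ex := qd 223732 100000 + v 4 * (Ex.sq vp) * (qd (-11972) 10000 + vp * (qd 110267 100000 + vp * (qd 15371 100000 + vp * qd (-2965) 10000)))
def eG2l : Ex := qd 364026 100000 + v 5 * (qd 182467 100000 + vp * (qd (-168529) 100000 + vp * (qd (-24175) 100000 + vp * qd 46211 100000)))
def eG2u : Ex := qd 364743 100000 + v 5 * (qd 18175 10000 + vp * (qd (-168529) 100000 + vp * (qd (-24175) 100000 + vp * qd 46211 100000)))
def eF1u : Ex := qd 224765 100000 + vp * (qd (-1399) 10000 + vp * (qd 7028 10000 + vp * (qd (-13098) 10000 + vp * qd 49925 100000)))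
def eF1l : Ex := qd 224535 100000 + vp * (qd (-1376) 10000 + vp * (qd 7028 10000 + vp * (qd (-13098) 10000 + vp * qd 49925 100000)))
def eF2l : Ex := qd 349935 100000 + vp * (qd 10292 10000 + vp * (qd (-27518) 10000 + vp * (qd 30839 10000 + vp * qd (-86065) 100000)))
def eF2u : Ex := qd 3501475 1000000 + vp * (qd 10271 10000 + vp * (qd (-27518) 10000 + vp * (qd 30839 10000 + vp * qd (-860675) 1000000)))

def PI4 (l1 u1 l2 u2 : Ex) : Prob where
  der := [ .eq (1 - vs), -- 2 os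
           .eq (vp * vp * vp), -- 3 p^3
           .eq (v 3), -- 4 p^3
           .eq (Ex.sq (v 3)), -- 5 r = p^6
           .eq (v 5 * vp), -- 6 p^7
           .eq ((1 - v 5)/3), -- 7 tau
           .bd [l1] [u1],   -- 8 al1
           .bd [l2] [u2],   -- 9 al2
           .eq (1 - 3*Ex.sq vs + 2*vs*Ex.sq vs * v 5), -- 10 D1
           .eq (v 7 * v 9 + v 2 * v 6), -- 11 Den
           .eq (v 9 - 3*vp), -- 12 w = al2-3p
           .eq (1 - qd 35 100 * vs * (2 * v 7) / v 2), -- 13 k1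
           .eq (v 13 + vs / v 2), -- 14 X
           .eq ((3 - vp*v 8 - v 13) * v 11 - v 12 * v 7 * v 8 * vp), -- 15 nu
           .eq (v 14 * v 11 - v 12 * v 5), -- 16 de
           .eq (qd 62 100 * (v 6 + v 7 * v 9)), -- 17 ES (p7+tau al2)
           .eq (v 7 * v 8), -- 18 a' = tau al1 ; a = a' p^2
           .eq (v 3 * Ex.sq vp) -- 19 p^5
         ]
  con := [v 10, qd 105 100 * vs - Ex.sq vp, v 15]
  tgt := [ (v 17 * v 18 - v 19 * (v 11 - vs * v 18 * Ex.sq vp + v 2 * v 18 * Ex.sq vp / (2 * v 7))) * v 16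
             - v 15 * v 19 * (v 17 + v 11 + vs * v 6 + (v 11 - v 2 * v 6)/(2 * v 7))]
  wts := [1, 1]

def PI4d (l1 u1 l2 u2 : Ex) : Prob where
  der := [ .eq (1 - vs), -- 2 os
           .eq (vp * vp * vp), -- 3 p^3
           .eq (v 3), -- 4 p^3
           .eq (Ex.sq (v 3)), -- 5 r = p^6
           .eq (v 5 * vp), -- 6 p^7
           .eq ((1 - v 5)/3), -- 7 tau
           .bd [l1] [u1],   -- 8 al1
           .bd [l2] [u2],   -- 9 al2
           .eq (1 - 3*Ex.sq vs + 2*vs*Ex.sq vs * v 5), -- 10 D1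
           .eq (v 7 * v 9 + v 2 * v 6), -- 11 Den
           .eq (v 9 - 3*vp), -- 12 w = al2-3p
           .eq (1 - qd 35 100 * vs * (2 * v 7) / v 2), -- 13 k1
           .eq (v 13 + vs / v 2) -- 14 X
         ]
  con := [v 10, qd 105 100 * vs - Ex.sq vp]
  tgt := [v 14 * v 11 - v 12 * v 5]
  wts := [1, 1]

theorem v1 : verify (PI4 eG1l eG1u eG2l eG2u) 20 [bx 0 5 10, bx 0 6125 10000] = true := by
  decide +kernel
theorem v2 : verify (PI4 eF1l eF1u eF2l eF2u) 20 [bx 50 83 100, bx 0 6125 10000] = true := by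
  decide +kernel
theorem v3 : verify (PI4d eG1l eG1u eG2l eG2u) 20 [bx 0 5 10, bx 0 6125 10000] = true := by
  decide +kernel
theorem v4 : verify (PI4d eF1l eF1u eF2l eF2u) 20 [bx 50 83 100, bx 0 6125 10000] = true := by
  decide +kernel

/-- conclusion -/
def Concl (p s x1 x2 : ℝ) : Prop :=
  ∀ (τ Den k X W nu de V0 V1 : ℝ) (_ : τ = (1 - p ^ 6) / 3)
    (_ : Den = τ * x2 + (1 - s) * p ^ 7)
    (_ : k = 1 - 35 / 100 * s * (2 * τ) / (1 - s)) (_ : X = k + s / (1 - s))
    (_ : W = x2 - 3 * p)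
    (_ : nu = (3 - p * x1 - k) * Den - W * τ * x1 * p) (_ : de = X * Den - W * p ^ 6)
    (_ : V0 = 62 / 100 * (p ^ 7 + τ * x2) * (τ * x1 * p ^ 2) -
      p ^ 7 * (Den - s * (τ * x1 * p ^ 2) + (1 - s) * (τ * x1 * p ^ 2) / (2 * τ)))
    (_ : V1 = 62 / 100 * (p ^ 7 + τ * x2) * p ^ 7 +
      p ^ 7 * (Den + s * p ^ 7 + (Den - (1 - s) * p ^ 7) / (2 * τ))),
    0 < de ∧ (0 ≤ nu → nu * V1 < V0 * de)

theorem transfer {l1 u1 l2 u2 : Ex} {a b c d e f : Int} (hb : 0 < b) (hd : 0 < d)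
    (hv : verify (PI4 l1 u1 l2 u2) 20 [bx a e b, bx c f d] = true)
    (hv' : verify (PI4d l1 u1 l2 u2) 20 [bx a e b, bx c f d] = true)
    {p s x1 x2 : ℝ} (hp : 0 < p) (hp0 : (a : ℝ) / b ≤ p) (hp1 : p ≤ (e : ℝ) / b)
    (hs0 : (c : ℝ) / d ≤ s) (hs1 : s ≤ (f : ℝ) / d)
    (hps : p ^ 2 ≤ 105 / 100 * s) (hD : 0 < 1 - 3 * s ^ 2 + 2 * s ^ 3 * p ^ 6)
    (hl1 : ∀ y : List ℝ, l1.ev (vec (p :: s :: (1 - s) :: p ^ 3 :: p ^ 3 :: p ^ 6 :: y)) ≤ x1)
    (hu1 : ∀ y : List ℝ, x1 ≤ u1.ev (vec (p :: s :: (1 - s) :: p ^ 3 :: p ^ 3 :: p ^ 6 :: y)))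
    (hl2 : ∀ y : List ℝ, l2.ev (vec (p :: s :: (1 - s) :: p ^ 3 :: p ^ 3 :: p ^ 6 :: y)) ≤ x2)
    (hu2 : ∀ y : List ℝ, x2 ≤ u2.ev (vec (p :: s :: (1 - s) :: p ^ 3 :: p ^ 3 :: p ^ 6 :: y))) :
    Concl p s x1 x2 := by
  intro τ Den k X W nu de V0 V1 hτ hDen hk hX hW hnu hde hV0 hV1
  refine ⟨?_, ?_⟩
  · have key := verify_sound _ 20 _ hv'
      (vec [p, s, 1 - s, p ^ 3, p ^ 3, p ^ 6, p ^ 7, τ, x1, x2, 1 - 3 * s ^ 2 + 2 * s * s ^ 2 * p ^ 6,
        Den, W, k, X])
      (fun i => by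
        match i with
        | 0 => exact mem_bx hb hp0 hp1
        | 1 => exact mem_bx hd hs0 hs1
        | (n+2) => trivial)
      (by
        simp only [PI4d, DerOK, List.length, vp, vs, qd, ev_add, ev_sub, ev_mul, ev_div, ev_sq, ev_v,
          ev_q, ev_zero, ev_one, ev_two, ev_three, vec, List.mem_cons, List.not_mem_nil, or_false,
          forall_eq_or_imp, forall_eq, and_true]
        push_cast
        exact ⟨trivial, by ring, trivial, by ring, by ring, hτ, ⟨hl1 _, hu1 _⟩, ⟨hl2 _, hu2 _⟩,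
          trivial, hDen, hW, hk, hX⟩)
      (by
        simp only [PI4d, vp, vs, qd, ev_add, ev_sub, ev_mul, ev_div, ev_sq, ev_v, ev_q, ev_zero,
          ev_one, ev_two, ev_three, vec, List.mem_cons, List.not_mem_nil, or_false,
          forall_eq_or_imp, forall_eq]
        push_cast
        refine ⟨?_, ?_⟩
        · linarith
        · linarith)
    simp only [PI4d, vp, vs, qd, ev_add, ev_sub, ev_mul, ev_div, ev_sq, ev_v, ev_q, ev_zero, ev_one,
      ev_two, ev_three, vec, List.mem_cons, List.not_mem_nil, or_false, forall_eq_or_imp,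
      forall_eq] at key
    rw [hde]; exact key
  · intro hnu0
    have key := verify_sound _ 20 _ hv
      (vec [p, s, 1 - s, p ^ 3, p ^ 3, p ^ 6, p ^ 7, τ, x1, x2, 1 - 3 * s ^ 2 + 2 * s * s ^ 2 * p ^ 6,
        Den, W, k, X, nu, de, 62 / 100 * (p ^ 7 + τ * x2), τ * x1, p ^ 5])
      (fun i => by
        match i with
        | 0 => exact mem_bx hb hp0 hp1
        | 1 => exact mem_bx hd hs0 hs1
        | (n+2) => trivial)
      (by
        simp only [PI4, DerOK, List.length, vp, vs, qd, ev_add, ev_sub, ev_mul, ev_div, ev_sq, ev_v,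
          ev_q, ev_zero, ev_one, ev_two, ev_three, vec, List.mem_cons, List.not_mem_nil, or_false,
          forall_eq_or_imp, forall_eq, and_true]
        push_cast
        exact ⟨trivial, by ring, trivial, by ring, by ring, hτ, ⟨hl1 _, hu1 _⟩, ⟨hl2 _, hu2 _⟩,
          trivial, hDen, hW, hk, hX, hnu, hde, rfl, trivial, by ring⟩)
      (by
        simp only [PI4, vp, vs, qd, ev_add, ev_sub, ev_mul, ev_div, ev_sq, ev_v, ev_q, ev_zero,
          ev_one, ev_two, ev_three, vec, List.mem_cons, List.not_mem_nil, or_false,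
          forall_eq_or_imp, forall_eq]
        push_cast
        refine ⟨?_, ?_, hnu0⟩
        · linarith
        · linarith)
    simp only [PI4, vp, vs, qd, ev_add, ev_sub, ev_mul, ev_div, ev_sq, ev_v, ev_q, ev_zero, ev_one,
      ev_two, ev_three, vec, List.mem_cons, List.not_mem_nil, or_false, forall_eq_or_imp,
      forall_eq] at key
    have h2 : 0 < p ^ 2 := by positivity
    have h3 := mul_pos h2 key
    have e : V0 * de - nu * V1 = p ^ 2 * ((62 / 100 * (p ^ 7 + τ * x2) * (τ * x1) -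
        p ^ 5 * (Den - s * (τ * x1) * p ^ 2 + (1 - s) * (τ * x1) * p ^ 2 / (2 * τ))) * de -
        nu * p ^ 5 * (62 / 100 * (p ^ 7 + τ * x2) + Den + s * p ^ 7 +
          (Den - (1 - s) * p ^ 7) / (2 * τ))) := by
      rw [hV0, hV1]; ring
    linarith

end NumI4

open NumI4 in
theorem num_I4 {p s x1 x2 : ℝ} (hp0 : 0 < p) (hp1 : p ≤ 83 / 100) (hs0 : 0 < s)
    (hs1 : s ≤ 6125 / 10000)
    (hps : p ^ 2 ≤ 105 / 100 * s) (hD : 0 < 1 - 3 * s ^ 2 + 2 * s ^ 3 * p ^ 6)
    (hA : AB p x1 x2) (τ Den k X W nu de V0 V1 : ℝ) (hτ : τ = (1 - p ^ 6) / 3)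
    (hDen : Den = τ * x2 + (1 - s) * p ^ 7)
    (hk : k = 1 - 35 / 100 * s * (2 * τ) / (1 - s)) (hX : X = k + s / (1 - s))
    (hW : W = x2 - 3 * p)
    (hnu : nu = (3 - p * x1 - k) * Den - W * τ * x1 * p) (hde : de = X * Den - W * p ^ 6)
    (hV0 : V0 = 62 / 100 * (p ^ 7 + τ * x2) * (τ * x1 * p ^ 2) -
      p ^ 7 * (Den - s * (τ * x1 * p ^ 2) + (1 - s) * (τ * x1 * p ^ 2) / (2 * τ)))
    (hV1 : V1 = 62 / 100 * (p ^ 7 + τ * x2) * p ^ 7 +
      p ^ 7 * (Den + s * p ^ 7 + (Den - (1 - s) * p ^ 7) / (2 * τ))) :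
    0 < de ∧ (0 ≤ nu → nu * V1 < V0 * de) := by
  have hf1 := hA.g1l
  have hf2 := hA.g1u
  have hf3 := hA.g2l
  have hf4 := hA.g2u
  have hf5 := hA.f1l
  have hf6 := hA.f1u
  have hf7 := hA.f2l
  have hf8 := hA.f2u
  unfold G1l at hf1
  unfold G1u at hf2
  unfold G2l at hf3
  unfold G2u at hf4
  unfold F1l at hf5
  unfold F1u at hf6
  unfold F2l at hf7
  unfold F2u at hf8
  suffices h : Concl p s x1 x2 from
    h τ Den k X W nu de V0 V1 hτ hDen hk hX hW hnu hde hV0 hV1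
  by_cases h5 : p ≤ 1 / 2
  · refine transfer (b := 10) (d := 10000) (by norm_num) (by norm_num) v1 v3 hp0
      (by norm_num; linarith) (by norm_num; linarith) (by norm_num; linarith)
      (by norm_num; linarith) hps hD ?_ ?_ ?_ ?_
    all_goals intro y
    all_goals simp only [eG1l, eG1u, eG2l, eG2u, vp, qd, ev_add, ev_mul, ev_sq, ev_v, ev_q, vec]
    all_goals push_cast
    · refine le_trans (le_of_eq ?_) hf1; ring
    · refine le_trans hf2 (le_of_eq ?_); ring
    · refine le_trans (le_of_eq ?_) hf3; ring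
    · refine le_trans hf4 (le_of_eq ?_); ring
  · have h5' : 1 / 2 ≤ p := by linarith
    refine transfer (b := 100) (d := 10000) (by norm_num) (by norm_num) v2 v4 hp0
      (by norm_num; linarith) (by norm_num; linarith) (by norm_num; linarith)
      (by norm_num; linarith) hps hD ?_ ?_ ?_ ?_
    all_goals intro y
    all_goals simp only [eF1l, eF1u, eF2l, eF2u, vp, qd, ev_add, ev_mul, ev_sq, ev_v, ev_q, vec]
    all_goals push_cast
    · refine le_trans (le_of_eq ?_) (hf5 h5'); ring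
    · refine le_trans (hf6 h5') (le_of_eq ?_); ring
    · refine le_trans (le_of_eq ?_) (hf7 h5'); ring
    · refine le_trans (hf8 h5') (le_of_eq ?_); ring

theorem num_c0 {p x1 x2 : ℝ} (hp0 : 0 < p) (hp1 : p < 1) (hA : AB p x1 x2) :
    x1 ≤ 62 / 100 * x2 := by
  have h1 := hA.g1u
  have h2 := hA.g2l
  unfold G1u at h1
  unfold G2l at h2
  have a1 : -12024 / 10000 + p * (110267 / 100000 + p * (15371 / 100000 + p * (-2965 / 10000))) ≤ 0 := by
    have e0 : 0 ≤ (1 - p) * (110267 / 100000 + 15371 / 100000 * (1 + p)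
        - 2965 / 10000 * (1 + p + p ^ 2)) := by
      apply mul_nonneg (by linarith)
      nlinarith
    have e1 : -12024 / 10000 + p * (110267 / 100000 + p * (15371 / 100000 + p * (-2965 / 10000))) =
      -24252 / 100000 - (1 - p) * (110267 / 100000 + 15371 / 100000 * (1 + p)
        - 2965 / 10000 * (1 + p + p ^ 2)) := by ring
    rw [e1]; linarith
  have a2 : 0 ≤ 182467 / 100000 + p * (-168529 / 100000 + p * (-24175 / 100000 + p * (46211 / 100000))) := by
    have e1 : -5 / 100 ≤ p * (-24175 / 100000 + p * (46211 / 100000)) := by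
      nlinarith [sq_nonneg (p - 1/4)]
    nlinarith
  have b1 : p ^ 5 * (-12024 / 10000 + p * (110267 / 100000 + p * (15371 / 100000 + p * (-2965 / 10000)))) ≤ 0 :=
    mul_nonpos_of_nonneg_of_nonpos (by positivity) a1
  have b2 : 0 ≤ p ^ 6 * (182467 / 100000 + p * (-168529 / 100000 + p * (-24175 / 100000 + p * (46211 / 100000)))) :=
    mul_nonneg (by positivity) a2
  linarith

end Pool.Agent.OptRes
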