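import Pool.Agent.OptRes.T1
import Pool.Agent.OptRes.NumI4

/-!
# MP_1c79f0_an: the `L`-curve through a critical half cell
-/

open MeasureTheory Set Filter Topology

namespace Pool.Agent.OptRes

open T1Aux

theorem crit_psi {l Ψ ρ s : ℝ} (h : Crit l Ψ ρ s) : Ψ / s = psiL l ρ := by
  have hρ0 := h.dom.ρ0
  have hρ1 := h.dom.ρ1
  have h3 : 0 < ρ ^ 3 := by positivity
  have h31 : ρ ^ 3 < 1 := pow_lt_one₀ hρ0.le hρ1 (by norm_num)
  have hT : 0 < Tf ρ := by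
    rw [Tf]
    exact div_pos (by linarith) (by positivity)
  have hI2 : 1 ≤ I2 ρ := (one_le_I1 hρ0 hρ1.le).trans (I1_le_I2 hρ0 hρ1.le)
  have hden : 0 < 1 + Tf ρ * (3 + I2 ρ) := by
    have := mul_pos hT (show 0 < 3 + I2 ρ by linarith)
    linarith
  rw [psiL, eq_div_iff hden.ne']
  have hL := h.eqL
  have hR := h.eqR
  have hTq : Tf ρ * (2 * ρ ^ 3) = qq ρ := by
    rw [Tf, qq]
    field_simp
  set C := (Ψ + l) * ((1 - s) * (3 + kw ρ s)) / cc ρ s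
      - (Ψ + l - 1) * s ^ 2 * (3 * s + (1 - s) * k1 ρ s) / DD ρ s with hC
  linear_combination (-(Tf ρ)) * hL + hR - C * hTq

theorem crit_I4 {l Ψ ρ s : ℝ} (h : Crit l Ψ ρ s) :
    l + 3 * (l - 1 + Ψ / s) / (2 * (1 - ρ ^ 3)) ≤
      62 / 100 * (1 - l + Tf ρ * (3 - I1 ρ)) := by
  have hpsi := crit_psi h
  have hρ0 := h.dom.ρ0
  have hρ1 := h.dom.ρ1
  have hs := crit_s h
  have hT1 := crit_T1 h
  have hrho := crit_rho h
  have hs0 := h.dom.s0
  have hs1 := h.dom.s1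
  have hm := h.m_pos
  obtain ⟨p, x1, x2, τ, Den, d⟩ := exists_data h
  have hp0 := d.p0
  have hp1 := d.p1
  have hp6 : p ^ 6 = ρ ^ 3 := by rw [← d.hp]; ring
  have hDen0 := d.Den0
  have hτ0 := d.τ0
  have hτ := d.hτ
  have hDen := d.hDen
  have hx2 := d.x2pos
  have hD : 0 < 1 - 3 * s ^ 2 + 2 * s ^ 3 * p ^ 6 := by
    rw [hp6]; exact h.dom.D
  have hp83 : p ≤ 83 / 100 := by
    by_contra hcon
    push Not at hcon
    have h2 := d.hp
    have h3 : (83 / 100 : ℝ) * (83 / 100) < p * p :=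
      mul_lt_mul'' hcon hcon (by norm_num) (by norm_num)
    rw [pow_two] at h2
    linarith
  have hps : p ^ 2 ≤ 105 / 100 * s := by rw [d.hp]; exact hT1.le
  obtain ⟨n1, n2⟩ := num_I4 hp0 hp83 hs0 hs.le hps hD d.hA τ Den _ _ _ _ _ _ _ hτ hDen rfl rfl rfl
    rfl rfl rfl rfl
  have b := d.P1 h (θ := 105 / 100) (by norm_num) (by nlinarith)
    (1 - 35 / 100 * s * (2 * τ) / (1 - s)) (by norm_num)
  set de := (1 - 35 / 100 * s * (2 * τ) / (1 - s) + s / (1 - s)) * Den - (x2 - 3 * p) * p ^ 6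
    with hde
  set nu := (3 - p * x1 - (1 - 35 / 100 * s * (2 * τ) / (1 - s))) * Den -
    (x2 - 3 * p) * τ * x1 * p with hnu
  set V0 := 62 / 100 * (p ^ 7 + τ * x2) * (τ * x1 * p ^ 2) -
      p ^ 7 * (Den - s * (τ * x1 * p ^ 2) + (1 - s) * (τ * x1 * p ^ 2) / (2 * τ)) with hV0
  set V1 := 62 / 100 * (p ^ 7 + τ * x2) * p ^ 7 +
      p ^ 7 * (Den + s * p ^ 7 + (Den - (1 - s) * p ^ 7) / (2 * τ)) with hV1
  set m := Ψ + l - 1 with hmdef
  have hp7 : 0 < p ^ 7 := by positivity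
  have hnu0 : 0 ≤ nu := le_trans (mul_nonneg hm.le n1.le) b
  have hV1pos : 0 ≤ V1 := by
    have h1 : Den - (1 - s) * p ^ 7 = τ * x2 := by rw [hDen]; ring
    rw [hV1, h1]
    positivity
  have n3 := n2 hnu0
  have hV : 0 < V0 - m * V1 := by
    by_contra hle
    push Not at hle
    have c1 : m * de * V1 ≤ nu * V1 := mul_le_mul_of_nonneg_right b hV1pos
    have c2 : (V0 - m * V1) * de ≤ 0 := mul_nonpos_of_nonpos_of_nonneg hle n1.le
    have c3 : (V0 - m * V1) * de = V0 * de - m * de * V1 := by ring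
    linarith
  -- the identity
  set ψ := Ψ / s with hψ
  have hΨ : Ψ = s * ψ := by rw [hψ]; field_simp
  have hl : l = 1 + m - s * ψ := by rw [hmdef, ← hΨ]; ring
  have e1 : ψ * Den = τ * x1 * p ^ 2 - m * p ^ 7 := d.e1
  have h1r : 1 - ρ ^ 3 = 3 * τ := by rw [← hp6, hτ]; ring
  have hI2 := d.hI2
  have hTf : Tf ρ * p ^ 6 = τ := by
    rw [Tf, h1r, hp6]
    field_simp
  have hn : (1 - l + Tf ρ * (3 - I1 ρ)) * p ^ 7 = ψ * (p ^ 7 + τ * x2) := by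
    have h31 : ρ ^ 3 < 1 := pow_lt_one₀ hρ0.le hρ1 (by norm_num)
    have hT : 0 < Tf ρ := by
      rw [Tf]
      exact div_pos (by linarith) (by positivity)
    have hI2' : 1 ≤ I2 ρ := (one_le_I1 hρ0 hρ1.le).trans (I1_le_I2 hρ0 hρ1.le)
    have hden : 0 < 1 + Tf ρ * (3 + I2 ρ) := by
      have := mul_pos hT (show 0 < 3 + I2 ρ by linarith)
      linarith
    have hq : 1 - l + Tf ρ * (3 - I1 ρ) = ψ * (1 + Tf ρ * (3 + I2 ρ)) := by
      rw [hpsi, psiL, div_mul_cancel₀ _ hden.ne']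
    rw [hq]
    have hx : (3 + I2 ρ) * p = x2 := by linarith
    calc ψ * (1 + Tf ρ * (3 + I2 ρ)) * p ^ 7 =
        ψ * (p ^ 7 + (Tf ρ * p ^ 6) * ((3 + I2 ρ) * p)) := by ring
      _ = _ := by rw [hTf, hx]
  have hpos : 0 < p ^ 7 * Den := mul_pos hp7 hDen0
  rw [← sub_nonneg]
  refine nonneg_of_mul_nonneg_left ?_ hpos
  have hid : (62 / 100 * (1 - l + Tf ρ * (3 - I1 ρ)) - (l + 3 * (l - 1 + ψ) / (2 * (1 - ρ ^ 3)))) *
      (p ^ 7 * Den) = V0 - m * V1 := by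
    have e2 : 3 * (l - 1 + ψ) / (2 * (1 - ρ ^ 3)) = (m + (1 - s) * ψ) / (2 * τ) := by
      rw [h1r, hl]
      field_simp
      ring
    rw [e2]
    have e3 : (62 / 100 * (1 - l + Tf ρ * (3 - I1 ρ)) - (l + (m + (1 - s) * ψ) / (2 * τ))) *
        (p ^ 7 * Den) = 62 / 100 * ((1 - l + Tf ρ * (3 - I1 ρ)) * p ^ 7) * Den -
          p ^ 7 * (l * Den + (m * Den + (1 - s) * (ψ * Den)) / (2 * τ)) := by
      field_simp
    rw [e3, hn, hl]
    have e4 : 62 / 100 * (ψ * (p ^ 7 + τ * x2)) * Den = 62 / 100 * (p ^ 7 + τ * x2) * (ψ * Den) := by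
      ring
    have e5 : (1 + m - s * ψ) * Den = (1 + m) * Den - s * (ψ * Den) := by ring
    rw [e4, e5, e1, hV0, hV1]
    field_simp
    ring
  rw [hid]
  exact hV.le

end Pool.Agent.OptRes
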