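import Pool.Agent.OptRes.ExB
import Pool.Agent.OptRes.Crit
import Pool.Agent.OptRes.T1
import Pool.Agent.OptRes.T2a

/-!
# The two excluded cases for the multiplier
-/

open MeasureTheory Set Filter Topology

namespace Pool.Agent.OptRes

/-- the critical half cell at the multiplier `l` -/
theorem crit_at {l : ℝ} (hl : 0 < l) (h0 : 0 < Ps l) (h1 : 1 - l < Ps l) :
    ∃ ρ s, Dom ρ s ∧ Phi l ρ s = Ps l ∧ Crit l (Ps l) ρ s := by
  obtain ⟨ρ, s, hd, hP⟩ := attained hl.le h0 h1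
  refine ⟨ρ, s, hd, hP, crit_of_max hl (Ps_valid hl.le) h0 h1 hd ?_⟩
  rw [F_eq hd, hP]
  ring

theorem crit_psi_le {l Ψ ρ s : ℝ} (h : Crit l Ψ ρ s) : Ψ / s ≤ 62 / 100 * ρ := by
  have hd := h.dom
  have hρ0 := hd.ρ0
  have hp0 : 0 < Real.sqrt ρ := Real.sqrt_pos.2 hρ0
  have hp1 : Real.sqrt ρ < 1 := by
    rw [Real.sqrt_lt' one_pos]; linarith [hd.ρ1]
  have hsq : Real.sqrt ρ ^ 2 = ρ := Real.sq_sqrt hρ0.le
  have hn := num_c0 hp0 hp1 (ab hp0 hp1)
  have hq : 0 < qq ρ := by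
    unfold qq
    have : ρ ^ 3 < 1 := pow_lt_one₀ hρ0.le hd.ρ1 (by norm_num)
    linarith
  set C : ℝ := (Ψ + l) * ((1 - s) * (3 + kw ρ s)) / cc ρ s
      - (Ψ + l - 1) * s ^ 2 * (3 * s + (1 - s) * k1 ρ s) / DD ρ s with hC
  have eL : 3 - I1 ρ - (3 + I2 ρ) * (Ψ / s) = 2 * ρ ^ 3 * C := h.eqL
  have eR : l - 1 + Ψ / s = qq ρ * C := h.eqR
  have hB : 0 < l - 1 + Ψ / s := by
    have h1 : Ψ ≤ Ψ / s := by
      rw [le_div_iff₀ hd.s0]
      nlinarith [h.Ψ_pos, hd.s1]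
    linarith [h.m_pos]
  have hCpos : 0 < C := by
    rw [eR] at hB
    exact (mul_pos_iff_of_pos_left hq).1 hB
  have hY : (3 + I2 ρ) * (Ψ / s) ≤ 3 - I1 ρ := by
    have : 0 < 2 * ρ ^ 3 * C := by positivity
    linarith
  have hI2 : 0 < 3 + I2 ρ := by
    have := le_trans (one_le_I1 hd.ρ0 hd.ρ1.le) (I1_le_I2 hd.ρ0 hd.ρ1.le)
    linarith
  rw [a1, a2, hsq, div_le_iff₀ hp0] at hn
  have h3 : 3 - I1 ρ ≤ 62 / 100 * (3 + I2 ρ) * ρ := by
    calc 3 - I1 ρ ≤ 62 / 100 * ((3 + I2 ρ) * Real.sqrt ρ) * Real.sqrt ρ := hn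
      _ = 62 / 100 * (3 + I2 ρ) * Real.sqrt ρ ^ 2 := by ring
      _ = _ := by rw [hsq]
  have h4 : (3 + I2 ρ) * (Ψ / s) ≤ (3 + I2 ρ) * (62 / 100 * ρ) := by
    calc (3 + I2 ρ) * (Ψ / s) ≤ 3 - I1 ρ := hY
      _ ≤ 62 / 100 * (3 + I2 ρ) * ρ := h3
      _ = _ := by ring
  exact le_of_mul_le_mul_left h4 hI2

private theorem six_sq {s : ℝ} (h0 : 0 < s) (h1 : s < 6125 / 10000) :
    6 * s ^ 2 ≤ 105 / 100 * (1 + 2 * s) := by nlinarith

/-- the minimizer of `Ps l + l m₀` on `[0,3]` is not `3` -/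
theorem not_three {m₀ : ℝ} (h0 : 0 < m₀) (h1 : m₀ < 1)
    (hmin : ∀ l ∈ Icc (0 : ℝ) 3, Ps 3 + 3 * m₀ ≤ Ps l + l * m₀) : False := by
  set l : ℝ := 3 - m₀ / 10 with hl
  have hl2 : 2 ≤ l := by rw [hl]; linarith
  have hl3 : l < 3 := by rw [hl]; linarith
  have hm := hmin l ⟨by linarith, hl3.le⟩
  have hP3 : 0 ≤ Ps 3 := (Ps_valid (by norm_num)).1
  have hpos : 0 < Ps l := by
    have := mul_pos (sub_pos.2 hl3) h0
    linarith
  obtain ⟨ρ, s, hd, hP, hc⟩ := crit_at (by linarith) hpos (by linarith)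
  have hρ0 := hd.ρ0
  have hs0 := hd.s0
  have hs1 := hd.s1
  have hs := crit_s hc
  have hk1 := k1_pos hd
  have hkw := kw_ge hd
  have hkwpos : 0 < kw ρ s := lt_of_lt_of_le (div_pos hs0 (by linarith)) hkw
  have hI1 := I1_lt_three hd.ρ0 hd.ρ1.le
  have hI2 := le_trans (one_le_I1 hd.ρ0 hd.ρ1.le) (I1_le_I2 hd.ρ0 hd.ρ1.le)
  have hden := den_pos hd
  -- the numerator of Phi
  have hnum : Phi l ρ s * (I2 ρ / s + XX ρ s) = I1 ρ + kw ρ s - l * XX ρ s := by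
    unfold Phi tbar mbar
    generalize I2 ρ / s + XX ρ s = D at *
    field_simp
  have hnum0 : 0 < I1 ρ + kw ρ s - l * XX ρ s := by
    rw [← hnum, hP]
    positivity
  have hX : XX ρ s = k1 ρ s + kw ρ s := rfl
  have hX3 : XX ρ s < 3 := by
    rw [hX] at hnum0 ⊢
    have : 2 * (k1 ρ s + kw ρ s) ≤ l * (k1 ρ s + kw ρ s) :=
      mul_le_mul_of_nonneg_right hl2 (by positivity)
    linarith
  -- `mbar ≥ m₀`
  have hmb : m₀ ≤ mbar ρ s := by
    have e1 : Phi 3 ρ s = Ps l - (3 - l) * mbar ρ s := by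
      rw [← hP]; unfold Phi; ring
    have e2 := Phi_le_Ps (l := 3) (by norm_num) hd
    rw [e1] at e2
    have e3 : (3 - l) * m₀ ≤ (3 - l) * mbar ρ s := by linarith
    exact le_of_mul_le_mul_left e3 (by linarith)
  -- `s` is small
  have hq : qq ρ ≤ 2 / 3 := by
    unfold qq
    have : 0 ≤ ρ ^ 3 := by positivity
    linarith
  have hq0 : 0 ≤ qq ρ := by
    unfold qq
    have : ρ ^ 3 < 1 := pow_lt_one₀ hρ0.le hd.ρ1 (by norm_num)
    linarith
  have hk1g := k1_ge hd (θ := 105 / 100) (by norm_num) (six_sq hs0 hs)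
  set x : ℝ := s / (1 - s) with hx
  have hx0 : 0 < x := div_pos hs0 (by linarith)
  have hk1g' : 1 - 7 / 30 * x ≤ k1 ρ s := by
    have e : 105 / 100 * s * qq ρ / (3 * (1 - s)) = 35 / 100 * qq ρ * x := by
      rw [hx]
      have : 1 - s ≠ 0 := by linarith
      field_simp
      ring
    rw [e] at hk1g
    have := mul_le_mul_of_nonneg_right hq hx0.le
    linarith
  have hsx : s ≤ x := by
    rw [hx, le_div_iff₀ (by linarith)]
    have := mul_nonneg hs0.le hs0.le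
    linarith
  have h13 : 13 / 10 * x < 3 * (3 - l) := by
    have e1 : 3 * k1 ρ s + 2 * kw ρ s - I1 ρ < (3 - l) * XX ρ s := by
      rw [hX] at hnum0 ⊢
      linarith
    have e2 : (3 - l) * XX ρ s ≤ (3 - l) * 3 := mul_le_mul_of_nonneg_left hX3.le (by linarith)
    linarith
  have hmb2 : mbar ρ s ≤ 3 * s := by
    rw [mbar, div_le_iff₀ hden]
    have e1 : 1 ≤ s * (I2 ρ / s) := by
      rw [mul_div_cancel₀ _ hs0.ne']
      exact hI2
    have e2 : 0 ≤ s * XX ρ s := by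
      rw [hX]
      positivity
    linarith
  have h3l : 3 - l = m₀ / 10 := by rw [hl]; ring
  rw [h3l] at h13
  linarith

/-- at the minimizer `Ps l₀ > 1 - l₀` -/
theorem not_const {m₀ l₀ : ℝ} (h0 : 0 < m₀) (h1 : m₀ < 1) (hl0 : 0 ≤ l₀) (hl3 : l₀ < 3)
    (hmin : ∀ l ∈ Icc (0 : ℝ) 3, Ps l₀ + l₀ * m₀ ≤ Ps l + l * m₀) : 1 - l₀ < Ps l₀ := by
  by_contra hcon
  have hPs : Ps l₀ = 1 - l₀ := le_antisymm (not_lt.1 hcon) (Ps_valid hl0).2.1
  have hPpos := Ps_pos hl0 hl3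
  have hl1 : l₀ < 1 := by linarith
  set δ : ℝ := (1 - l₀) / 2 with hδ
  have hδ0 : 0 < δ := by rw [hδ]; linarith
  have hδ1 : δ ≤ 1 / 2 := by rw [hδ]; linarith
  set M : ℝ := I2 δ / δ / (1 - m₀) with hM
  set A : ℝ := Real.exp (M / δ) with hA
  have hA0 : 0 < A := Real.exp_pos _
  have hden0 : 0 < 1 + 56 / 100 * A ^ 2 := by positivity
  set η : ℝ := min δ (1 / 10 / (1 + 56 / 100 * A ^ 2)) with hη
  have hη0 : 0 < η := lt_min hδ0 (by positivity)
  have hηδ : η ≤ δ := min_le_left _ _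
  have hηA : η * (1 + 56 / 100 * A ^ 2) ≤ 1 / 10 := by
    rw [← le_div_iff₀ hden0]
    exact min_le_right _ _
  set l : ℝ := l₀ + η with hl
  have hll : l₀ < l := by rw [hl]; linarith
  have hl1' : δ ≤ 1 - l := by rw [hl]; rw [hδ] at hηδ ⊢; linarith
  have hm := hmin l ⟨by linarith, by linarith⟩
  have hant := Ps_antitone hl0 hll.le
  have hgt : 1 - l < Ps l := by
    have : m₀ * (l - l₀) < 1 * (l - l₀) := mul_lt_mul_of_pos_right h1 (by linarith)
    rw [hPs] at hm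
    linarith
  obtain ⟨ρ, s, hd, hP, hc⟩ := crit_at (l := l) (by linarith) (by linarith) hgt
  have hρ0 := hd.ρ0
  have hs0 := hd.s0
  have hs1 := hd.s1
  have hs := crit_s hc
  have hT1 := crit_T1 hc
  have hψ := crit_psi_le hc
  have hk1 := k1_pos hd
  have hk1' := k1_le_one hd
  have hkw := kw_ge hd
  have hkwpos : 0 < kw ρ s := lt_of_lt_of_le (div_pos hs0 (by linarith)) hkw
  have hDD := hd.D
  have hden := den_pos hd
  have hX : XX ρ s = k1 ρ s + kw ρ s := rfl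
  set m : ℝ := Ps l + l - 1 with hmdef
  have hm0 : 0 < m := by rw [hmdef]; linarith
  have hmη : m ≤ η := by rw [hmdef, hl]; linarith
  -- bounds of `mbar`
  have hmb : mbar ρ s ≤ m₀ := by
    have e1 : Phi l₀ ρ s = Ps l + (l - l₀) * mbar ρ s := by
      rw [← hP]; unfold Phi; ring
    have e2 := Phi_le_Ps hl0 hd
    rw [e1] at e2
    have e3 : (l - l₀) * mbar ρ s ≤ (l - l₀) * m₀ := by linarith
    exact le_of_mul_le_mul_left e3 (by linarith)
  -- lower bounds of `s`, `ρ`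
  have hψpos : 0 < Ps l / s := div_pos (by linarith) hs0
  have hPl : δ ≤ Ps l := by linarith
  have hPs2 : Ps l ≤ 651 / 1000 * s ^ 2 := by
    have e1 : Ps l / s ≤ 651 / 1000 * s := by linarith
    rw [div_le_iff₀ hs0] at e1
    calc Ps l ≤ 651 / 1000 * s * s := e1
      _ = 651 / 1000 * s ^ 2 := by ring
  have hδs : δ ≤ s := by
    by_contra hh
    push Not at hh
    have e1 : s ^ 2 ≤ s * δ := by
      calc s ^ 2 = s * s := by ring
        _ ≤ s * δ := mul_le_mul_of_nonneg_left hh.le hs0.le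
    have e2 : s * δ ≤ 1 * δ := mul_le_mul_of_nonneg_right hs1.le hδ0.le
    linarith
  have hδρ : δ ≤ ρ := by
    have e1 : Ps l ≤ 62 / 100 * ρ * s := by
      rwa [div_le_iff₀ hs0] at hψ
    have e2 : ρ * s ≤ ρ * 1 := mul_le_mul_of_nonneg_left hs1.le hρ0.le
    linarith
  -- upper bound of `kw`
  have hkwM : kw ρ s ≤ M := by
    rw [mbar, div_le_iff₀ hden] at hmb
    have e1 : (1 - m₀) * XX ρ s ≤ I2 δ / δ := by
      have e2 : I2 ρ / s ≤ I2 δ / δ := by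
        have e3 : I2 ρ ≤ I2 δ := I2_antitoneOn ⟨hδ0, by linarith⟩ ⟨hρ0, hd.ρ1.le⟩ hδρ
        have e4 := le_trans (one_le_I1 hd.ρ0 hd.ρ1.le) (I1_le_I2 hd.ρ0 hd.ρ1.le)
        exact div_le_div₀ (by linarith) e3 hδ0 hδs
      have e5 : 0 < I2 ρ / s := by
        have e4 := le_trans (one_le_I1 hd.ρ0 hd.ρ1.le) (I1_le_I2 hd.ρ0 hd.ρ1.le)
        positivity
      have e6 : m₀ * (I2 ρ / s) ≤ 1 * (I2 ρ / s) := mul_le_mul_of_nonneg_right h1.le e5.le
      linarith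
    rw [hM, le_div_iff₀ (by linarith)]
    rw [hX] at e1
    have e7 : 0 ≤ (1 - m₀) * k1 ρ s := mul_nonneg (by linarith) hk1.le
    linarith
  -- lower bound of `DD`
  have hlog := kw_log hd
  have hDsq : 0 < Real.sqrt (DD ρ s) := Real.sqrt_pos.2 hDD
  have hAD : 1 ≤ A ^ 2 * DD ρ s := by
    have e0 : 0 ≤ Real.log (1 + 1 / Real.sqrt (DD ρ s)) := by
      apply Real.log_nonneg
      have : 0 < 1 / Real.sqrt (DD ρ s) := by positivity
      linarith
    have e1 : δ * Real.log (1 + 1 / Real.sqrt (DD ρ s)) ≤ M := by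
      refine le_trans ?_ (hlog.trans hkwM)
      exact mul_le_mul_of_nonneg_right hδs e0
    have e2 : Real.log (1 + 1 / Real.sqrt (DD ρ s)) ≤ M / δ := by
      rw [le_div_iff₀ hδ0]; linarith
    have e3 : 1 + 1 / Real.sqrt (DD ρ s) ≤ A := by
      have hp : 0 < 1 + 1 / Real.sqrt (DD ρ s) := by positivity
      rw [hA, ← Real.log_le_iff_le_exp hp]
      exact e2
    have e4 : 1 ≤ A * Real.sqrt (DD ρ s) := by
      have : 1 / Real.sqrt (DD ρ s) ≤ A := by linarith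
      rwa [div_le_iff₀ hDsq] at this
    calc (1 : ℝ) ≤ (A * Real.sqrt (DD ρ s)) ^ 2 := one_le_pow₀ e4
      _ = A ^ 2 * DD ρ s := by rw [mul_pow, Real.sq_sqrt hDD.le]
  -- the equation for `m`
  have hr3 : ρ ^ 3 ≤ 267 / 1000 := by
    have e1 : ρ ≤ 64313 / 100000 := by linarith
    calc ρ ^ 3 ≤ (64313 / 100000 : ℝ) ^ 3 := pow_le_pow_left₀ hρ0.le e1 3
      _ ≤ _ := by norm_num
  have hr0 : 0 < ρ ^ 3 := by positivity
  have hq1 : 488 / 1000 ≤ qq ρ := by unfold qq; linarith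
  have hq2 : qq ρ ≤ 2 / 3 := by unfold qq; linarith
  have hc3 : cc ρ s ≤ 3 := by
    unfold cc
    have : 0 < s * ρ ^ 3 := by positivity
    linarith
  have hc0 : 0 < cc ρ s := by
    unfold cc
    have : s * ρ ^ 3 ≤ 1 * 1 := mul_le_mul hs1.le (by linarith) hr0.le zero_le_one
    linarith
  set N1 : ℝ := (1 - s) * (3 + kw ρ s) with hN1
  set N2 : ℝ := 3 * s + (1 - s) * k1 ρ s with hN2
  have hN1' : 1775 / 1000 ≤ N1 := by
    have e1 : s ≤ (1 - s) * kw ρ s := by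
      rw [div_le_iff₀ (by linarith)] at hkw
      linarith
    rw [hN1]
    linarith
  have hN2' : N2 ≤ 1 + 2 * s := by
    rw [hN2]
    have : (1 - s) * k1 ρ s ≤ (1 - s) * 1 := mul_le_mul_of_nonneg_left hk1' (by linarith)
    linarith
  have hN2'' : 0 < N2 := by
    rw [hN2]
    have : 0 < 1 - s := by linarith
    positivity
  set g1 : ℝ := qq ρ * N1 / cc ρ s with hg1
  set g2 : ℝ := qq ρ * s ^ 2 * N2 / DD ρ s with hg2
  have hg1' : 288 / 1000 ≤ g1 := by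
    rw [hg1, le_div_iff₀ hc0]
    have e1 : 488 / 1000 * (1775 / 1000) ≤ qq ρ * N1 :=
      mul_le_mul hq1 hN1' (by norm_num) (by linarith)
    linarith
  have hg2' : g2 * DD ρ s ≤ 56 / 100 := by
    rw [hg2, div_mul_cancel₀ _ hDD.ne']
    have e1 : s ^ 2 ≤ 3752 / 10000 := by
      calc s ^ 2 ≤ (6125 / 10000 : ℝ) ^ 2 := pow_le_pow_left₀ hs0.le hs.le 2
        _ ≤ _ := by norm_num
    have e2 : N2 ≤ 2225 / 1000 := by linarith
    calc qq ρ * s ^ 2 * N2 ≤ 2 / 3 * (3752 / 10000) * (2225 / 1000) := by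
          apply mul_le_mul _ e2 hN2''.le (by norm_num)
          exact mul_le_mul hq2 e1 (by positivity) (by norm_num)
      _ ≤ _ := by norm_num
  have heq : m * (1 - g1 + g2) = g1 - (1 - s) * (Ps l / s) := by
    have e := hc.eqR
    have e1 : Ps l + l = 1 + m := by rw [hmdef]; ring
    have e2 : Ps l + l - 1 = m := by rw [hmdef]
    rw [e1] at e
    have e3 : 1 + m - 1 = m := by ring
    rw [e3, ← hN1, ← hN2] at e
    have e4 : l - 1 + Ps l / s = m + (1 - s) * (Ps l / s) := by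
      have : s * (Ps l / s) = Ps l := mul_div_cancel₀ _ hs0.ne'
      rw [hmdef]
      linarith
    rw [e4] at e
    have e5 : qq ρ * ((1 + m) * N1 / cc ρ s - m * s ^ 2 * N2 / DD ρ s) =
        (1 + m) * g1 - m * g2 := by
      rw [hg1, hg2]
      ring
    rw [e5] at e
    linarith
  have hψ2 : (1 - s) * (Ps l / s) ≤ 163 / 1000 := by
    have e1 : Ps l / s ≤ 651 / 1000 * s := by linarith
    have e2 : (1 - s) * (Ps l / s) ≤ (1 - s) * (651 / 1000 * s) :=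
      mul_le_mul_of_nonneg_left e1 (by linarith)
    have e3 := sq_nonneg (s - 1 / 2)
    linarith
  have hm12 : 12 / 100 ≤ m * (1 + g2) := by
    have : 0 ≤ m * g1 := by
      have : 0 ≤ g1 := by linarith
      positivity
    linarith
  -- contradiction
  have hfin : 12 / 100 * DD ρ s ≤ m * (DD ρ s + 56 / 100) := by
    have e1 := mul_le_mul_of_nonneg_right hm12 hDD.le
    have e2 := mul_le_mul_of_nonneg_left hg2' hm0.le
    linarith
  have hmA : m * (1 + 56 / 100 * A ^ 2) ≤ 1 / 10 :=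
    le_trans (mul_le_mul_of_nonneg_right hmη hden0.le) hηA
  -- multiply by `A²`
  have hA2 : 0 < A ^ 2 := by positivity
  have hm10 : m ≤ 1 / 10 := by
    have : 0 ≤ m * (56 / 100 * A ^ 2) := by positivity
    linarith
  have e7 : (12 / 100 - m) * (A ^ 2 * DD ρ s) ≤ 56 / 100 * m * A ^ 2 := by
    have := mul_le_mul_of_nonneg_right hfin hA2.le
    linarith
  have e8 : (12 / 100 - m) * 1 ≤ (12 / 100 - m) * (A ^ 2 * DD ρ s) :=
    mul_le_mul_of_nonneg_left hAD (by linarith)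
  linarith

end Pool.Agent.OptRes
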