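import Pool.Agent.OptRes.NumProb

/-!
# Interval arithmetic certificates
-/

namespace Pool.Agent.OptRes

open Ex

namespace NumC

theorem c2a : verify (PC2 0) 22 [bx 0 625 1000, bx 0 105 100] = true := by decide +kernel

theorem c2b : verify (PC2 (qd 62 100)) 22 [bx 0 625 1000, bx 0 105 100] = true := by
  decide +kernel

theorem c3 : verify PC3 22 [bx 0 625 1000, bx 0 105 100] = true := by decide +kernel

end NumC

end Pool.Agent.OptRes
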