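import Pool.Agent.OptRes.Defs
import Pool.Agent.OptRes.Defs2
import Pool.Agent.OptRes.Ivl
import Pool.Agent.OptRes.NumCertA
import Pool.Agent.OptRes.NumCertB
import Pool.Agent.OptRes.NumCertC

/-!
# Transfer of the certificates to real inequalities
-/

set_option linter.unusedSimpArgs false
set_option linter.unusedVariables false

open Set

namespace Pool.Agent.OptRes

open Ex

namespace NumC

/-- the bi-affine function at `w = 0` -/
def zf (E ps g2 g1' g1 o s D G A1 A2 k : ℝ) : ℝ :=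
  (1 - E) * (g2 * (g1 - o * ps * s) - g1' * (D * (1 - o * ps * s) + G)
    - D * (D * (1 - g1) + G) * ps)
  - E * k * (A1 * (D * (1 - o * ps * s) + G) - (g1 - o * ps * s) * A2)

theorem zf_corners {E ps g2 g1' g1 o s D G A1 A2 k E1 P1 : ℝ} (hE0 : 0 ≤ E) (hE1 : E ≤ E1)
    (hp0 : 0 ≤ ps) (hp1 : ps ≤ P1) (hE : 0 < E1) (hP : 0 < P1)
    (h00 : 0 < zf 0 0 g2 g1' g1 o s D G A1 A2 k) (h01 : 0 < zf 0 P1 g2 g1' g1 o s D G A1 A2 k)
    (h10 : 0 < zf E1 0 g2 g1' g1 o s D G A1 A2 k) (h11 : 0 < zf E1 P1 g2 g1' g1 o s D G A1 A2 k) :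
    0 < zf E ps g2 g1' g1 o s D G A1 A2 k := by
  have e : zf E ps g2 g1' g1 o s D G A1 A2 k * (E1 * P1) =
      (E1 - E) * (P1 - ps) * zf 0 0 g2 g1' g1 o s D G A1 A2 k
      + (E1 - E) * ps * zf 0 P1 g2 g1' g1 o s D G A1 A2 k
      + E * (P1 - ps) * zf E1 0 g2 g1' g1 o s D G A1 A2 k
      + E * ps * zf E1 P1 g2 g1' g1 o s D G A1 A2 k := by
    unfold zf; ring
  have hEP := mul_pos hE hP
  have a1 := mul_nonneg (mul_nonneg (sub_nonneg.2 hE1) (sub_nonneg.2 hp1)) h00.le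
  have a2 := mul_nonneg (mul_nonneg (sub_nonneg.2 hE1) hp0) h01.le
  have a3 := mul_nonneg (mul_nonneg hE0 (sub_nonneg.2 hp1)) h10.le
  have a4 := mul_nonneg (mul_nonneg hE0 hp0) h11.le
  obtain ⟨m, hm0, hm⟩ : ∃ m : ℝ, 0 < m ∧ m ≤ zf 0 0 g2 g1' g1 o s D G A1 A2 k ∧
      m ≤ zf 0 P1 g2 g1' g1 o s D G A1 A2 k ∧ m ≤ zf E1 0 g2 g1' g1 o s D G A1 A2 k ∧
      m ≤ zf E1 P1 g2 g1' g1 o s D G A1 A2 k :=
    ⟨min (min (zf 0 0 g2 g1' g1 o s D G A1 A2 k) (zf 0 P1 g2 g1' g1 o s D G A1 A2 k))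
      (min (zf E1 0 g2 g1' g1 o s D G A1 A2 k) (zf E1 P1 g2 g1' g1 o s D G A1 A2 k)),
      lt_min (lt_min h00 h01) (lt_min h10 h11), (min_le_left _ _).trans (min_le_left _ _),
      (min_le_left _ _).trans (min_le_right _ _), (min_le_right _ _).trans (min_le_left _ _),
      (min_le_right _ _).trans (min_le_right _ _)⟩
  have b1 := mul_le_mul_of_nonneg_left hm.1 (mul_nonneg (sub_nonneg.2 hE1) (sub_nonneg.2 hp1))
  have b2 := mul_le_mul_of_nonneg_left hm.2.1 (mul_nonneg (sub_nonneg.2 hE1) hp0)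
  have b3 := mul_le_mul_of_nonneg_left hm.2.2.1 (mul_nonneg hE0 (sub_nonneg.2 hp1))
  have b4 := mul_le_mul_of_nonneg_left hm.2.2.2 (mul_nonneg hE0 hp0)
  have e2 : (E1 - E) * (P1 - ps) * m + (E1 - E) * ps * m + E * (P1 - ps) * m + E * ps * m
      = E1 * P1 * m := by ring
  have h5 : 0 < zf E ps g2 g1' g1 o s D G A1 A2 k * (E1 * P1) := by
    have := mul_pos hEP hm0
    linarith
  exact pos_of_mul_pos_left h5 hEP.le

/-- the real data in the coordinates `s`, `t = ρ / s` -/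
structure Dat (s t r q c D o u G2 g2 g1' A1 A2 : ℝ) : Prop where
  s0 : 0 < s
  s1 : s ≤ 625 / 1000
  t0 : 0 < t
  t1 : t ≤ 105 / 100
  r_eq : r = s * s ^ 2 * (t * t ^ 2)
  q_eq : q = 2 / 3 * (1 - r)
  c_eq : c = 3 - 2 * s * r
  D_eq : D = 1 - 3 * s ^ 2 + 2 * (s * s ^ 2) * r
  D0 : 0 < D
  o_eq : o = 1 - s
  u0 : 0 ≤ u
  u1 : u ≤ 35 / 100 * s * q
  G2_eq : G2 = q * s ^ 2 * (1 + 2 * s - u)
  g2_eq : g2 = (2 * s * (q + r) * D + 6 * q * (s * s ^ 2)) * (1 + 2 * s - u)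
    + q * s * D * (1 + s - (3 - 2 * s) / c) + s * D * (1 - q * (1 - 2 * s) / o) * u
  g1'_eq : g1' = 2 * s ^ 2 * (t * t ^ 2) / c * (1 - 2 * s * q / c) * (3 - 2 * s) * D
    + q / c * (s * (1 + 2 * s - u) - (2 - s) / o * D)
  A1_eq : A1 = (2 * (1 - 3 * s * q / c) * (3 - 2 * s) * D + q * (s * s ^ 2) * (1 + 2 * s - u)) / c
  A2_eq : A2 = s ^ 2 * (2 * (D + 3 * q * (s * s ^ 2)) * (1 + 2 * s - u)
    - q * s * (3 - 2 * s) / c * D + u * D)

theorem corner {ES PS : Ex} {E P : ℝ} (hES : ∀ x : ℕ → ℝ, ES.ev x = E)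
    (hPS : ∀ x : ℕ → ℝ, PS.ev x = P)
    (hv : verify (PC1 ES PS) 22 [bx 0 625 1000, bx 0 105 100] = true)
    {s t r q c D o u G2 g2 g1' A1 A2 : ℝ} (h : Dat s t r q c D o u G2 g2 g1' A1 A2) :
    0 < zf E (62 / 100 * P * t) g2 g1' (q * (3 - 2 * s) / c) o s D G2 A1 A2
      (s ^ 2 * (t * t ^ 2)) := by
  obtain ⟨A, hA⟩ : ∃ A, A = q * (3 - 2 * s) / c - o * (62 / 100 * P * t) * s := ⟨_, rfl⟩
  obtain ⟨GD, hGD⟩ : ∃ GD, GD = D * (1 - q * (3 - 2 * s) / c) + G2 := ⟨_, rfl⟩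
  obtain ⟨H, hH⟩ : ∃ H, H = D * (1 - o * (62 / 100 * P * t) * s) + G2 := ⟨_, rfl⟩
  obtain ⟨II, hII⟩ : ∃ II, II = g2 * A - g1' * H - D * GD * (62 / 100 * P * t) := ⟨_, rfl⟩
  obtain ⟨Y, hY⟩ : ∃ Y, Y = A1 * H - A * A2 := ⟨_, rfl⟩
  have key := verify_sound _ 22 _ hv
    (vec [s, t, s ^ 2, s * s ^ 2, t * t ^ 2, r, q, c, D, o, 3 - 2 * s, u, 1 + 2 * s - u,
      q * (3 - 2 * s) / c, 62 / 100 * P * t, G2, g2, g1', A, GD, H, II, A1, A2, Y])
    (fun i => by
      match i with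
      | 0 => exact mem_bx (by norm_num) (by norm_num; exact h.s0.le) (by norm_num; linarith [h.s1])
      | 1 => exact mem_bx (by norm_num) (by norm_num; exact h.t0.le) (by norm_num; linarith [h.t1])
      | (n+2) => trivial)
    (by
      simp only [PC1, DerOK, List.length, xs, xt, qd, ev_add, ev_sub, ev_mul, ev_div, ev_sq, ev_v,
        ev_q, ev_zero, ev_one, ev_two, ev_three, ev_six, vec, List.mem_cons, List.not_mem_nil,
        or_false, forall_eq_or_imp, forall_eq, and_true, hES, hPS]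
      push_cast
      refine ⟨trivial, trivial, trivial, h.r_eq, h.q_eq, h.c_eq,
        ⟨⟨h.D_eq.ge, h.D0.le⟩, h.D_eq.le⟩, h.o_eq, trivial, ⟨h.u0, ?_⟩, trivial, trivial, rfl,
        h.G2_eq, h.g2_eq, ?_, ?_, hGD, ?_, hII, h.A1_eq, h.A2_eq, hY⟩
      · exact h.u1
      · rw [h.g1'_eq]
      · rw [hA]
      · rw [hH])
    (by
      simp only [PC1, ev_v, vec, List.mem_cons, List.not_mem_nil, or_false,
        forall_eq_or_imp, forall_eq]
      exact h.D0.le)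
  simp only [PC1, xs, xt, qd, ev_add, ev_sub, ev_mul, ev_div, ev_sq, ev_v, ev_q, ev_zero, ev_one,
    ev_two, ev_three, vec, List.mem_cons, List.not_mem_nil, or_false, forall_eq_or_imp,
    forall_eq, hES, hPS] at key
  refine lt_of_lt_of_eq key ?_
  unfold zf
  rw [hII, hY, hA, hGD, hH]

/-- the increments in `w` are nonnegative, endpoint version -/
theorem incr_end {ES : Ex} {E : ℝ} (hES : ∀ x : ℕ → ℝ, ES.ev x = E)
    (hv : verify (PC2 ES) 22 [bx 0 625 1000, bx 0 105 100] = true)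
    {s t r q c D o u G2 g2 g1' A1 A2 ps Dw : ℝ} (h : Dat s t r q c D o u G2 g2 g1' A1 A2)
    (hp0 : 0 ≤ ps) (hp1 : ps ≤ 62 / 100 * t) (hw0 : 0 ≤ Dw) (hw1 : Dw ≤ 2165 / 10000 * (1 + D)) :
    0 < (1 - E) * (s * (g2 * (q / c) + q / c * ps * D ^ 2
        - q / c * s * D * (q * (3 - 2 * s) / c - o * ps * s) - (q / c) ^ 2 * s * Dw)
        - 2 * (s * s ^ 2) * (t * t ^ 2) / c * (1 - 2 * s * (q / c)) * D * (D * (1 - o * ps * s) + G2)
        + (1 - q * (1 - 2 * s) / o) * D * (D * (1 - o * ps * s) + G2) / c)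
      - r * E * ((1 - 6 * s * (q / c)) * D * (D * (1 - o * ps * s) + G2) / c - q / c * A2
        + s * s ^ 2 * (q / c) * D * (q * (3 - 2 * s) / c - o * ps * s)
        + (q / c) ^ 2 * (s * s ^ 2) * Dw) := by
  have key := verify_sound _ 22 _ hv
    (vec [s, t, s ^ 2, s * s ^ 2, t * t ^ 2, r, q, c, D, o, 3 - 2 * s, u, 1 + 2 * s - u,
      q * (3 - 2 * s) / c, ps, G2, g2, q * (3 - 2 * s) / c - o * ps * s,
      D * (1 - o * ps * s) + G2, A2, Dw, q / c,
      s * (g2 * (q / c) + q / c * ps * D ^ 2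
        - q / c * s * D * (q * (3 - 2 * s) / c - o * ps * s) - (q / c) ^ 2 * s * Dw)
        - 2 * (s * s ^ 2) * (t * t ^ 2) / c * (1 - 2 * s * (q / c)) * D * (D * (1 - o * ps * s) + G2)
        + (1 - q * (1 - 2 * s) / o) * D * (D * (1 - o * ps * s) + G2) / c,
      (1 - 6 * s * (q / c)) * D * (D * (1 - o * ps * s) + G2) / c - q / c * A2
        + s * s ^ 2 * (q / c) * D * (q * (3 - 2 * s) / c - o * ps * s)
        + (q / c) ^ 2 * (s * s ^ 2) * Dw])
    (fun i => by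
      match i with
      | 0 => exact mem_bx (by norm_num) (by norm_num; exact h.s0.le) (by norm_num; linarith [h.s1])
      | 1 => exact mem_bx (by norm_num) (by norm_num; exact h.t0.le) (by norm_num; linarith [h.t1])
      | (n+2) => trivial)
    (by
      simp only [PC2, DerOK, List.length, xs, xt, qd, ev_add, ev_sub, ev_mul, ev_div, ev_sq, ev_v,
        ev_q, ev_zero, ev_one, ev_two, ev_three, ev_six, vec, List.mem_cons, List.not_mem_nil,
        or_false, forall_eq_or_imp, forall_eq, and_true]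
      push_cast
      refine ⟨trivial, trivial, trivial, h.r_eq, h.q_eq, h.c_eq,
        ⟨⟨h.D_eq.ge, h.D0.le⟩, h.D_eq.le⟩, h.o_eq, trivial, ⟨h.u0, h.u1⟩, trivial, trivial,
        ⟨hp0, hp1⟩, h.G2_eq, h.g2_eq, trivial, trivial, h.A2_eq, hw0, hw1⟩)
    (by
      simp only [PC2, ev_v, vec, List.mem_cons, List.not_mem_nil, or_false,
        forall_eq_or_imp, forall_eq]
      exact h.D0.le)
  simp only [PC2, xs, xt, qd, ev_add, ev_sub, ev_mul, ev_div, ev_sq, ev_v, ev_q, ev_zero, ev_one,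
    ev_two, ev_three, vec, List.mem_cons, List.not_mem_nil, or_false, forall_eq_or_imp,
    forall_eq, hES] at key
  exact key

theorem G_end {s t r q c D o u G2 g2 g1' A1 A2 Dw : ℝ} (h : Dat s t r q c D o u G2 g2 g1' A1 A2)
    (hw0 : 0 ≤ Dw) (hw1 : Dw ≤ 2165 / 10000 * (1 + D)) :
    0 < D * (1 - q * (3 - 2 * s) / c) - q / c * Dw + q * s ^ 2 * (1 + 2 * s - u) := by
  have key := verify_sound _ 22 _ c3
    (vec [s, t, s ^ 2, s * s ^ 2, t * t ^ 2, r, q, c, D, 3 - 2 * s, u, 1 + 2 * s - u, Dw])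
    (fun i => by
      match i with
      | 0 => exact mem_bx (by norm_num) (by norm_num; exact h.s0.le) (by norm_num; linarith [h.s1])
      | 1 => exact mem_bx (by norm_num) (by norm_num; exact h.t0.le) (by norm_num; linarith [h.t1])
      | (n+2) => trivial)
    (by
      simp only [PC3, DerOK, List.length, xs, xt, qd, ev_add, ev_sub, ev_mul, ev_div, ev_sq, ev_v,
        ev_q, ev_zero, ev_one, ev_two, ev_three, ev_six, vec, List.mem_cons, List.not_mem_nil,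
        or_false, forall_eq_or_imp, forall_eq, and_true]
      push_cast
      refine ⟨trivial, trivial, trivial, h.r_eq, h.q_eq, h.c_eq,
        ⟨⟨h.D_eq.ge, h.D0.le⟩, h.D_eq.le⟩, trivial, ⟨h.u0, h.u1⟩, trivial, hw0, hw1⟩)
    (by
      simp only [PC3, ev_v, vec, List.mem_cons, List.not_mem_nil, or_false,
        forall_eq_or_imp, forall_eq]
      exact h.D0.le)
  simp only [PC3, xs, xt, qd, ev_add, ev_sub, ev_mul, ev_div, ev_sq, ev_v, ev_q, ev_zero, ev_one,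
    ev_two, ev_three, vec, List.mem_cons, List.not_mem_nil, or_false, forall_eq_or_imp,
    forall_eq] at key
  exact key

end NumC

end Pool.Agent.OptRes
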