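import Pool.Agent.OptRes.Defs
import Pool.Agent.OptRes.Defs2
import Pool.Agent.OptRes.NumCert

/-!
# The uniqueness inequality
-/

set_option linter.unusedSimpArgs false
set_option linter.unusedVariables false

open Set

namespace Pool.Agent.OptRes

open Ex

namespace NumC

theorem cc_pos {ρ s w u ψ : ℝ} (h : CData ρ s w u ψ) : 0 < cc ρ s := by
  have h1 := h.s1
  have h2 := h.ht
  have h3 := h.ρ0
  have h4 : ρ ≤ 1 := by linarith
  have h5 : ρ ^ 3 ≤ 1 := pow_le_one₀ h3.le h4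
  have h6 : 0 < ρ ^ 3 := by positivity
  unfold cc
  nlinarith [h.s0]

theorem dat {ρ s w u ψ : ℝ} (h : CData ρ s w u ψ) :
    Dat s (ρ / s) (ρ ^ 3) (qq ρ) (cc ρ s) (DD ρ s) (1 - s) u
      (qq ρ * s ^ 2 * (1 + 2 * s - u))
      ((2 * s * (qq ρ + ρ ^ 3) * DD ρ s + 6 * qq ρ * (s * s ^ 2)) * (1 + 2 * s - u)
    + qq ρ * s * DD ρ s * (1 + s - (3 - 2 * s) / cc ρ s)
    + s * DD ρ s * (1 - qq ρ * (1 - 2 * s) / (1 - s)) * u)
      (2 * s ^ 2 * ((ρ / s) * (ρ / s) ^ 2) / cc ρ s * (1 - 2 * s * qq ρ / cc ρ s) * (3 - 2 * s)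
        * DD ρ s + qq ρ / cc ρ s * (s * (1 + 2 * s - u) - (2 - s) / (1 - s) * DD ρ s))
      ((2 * (1 - 3 * s * qq ρ / cc ρ s) * (3 - 2 * s) * DD ρ s
        + qq ρ * (s * s ^ 2) * (1 + 2 * s - u)) / cc ρ s)
      (s ^ 2 * (2 * (DD ρ s + 3 * qq ρ * (s * s ^ 2)) * (1 + 2 * s - u)
    - qq ρ * s * (3 - 2 * s) / cc ρ s * DD ρ s + u * DD ρ s)) where
  s0 := h.s0
  s1 := h.s1
  t0 := div_pos h.ρ0 h.s0
  t1 := by rw [div_le_iff₀ h.s0]; exact h.ht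
  r_eq := by have := h.s0.ne'; field_simp
  q_eq := rfl
  c_eq := rfl
  D_eq := by unfold DD; ring
  D0 := h.D
  o_eq := rfl
  u0 := h.u0
  u1 := h.u1
  G2_eq := rfl
  g2_eq := rfl
  g1'_eq := rfl
  A1_eq := rfl
  A2_eq := rfl

end NumC

open NumC

theorem num_G {ρ s w u ψ : ℝ} (h : CData ρ s w u ψ) : 0 < 1 - fg1 ρ s w + fg2 ρ s u := by
  have hd := dat h
  have hc := cc_pos h
  have hD := h.D
  have key := G_end hd (mul_nonneg hD.le h.w0) h.w1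
  have e : (1 - fg1 ρ s w + fg2 ρ s u) * DD ρ s =
      DD ρ s * (1 - qq ρ * (3 - 2 * s) / cc ρ s) - qq ρ / cc ρ s * (DD ρ s * w)
        + qq ρ * s ^ 2 * (1 + 2 * s - u) := by
    unfold fg1 fg2
    field_simp
    ring
  rw [← e] at key
  exact pos_of_mul_pos_left key hD.le

theorem num_C {ρ s w u ψ E : ℝ} (h : CData ρ s w u ψ) (hE0 : 0 ≤ E) (hE1 : E ≤ 62 / 100) :
    0 < (1 - E) * s * (fg2s ρ s w u * (fg1 ρ s w - (1 - s) * ψ)
        - fg1s ρ s w u * (1 + fg2 ρ s u - (1 - s) * ψ) - (1 - fg1 ρ s w + fg2 ρ s u) * (ψ / s))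
      - E * ρ ^ 3 * (fA1 ρ s w u * (1 + fg2 ρ s u - (1 - s) * ψ)
        - (fg1 ρ s w - (1 - s) * ψ) * fA2 ρ s w u) := by
  have hd := dat h
  have hc := cc_pos h
  have hD := h.D
  have hs := h.s0
  have ho : 0 < 1 - s := by linarith [h.s1]
  have ht : 0 < ρ / s := div_pos h.ρ0 h.s0
  have hq : 0 < qq ρ := by
    have h1 := h.s1
    have h2 := h.ht
    have h3 := h.ρ0
    have h4 : ρ < 1 := by linarith
    have h5 : ρ ^ 3 < 1 := pow_lt_one₀ h3.le h4 (by norm_num)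
    unfold qq; linarith
  obtain ⟨ps, hps⟩ : ∃ ps, ps = ψ / s := ⟨_, rfl⟩
  have hψ : ψ = ps * s := by rw [hps]; field_simp
  have hps0 : 0 ≤ ps := by rw [hps]; exact div_nonneg h.ψ0 hs.le
  have hps1 : ps ≤ 62 / 100 * (ρ / s) := by
    rw [hps, ← mul_div_assoc]; exact div_le_div_of_nonneg_right h.ψ1 hs.le
  have c00 := corner (ES := 0) (PS := 0) ev_zero ev_zero c1a hd
  have c01 := corner (ES := 0) (PS := 1) ev_zero ev_one c1b hd
  have c10 := corner (ES := qd 62 100) (PS := 0) (E := 62 / 100)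
    (fun x => by simp only [qd, ev_q]; push_cast; ring) ev_zero c1c hd
  have c11 := corner (ES := qd 62 100) (PS := 1) (E := 62 / 100)
    (fun x => by simp only [qd, ev_q]; push_cast; ring) ev_one c1d hd
  have e0 : 62 / 100 * 0 * (ρ / s) = 0 := by ring
  have e1 : 62 / 100 * 1 * (ρ / s) = 62 / 100 * (ρ / s) := by ring
  rw [e0] at c00 c10
  rw [e1] at c01 c11
  have main := zf_corners hE0 hE1 hps0 hps1 (by norm_num) (by positivity) c00 c01 c10 c11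
  have i0 := incr_end (ES := 0) ev_zero c2a hd hps0 hps1 (mul_nonneg hD.le h.w0) h.w1
  have i1 := incr_end (ES := qd 62 100) (E := 62 / 100)
    (fun x => by simp only [qd, ev_q]; push_cast; ring) c2b hd hps0 hps1
    (mul_nonneg hD.le h.w0) h.w1
  -- abbreviations
  obtain ⟨q, hqd⟩ : ∃ q, q = qq ρ := ⟨_, rfl⟩
  obtain ⟨c, hcd⟩ : ∃ c, c = cc ρ s := ⟨_, rfl⟩
  obtain ⟨D, hDd⟩ : ∃ D, D = DD ρ s := ⟨_, rfl⟩
  obtain ⟨r, hrd⟩ : ∃ r, r = ρ ^ 3 := ⟨_, rfl⟩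
  obtain ⟨t, htd⟩ : ∃ t, t = ρ / s := ⟨_, rfl⟩
  obtain ⟨o, hod⟩ : ∃ o, o = 1 - s := ⟨_, rfl⟩
  have hrt : r = s * s ^ 2 * (t * t ^ 2) := by
    rw [hrd, htd]; have := hs.ne'; field_simp
  have f1 : fg1 ρ s w = q * (3 - 2 * s) / c + q / c * w := by
    unfold fg1; rw [← hqd, ← hcd]; ring
  have f2 : D * fg2 ρ s u = q * s ^ 2 * (1 + 2 * s - u) := by
    unfold fg2; rw [← hqd, ← hDd]; rw [← hDd] at hD; field_simp
  rw [← hqd] at hq
  rw [← hcd] at hc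
  rw [← hDd] at hD
  rw [← hod] at ho
  have hq' := hq.ne'
  have hc' := hc.ne'
  have hD' := hD.ne'
  have ho' := ho.ne'
  have hs' := hs.ne'
  have f3 : D ^ 2 * fg2s ρ s w u = (2 * s * (q + r) * D + 6 * q * (s * s ^ 2)) * (1 + 2 * s - u)
    + q * s * D * (1 + s - (3 - 2 * s) / c) + s * D * (1 - q * (1 - 2 * s) / o) * u
      - q / c * s * D * w := by
    unfold fg2s fβ; rw [← hqd, ← hcd, ← hDd, ← hrd, ← hod]
    field_simp
    ring
  have f4 : D * fg1s ρ s w u = 2 * s ^ 2 * (t * t ^ 2) / c * (1 - 2 * s * q / c) * (3 - 2 * s) * D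
    + q / c * (s * (1 + 2 * s - u) - (2 - s) / o * D)
      + w * (2 * s ^ 2 * (t * t ^ 2) / c * (1 - 2 * s * (q / c)) * D
        - 1 / (s * c) * (1 - q * (1 - 2 * s) / o) * D) := by
    unfold fg1s fβ; rw [← hqd, ← hcd, ← hDd, ← hrd, ← hod, hrt]
    field_simp
    ring
  have f5 : D * fA1 ρ s w u = (2 * (1 - 3 * s * q / c) * (3 - 2 * s) * D
        + q * (s * s ^ 2) * (1 + 2 * s - u)) / c + w * (1 / c * (1 - 6 * s * (q / c)) * D) := by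
    unfold fA1; rw [← hqd, ← hcd, ← hDd]
    field_simp
    ring
  have f6 : D ^ 2 * fA2 ρ s w u = s ^ 2 * (2 * (D + 3 * q * (s * s ^ 2)) * (1 + 2 * s - u)
    - q * s * (3 - 2 * s) / c * D + u * D) - s ^ 2 * (q / c * s) * D * w := by
    unfold fA2; rw [← hqd, ← hcd, ← hDd]
    field_simp
    ring
  rw [← hqd, ← hcd, ← hDd, ← hod, ← htd] at main i0 i1
  rw [← hrd] at main i0 i1
  obtain ⟨g2, hg2⟩ : ∃ g2, g2 = (2 * s * (q + r) * D + 6 * q * (s * s ^ 2)) * (1 + 2 * s - u)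
    + q * s * D * (1 + s - (3 - 2 * s) / c) + s * D * (1 - q * (1 - 2 * s) / o) * u := ⟨_, rfl⟩
  obtain ⟨g1', hg1'⟩ : ∃ g1', g1' = 2 * s ^ 2 * (t * t ^ 2) / c * (1 - 2 * s * q / c) * (3 - 2 * s) * D
    + q / c * (s * (1 + 2 * s - u) - (2 - s) / o * D) := ⟨_, rfl⟩
  obtain ⟨A1, hA1⟩ : ∃ A1, A1 = (2 * (1 - 3 * s * q / c) * (3 - 2 * s) * D
        + q * (s * s ^ 2) * (1 + 2 * s - u)) / c := ⟨_, rfl⟩
  obtain ⟨A2, hA2⟩ : ∃ A2, A2 = s ^ 2 * (2 * (D + 3 * q * (s * s ^ 2)) * (1 + 2 * s - u)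
    - q * s * (3 - 2 * s) / c * D + u * D) := ⟨_, rfl⟩
  obtain ⟨G2, hG2⟩ : ∃ G2, G2 = q * s ^ 2 * (1 + 2 * s - u) := ⟨_, rfl⟩
  rw [← hg2] at f3 main i0 i1
  rw [← hg1'] at f4 main
  rw [← hA1] at f5 main
  rw [← hA2] at f6 main i0 i1
  rw [← hG2] at f2 main i0 i1
  -- the increment
  have incr : 0 ≤ (1 - E) * (s * (g2 * (q / c) + q / c * ps * D ^ 2
        - q / c * s * D * (q * (3 - 2 * s) / c - o * ps * s) - (q / c) ^ 2 * s * (D * w))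
        - 2 * (s * s ^ 2) * (t * t ^ 2) / c * (1 - 2 * s * (q / c)) * D * (D * (1 - o * ps * s) + G2)
        + (1 - q * (1 - 2 * s) / o) * D * (D * (1 - o * ps * s) + G2) / c)
      - r * E * ((1 - 6 * s * (q / c)) * D * (D * (1 - o * ps * s) + G2) / c - q / c * A2
        + s * s ^ 2 * (q / c) * D * (q * (3 - 2 * s) / c - o * ps * s)
        + (q / c) ^ 2 * (s * s ^ 2) * (D * w)) := by
    obtain ⟨t1, ht1⟩ : ∃ t1, t1 = s * (g2 * (q / c) + q / c * ps * D ^ 2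
        - q / c * s * D * (q * (3 - 2 * s) / c - o * ps * s) - (q / c) ^ 2 * s * (D * w))
        - 2 * (s * s ^ 2) * (t * t ^ 2) / c * (1 - 2 * s * (q / c)) * D * (D * (1 - o * ps * s) + G2)
        + (1 - q * (1 - 2 * s) / o) * D * (D * (1 - o * ps * s) + G2) / c := ⟨_, rfl⟩
    obtain ⟨t2, ht2⟩ : ∃ t2, t2 = (1 - 6 * s * (q / c)) * D * (D * (1 - o * ps * s) + G2) / c
        - q / c * A2 + s * s ^ 2 * (q / c) * D * (q * (3 - 2 * s) / c - o * ps * s)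
        + (q / c) ^ 2 * (s * s ^ 2) * (D * w) := ⟨_, rfl⟩
    rw [← ht1, ← ht2] at i0 i1 ⊢
    have e : ((1 - E) * t1 - r * E * t2) * (62 / 100) =
        (62 / 100 - E) * ((1 - 0) * t1 - r * 0 * t2) +
        E * ((1 - 62 / 100) * t1 - r * (62 / 100) * t2) := by ring
    have e2 : 0 ≤ ((1 - E) * t1 - r * E * t2) * (62 / 100) := by
      rw [e]
      exact add_nonneg (mul_nonneg (by linarith) i0.le) (mul_nonneg hE0 i1.le)
    exact nonneg_of_mul_nonneg_left e2 (by norm_num)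
  have hD2 : 0 < D ^ 2 := by positivity
  have tot := add_pos_of_pos_of_nonneg (mul_pos hs main) (mul_nonneg h.w0 incr)
  refine pos_of_mul_pos_left (b := D ^ 2) ?_ hD2.le
  refine lt_of_lt_of_eq tot ?_
  -- rewrite everything through f1..f6
  have g : ((1 - E) * s * (fg2s ρ s w u * (fg1 ρ s w - (1 - s) * ψ)
        - fg1s ρ s w u * (1 + fg2 ρ s u - (1 - s) * ψ) - (1 - fg1 ρ s w + fg2 ρ s u) * (ψ / s))
      - E * ρ ^ 3 * (fA1 ρ s w u * (1 + fg2 ρ s u - (1 - s) * ψ)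
        - (fg1 ρ s w - (1 - s) * ψ) * fA2 ρ s w u)) * D ^ 2 =
      (1 - E) * s * ((D ^ 2 * fg2s ρ s w u) * (fg1 ρ s w - o * ψ)
        - (D * fg1s ρ s w u) * (D * (1 - o * ψ) + D * fg2 ρ s u)
        - D * (D * (1 - fg1 ρ s w) + D * fg2 ρ s u) * ps)
      - E * r * ((D * fA1 ρ s w u) * (D * (1 - o * ψ) + D * fg2 ρ s u)
        - (fg1 ρ s w - o * ψ) * (D ^ 2 * fA2 ρ s w u)) := by
    rw [hrd, hod, hps]; ring
  rw [g, f1, f2, f3, f4, f5, f6, hψ]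
  unfold zf
  rw [hrt]
  have hcs : s * (1 / (s * c)) = 1 / c := by field_simp
  linear_combination (-(1 - E) * w * (1 - q * (1 - 2 * s) / o) * D * (D * (1 - o * (ps * s)) + G2)) * hcs

end Pool.Agent.OptRes
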