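import Pool.Agent.OptRes.Ione
import Pool.Agent.OptRes.Alpha
import Pool.Agent.OptRes.NumI4
import Pool.Agent.OptRes.T1
import Pool.Agent.OptRes.T2a

/-!
# The `L`-curve between two critical points (module T2b)
-/

open MeasureTheory Set Filter Topology

namespace Pool.Agent.OptRes

private theorem T2b_cube_lt {ρ : ℝ} (h0 : 0 < ρ) (h1 : ρ < 1) : 0 < ρ ^ 3 ∧ ρ ^ 3 < 1 :=
  ⟨by positivity, pow_lt_one₀ h0.le h1 (by norm_num)⟩

private theorem T2b_Tf_pos {ρ : ℝ} (h0 : 0 < ρ) (h1 : ρ < 1) : 0 < Tf ρ := by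
  obtain ⟨h2, h3⟩ := T2b_cube_lt h0 h1
  unfold Tf
  have : 0 < 1 - ρ ^ 3 := by linarith
  positivity

private theorem T2b_hasDerivAt_Tf {ρ : ℝ} (h0 : 0 < ρ) : HasDerivAt Tf (-(1 / ρ ^ 4)) ρ := by
  have h1 : HasDerivAt (fun ρ : ℝ => 1 - ρ ^ 3) (-(3 * ρ ^ 2)) ρ := by
    have := ((hasDerivAt_id ρ).pow 3).const_sub 1
    simpa using this
  have h2 : HasDerivAt (fun ρ : ℝ => 3 * ρ ^ 3) (3 * (3 * ρ ^ 2)) ρ := by
    have := ((hasDerivAt_id ρ).pow 3).const_mul 3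
    simpa using this
  have h3 := h1.div h2 (by positivity)
  have h4 : (fun ρ : ℝ => 1 - ρ ^ 3) / (fun ρ : ℝ => 3 * ρ ^ 3) = Tf := by
    funext x; rfl
  rw [h4] at h3
  refine h3.congr_deriv ?_
  have hρ : ρ ≠ 0 := h0.ne'
  field_simp
  ring

/-- the derivative of `x = T (3 - I1)` -/
theorem T2b_hasDerivAt_x {ρ : ℝ} (h0 : 0 < ρ) (h1 : ρ < 1) :
    HasDerivAt (fun ρ => Tf ρ * (3 - I1 ρ))
      (-((5 / 2 * (Tf ρ * (3 - I1 ρ)) + (5 - I1 ρ) / 2) / ρ)) ρ := by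
  have h := (T2b_hasDerivAt_Tf h0).mul ((hasDerivAt_I1 h0 h1).const_sub 3)
  obtain ⟨h2, h3⟩ := T2b_cube_lt h0 h1
  have h4 : (1 : ℝ) - ρ ^ 3 ≠ 0 := by linarith
  refine h.congr_deriv ?_
  unfold Tf qq
  field_simp
  ring

/-- the derivative of `z = T (3 + I2)` -/
theorem T2b_hasDerivAt_z {ρ : ℝ} (h0 : 0 < ρ) (h1 : ρ < 1) :
    HasDerivAt (fun ρ => Tf ρ * (3 + I2 ρ))
      (-((7 / 2 * (Tf ρ * (3 + I2 ρ)) + (7 + I2 ρ) / 2) / ρ)) ρ := by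
  have h := (T2b_hasDerivAt_Tf h0).mul ((hasDerivAt_I2 h0 h1).const_add 3)
  obtain ⟨h2, h3⟩ := T2b_cube_lt h0 h1
  have h4 : (1 : ℝ) - ρ ^ 3 ≠ 0 := by linarith
  refine h.congr_deriv ?_
  unfold Tf qq
  field_simp
  ring

private theorem T2b_I2_pos {ρ : ℝ} (h0 : 0 < ρ) (h1 : ρ < 1) : 1 ≤ I2 ρ :=
  (one_le_I1 h0 h1.le).trans (I1_le_I2 h0 h1.le)

private theorem T2b_z_pos {ρ : ℝ} (h0 : 0 < ρ) (h1 : ρ < 1) : 0 < Tf ρ * (3 + I2 ρ) :=
  mul_pos (T2b_Tf_pos h0 h1) (by have := T2b_I2_pos h0 h1; linarith)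

/-- the algebra behind the derivative of `psiL` -/
private theorem T2b_alg {l r T i1 i2 ψ n : ℝ} (hr0 : 0 < r) (hr1 : r < 1)
    (hT : T = (1 - r) / (3 * r)) (hn : n = 1 - l + T * (3 - i1)) (hn0 : n ≠ 0)
    (hz : 1 + T * (3 + i2) ≠ 0)
    (hψ : ψ = n / (1 + T * (3 + i2))) :
    (-(5 / 2 * (T * (3 - i1)) + (5 - i1) / 2) * (1 + T * (3 + i2)) -
      n * (-(7 / 2 * (T * (3 + i2)) + (7 + i2) / 2))) / (1 + T * (3 + i2)) ^ 2 =
    ψ * (1 - (l + 3 * (l - 1 + ψ) / (2 * (1 - r))) / n) := by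
  have hT0 : T ≠ 0 := by
    rw [hT]
    have : 0 < 1 - r := by linarith
    positivity
  have h1r : (1 - r) ≠ 0 := by linarith
  have hr : 3 * T * r = 1 - r := by
    rw [hT]; field_simp
  -- `1 / (1 - r) = (3 + 1 / T) / 3`
  have h2 : 3 / (2 * (1 - r)) = (3 * T + 1) / (2 * T) := by
    rw [div_eq_div_iff (by positivity) (by positivity)]
    linear_combination (2 : ℝ) * hr
  have h3 : 3 * (l - 1 + ψ) / (2 * (1 - r)) = (3 * T + 1) / (2 * T) * (l - 1 + ψ) := by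
    rw [← h2]; ring
  rw [h3, hψ]
  have hi1 : i1 = 3 - (n - 1 + l) / T := by
    field_simp
    linear_combination hn
  rw [hi1]
  have hz' : T * (3 + i2) + 1 ≠ 0 := by rwa [add_comm]
  field_simp
  ring

theorem hasDerivAt_psiL {l ρ : ℝ} (h0 : 0 < ρ) (h1 : ρ < 1)
    (hn : 0 < 1 - l + Tf ρ * (3 - I1 ρ)) :
    HasDerivAt (psiL l) (psiL l ρ * (1 - Ef l ρ) / ρ) ρ := by
  have hz := T2b_z_pos h0 h1
  have hz1 : 1 + Tf ρ * (3 + I2 ρ) ≠ 0 := by linarith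
  have h := ((T2b_hasDerivAt_x h0 h1).const_add (1 - l)).div
    ((T2b_hasDerivAt_z h0 h1).const_add 1) hz1
  have h4 : (fun ρ => 1 - l + Tf ρ * (3 - I1 ρ)) / (fun ρ => 1 + Tf ρ * (3 + I2 ρ)) = psiL l := by
    funext x; rfl
  rw [h4] at h
  refine h.congr_deriv ?_
  obtain ⟨h2, h3⟩ := T2b_cube_lt h0 h1
  have key := T2b_alg (l := l) (r := ρ ^ 3) (T := Tf ρ) (i1 := I1 ρ) (i2 := I2 ρ)
    (ψ := psiL l ρ) (n := 1 - l + Tf ρ * (3 - I1 ρ)) h2 h3 rfl rfl hn.ne' hz1 rfl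
  have h6 : psiL l ρ * (1 - Ef l ρ) / ρ = (psiL l ρ * (1 - (l + 3 * (l - 1 + psiL l ρ) /
    (2 * (1 - ρ ^ 3))) / (1 - l + Tf ρ * (3 - I1 ρ)))) / ρ := rfl
  rw [h6, ← key]
  field_simp

private theorem T2b_psiL_mul {l ρ : ℝ} (h0 : 0 < ρ) (h1 : ρ < 1) :
    psiL l ρ * (1 + Tf ρ * (3 + I2 ρ)) = 1 - l + Tf ρ * (3 - I1 ρ) := by
  have hz := T2b_z_pos h0 h1
  have hz1 : 1 + Tf ρ * (3 + I2 ρ) ≠ 0 := by linarith
  rw [psiL, div_mul_cancel₀ _ hz1]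

private theorem T2b_b_mul {l ρ : ℝ} (h0 : 0 < ρ) (h1 : ρ < 1) :
    (l - 1 + psiL l ρ) * (1 + Tf ρ * (3 + I2 ρ)) =
      Tf ρ * ((3 - I1 ρ) - (3 + I2 ρ) * (1 - l)) := by
  have := T2b_psiL_mul (l := l) h0 h1
  linear_combination this

/-- `n` is decreasing -/
private theorem T2b_n_anti {l : ℝ} {ρ1 ρ2 : ℝ} (h0 : 0 < ρ1) (h1 : ρ2 < 1) :
    AntitoneOn (fun ρ => 1 - l + Tf ρ * (3 - I1 ρ)) (Icc ρ1 ρ2) := by
  apply antitoneOn_of_deriv_nonpos (convex_Icc _ _)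
  · intro x hx
    exact (((T2b_hasDerivAt_x (h0.trans_le hx.1) (hx.2.trans_lt h1)).const_add
      (1 - l)).continuousAt).continuousWithinAt
  · intro x hx
    rw [interior_Icc] at hx
    exact (((T2b_hasDerivAt_x (h0.trans hx.1) (hx.2.trans h1)).const_add
      (1 - l)).differentiableAt).differentiableWithinAt
  · intro x hx
    rw [interior_Icc] at hx
    have hx0 := h0.trans hx.1
    have hx1 := hx.2.trans h1
    rw [((T2b_hasDerivAt_x hx0 hx1).const_add (1 - l)).deriv]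
    have h2 := I1_lt_three hx0 hx1.le
    have h3 : 0 < Tf x * (3 - I1 x) := mul_pos (T2b_Tf_pos hx0 hx1) (by linarith)
    have h4 : 0 < (5 / 2 * (Tf x * (3 - I1 x)) + (5 - I1 x) / 2) / x := by
      apply div_pos _ hx0
      linarith
    linarith

/-- the function `H` of the blueprint -/
private noncomputable def T2bH (l ρ : ℝ) : ℝ :=
  l + 3 * (l - 1 + psiL l ρ) / (2 * (1 - ρ ^ 3)) - 62 / 100 * (1 - l + Tf ρ * (3 - I1 ρ))

private theorem T2b_hasDerivAt_H {l ρ : ℝ} (h0 : 0 < ρ) (h1 : ρ < 1)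
    (hn : 0 < 1 - l + Tf ρ * (3 - I1 ρ)) (hb : 0 < l - 1 + psiL l ρ) (hψ : 0 < psiL l ρ) :
    ∃ H', HasDerivAt (T2bH l) H' ρ ∧ (T2bH l ρ = 0 → 0 < H') := by
  obtain ⟨h2, h3⟩ := T2b_cube_lt h0 h1
  have h1r : 0 < 1 - ρ ^ 3 := by linarith
  have hd1 : HasDerivAt (fun ρ : ℝ => 2 * (1 - ρ ^ 3)) (2 * (-(3 * ρ ^ 2))) ρ := by
    have := (((hasDerivAt_id ρ).pow 3).const_sub 1).const_mul 2
    simpa using this
  have hd2 := ((hasDerivAt_psiL h0 h1 hn).const_add (l - 1)).const_mul 3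
  have hd3 := hd2.div hd1 (by positivity)
  have hd4 := (hd3.const_add l).sub
    (((T2b_hasDerivAt_x h0 h1).const_add (1 - l)).const_mul (62 / 100))
  refine ⟨_, hd4, ?_⟩
  intro hH
  have hE : Ef l ρ = 62 / 100 := by
    rw [Ef, div_eq_iff hn.ne']
    unfold T2bH at hH
    linarith
  rw [hE]
  have hI := I1_lt_three h0 h1.le
  have hx : 0 < Tf ρ * (3 - I1 ρ) := mul_pos (T2b_Tf_pos h0 h1) (by linarith)
  have h4 : 0 < (5 / 2 * (Tf ρ * (3 - I1 ρ)) + (5 - I1 ρ) / 2) / ρ := by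
    apply div_pos _ h0
    linarith
  have h5 : 0 < (3 * (psiL l ρ * (1 - 62 / 100) / ρ) * (2 * (1 - ρ ^ 3)) -
      3 * (l - 1 + psiL l ρ) * (2 * -(3 * ρ ^ 2))) / (2 * (1 - ρ ^ 3)) ^ 2 := by
    apply div_pos _ (by positivity)
    have h6 : 0 < 3 * (psiL l ρ * (1 - 62 / 100) / ρ) * (2 * (1 - ρ ^ 3)) := by
      have : (0 : ℝ) < 1 - 62 / 100 := by norm_num
      positivity
    have h7 : 0 < 3 * (l - 1 + psiL l ρ) * (2 * (3 * ρ ^ 2)) := by positivity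
    linarith
  linarith

theorem curve_facts {l Ψ ρ1 s1 ρ2 s2 : ℝ} (h1 : Crit l Ψ ρ1 s1) (h2 : Crit l Ψ ρ2 s2)
    (h12 : ρ1 < ρ2) {ρ : ℝ} (hρ : ρ ∈ Icc ρ1 ρ2) :
    0 < 1 - l + Tf ρ * (3 - I1 ρ) ∧ 0 < l - 1 + psiL l ρ ∧ 0 < psiL l ρ ∧
    0 < Ef l ρ ∧ Ef l ρ ≤ 62 / 100 ∧ Dom ρ (Ψ / psiL l ρ) ∧
    ρ ≤ 105 / 100 * (Ψ / psiL l ρ) ∧ Ψ / psiL l ρ ≤ 6125 / 10000 ∧
    psiL l ρ ≤ 62 / 100 * ρ := by
  have hρ10 := h1.dom.ρ0
  have hρ21 := h2.dom.ρ1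
  have hs1 := h1.dom.s0
  have hs2 := h2.dom.s0
  have hΨ := h1.Ψ_pos
  have hl := h1.l_pos
  -- the range
  have hrange : ∀ x ∈ Icc ρ1 ρ2, 0 < x ∧ x < 1 := fun x hx =>
    ⟨hρ10.trans_le hx.1, hx.2.trans_lt hρ21⟩
  -- (a)
  have hn2 : 0 < 1 - l + Tf ρ2 * (3 - I1 ρ2) := by
    rw [← T2b_psiL_mul (l := l) h2.dom.ρ0 hρ21, ← crit_psi h2]
    have := T2b_z_pos h2.dom.ρ0 hρ21
    positivity
  have hn : ∀ x ∈ Icc ρ1 ρ2, 0 < 1 - l + Tf x * (3 - I1 x) := fun x hx =>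
    hn2.trans_le (T2b_n_anti (l := l) hρ10 hρ21 hx (right_mem_Icc.2 h12.le) hx.2)
  have hψ : ∀ x ∈ Icc ρ1 ρ2, 0 < psiL l x := by
    intro x hx
    obtain ⟨hx0, hx1⟩ := hrange x hx
    have := T2b_z_pos hx0 hx1
    exact div_pos (hn x hx) (by linarith)
  -- (b)
  have hb1 : 0 < l - 1 + psiL l ρ1 := by
    rw [← crit_psi h1]
    have h3 : Ψ ≤ Ψ / s1 := by
      rw [le_div_iff₀ hs1]
      have := h1.dom.s1
      nlinarith
    have := h1.m_pos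
    linarith
  have hb : ∀ x ∈ Icc ρ1 ρ2, 0 < l - 1 + psiL l x := by
    intro x hx
    obtain ⟨hx0, hx1⟩ := hrange x hx
    have hz := T2b_z_pos hx0 hx1
    have hT := T2b_Tf_pos hx0 hx1
    have h3 := T2b_b_mul (l := l) hρ10 h1.dom.ρ1
    have h4 : 0 < (3 - I1 ρ1) - (3 + I2 ρ1) * (1 - l) := by
      have hz1 := T2b_z_pos hρ10 h1.dom.ρ1
      have h5 : 0 < (l - 1 + psiL l ρ1) * (1 + Tf ρ1 * (3 + I2 ρ1)) := by positivity
      rw [h3] at h5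
      exact (mul_pos_iff_of_pos_left (T2b_Tf_pos hρ10 h1.dom.ρ1)).1 h5
    have hI1 : I1 x ≤ I1 ρ1 := I1_antitoneOn ⟨hρ10, h1.dom.ρ1.le⟩ ⟨hx0, hx1.le⟩ hx.1
    have hI2 : I2 x ≤ I2 ρ1 := I2_antitoneOn ⟨hρ10, h1.dom.ρ1.le⟩ ⟨hx0, hx1.le⟩ hx.1
    have hI2' := T2b_I2_pos hx0 hx1
    have hI3 := I1_lt_three hx0 hx1.le
    have h6 : 0 < (3 - I1 x) - (3 + I2 x) * (1 - l) := by
      rcases le_total 0 (1 - l) with h7 | h7
      · have h8 : (3 + I2 x) * (1 - l) ≤ (3 + I2 ρ1) * (1 - l) :=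
          mul_le_mul_of_nonneg_right (by linarith) h7
        linarith
      · have h8 : (3 + I2 x) * (1 - l) ≤ 0 :=
          mul_nonpos_of_nonneg_of_nonpos (by linarith) h7
        linarith
    have h9 : 0 < (l - 1 + psiL l x) * (1 + Tf x * (3 + I2 x)) := by
      rw [T2b_b_mul hx0 hx1]
      positivity
    exact (mul_pos_iff_of_pos_right (by linarith)).1 h9
  -- (c)
  have hH : ∀ x ∈ Icc ρ1 ρ2, T2bH l x ≤ 0 := by
    have hH2 : T2bH l ρ2 ≤ 0 := by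
      have := crit_I4 h2
      rw [crit_psi h2] at this
      unfold T2bH
      linarith
    choose! H' hH' using fun x (hx : x ∈ Icc ρ1 ρ2) =>
      T2b_hasDerivAt_H (hrange x hx).1 (hrange x hx).2 (hn x hx) (hb x hx) (hψ x hx)
    have hneg : ∀ y ∈ Icc (-ρ2) (-ρ1), -y ∈ Icc ρ1 ρ2 := fun y hy =>
      ⟨by linarith [hy.2], by linarith [hy.1]⟩
    have hder : ∀ y ∈ Icc (-ρ2) (-ρ1), HasDerivAt (fun y => T2bH l (-y)) (-H' (-y)) y := by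
      intro y hy
      have h3 := (hH' (-y) (hneg y hy)).1
      have h4 : HasDerivAt (fun y : ℝ => -y) (-1) y := (hasDerivAt_id y).neg
      have h5 := h3.comp y h4
      have h6 : T2bH l ∘ (fun y : ℝ => -y) = fun y => T2bH l (-y) := rfl
      rw [h6] at h5
      refine h5.congr_deriv ?_
      ring
    have key := image_le_of_deriv_right_lt_deriv_boundary (f := fun y => T2bH l (-y))
      (f' := fun y => -H' (-y)) (a := -ρ2) (b := -ρ1) (B := fun _ => 0) (B' := fun _ => 0)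
      (fun y hy => (hder y hy).continuousAt.continuousWithinAt)
      (fun y hy => (hder y (Ico_subset_Icc_self hy)).hasDerivWithinAt)
      (by simpa using hH2) (fun _ => hasDerivAt_const _ _)
      (fun y hy h => by
        have := (hH' (-y) (hneg y (Ico_subset_Icc_self hy))).2 h
        simpa using this)
    intro x hx
    have h3 := key (x := -x) ⟨by linarith [hx.2], by linarith [hx.1]⟩
    simpa using h3
  have hE : ∀ x ∈ Icc ρ1 ρ2, 0 < Ef l x ∧ Ef l x ≤ 62 / 100 := by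
    intro x hx
    obtain ⟨hx0, hx1⟩ := hrange x hx
    obtain ⟨h3, h4⟩ := T2b_cube_lt hx0 hx1
    have h1r : 0 < 1 - x ^ 3 := by linarith
    have hbx := hb x hx
    constructor
    · apply div_pos _ (hn x hx)
      positivity
    · rw [Ef, div_le_iff₀ (hn x hx)]
      have := hH x hx
      unfold T2bH at this
      linarith
  -- (d)
  have hmono : MonotoneOn (psiL l) (Icc ρ1 ρ2) := by
    apply monotoneOn_of_deriv_nonneg (convex_Icc _ _)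
    · intro x hx
      exact (hasDerivAt_psiL (hrange x hx).1 (hrange x hx).2
        (hn x hx)).continuousAt.continuousWithinAt
    · intro x hx
      have hx' := interior_subset hx
      exact (hasDerivAt_psiL (hrange x hx').1 (hrange x hx').2
        (hn x hx')).differentiableAt.differentiableWithinAt
    · intro x hx
      have hx' := interior_subset hx
      rw [(hasDerivAt_psiL (hrange x hx').1 (hrange x hx').2 (hn x hx')).deriv]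
      have h3 := (hE x hx').2
      have h4 := hψ x hx'
      have h5 := (hrange x hx').1
      have h6 : 0 ≤ 1 - Ef l x := by linarith
      positivity
  obtain ⟨hρ0, hρ1⟩ := hrange ρ hρ
  have hψρ := hψ ρ hρ
  have hψ1 : Ψ / psiL l ρ1 = s1 := by
    rw [← crit_psi h1]
    field_simp
  have hψ2 : Ψ / psiL l ρ2 = s2 := by
    rw [← crit_psi h2]
    field_simp
  have hS1 : Ψ / psiL l ρ ≤ s1 := by
    rw [← hψ1]
    exact div_le_div_of_nonneg_left hΨ.le (hψ ρ1 (left_mem_Icc.2 h12.le))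
      (hmono (left_mem_Icc.2 h12.le) hρ hρ.1)
  have hS2 : s2 ≤ Ψ / psiL l ρ := by
    rw [← hψ2]
    exact div_le_div_of_nonneg_left hΨ.le hψρ
      (hmono hρ (right_mem_Icc.2 h12.le) hρ.2)
  have hS0 : 0 < Ψ / psiL l ρ := by positivity
  refine ⟨hn ρ hρ, hb ρ hρ, hψρ, (hE ρ hρ).1, (hE ρ hρ).2, ⟨hρ0, hρ1, hS0, ?_, ?_⟩, ?_, ?_, ?_⟩
  · exact hS1.trans_lt h1.dom.s1
  · -- the discriminant
    have hD := h1.dom.D
    unfold DD at hD ⊢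
    set S := Ψ / psiL l ρ with hS
    have h3 : ρ1 ^ 3 ≤ ρ ^ 3 := pow_le_pow_left₀ hρ10.le hρ.1 3
    have h4 : 2 * S ^ 3 * ρ1 ^ 3 ≤ 2 * S ^ 3 * ρ ^ 3 :=
      mul_le_mul_of_nonneg_left h3 (by positivity)
    have h5 : ρ1 ^ 3 ≤ 1 := (T2b_cube_lt hρ10 h1.dom.ρ1).2.le
    have h6 : 1 - 3 * s1 ^ 2 + 2 * s1 ^ 3 * ρ1 ^ 3 ≤ 1 - 3 * S ^ 2 + 2 * S ^ 3 * ρ1 ^ 3 := by
      have h7 : (1 - 3 * S ^ 2 + 2 * S ^ 3 * ρ1 ^ 3) - (1 - 3 * s1 ^ 2 + 2 * s1 ^ 3 * ρ1 ^ 3) =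
          (s1 - S) * (3 * (s1 + S) - 2 * ρ1 ^ 3 * (s1 ^ 2 + s1 * S + S ^ 2)) := by ring
      have hs11 := h1.dom.s1
      have h8 : 0 ≤ 3 * (s1 + S) - 2 * ρ1 ^ 3 * (s1 ^ 2 + s1 * S + S ^ 2) := by
        have h9 : s1 ^ 2 + s1 * S + S ^ 2 ≤ 3 / 2 * (s1 + S) := by nlinarith
        have h10 : 0 ≤ s1 ^ 2 + s1 * S + S ^ 2 := by positivity
        have h11 : ρ1 ^ 3 * (s1 ^ 2 + s1 * S + S ^ 2) ≤ 1 * (s1 ^ 2 + s1 * S + S ^ 2) :=
          mul_le_mul_of_nonneg_right h5 h10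
        linarith
      have h12 : 0 ≤ (s1 - S) * (3 * (s1 + S) - 2 * ρ1 ^ 3 * (s1 ^ 2 + s1 * S + S ^ 2)) :=
        mul_nonneg (by linarith) h8
      linarith
    linarith
  · have := crit_T1 h2
    linarith [hρ.2]
  · have := crit_s h1
    linarith
  · -- (e)
    have hI := T2b_I2_pos hρ0 hρ1
    have hT := T2b_Tf_pos hρ0 hρ1
    have h3 : psiL l ρ * (3 + I2 ρ) ≤ 3 - I1 ρ := by
      have h4 := T2b_psiL_mul (l := l) hρ0 hρ1
      have h5 := hb ρ hρ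
      have h6 : Tf ρ * (psiL l ρ * (3 + I2 ρ)) ≤ Tf ρ * (3 - I1 ρ) := by nlinarith
      exact le_of_mul_le_mul_left h6 hT
    have hp0 : 0 < Real.sqrt ρ := Real.sqrt_pos.2 hρ0
    have hp1 : Real.sqrt ρ < 1 := by
      rw [Real.sqrt_lt' one_pos]
      simpa using hρ1
    have h7 := num_c0 hp0 hp1 (ab hp0 hp1)
    unfold a1 a2 at h7
    rw [Real.sq_sqrt hρ0.le, div_le_iff₀ hp0] at h7
    have h8 : 62 / 100 * ((3 + I2 ρ) * Real.sqrt ρ) * Real.sqrt ρ =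
        62 / 100 * ρ * (3 + I2 ρ) := by
      have := Real.mul_self_sqrt hρ0.le
      linear_combination (62 / 100 * (3 + I2 ρ)) * this
    rw [h8] at h7
    exact le_of_mul_le_mul_right (h3.trans h7) (by linarith)

end Pool.Agent.OptRes
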