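import Pool.Agent.OptRes.KapD
import Pool.Agent.OptRes.KapB
import Pool.Agent.OptRes.NumC
import Pool.Agent.OptRes.T2b

/-!
# Uniqueness of the critical half cell (module T2c)
-/

open MeasureTheory Set Filter Topology

namespace Pool.Agent.OptRes

/-! ### Rational identities -/

private theorem T2c_id1 {r s K k q c D : ℝ} (hs1 : 1 - s ≠ 0) (hq : q ≠ 0)
    (hc : c ≠ 0) (hD : D ≠ 0) :
    (1 - s) * ((-2 * r) * (3 + K) / c +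
      q * (r / q * (K - s / (1 - s)) - r * s ^ 3 * (3 * s / (1 - s) + k) / D) / c +
      q * (3 + K) * (6 * s * r) / c ^ 2) =
    -(r * (1 / c * (2 * (1 - 3 * s * q / c) * (3 - 2 * s + ((1 - s) * K - s)) -
      ((1 - s) * K - s) + q * s ^ 3 * (1 + 2 * s - (1 - s) * (1 - k)) / D))) := by
  field_simp
  ring

private theorem T2c_id2 {r s K k q c D : ℝ} (hs : s ≠ 0) (hs1 : 1 - s ≠ 0) (hq : q ≠ 0)
    (hc : c ≠ 0) (hD : D ≠ 0) (hqr : q = 2 / 3 * (1 - r)) (hcr : c = 3 - 2 * s * r)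
    (hDr : D = 1 - 3 * s ^ 2 + 2 * s ^ 3 * r) :
    q * (-s * (3 + K) / c + (1 - s) * (K - 3 / 2 * (K - s / (1 - s)) +
      s ^ 2 * (1 - s * r) * (3 * s / (1 - s) + k) / D) / c +
      (1 - s) * (3 + K) * (2 * s * r) / c ^ 2) =
    s * (2 * r / (s * c) * (1 - 2 * s * q / c) * (3 - 2 * s + ((1 - s) * K - s)) +
      q / c * (-(2 - s) / (1 - s) - (1 / (q * s) - (1 - 2 * s) / (s * (1 - s))) *
        ((1 - s) * K - s) + s * (1 + 2 * s - (1 - s) * (1 - k)) / D)) -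
    (r * (1 / c * (2 * (1 - 3 * s * q / c) * (3 - 2 * s + ((1 - s) * K - s)) -
      ((1 - s) * K - s) + q * s ^ 3 * (1 + 2 * s - (1 - s) * (1 - k)) / D))) := by
  have hr : r = 1 - 3 / 2 * q := by rw [hqr]; ring
  have hc' : c = 3 - 2 * s * (1 - 3 / 2 * q) := by rw [hcr, hr]
  have hD' : D = 1 - 3 * s ^ 2 + 2 * s ^ 3 * (1 - 3 / 2 * q) := by rw [hDr, hr]
  rw [hr]
  field_simp
  rw [hc']
  ring

private theorem T2c_id3 {r s K k q c D : ℝ} (hq : q ≠ 0)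
    (hc : c ≠ 0) (hD : D ≠ 0) :
    (-2 * r) * s ^ 2 * (3 * s + (1 - s) * k) / D +
      q * s ^ 2 * ((1 - s) * (r * s * (3 + K) / c - r / q * (1 - k))) / D -
      q * s ^ 2 * (3 * s + (1 - s) * k) * (6 * s ^ 3 * r) / D ^ 2 =
    -(r * (s ^ 2 / D * (2 * (1 + 3 * q * s ^ 3 / D) * (1 + 2 * s - (1 - s) * (1 - k)) -
      q * s * (3 - 2 * s + ((1 - s) * K - s)) / c + (1 - s) * (1 - k)))) := by
  field_simp
  ring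

private theorem T2c_id4 {r s K k q c D : ℝ} (hs : s ≠ 0) (hs1 : 1 - s ≠ 0) (hq : q ≠ 0)
    (hc : c ≠ 0) (hD : D ≠ 0) (hqr : q = 2 / 3 * (1 - r)) (hcr : c = 3 - 2 * s * r)
    (hDr : D = 1 - 3 * s ^ 2 + 2 * s ^ 3 * r) :
    2 * q * s ^ 2 * (3 * s + (1 - s) * k) / D +
      q * s ^ 2 * (3 * s - s * k + (1 - s) * (k + 3 / 2 * (1 - k) -
        (1 - s * r) * (3 + K) / c)) / D -
      q * s ^ 2 * (3 * s + (1 - s) * k) * (-6 * s ^ 2 + 6 * s ^ 3 * r) / D ^ 2 =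
    s * ((2 * s * (q + r) / D + 6 * q * s ^ 3 / D ^ 2) * (1 + 2 * s - (1 - s) * (1 - k)) +
      q * s ^ 2 / D * ((1 + s) / s + (1 / (q * s) - (1 - 2 * s) / (s * (1 - s))) *
        ((1 - s) * (1 - k)) - (3 - 2 * s + ((1 - s) * K - s)) / (s * c))) -
    r * (s ^ 2 / D * (2 * (1 + 3 * q * s ^ 3 / D) * (1 + 2 * s - (1 - s) * (1 - k)) -
      q * s * (3 - 2 * s + ((1 - s) * K - s)) / c + (1 - s) * (1 - k))) := by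
  have hr : r = 1 - 3 / 2 * q := by rw [hqr]; ring
  have hc' : c = 3 - 2 * s * (1 - 3 / 2 * q) := by rw [hcr, hr]
  have hD' : D = 1 - 3 * s ^ 2 + 2 * s ^ 3 * (1 - 3 / 2 * q) := by rw [hDr, hr]
  rw [hr]
  field_simp
  rw [hc', hD']
  ring

/-! ### Derivatives along a curve -/

/-- the quantity `w` of a half cell -/
private noncomputable def cw (ρ s : ℝ) : ℝ := (1 - s) * kw ρ s - s

/-- the quantity `u` of a half cell -/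
private noncomputable def cu (ρ s : ℝ) : ℝ := (1 - s) * (1 - k1 ρ s)

private theorem T2c_pos {ρ s : ℝ} (h : Dom ρ s) :
    0 < ρ ^ 3 ∧ 0 < qq ρ ∧ 0 < cc ρ s ∧ 0 < DD ρ s ∧ 0 < 1 - s := by
  have h0 := h.ρ0
  have h1 := h.ρ1
  have h2 := h.s0
  have h3 := h.s1
  have h4 : ρ ^ 3 < 1 := pow_lt_one₀ h0.le h1 (by norm_num)
  have h5 : 0 < ρ ^ 3 := by positivity
  refine ⟨h5, ?_, ?_, h.D, by linarith⟩
  · unfold qq; linarith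
  · unfold cc
    have : s * ρ ^ 3 < 1 := by nlinarith
    linarith

private theorem T2c_qq_der (ρ : ℝ) : HasDerivAt qq (-2 * ρ ^ 2) ρ := by
  have := (((hasDerivAt_id ρ).pow 3).const_sub 1).const_mul (2 / 3)
  refine this.congr_deriv ?_
  simp
  ring

theorem T2c_der_g1 {S : ℝ → ℝ} {E ρ : ℝ} (hS : HasDerivAt S (-(1 - E) * S ρ / ρ) ρ)
    (hd : Dom ρ (S ρ)) :
    HasDerivAt (fun y => fg1 y (S y) (cw y (S y)))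
      ((-(E * ρ ^ 3 * fA1 ρ (S ρ) (cw ρ (S ρ)) (cu ρ (S ρ))) -
        (1 - E) * S ρ * fg1s ρ (S ρ) (cw ρ (S ρ)) (cu ρ (S ρ))) / ρ) ρ := by
  obtain ⟨hr, hq, hc, hD, h1s⟩ := T2c_pos hd
  have hρ := hd.ρ0
  have hs := hd.s0
  have hkw := hasDerivAt_kw (R := fun y => y) (hasDerivAt_id' ρ) hS hd
  have hcc : HasDerivAt (fun y => cc y (S y))
      (-(2 * (-(1 - E) * S ρ / ρ) * ρ ^ 3 + 2 * S ρ * (3 * ρ ^ 2))) ρ := by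
    have h1 := ((hS.const_mul 2).mul ((hasDerivAt_id ρ).pow 3)).const_sub 3
    refine h1.congr_deriv ?_
    simp
  have hN : HasDerivAt (fun y => 3 - 2 * S y + ((1 - S y) * kw y (S y) - S y)) _ ρ :=
    ((hS.const_mul 2).const_sub 3).add (((hS.const_sub 1).mul hkw).sub hS)
  have h := ((T2c_qq_der ρ).mul hN).div hcc hc.ne'
  refine h.congr_deriv ?_
  have id1 := T2c_id1 (r := ρ ^ 3) (s := S ρ) (K := kw ρ (S ρ)) (k := k1 ρ (S ρ))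
    h1s.ne' hq.ne' hc.ne' hD.ne'
  have id2 := T2c_id2 (r := ρ ^ 3) (s := S ρ) (K := kw ρ (S ρ)) (k := k1 ρ (S ρ))
    hs.ne' h1s.ne' hq.ne' hc.ne' hD.ne' rfl (by unfold cc; ring) (by unfold DD; ring)
  have e1 : fA1 ρ (S ρ) (cw ρ (S ρ)) (cu ρ (S ρ)) = 1 / cc ρ (S ρ) *
      (2 * (1 - 3 * S ρ * qq ρ / cc ρ (S ρ)) * (3 - 2 * S ρ + ((1 - S ρ) * kw ρ (S ρ) - S ρ)) -
      ((1 - S ρ) * kw ρ (S ρ) - S ρ) + qq ρ * S ρ ^ 3 *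
      (1 + 2 * S ρ - (1 - S ρ) * (1 - k1 ρ (S ρ))) / DD ρ (S ρ)) := rfl
  have e2 : fg1s ρ (S ρ) (cw ρ (S ρ)) (cu ρ (S ρ)) = 2 * ρ ^ 3 / (S ρ * cc ρ (S ρ)) *
      (1 - 2 * S ρ * qq ρ / cc ρ (S ρ)) * (3 - 2 * S ρ + ((1 - S ρ) * kw ρ (S ρ) - S ρ)) +
      qq ρ / cc ρ (S ρ) * (-(2 - S ρ) / (1 - S ρ) - (1 / (qq ρ * S ρ) -
      (1 - 2 * S ρ) / (S ρ * (1 - S ρ))) * ((1 - S ρ) * kw ρ (S ρ) - S ρ) +
      S ρ * (1 + 2 * S ρ - (1 - S ρ) * (1 - k1 ρ (S ρ))) / DD ρ (S ρ)) := rfl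
  rw [← e1] at id1
  rw [← e1, ← e2] at id2
  have e3 : dkwr ρ (S ρ) = ρ ^ 3 / qq ρ * (kw ρ (S ρ) - S ρ / (1 - S ρ)) -
    ρ ^ 3 * S ρ ^ 3 * (3 * S ρ / (1 - S ρ) + k1 ρ (S ρ)) / DD ρ (S ρ) := rfl
  have e4 : dkws ρ (S ρ) = kw ρ (S ρ) - 3 / 2 * (kw ρ (S ρ) - S ρ / (1 - S ρ)) +
    S ρ ^ 2 * (1 - S ρ * ρ ^ 3) * (3 * S ρ / (1 - S ρ) + k1 ρ (S ρ)) / DD ρ (S ρ) := rfl
  rw [← e3] at id1
  rw [← e4] at id2
  have e5 : -(E * ρ ^ 3 * fA1 ρ (S ρ) (cw ρ (S ρ)) (cu ρ (S ρ))) -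
      (1 - E) * S ρ * fg1s ρ (S ρ) (cw ρ (S ρ)) (cu ρ (S ρ)) =
      -(ρ ^ 3 * fA1 ρ (S ρ) (cw ρ (S ρ)) (cu ρ (S ρ))) - (1 - E) *
      (S ρ * fg1s ρ (S ρ) (cw ρ (S ρ)) (cu ρ (S ρ)) -
        ρ ^ 3 * fA1 ρ (S ρ) (cw ρ (S ρ)) (cu ρ (S ρ))) := by ring
  rw [e5, ← id1, ← id2]
  simp only [Pi.mul_apply]
  have hρ' : ρ ≠ 0 := hρ.ne'
  have hs' : S ρ ≠ 0 := hs.ne'
  have hc' : cc ρ (S ρ) ≠ 0 := hc.ne'
  clear e1 e2 e3 e4 e5 id1 id2 h hN hkw hcc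
  generalize cc ρ (S ρ) = c at hc' ⊢
  generalize dkwr ρ (S ρ) = a at *
  generalize dkws ρ (S ρ) = b at *
  generalize kw ρ (S ρ) = κ at *
  generalize qq ρ = q at *
  generalize S ρ = s at *
  field_simp
  ring

theorem T2c_der_g2 {S : ℝ → ℝ} {E ρ : ℝ} (hS : HasDerivAt S (-(1 - E) * S ρ / ρ) ρ)
    (hd : Dom ρ (S ρ)) :
    HasDerivAt (fun y => fg2 y (S y) (cu y (S y)))
      ((-(E * ρ ^ 3 * fA2 ρ (S ρ) (cw ρ (S ρ)) (cu ρ (S ρ))) -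
        (1 - E) * S ρ * fg2s ρ (S ρ) (cw ρ (S ρ)) (cu ρ (S ρ))) / ρ) ρ := by
  obtain ⟨hr, hq, hc, hD, h1s⟩ := T2c_pos hd
  have hρ := hd.ρ0
  have hs := hd.s0
  have hk1 := hasDerivAt_k1 (R := fun y => y) (hasDerivAt_id' ρ) hS hd
  have hS2 : HasDerivAt (fun y => S y ^ 2) (2 * S ρ * (-(1 - E) * S ρ / ρ)) ρ := by
    have := hS.pow 2
    refine this.congr_deriv ?_
    simp
  have hS3 : HasDerivAt (fun y => S y ^ 3) (3 * S ρ ^ 2 * (-(1 - E) * S ρ / ρ)) ρ := by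
    have := hS.pow 3
    refine this.congr_deriv ?_
    simp
  have hDD : HasDerivAt (fun y => DD y (S y))
      (-(3 * (2 * S ρ * (-(1 - E) * S ρ / ρ))) + ((2 * (3 * S ρ ^ 2 * (-(1 - E) * S ρ / ρ))) *
        ρ ^ 3 + 2 * S ρ ^ 3 * (3 * ρ ^ 2))) ρ := by
    have h1 := ((hS2.const_mul 3).const_sub 1).add
      ((hS3.const_mul 2).mul ((hasDerivAt_id ρ).pow 3))
    refine h1.congr_deriv ?_
    simp
  have hN : HasDerivAt (fun y => 1 + 2 * S y - ((1 - S y) * (1 - k1 y (S y)))) _ ρ :=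
    ((hS.const_mul 2).const_add 1).sub ((hS.const_sub 1).mul (hk1.const_sub 1))
  have h := (((T2c_qq_der ρ).mul hS2).mul hN).div hDD hD.ne'
  refine h.congr_deriv ?_
  have id3 := T2c_id3 (r := ρ ^ 3) (s := S ρ) (K := kw ρ (S ρ)) (k := k1 ρ (S ρ))
    hq.ne' hc.ne' hD.ne'
  have id4 := T2c_id4 (r := ρ ^ 3) (s := S ρ) (K := kw ρ (S ρ)) (k := k1 ρ (S ρ))
    hs.ne' h1s.ne' hq.ne' hc.ne' hD.ne' rfl (by unfold cc; ring) (by unfold DD; ring)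
  have e1 : fA2 ρ (S ρ) (cw ρ (S ρ)) (cu ρ (S ρ)) = S ρ ^ 2 / DD ρ (S ρ) *
      (2 * (1 + 3 * qq ρ * S ρ ^ 3 / DD ρ (S ρ)) * (1 + 2 * S ρ - (1 - S ρ) *
      (1 - k1 ρ (S ρ))) - qq ρ * S ρ * (3 - 2 * S ρ + ((1 - S ρ) * kw ρ (S ρ) - S ρ)) /
      cc ρ (S ρ) + (1 - S ρ) * (1 - k1 ρ (S ρ))) := rfl
  have e2 : fg2s ρ (S ρ) (cw ρ (S ρ)) (cu ρ (S ρ)) =
      (2 * S ρ * (qq ρ + ρ ^ 3) / DD ρ (S ρ) + 6 * qq ρ * S ρ ^ 3 / DD ρ (S ρ) ^ 2) *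
      (1 + 2 * S ρ - (1 - S ρ) * (1 - k1 ρ (S ρ))) + qq ρ * S ρ ^ 2 / DD ρ (S ρ) *
      ((1 + S ρ) / S ρ + (1 / (qq ρ * S ρ) - (1 - 2 * S ρ) / (S ρ * (1 - S ρ))) *
      ((1 - S ρ) * (1 - k1 ρ (S ρ))) - (3 - 2 * S ρ + ((1 - S ρ) * kw ρ (S ρ) - S ρ)) /
      (S ρ * cc ρ (S ρ))) := rfl
  rw [← e1] at id3
  rw [← e1, ← e2] at id4
  have e3 : dk1r ρ (S ρ) = ρ ^ 3 * S ρ * (3 + kw ρ (S ρ)) / cc ρ (S ρ) -
    ρ ^ 3 / qq ρ * (1 - k1 ρ (S ρ)) := rfl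
  have e4 : dk1s ρ (S ρ) = k1 ρ (S ρ) + 3 / 2 * (1 - k1 ρ (S ρ)) -
    (1 - S ρ * ρ ^ 3) * (3 + kw ρ (S ρ)) / cc ρ (S ρ) := rfl
  rw [← e3] at id3
  rw [← e4] at id4
  have e5 : -(E * ρ ^ 3 * fA2 ρ (S ρ) (cw ρ (S ρ)) (cu ρ (S ρ))) -
      (1 - E) * S ρ * fg2s ρ (S ρ) (cw ρ (S ρ)) (cu ρ (S ρ)) =
      -(ρ ^ 3 * fA2 ρ (S ρ) (cw ρ (S ρ)) (cu ρ (S ρ))) - (1 - E) *
      (S ρ * fg2s ρ (S ρ) (cw ρ (S ρ)) (cu ρ (S ρ)) -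
        ρ ^ 3 * fA2 ρ (S ρ) (cw ρ (S ρ)) (cu ρ (S ρ))) := by ring
  rw [e5, ← id3, ← id4]
  simp only [Pi.mul_apply]
  have hρ' : ρ ≠ 0 := hρ.ne'
  have hs' : S ρ ≠ 0 := hs.ne'
  have hD' : DD ρ (S ρ) ≠ 0 := hD.ne'
  clear e1 e2 e3 e4 e5 id3 id4 h hN hk1 hDD hS2 hS3 hD
  generalize DD ρ (S ρ) = D at hD' ⊢
  generalize dk1r ρ (S ρ) = a at *
  generalize dk1s ρ (S ρ) = b at *
  generalize k1 ρ (S ρ) = κ at *
  generalize qq ρ = q at *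
  generalize S ρ = s at *
  field_simp
  ring

/-! ### The function `f` -/

/-- the function `f` along the curve `S = Ψ / psiL l ρ` -/
private noncomputable def cf (l Ψ ρ : ℝ) : ℝ :=
  (fg1 ρ (Ψ / psiL l ρ) (cw ρ (Ψ / psiL l ρ)) - (1 - Ψ / psiL l ρ) * psiL l ρ) /
    (1 - fg1 ρ (Ψ / psiL l ρ) (cw ρ (Ψ / psiL l ρ)) + fg2 ρ (Ψ / psiL l ρ) (cu ρ (Ψ / psiL l ρ)))

private theorem T2c_cdata {ρ s ψ : ℝ} (hd : Dom ρ s) (h1 : ρ ≤ 105 / 100 * s)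
    (h2 : s ≤ 6125 / 10000) (h3 : 0 < ψ) (h4 : ψ ≤ 62 / 100 * ρ) :
    CData ρ s (cw ρ s) (cu ρ s) ψ := by
  obtain ⟨hr, hq, hc, hD, h1s⟩ := T2c_pos hd
  have hs := hd.s0
  refine ⟨hd.ρ0, hs, by linarith, h1, hD, ?_, ?_, ?_, ?_, h3.le, h4⟩
  · have h5 := kw_ge hd
    rw [div_le_iff₀ h1s] at h5
    unfold cw
    linarith
  · exact wt_bd hd
  · unfold cu
    have h5 := k1_le_one hd
    exact mul_nonneg h1s.le (by linarith)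
  · have h5 := k1_ge (θ := 105 / 100) hd (by norm_num) (by nlinarith)
    have h6 : 1 - k1 ρ s ≤ 105 / 100 * s * qq ρ / (3 * (1 - s)) := by linarith
    rw [le_div_iff₀ (by positivity)] at h6
    unfold cu
    linarith

private theorem T2c_cf_der {l Ψ ρ1 s1 ρ2 s2 : ℝ} (h1 : Crit l Ψ ρ1 s1) (h2 : Crit l Ψ ρ2 s2)
    (h12 : ρ1 < ρ2) {ρ : ℝ} (hρ : ρ ∈ Icc ρ1 ρ2) : ∃ f', HasDerivAt (cf l Ψ) f' ρ ∧ 0 < f' := by
  obtain ⟨hn, hb, hψ, hE0, hE1, hd, ht, hs1, hψ1⟩ := curve_facts h1 h2 h12 hρ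
  have hρ0 := hd.ρ0
  have hΨ := h1.Ψ_pos
  have hψd := hasDerivAt_psiL hρ0 hd.ρ1 hn
  have hSd : HasDerivAt (fun y => Ψ / psiL l y)
      (-(1 - Ef l ρ) * (Ψ / psiL l ρ) / ρ) ρ := by
    have h3 := (hasDerivAt_const ρ Ψ).div hψd hψ.ne'
    refine h3.congr_deriv ?_
    field_simp
    ring
  have hg1 := T2c_der_g1 (S := fun y => Ψ / psiL l y) hSd hd
  have hg2 := T2c_der_g2 (S := fun y => Ψ / psiL l y) hSd hd
  have hC := T2c_cdata hd ht hs1 hψ hψ1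
  have hG := num_G hC
  have hnum := num_C hC hE0.le hE1
  have hmul := (hSd.const_sub 1).mul hψd
  have hf := (hg1.sub hmul).div ((hg1.const_sub 1).add hg2) hG.ne'
  refine ⟨_, hf, ?_⟩
  apply div_pos _ (by positivity)
  simp only [Pi.mul_apply, Pi.sub_apply, Pi.add_apply]
  generalize hg1' : fg1 ρ (Ψ / psiL l ρ) (cw ρ (Ψ / psiL l ρ)) = g1 at *
  generalize hg2' : fg2 ρ (Ψ / psiL l ρ) (cu ρ (Ψ / psiL l ρ)) = g2 at *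
  generalize fA1 ρ (Ψ / psiL l ρ) (cw ρ (Ψ / psiL l ρ)) (cu ρ (Ψ / psiL l ρ)) = A1 at *
  generalize fA2 ρ (Ψ / psiL l ρ) (cw ρ (Ψ / psiL l ρ)) (cu ρ (Ψ / psiL l ρ)) = A2 at *
  generalize fg1s ρ (Ψ / psiL l ρ) (cw ρ (Ψ / psiL l ρ)) (cu ρ (Ψ / psiL l ρ)) = B1 at *
  generalize fg2s ρ (Ψ / psiL l ρ) (cw ρ (Ψ / psiL l ρ)) (cu ρ (Ψ / psiL l ρ)) = B2 at *
  have hS0 : 0 < Ψ / psiL l ρ := hd.s0
  generalize Ψ / psiL l ρ = S at *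
  generalize Ef l ρ = E at *
  generalize psiL l ρ = ψ at *
  have h5 := div_pos hnum hρ0
  refine lt_of_lt_of_eq h5 ?_
  have hρ' : ρ ≠ 0 := hρ0.ne'
  have hS' : S ≠ 0 := hS0.ne'
  field_simp
  ring

private theorem T2c_cf_crit {l Ψ ρ s : ℝ} (h : Crit l Ψ ρ s) (hG : 0 < 1 - fg1 ρ s (cw ρ s) +
    fg2 ρ s (cu ρ s)) : cf l Ψ ρ = Ψ + l - 1 := by
  have hs : Ψ / psiL l ρ = s := by
    rw [← crit_psi h]
    have := h.Ψ_pos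
    have := h.dom.s0
    field_simp
  unfold cf
  rw [hs, div_eq_iff hG.ne']
  obtain ⟨hr, hq, hc, hD, h1s⟩ := T2c_pos h.dom
  have heq := h.eqR
  rw [crit_psi h] at heq
  have hΨ : Ψ = s * psiL l ρ := by
    rw [← crit_psi h]
    have := h.dom.s0
    field_simp
  unfold fg1 fg2 cw cu
  have h3 : qq ρ * (3 - 2 * s + ((1 - s) * kw ρ s - s)) / cc ρ s =
      qq ρ * ((1 - s) * (3 + kw ρ s) / cc ρ s) := by ring
  have h4 : qq ρ * s ^ 2 * (1 + 2 * s - (1 - s) * (1 - k1 ρ s)) / DD ρ s =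
      qq ρ * (s ^ 2 * (3 * s + (1 - s) * k1 ρ s) / DD ρ s) := by ring
  rw [h3, h4]
  have h5 : (Ψ + l) * ((1 - s) * (3 + kw ρ s)) / cc ρ s =
      (Ψ + l) * ((1 - s) * (3 + kw ρ s) / cc ρ s) := by ring
  have h6 : (Ψ + l - 1) * s ^ 2 * (3 * s + (1 - s) * k1 ρ s) / DD ρ s =
      (Ψ + l - 1) * (s ^ 2 * (3 * s + (1 - s) * k1 ρ s) / DD ρ s) := by ring
  rw [h5, h6] at heq
  generalize (1 - s) * (3 + kw ρ s) / cc ρ s = X at *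
  generalize s ^ 2 * (3 * s + (1 - s) * k1 ρ s) / DD ρ s = Y at *
  linear_combination (-1 : ℝ) * heq - hΨ

private theorem T2c_not_lt {l Ψ ρ1 s1 ρ2 s2 : ℝ} (h1 : Crit l Ψ ρ1 s1) (h2 : Crit l Ψ ρ2 s2)
    (h12 : ρ1 < ρ2) : False := by
  have hS : ∀ {ρ s : ℝ}, Crit l Ψ ρ s → Ψ / psiL l ρ = s := by
    intro ρ s h
    rw [← crit_psi h]
    have := h.Ψ_pos
    have := h.dom.s0
    field_simp
  have hG : ∀ {ρ s : ℝ}, Crit l Ψ ρ s → ρ ∈ Icc ρ1 ρ2 →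
      0 < 1 - fg1 ρ s (cw ρ s) + fg2 ρ s (cu ρ s) := by
    intro ρ s h hρ
    obtain ⟨hn, hb, hψ, hE0, hE1, hd, ht, hs1, hψ1⟩ := curve_facts h1 h2 h12 hρ
    rw [hS h] at hd ht hs1
    exact num_G (T2c_cdata hd ht hs1 hψ hψ1)
  have e1 := T2c_cf_crit h1 (hG h1 (left_mem_Icc.2 h12.le))
  have e2 := T2c_cf_crit h2 (hG h2 (right_mem_Icc.2 h12.le))
  have hmono : StrictMonoOn (cf l Ψ) (Icc ρ1 ρ2) := by
    apply strictMonoOn_of_deriv_pos (convex_Icc _ _)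
    · intro x hx
      obtain ⟨f', hf', _⟩ := T2c_cf_der h1 h2 h12 hx
      exact hf'.continuousAt.continuousWithinAt
    · intro x hx
      obtain ⟨f', hf', hpos⟩ := T2c_cf_der h1 h2 h12 (interior_subset hx)
      rw [hf'.deriv]
      exact hpos
  have := hmono (left_mem_Icc.2 h12.le) (right_mem_Icc.2 h12.le) h12
  rw [e1, e2] at this
  exact lt_irrefl _ this

theorem crit_unique {l Ψ ρ1 s1 ρ2 s2 : ℝ} (h1 : Crit l Ψ ρ1 s1) (h2 : Crit l Ψ ρ2 s2) :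
    ρ1 = ρ2 ∧ s1 = s2 := by
  have hρ : ρ1 = ρ2 := by
    rcases lt_trichotomy ρ1 ρ2 with h | h | h
    · exact (T2c_not_lt h1 h2 h).elim
    · exact h
    · exact (T2c_not_lt h2 h1 h).elim
  refine ⟨hρ, ?_⟩
  have e1 := crit_psi h1
  have e2 := crit_psi h2
  rw [hρ, ← e2] at e1
  have h3 := h1.dom.s0
  have h4 := h2.dom.s0
  have h5 := h1.Ψ_pos
  rw [div_eq_div_iff h3.ne' h4.ne'] at e1
  exact (mul_left_cancel₀ h5.ne' e1).symm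

end Pool.Agent.OptRes
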