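import Pool.Agent.OptRes.ExC
import Pool.Agent.OptRes.T2c

/-!
# Existence of the multiplier
-/

open MeasureTheory Set Filter Topology

namespace Pool.Agent.OptRes

private theorem key_seq {l₀ ρ s : ℝ} (hl0 : 0 < l₀) (hl3 : l₀ < 3) (hP0 : 0 < Ps l₀)
    (hP1 : 1 - l₀ < Ps l₀) (hc : Crit l₀ (Ps l₀) ρ s) (σ : ℝ) (hσ : |σ| = 1) :
    ∃ (ln ρn sn : ℕ → ℝ), (∀ n, 0 < σ * (ln n - l₀)) ∧ (∀ n, 0 < ln n ∧ ln n ≤ 3) ∧
      (∀ n, Dom (ρn n) (sn n)) ∧ (∀ n, Phi (ln n) (ρn n) (sn n) = Ps (ln n)) ∧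
      Tendsto (fun n => mbar (ρn n) (sn n)) atTop (𝓝 (mbar ρ s)) := by
  have hPs : ContinuousAt Ps l₀ := (Ps_continuousOn l₀ hl0.le).continuousAt (Ici_mem_nhds hl0)
  have hgood : ∀ᶠ l in 𝓝 l₀, 0 < l ∧ l ≤ 3 ∧ 0 < Ps l ∧ 1 - l < Ps l := by
    have e1 : ∀ᶠ l in 𝓝 l₀, 0 < l := lt_mem_nhds hl0
    have e2 : ∀ᶠ l in 𝓝 l₀, l < 3 := gt_mem_nhds hl3
    have e3 : ∀ᶠ l in 𝓝 l₀, 0 < Ps l := hPs.eventually (lt_mem_nhds hP0)
    have e4 : ∀ᶠ l in 𝓝 l₀, 1 < Ps l + l := by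
      have : ContinuousAt (fun l => Ps l + l) l₀ := hPs.add continuousAt_id
      exact this.eventually (lt_mem_nhds (by linarith))
    filter_upwards [e1, e2, e3, e4] with l a b c d
    exact ⟨a, b.le, c, by linarith⟩
  obtain ⟨η, hη, hball⟩ := Metric.eventually_nhds_iff.1 hgood
  set ln : ℕ → ℝ := fun n => l₀ + σ * (η / 2 * (1 / ((n : ℝ) + 1))) with hln
  have hpos : ∀ n : ℕ, 0 < η / 2 * (1 / ((n : ℝ) + 1)) := fun n => by positivity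
  have hle : ∀ n : ℕ, η / 2 * (1 / ((n : ℝ) + 1)) < η := fun n => by
    have : 1 / ((n : ℝ) + 1) ≤ 1 := by
      rw [div_le_one (by positivity)]
      have := Nat.cast_nonneg (α := ℝ) n
      linarith
    nlinarith
  have hg : ∀ n, 0 < ln n ∧ ln n ≤ 3 ∧ 0 < Ps (ln n) ∧ 1 - ln n < Ps (ln n) := by
    intro n
    apply hball
    rw [Real.dist_eq, hln]
    simp only [add_sub_cancel_left]
    rw [abs_mul, hσ, one_mul, abs_of_pos (hpos n)]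
    exact hle n
  have hlim : Tendsto ln atTop (𝓝 l₀) := by
    have h2 : Tendsto (fun n : ℕ => l₀ + σ * (η / 2 * (1 / ((n : ℝ) + 1)))) atTop
        (𝓝 (l₀ + σ * (η / 2 * 0))) :=
      ((tendsto_one_div_add_atTop_nhds_zero_nat.const_mul _).const_mul _).const_add _
    simpa [hln] using h2
  have hσ2 : σ * σ = 1 := by
    have : σ * σ = |σ| * |σ| := (abs_mul_abs_self σ).symm
    rw [this, hσ, one_mul]
  have hatt : ∀ n, ∃ ρ' s', Dom ρ' s' ∧ Phi (ln n) ρ' s' = Ps (ln n) := fun n =>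
    attained (hg n).1.le (hg n).2.2.1 (hg n).2.2.2
  choose ρn sn hdom hPhi using hatt
  have hPlim : Tendsto (fun n => Phi (ln n) (ρn n) (sn n)) atTop (𝓝 (Ps l₀)) := by
    simp only [hPhi]
    exact hPs.tendsto.comp hlim
  obtain ⟨ρ', s', hd', hP', φ, hφ, hmb⟩ := compactness hl0.le hP0 hP1 ln ρn sn
    (fun n => (hg n).1.le) hlim hdom hPlim
  have hc' : Crit l₀ (Ps l₀) ρ' s' := by
    apply crit_of_max hl0 (Ps_valid hl0.le) hP0 hP1 hd'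
    rw [F_eq hd', hP']
    ring
  obtain ⟨rfl, rfl⟩ := crit_unique hc' hc
  refine ⟨fun n => ln (φ n), fun n => ρn (φ n), fun n => sn (φ n), ?_, ?_, ?_, ?_, hmb⟩
  · intro n
    simp only [hln, add_sub_cancel_left]
    rw [← mul_assoc, hσ2, one_mul]
    exact hpos _
  · exact fun n => ⟨(hg _).1, (hg _).2.1⟩
  · exact fun n => hdom _
  · exact fun n => hPhi _

theorem exists_lambda {m₀ : ℝ} (h0 : 0 < m₀) (h1 : m₀ < 1) :
    ∃ l₀ Ψ₀ ρ s : ℝ, 0 < l₀ ∧ Valid l₀ Ψ₀ ∧ Dom ρ s ∧ mbar ρ s = m₀ ∧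
      tbar ρ s - l₀ * m₀ = Ψ₀ ∧
      (∀ ε > 0, ∃ l Ψ, l₀ < l ∧ Valid l Ψ ∧ Ψ ≤ Ψ₀ - (m₀ - ε) * (l - l₀)) ∧
      (∀ ε > 0, ∃ l Ψ, 0 < l ∧ l < l₀ ∧ Valid l Ψ ∧ Ψ ≤ Ψ₀ + (m₀ + ε) * (l₀ - l)) := by
  have hcont : ContinuousOn (fun l => Ps l + l * m₀) (Icc (0 : ℝ) 3) :=
    (Ps_continuousOn.mono Icc_subset_Ici_self).add (continuousOn_id.mul continuousOn_const)
  obtain ⟨l₀, hl₀, hmin'⟩ := isCompact_Icc.exists_isMinOn (nonempty_Icc.2 (by norm_num)) hcont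
  have hmin : ∀ l ∈ Icc (0 : ℝ) 3, Ps l₀ + l₀ * m₀ ≤ Ps l + l * m₀ := fun l hl => hmin' hl
  have hl3 : l₀ < 3 := by
    rcases hl₀.2.lt_or_eq with h | h
    · exact h
    · subst h
      exact (not_three h0 h1 hmin).elim
  have hP1 : 1 - l₀ < Ps l₀ := not_const h0 h1 hl₀.1 hl3 hmin
  have hl0 : 0 < l₀ := by
    rcases hl₀.1.lt_or_eq with h | h
    · exact h
    · subst h
      rw [Ps_zero] at hP1
      linarith
  have hP0 : 0 < Ps l₀ := Ps_pos hl0.le hl3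
  obtain ⟨ρ, s, hd, hP, hc⟩ := crit_at hl0 hP0 hP1
  obtain ⟨lp, ρp, sp, hp1, hp2, hp3, hp4, hp5⟩ := key_seq hl0 hl3 hP0 hP1 hc 1 (by norm_num)
  obtain ⟨lm, ρm, sm, hm1, hm2, hm3, hm4, hm5⟩ := key_seq hl0 hl3 hP0 hP1 hc (-1) (by norm_num)
  have hconv : ∀ {l ρ' s' : ℝ}, Dom ρ' s' → Phi l ρ' s' = Ps l →
      Ps l + (l - l₀) * mbar ρ' s' ≤ Ps l₀ := by
    intro l ρ' s' hd' hP'
    have e1 : Phi l₀ ρ' s' = Ps l + (l - l₀) * mbar ρ' s' := by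
      rw [← hP']; unfold Phi; ring
    rw [← e1]
    exact Phi_le_Ps hl0.le hd'
  have hpm : ∀ n, mbar (ρp n) (sp n) ≤ m₀ := by
    intro n
    have e1 := hconv (hp3 n) (hp4 n)
    have e2 := hmin (lp n) ⟨(hp2 n).1.le, (hp2 n).2⟩
    have e3 : 0 < lp n - l₀ := by have := hp1 n; linarith
    have e4 : (lp n - l₀) * mbar (ρp n) (sp n) ≤ (lp n - l₀) * m₀ := by linarith
    exact le_of_mul_le_mul_left e4 e3
  have hmm : ∀ n, m₀ ≤ mbar (ρm n) (sm n) := by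
    intro n
    have e1 := hconv (hm3 n) (hm4 n)
    have e2 := hmin (lm n) ⟨(hm2 n).1.le, (hm2 n).2⟩
    have e3 : 0 < l₀ - lm n := by have := hm1 n; linarith
    have e4 : (l₀ - lm n) * m₀ ≤ (l₀ - lm n) * mbar (ρm n) (sm n) := by linarith
    exact le_of_mul_le_mul_left e4 e3
  have hmb : mbar ρ s = m₀ :=
    le_antisymm (le_of_tendsto' hp5 hpm) (ge_of_tendsto' hm5 hmm)
  rw [hmb] at hp5 hm5
  refine ⟨l₀, Ps l₀, ρ, s, hl0, Ps_valid hl0.le, hd, hmb, ?_, ?_, ?_⟩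
  · rw [← hP, Phi, hmb]
  · intro ε hε
    obtain ⟨n, hn⟩ := (hp5.eventually (lt_mem_nhds (show m₀ - ε < m₀ by linarith))).exists
    have e1 := hconv (hp3 n) (hp4 n)
    have e3 : 0 < lp n - l₀ := by have := hp1 n; linarith
    have e4 : (lp n - l₀) * (m₀ - ε) ≤ (lp n - l₀) * mbar (ρp n) (sp n) :=
      mul_le_mul_of_nonneg_left hn.le e3.le
    exact ⟨lp n, Ps (lp n), by linarith, Ps_valid (hp2 n).1.le, by linarith⟩
  · intro ε hε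
    obtain ⟨n, hn⟩ := (hm5.eventually (gt_mem_nhds (show m₀ < m₀ + ε by linarith))).exists
    have e1 := hconv (hm3 n) (hm4 n)
    have e3 : 0 < l₀ - lm n := by have := hm1 n; linarith
    have e4 : (l₀ - lm n) * mbar (ρm n) (sm n) ≤ (l₀ - lm n) * (m₀ + ε) :=
      mul_le_mul_of_nonneg_left hn.le e3.le
    exact ⟨lm n, Ps (lm n), (hm2 n).1, by linarith, Ps_valid (hm2 n).1.le, by linarith⟩

end Pool.Agent.OptRes
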