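import Pool.Agent.OptRes.Defs

/-!
# Scaling
-/

open MeasureTheory Set Filter Topology

namespace Pool.Agent.OptRes

private lemma scale_qmp {a : ℝ} (ha : a ≠ 0) {s t : Set ℝ} (h : MapsTo (fun x => a * x) s t) :
    Measure.QuasiMeasurePreserving (fun x : ℝ => a * x) (volume.restrict s)
      (volume.restrict t) := by
  refine Measure.QuasiMeasurePreserving.restrict ⟨measurable_const_mul a, ?_⟩ h
  rw [Real.map_volume_mul_left ha]
  exact Measure.smul_absolutelyContinuous

theorem IsSol.scale {κ μ L : ℝ} (hκ : 0 < κ) (hμ : 0 < μ) (hL : L = Real.sqrt (κ / μ))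
    {m₀ : ℝ} {m θ : ℝ → ℝ} (hm : Adm κ m₀ m) (h : IsSol μ m θ) :
    ∃ w, Sol L (fun x => m (x / L) / κ) (fun x => θ (x / L) / κ) w := by
  have hL0 : 0 < L := by rw [hL]; exact Real.sqrt_pos.2 (div_pos hκ hμ)
  have hL2 : L ^ 2 = κ / μ := by rw [hL]; exact Real.sq_sqrt (div_pos hκ hμ).le
  obtain ⟨w, hder, heq, hw1⟩ := h.ex
  have hmaps : MapsTo (fun x => L⁻¹ * x) (Ioo 0 L) (Ioo 0 1) := by
    intro x hx
    refine ⟨by have := hx.1; positivity, ?_⟩
    show L⁻¹ * x < 1
    rw [inv_mul_lt_iff₀ hL0]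
    linarith [hx.2]
  have hmaps' : MapsTo (fun x => x / L) (Icc 0 L) (Icc 0 1) := by
    intro x hx
    exact ⟨div_nonneg hx.1 hL0.le, (div_le_one hL0).2 hx.2⟩
  have hq := scale_qmp (inv_ne_zero hL0.ne') hmaps
  have hmeq : (fun x => m (x / L)) = m ∘ (fun x => L⁻¹ * x) := by
    ext x
    simp only [Function.comp_apply, div_eq_inv_mul]
  have hw0 : w 0 = 0 := by
    have := heq 0 ⟨le_rfl, zero_le_one⟩
    simp only [intervalIntegral.integral_same, neg_zero] at this
    rcases mul_eq_zero.1 this with h1 | h1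
    · exact absurd h1 hμ.ne'
    · exact h1
  refine ⟨fun x => w (x / L) / (κ * L), ⟨⟨hL0, ?_, ?_, ?_, ?_, ?_⟩, ?_, ?_⟩⟩
  · have h1 : AEStronglyMeasurable (m ∘ (fun x => L⁻¹ * x)) (volume.restrict (Ioo 0 L)) :=
      hm.meas.comp_quasiMeasurePreserving hq
    have h2 := h1.const_mul κ⁻¹
    rw [← hmeq] at h2
    have h3 : (fun x => m (x / L) / κ) = fun x => κ⁻¹ * m (x / L) := by
      ext x
      rw [div_eq_inv_mul]
    rw [h3]
    exact h2
  · have h1 := hq.ae hm.bound
    filter_upwards [h1] with x hx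
    rw [div_eq_inv_mul x L]
    refine ⟨div_nonneg hx.1 hκ.le, (div_le_one hκ).2 hx.2⟩
  · intro x hx
    have h1 := hder (x / L) (hmaps' hx)
    have h2 : HasDerivWithinAt (fun x => x / L) (1 / L) (Icc 0 L) x :=
      (hasDerivWithinAt_id x (Icc 0 L)).div_const L
    have h3 := (h1.comp x h2 hmaps').div_const κ
    have h4 : w (x / L) / (κ * L) = w (x / L) * (1 / L) / κ := by
      field_simp
    rw [h4]
    exact h3
  · intro x hx
    have h1 := heq (x / L) (hmaps' hx)
    have h2 : ∫ t in (0 : ℝ)..x, θ (t / L) / κ * (θ (t / L) / κ - m (t / L) / κ) =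
        -(L / κ ^ 2) * ∫ t in (0 : ℝ)..(x / L), θ t * (m t - θ t) := by
      have h3 : ∫ t in (0 : ℝ)..x, θ (t / L) / κ * (θ (t / L) / κ - m (t / L) / κ) =
          ∫ t in (0 : ℝ)..x, (fun y => -(1 / κ ^ 2) * (θ y * (m y - θ y))) (t / L) := by
        refine intervalIntegral.integral_congr fun t _ => ?_
        simp only
        field_simp
        ring
      rw [h3, intervalIntegral.integral_comp_div (fun y => -(1 / κ ^ 2) * (θ y * (m y - θ y)))
        hL0.ne', intervalIntegral.integral_const_mul]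
      simp only [zero_div, smul_eq_mul]
      ring
    simp only [zero_div]
    rw [h2, hw0]
    have h5 : ∫ t in (0 : ℝ)..(x / L), θ t * (m t - θ t) = -(μ * w (x / L)) := by
      rw [h1, neg_neg]
    rw [h5]
    have h6 : μ * L ^ 2 = κ := by rw [hL2]; field_simp
    have h7 : L ≠ 0 := hL0.ne'
    have h8 : κ ≠ 0 := hκ.ne'
    field_simp
    rw [← h6]
    ring
  · intro x hx
    have : x / L ∈ Ioo (0 : ℝ) 1 := ⟨div_pos hx.1 hL0, (div_lt_one hL0).2 hx.2⟩
    exact div_pos (h.pos _ this) hκ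
  · simp [hw0]
  · simp only [div_self hL0.ne', hw1, zero_div]

theorem Sol.unscale {κ μ L : ℝ} (hκ : 0 < κ) (hμ : 0 < μ) (hL : L = Real.sqrt (κ / μ))
    {m₀ : ℝ} {m θ w : ℝ → ℝ} (h : Sol L m θ w) (hm : ∫ x in (0 : ℝ)..L, m x = m₀ / κ * L) :
    Adm κ m₀ (fun x => κ * m (L * x)) ∧
      IsSol μ (fun x => κ * m (L * x)) (fun x => κ * θ (L * x)) := by
  have hL0 : 0 < L := h.L_pos
  have hL2 : L ^ 2 = κ / μ := by rw [hL]; exact Real.sq_sqrt (div_pos hκ hμ).le
  have h6 : μ * L ^ 2 = κ := by rw [hL2]; field_simp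
  have hmaps : MapsTo (fun x => L * x) (Ioo 0 1) (Ioo 0 L) := by
    intro x hx
    refine ⟨by have := hx.1; positivity, ?_⟩
    show L * x < L
    nlinarith [hx.2]
  have hmaps' : MapsTo (fun x => L * x) (Icc 0 1) (Icc 0 L) := by
    intro x hx
    refine ⟨mul_nonneg hL0.le hx.1, ?_⟩
    show L * x ≤ L
    nlinarith [hx.2]
  have hq := scale_qmp hL0.ne' hmaps
  refine ⟨⟨?_, ?_, ?_⟩, ⟨?_, ⟨fun x => κ * L * w (L * x), ?_, ?_, ?_⟩⟩⟩
  · exact (h.meas.comp_quasiMeasurePreserving hq).const_mul κ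
  · have h1 := hq.ae h.bound
    filter_upwards [h1] with x hx
    refine ⟨mul_nonneg hκ.le hx.1, ?_⟩
    nlinarith [hx.2]
  · have h1 : ∫ x in (0 : ℝ)..1, κ * m (L * x) = κ * (L⁻¹ * ∫ x in (0 : ℝ)..L, m x) := by
      rw [intervalIntegral.integral_const_mul, intervalIntegral.integral_comp_mul_left _ hL0.ne']
      simp
    rw [h1, hm]
    field_simp
  · intro x hx
    exact mul_pos hκ (h.pos _ (hmaps hx))
  · intro x hx
    have h1 := h.der (L * x) (hmaps' hx)
    have h2 : HasDerivWithinAt (fun x => L * x) L (Icc 0 1) x := by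
      simpa using (hasDerivWithinAt_id x (Icc 0 1)).const_mul L
    have h3 := (h1.comp x h2 hmaps').const_mul κ
    have h4 : κ * L * w (L * x) = κ * (w (L * x) * L) := by ring
    show HasDerivWithinAt (fun x => κ * θ (L * x)) (κ * L * w (L * x)) (Icc 0 1) x
    rw [h4]
    exact h3
  · intro x hx
    have h1 := h.eqn (L * x) (hmaps' hx)
    rw [h.w0, zero_add] at h1
    have h2 : ∫ t in (0 : ℝ)..x, κ * θ (L * t) * (κ * m (L * t) - κ * θ (L * t)) =
        -(κ ^ 2 / L) * ∫ t in (0 : ℝ)..(L * x), θ t * (θ t - m t) := by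
      have h3 : ∫ t in (0 : ℝ)..x, κ * θ (L * t) * (κ * m (L * t) - κ * θ (L * t)) =
          ∫ t in (0 : ℝ)..x, (fun y => -(κ ^ 2) * (θ y * (θ y - m y))) (L * t) := by
        refine intervalIntegral.integral_congr fun t _ => ?_
        simp only
        ring
      rw [h3, intervalIntegral.integral_comp_mul_left (fun y => -(κ ^ 2) * (θ y * (θ y - m y)))
        hL0.ne', intervalIntegral.integral_const_mul]
      simp only [mul_zero, smul_eq_mul]
      ring
    rw [h2, ← h1]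
    have h7 : L ≠ 0 := hL0.ne'
    field_simp
    rw [← h6]
  · simp only [mul_one, h.wL, mul_zero]

end Pool.Agent.OptRes
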