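import Mathlib

/-!
# Prefix convergence implies weak convergence
-/

open MeasureTheory Set Filter Topology

namespace Pool.Agent.OptRes

private lemma weak_integrable {μ : Measure ℝ} {κ : ℝ} {m φ : ℝ → ℝ}
    (hmeas : AEStronglyMeasurable m μ) (hb : ∀ᵐ x ∂μ, |m x| ≤ κ) (hφ : Integrable φ μ) :
    Integrable (fun x => m x * φ x) μ :=
  hφ.bdd_mul hmeas (by simpa [Real.norm_eq_abs] using hb)

private lemma weak_bound {μ : Measure ℝ} {κ : ℝ} {m φ : ℝ → ℝ}
    (hb : ∀ᵐ x ∂μ, |m x| ≤ κ) (hφ : Integrable φ μ) :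
    |∫ x, m x * φ x ∂μ| ≤ κ * ∫ x, |φ x| ∂μ := by
  have h1 : ∀ᵐ x ∂μ, ‖m x * φ x‖ ≤ κ * |φ x| := by
    filter_upwards [hb] with x hx
    rw [Real.norm_eq_abs, abs_mul]
    exact mul_le_mul_of_nonneg_right hx (abs_nonneg _)
  have h2 := norm_integral_le_of_norm_le (hφ.abs.const_mul κ) h1
  rw [integral_const_mul] at h2
  exact h2

private lemma weak_set {μ : Measure ℝ} [IsFiniteMeasure μ] {κ g : ℝ} (m : ℕ → ℝ → ℝ)
    (hmeas : ∀ k, AEStronglyMeasurable (m k) μ)
    (hb : ∀ k, ∀ᵐ x ∂μ, |m k x| ≤ κ)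
    (huniv : Tendsto (fun k => ∫ x, m k x ∂μ) atTop (𝓝 (g * μ.real univ)))
    (hpre : ∀ b : ℝ, Tendsto (fun k => ∫ x in Iic b, m k x ∂μ) atTop (𝓝 (g * μ.real (Iic b))))
    (s : Set ℝ) (hs : MeasurableSet s) :
    Tendsto (fun k => ∫ x in s, m k x ∂μ) atTop (𝓝 (g * μ.real s)) := by
  have hint : ∀ k, Integrable (m k) μ := fun k =>
    Integrable.of_bound (hmeas k) κ (by simpa [Real.norm_eq_abs] using hb k)
  have hκ : ∀ k, ∀ t, MeasurableSet t → ‖∫ x in t, m k x ∂μ‖ ≤ κ * μ.real t := by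
    intro k t ht
    have := norm_setIntegral_le_of_norm_le_const_ae (μ := μ) (s := t) (f := m k) (C := κ)
      (measure_lt_top μ t) (by
        filter_upwards [ae_restrict_of_ae (hb k)] with x hx
        simpa [Real.norm_eq_abs] using hx)
    simpa using this
  induction s, hs using MeasurableSpace.induction_on_inter
    (borel_eq_generateFrom_Iic ℝ) isPiSystem_Iic with
  | empty => simp
  | basic t ht =>
    obtain ⟨b, rfl⟩ := ht
    exact hpre b
  | compl t ht ih =>
    have h1 : ∀ k, ∫ x in tᶜ, m k x ∂μ = ∫ x, m k x ∂μ - ∫ x in t, m k x ∂μ := by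
      intro k
      rw [← integral_add_compl ht (hint k)]
      ring
    have h2 : μ.real tᶜ = μ.real univ - μ.real t := by
      rw [measureReal_compl ht]
    simp_rw [h1, h2, mul_sub]
    exact huniv.sub ih
  | iUnion f hd hm ih =>
    have h1 : ∀ k, ∫ x in ⋃ i, f i, m k x ∂μ = ∑' i, ∫ x in f i, m k x ∂μ := fun k =>
      integral_iUnion hm hd (hint k).integrableOn
    have h3 : μ (⋃ i, f i) = ∑' i, μ (f i) := measure_iUnion hd hm
    have hne : ∑' i, μ (f i) ≠ ⊤ := h3 ▸ measure_ne_top μ _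
    have hsum : Summable fun i => μ.real (f i) := ENNReal.summable_toReal hne
    have h2 : μ.real (⋃ i, f i) = ∑' i, μ.real (f i) := by
      unfold Measure.real
      rw [h3]
      exact ENNReal.tsum_toReal_eq fun i => measure_ne_top μ _
    simp_rw [h1, h2]
    rw [← tsum_mul_left]
    exact tendsto_tsum_of_dominated_convergence (hsum.mul_left κ) ih
      (Eventually.of_forall fun k i => hκ k _ (hm i))

private lemma weak_fun {μ : Measure ℝ} [IsFiniteMeasure μ] {κ g : ℝ} (m : ℕ → ℝ → ℝ)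
    (hmeas : ∀ k, AEStronglyMeasurable (m k) μ)
    (hb : ∀ k, ∀ᵐ x ∂μ, |m k x| ≤ κ)
    (hs : ∀ s : Set ℝ, MeasurableSet s →
      Tendsto (fun k => ∫ x in s, m k x ∂μ) atTop (𝓝 (g * μ.real s)))
    {φ : ℝ → ℝ} (hφ : Integrable φ μ) :
    Tendsto (fun k => ∫ x, m k x * φ x ∂μ) atTop (𝓝 (g * ∫ x, φ x ∂μ)) := by
  refine Integrable.induction (P := fun φ : ℝ → ℝ =>
    Tendsto (fun k => ∫ x, m k x * φ x ∂μ) atTop (𝓝 (g * ∫ x, φ x ∂μ))) ?_ ?_ ?_ ?_ hφ
  · intro c s hsm _
    have h1 : ∀ k, ∫ x, m k x * s.indicator (fun _ => c) x ∂μ = c * ∫ x in s, m k x ∂μ := by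
      intro k
      rw [← integral_const_mul, ← integral_indicator hsm]
      refine integral_congr_ae (Eventually.of_forall fun x => ?_)
      by_cases hx : x ∈ s
      · simp [hx, mul_comm]
      · simp [hx]
    have h2 : ∫ x, s.indicator (fun _ => c) x ∂μ = c * μ.real s := by
      rw [integral_indicator hsm]
      simp [mul_comm]
    simp_rw [h1]
    rw [h2, show g * (c * μ.real s) = c * (g * μ.real s) by ring]
    exact (hs s hsm).const_mul c
  · intro f f' _ hf hf' h h'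
    have h1 : ∀ k, ∫ x, m k x * (f + f') x ∂μ = ∫ x, m k x * f x ∂μ + ∫ x, m k x * f' x ∂μ := by
      intro k
      rw [← integral_add (weak_integrable (hmeas k) (hb k) hf)
        (weak_integrable (hmeas k) (hb k) hf')]
      refine integral_congr_ae (Eventually.of_forall fun x => ?_)
      simp [mul_add]
    have h2 : ∫ x, (f + f') x ∂μ = ∫ x, f x ∂μ + ∫ x, f' x ∂μ := integral_add' hf hf'
    simp_rw [h1]
    rw [h2, mul_add]
    exact h.add h'
  · refine isClosed_of_closure_subset fun f hf => ?_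
    rw [Metric.mem_closure_iff] at hf
    show Tendsto (fun k => ∫ x, m k x * f x ∂μ) atTop (𝓝 (g * ∫ x, f x ∂μ))
    rw [Metric.tendsto_atTop]
    intro ε hε
    obtain ⟨f', hf', hd⟩ := hf (ε / (2 * (|κ| + |g| + 1))) (by positivity)
    have hf'' : Tendsto (fun k => ∫ x, m k x * f' x ∂μ) atTop (𝓝 (g * ∫ x, f' x ∂μ)) := hf'
    obtain ⟨N, hN⟩ := (Metric.tendsto_atTop.1 hf'') (ε / 2) (by positivity)
    refine ⟨N, fun n hn => ?_⟩
    have h0 := hN n hn
    have hfi : Integrable f μ := L1.integrable_coeFn f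
    have hfi' : Integrable f' μ := L1.integrable_coeFn f'
    have hdd : ∫ x, |f x - f' x| ∂μ < ε / (2 * (|κ| + |g| + 1)) := by
      refine lt_of_le_of_lt (le_of_eq ?_) hd
      rw [dist_eq_norm, L1.norm_eq_integral_norm]
      refine integral_congr_ae ?_
      filter_upwards [Lp.coeFn_sub f f'] with x hx
      rw [hx]
      simp [Real.norm_eq_abs]
    have hsub : Integrable (fun x => f x - f' x) μ := hfi.sub hfi'
    have e1 : ∫ x, m n x * f x ∂μ - ∫ x, m n x * f' x ∂μ = ∫ x, m n x * (f x - f' x) ∂μ := by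
      rw [← integral_sub (weak_integrable (hmeas n) (hb n) hfi)
        (weak_integrable (hmeas n) (hb n) hfi')]
      refine integral_congr_ae (Eventually.of_forall fun x => ?_)
      simp [mul_sub]
    have e2 : ∫ x, f x ∂μ - ∫ x, f' x ∂μ = ∫ x, (f x - f' x) ∂μ := (integral_sub hfi hfi').symm
    have b1 := weak_bound (hb n) hsub
    have b2 : |∫ x, (f x - f' x) ∂μ| ≤ ∫ x, |f x - f' x| ∂μ := abs_integral_le_integral_abs
    have hnn : 0 ≤ ∫ x, |f x - f' x| ∂μ := integral_nonneg fun x => abs_nonneg _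
    set I := ∫ x, |f x - f' x| ∂μ with hI
    rw [Real.dist_eq] at h0 ⊢
    have e3 : ∫ x, m n x * f x ∂μ - g * ∫ x, f x ∂μ =
        (∫ x, m n x * (f x - f' x) ∂μ) + (∫ x, m n x * f' x ∂μ - g * ∫ x, f' x ∂μ)
          - g * ∫ x, (f x - f' x) ∂μ := by
      rw [← e1, ← e2]; ring
    rw [e3]
    have t1 : |(∫ x, m n x * (f x - f' x) ∂μ)| ≤ |κ| * I :=
      b1.trans (mul_le_mul_of_nonneg_right (le_abs_self κ) hnn)
    have t2 : |g * ∫ x, (f x - f' x) ∂μ| ≤ |g| * I := by
      rw [abs_mul]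
      exact mul_le_mul_of_nonneg_left b2 (abs_nonneg g)
    have t3 : (|κ| + |g| + 1) * I < ε / 2 := by
      have h5 : 0 < |κ| + |g| + 1 := by positivity
      calc (|κ| + |g| + 1) * I < (|κ| + |g| + 1) * (ε / (2 * (|κ| + |g| + 1))) :=
            mul_lt_mul_of_pos_left hdd h5
        _ = ε / 2 := by field_simp
    have t4 := abs_sub ((∫ x, m n x * (f x - f' x) ∂μ) + (∫ x, m n x * f' x ∂μ - g * ∫ x, f' x ∂μ))
      (g * ∫ x, (f x - f' x) ∂μ)
    have t5 := abs_add_le (∫ x, m n x * (f x - f' x) ∂μ)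
      (∫ x, m n x * f' x ∂μ - g * ∫ x, f' x ∂μ)
    nlinarith
  · intro f f' hff' _ h
    have h1 : ∀ k, ∫ x, m k x * f' x ∂μ = ∫ x, m k x * f x ∂μ := by
      intro k
      refine integral_congr_ae ?_
      filter_upwards [hff'] with x hx
      rw [hx]
    have h2 : ∫ x, f' x ∂μ = ∫ x, f x ∂μ := integral_congr_ae hff'.symm
    simp_rw [h1]
    rw [h2]
    exact h

theorem weak_of_prefix {κ g : ℝ} (m : ℕ → ℝ → ℝ)
    (hmeas : ∀ k, AEStronglyMeasurable (m k) (volume.restrict (Ioo (0 : ℝ) 1)))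
    (hb : ∀ k, ∀ᵐ x ∂(volume.restrict (Ioo (0 : ℝ) 1)), |m k x| ≤ κ)
    (hpre : ∀ β ∈ Icc (0 : ℝ) 1, Tendsto (fun k => ∫ x in (0 : ℝ)..β, m k x) atTop (𝓝 (g * β)))
    (φ : ℝ → ℝ) (hφ : IntegrableOn φ (Ioo (0 : ℝ) 1)) :
    Tendsto (fun k => ∫ x in (0 : ℝ)..1, m k x * φ x) atTop (𝓝 (g * ∫ x in (0 : ℝ)..1, φ x)) := by
  have hconv : ∀ f : ℝ → ℝ, ∀ β ∈ Icc (0 : ℝ) 1, ∫ x in (0 : ℝ)..β, f x =
      ∫ x in Iic β, f x ∂(volume.restrict (Ioo (0 : ℝ) 1)) := by
    intro f β hβ
    rw [intervalIntegral.integral_of_le hβ.1, Measure.restrict_restrict measurableSet_Iic]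
    rcases eq_or_lt_of_le hβ.2 with h | h
    · rw [h, integral_Ioc_eq_integral_Ioo]
      congr 2
      ext x
      simp only [mem_Ioo, mem_inter_iff, mem_Iic]
      constructor
      · intro hx; exact ⟨hx.2.le, hx⟩
      · intro hx; exact hx.2
    · congr 2
      ext x
      simp only [mem_Ioo, mem_inter_iff, mem_Iic, mem_Ioc]
      constructor
      · intro hx; exact ⟨hx.2, hx.1, lt_of_le_of_lt hx.2 h⟩
      · intro hx; exact ⟨hx.2.1, hx.1⟩
  have hconv1 : ∀ f : ℝ → ℝ, ∫ x in (0 : ℝ)..1, f x =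
      ∫ x, f x ∂(volume.restrict (Ioo (0 : ℝ) 1)) := by
    intro f
    rw [intervalIntegral.integral_of_le zero_le_one, integral_Ioc_eq_integral_Ioo]
  have hreal : ∀ β ∈ Icc (0 : ℝ) 1, (volume.restrict (Ioo (0 : ℝ) 1)).real (Iic β) = β := by
    intro β hβ
    have := hconv (fun _ => (1 : ℝ)) β hβ
    simp at this
    rw [measureReal_restrict_apply measurableSet_Iic]
    exact this.symm
  have hU : (volume.restrict (Ioo (0 : ℝ) 1)).real univ = 1 := by
    simp
  have huniv : Tendsto (fun k => ∫ x, m k x ∂(volume.restrict (Ioo (0 : ℝ) 1))) atTop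
      (𝓝 (g * (volume.restrict (Ioo (0 : ℝ) 1)).real univ)) := by
    rw [hU]
    have := hpre 1 ⟨zero_le_one, le_rfl⟩
    simp_rw [hconv1] at this
    exact this
  simp_rw [hconv1]
  refine weak_fun m hmeas hb (weak_set m hmeas hb huniv ?_) hφ
  intro b
  rcases lt_or_ge b 0 with h | h
  · have h0 : (volume.restrict (Ioo (0 : ℝ) 1)).restrict (Iic b) = 0 := by
      rw [Measure.restrict_restrict measurableSet_Iic, Measure.restrict_eq_zero]
      have : Iic b ∩ Ioo (0 : ℝ) 1 = ∅ := by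
        ext x
        simp only [mem_inter_iff, mem_Iic, mem_Ioo, mem_empty_iff_false, iff_false, not_and]
        intro h1 h2
        linarith
      rw [this, measure_empty]
    have h1 : (volume.restrict (Ioo (0 : ℝ) 1)).real (Iic b) = 0 := by
      have h2 : (volume.restrict (Ioo (0 : ℝ) 1)) (Iic b) = 0 := by
        rwa [← Measure.restrict_eq_zero]
      simp [Measure.real, h2]
    simp_rw [h0, h1]
    simp
  · rcases le_or_gt b 1 with h1 | h1
    · rw [hreal b ⟨h, h1⟩]
      have := hpre b ⟨h, h1⟩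
      simp_rw [hconv _ b ⟨h, h1⟩] at this
      exact this
    · have h2 : (volume.restrict (Ioo (0 : ℝ) 1)).restrict (Iic b) =
          volume.restrict (Ioo (0 : ℝ) 1) := by
        rw [Measure.restrict_restrict measurableSet_Iic]
        congr 1
        ext x
        simp only [mem_inter_iff, mem_Iic, mem_Ioo]
        constructor
        · intro hx; exact hx.2
        · intro hx; exact ⟨by linarith [hx.2], hx⟩
      have h3 : (volume.restrict (Ioo (0 : ℝ) 1)).real (Iic b) =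
          (volume.restrict (Ioo (0 : ℝ) 1)).real univ := by
        have : (volume.restrict (Ioo (0 : ℝ) 1)) (Iic b) =
            (volume.restrict (Ioo (0 : ℝ) 1)) univ := by
          rw [← Measure.restrict_apply_univ (Iic b), h2]
        simp only [Measure.real, this]
      simp_rw [h2]
      rw [h3]
      exact huniv

end Pool.Agent.OptRes
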