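import Pool.Agent.OptRes.Sub
import Pool.Agent.OptRes.Comp
import Pool.Agent.OptRes.Scale
import Pool.Agent.OptRes.Weak
import Pool.Agent.OptRes.ExD

/-!
# Weak convergence of the maximizers to the constant
-/

open MeasureTheory Set Filter Topology

namespace Pool.Agent.OptRes

namespace Final

theorem mint {L : ℝ} {m θ w : ℝ → ℝ} (h : Sol L m θ w) : IntervalIntegrable m volume 0 L := by
  rw [intervalIntegrable_iff_integrableOn_Ioo_of_le h.L_pos.le]
  have : Integrable m (volume.restrict (Ioo 0 L)) := by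
    refine Integrable.of_bound h.meas 1 ?_
    filter_upwards [h.bound] with x hx
    rw [Real.norm_eq_abs, abs_le]
    constructor <;> linarith [hx.1, hx.2]
  exact this

theorem tint {L : ℝ} {m θ w : ℝ → ℝ} (h : Sol L m θ w) : IntervalIntegrable θ volume 0 L :=
  h.cont.1.intervalIntegrable_of_Icc h.L_pos.le

theorem sub_int {f : ℝ → ℝ} {L x y : ℝ} (hf : IntervalIntegrable f volume 0 L) (hx : 0 ≤ x)
    (hxy : x ≤ y) (hy : y ≤ L) : IntervalIntegrable f volume x y := by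
  refine hf.mono_set ?_
  rw [uIcc_of_le hxy, uIcc_of_le (hx.trans (hxy.trans hy))]
  exact Icc_subset_Icc hx hy

/-- the payoff over `[x,y]` -/
theorem payoff_eq {L : ℝ} {m θ w : ℝ → ℝ} (h : Sol L m θ w) (l Ψ : ℝ) {x y : ℝ} (hx : 0 ≤ x)
    (hxy : x ≤ y) (hy : y ≤ L) :
    ∫ t in x..y, (θ t - l * m t - Ψ) =
      (∫ t in x..y, θ t) - l * (∫ t in x..y, m t) - Ψ * (y - x) := by
  have i1 := sub_int (tint h) hx hxy hy
  have i2 := sub_int (mint h) hx hxy hy
  rw [intervalIntegral.integral_sub (i1.sub (i2.const_mul l)) (by simp),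
    intervalIntegral.integral_sub i1 (i2.const_mul l), intervalIntegral.integral_const_mul,
    intervalIntegral.integral_const]
  simp only [smul_eq_mul]
  ring

/-- bound on the mass of a prefix, from the total payoff -/
theorem prefix_bound {L : ℝ} {m θ w : ℝ → ℝ} (h : Sol L m θ w) {l₀ Ψ₀ C M : ℝ} (hl₀ : 0 ≤ l₀)
    (hv₀ : Valid l₀ Ψ₀) (hM : ∫ x in (0 : ℝ)..L, m x = M)
    (hT : l₀ * M + Ψ₀ * L - C ≤ ∫ x in (0 : ℝ)..L, θ x)
    {l Ψ : ℝ} (hl : 0 ≤ l) (hv : Valid l Ψ) {y : ℝ} (hy0 : 0 ≤ y) (hy : y ≤ L) :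
    (l₀ - l) * (∫ x in (0 : ℝ)..y, m x) + (Ψ₀ - Ψ) * y ≤ 10 * l + C + 10 * l₀ := by
  have h1 := payoff_le h hl hv (le_refl 0) hy0 hy
  have h2 := payoff_le h hl₀ hv₀ hy0 hy (le_refl L)
  rw [payoff_eq h l Ψ (le_refl 0) hy0 hy] at h1
  rw [payoff_eq h l₀ Ψ₀ hy0 hy (le_refl L)] at h2
  have a1 := intervalIntegral.integral_add_adjacent_intervals
    (sub_int (tint h) (le_refl 0) hy0 hy) (sub_int (tint h) hy0 hy (le_refl L))
  have a2 := intervalIntegral.integral_add_adjacent_intervals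
    (sub_int (mint h) (le_refl 0) hy0 hy) (sub_int (mint h) hy0 hy (le_refl L))
  rw [hM] at a2
  have e1 : l₀ * (∫ x in (0 : ℝ)..y, m x) + l₀ * (∫ x in y..L, m x) = l₀ * M := by
    rw [← mul_add, a2]
  nlinarith

/-- the total payoff of a maximizer -/
theorem total {κ m₀ μ L C L₀ T : ℝ} (hκ : 0 < κ) (hμ : 0 < μ) (hL : L = Real.sqrt (κ / μ))
    (hL0 : L₀ ≤ L)
    (hcomp : ∀ L ≥ L₀, ∃ m θ w : ℝ → ℝ, Sol L m θ w ∧
      ∫ x in (0 : ℝ)..L, m x = m₀ / κ * L ∧ T * L - C ≤ ∫ x in (0 : ℝ)..L, θ x)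
    {θ : ℝ → ℝ}
    (hmax : ∀ m' θ', Adm κ m₀ m' → IsSol μ m' θ' →
      ∫ x in (0 : ℝ)..1, θ' x ≤ ∫ x in (0 : ℝ)..1, θ x) :
    T * L - C ≤ ∫ x in (0 : ℝ)..L, θ (x / L) / κ := by
  have hLpos : 0 < L := by rw [hL]; positivity
  obtain ⟨m', θ', w', hs', hm', hθ'⟩ := hcomp L hL0
  obtain ⟨hA, hS⟩ := hs'.unscale hκ hμ hL hm'
  have h1 := hmax _ _ hA hS
  have e1 : ∫ x in (0 : ℝ)..1, κ * θ' (L * x) = κ * (L⁻¹ * ∫ x in (0 : ℝ)..L, θ' x) := by
    rw [intervalIntegral.integral_const_mul, intervalIntegral.integral_comp_mul_left _ hLpos.ne']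
    simp
  have e2 : ∫ x in (0 : ℝ)..L, θ (x / L) / κ = L * (∫ x in (0 : ℝ)..1, θ x) / κ := by
    rw [intervalIntegral.integral_div, intervalIntegral.integral_comp_div _ hLpos.ne']
    simp [div_self hLpos.ne']
  rw [e1] at h1
  rw [e2]
  have h2 : (∫ x in (0 : ℝ)..L, θ' x) ≤ L * (∫ x in (0 : ℝ)..1, θ x) / κ := by
    rw [le_div_iff₀ hκ]
    have h3 := mul_le_mul_of_nonneg_left h1 hLpos.le
    have e3 : L * (κ * (L⁻¹ * ∫ x in (0 : ℝ)..L, θ' x)) = (∫ x in (0 : ℝ)..L, θ' x) * κ := by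
      field_simp
    rw [e3] at h3
    exact h3
  exact hθ'.trans h2

end Final

open Final

/-- **Main theorem** (full positive answer to Q1 of MP_1c79f0_an). -/
theorem weak_limit {κ m₀ : ℝ} (h0 : 0 < m₀) (h1 : m₀ < κ) (μ : ℕ → ℝ) (hμ : ∀ k, 0 < μ k)
    (hμ0 : Tendsto μ atTop (𝓝 0)) (m : ℕ → ℝ → ℝ) (hm : ∀ k, IsMaximizer κ m₀ (μ k) (m k))
    (φ : ℝ → ℝ) (hφ : IntegrableOn φ (Ioo (0 : ℝ) 1)) :
    Tendsto (fun k => ∫ x in (0 : ℝ)..1, m k x * φ x) atTop
      (𝓝 (m₀ * ∫ x in (0 : ℝ)..1, φ x)) := by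
  have hκ : 0 < κ := h0.trans h1
  have hn0 : 0 < m₀ / κ := div_pos h0 hκ
  have hn1 : m₀ / κ < 1 := (div_lt_one hκ).2 h1
  obtain ⟨l₀, Ψ₀, ρ, s, hl₀, hv₀, hd, hmb, htb, hup, hlo⟩ := exists_lambda hn0 hn1
  obtain ⟨C, L₀, hcomp⟩ := competitor hd hmb hn0 hn1
  -- lengths
  set L : ℕ → ℝ := fun k => Real.sqrt (κ / μ k) with hLdef
  have hLpos : ∀ k, 0 < L k := fun k => Real.sqrt_pos.2 (div_pos hκ (hμ k))
  have hLinf : Tendsto L atTop atTop := by
    apply Real.tendsto_sqrt_atTop.comp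
    have h2 : Tendsto (fun k => (μ k)⁻¹) atTop atTop := by
      apply Filter.Tendsto.inv_tendsto_nhdsGT_zero
      exact tendsto_nhdsWithin_iff.2 ⟨hμ0, Eventually.of_forall hμ⟩
    have h3 := h2.const_mul_atTop hκ
    simpa only [div_eq_mul_inv] using h3
  refine weak_of_prefix (κ := κ) m (fun k => (hm k).1.meas) (fun k => ?_) ?_ φ hφ
  · filter_upwards [(hm k).1.bound] with x hx
    rw [abs_of_nonneg hx.1]; exact hx.2
  intro β hβ
  -- scaled prefix masses
  set A : ℕ → ℝ := fun k => ∫ x in (0 : ℝ)..(β * L k), m k (x / L k) / κ with hAdef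
  have hpre : ∀ k, ∫ x in (0 : ℝ)..β, m k x = κ * (A k / L k) := by
    intro k
    have hL := (hLpos k).ne'
    rw [hAdef]
    simp only
    rw [intervalIntegral.integral_div, intervalIntegral.integral_comp_div _ hL]
    simp only [zero_div, mul_div_assoc, div_self hL, mul_one, smul_eq_mul]
    field_simp
  -- the two sided estimate
  have hest : ∀ k, L₀ ≤ L k → ∀ l Ψ, 0 ≤ l → Valid l Ψ →
      (l₀ - l) * A k + (Ψ₀ - Ψ) * (β * L k) ≤ 10 * l + C + 10 * l₀ := by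
    intro k hk l Ψ hl hv
    obtain ⟨hAdm, θ, hsol, hmax⟩ := hm k
    obtain ⟨w, hS⟩ := hsol.scale hκ (hμ k) (rfl : L k = Real.sqrt (κ / μ k)) hAdm
    have hT := total hκ (hμ k) (rfl : L k = Real.sqrt (κ / μ k)) hk hcomp hmax
    have hM : ∫ x in (0 : ℝ)..(L k), m k (x / L k) / κ = m₀ / κ * L k := by
      rw [intervalIntegral.integral_div, intervalIntegral.integral_comp_div _ (hLpos k).ne']
      simp only [zero_div, div_self (hLpos k).ne', smul_eq_mul, hAdm.mass]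
      ring
    refine prefix_bound hS hl₀.le hv₀ hM ?_ hl hv (mul_nonneg hβ.1 (hLpos k).le) ?_
    · refine le_trans (le_of_eq ?_) hT
      rw [← htb]; ring
    · calc β * L k ≤ 1 * L k := mul_le_mul_of_nonneg_right hβ.2 (hLpos k).le
        _ = L k := one_mul _
  have hlim : Tendsto (fun k => A k / L k) atTop (𝓝 (m₀ / κ * β)) := by
    rw [tendsto_order]
    refine ⟨fun a ha => ?_, fun a ha => ?_⟩
    · -- lower bound
      obtain ⟨l, Ψ, hl, hv, hΨ⟩ := hup ((m₀ / κ * β - a) / 2) (by linarith)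
      have hdl : 0 < l - l₀ := by linarith
      have hc : Tendsto (fun k => (10 * l + C + 10 * l₀) / (l - l₀) / L k) atTop (𝓝 0) :=
        hLinf.const_div_atTop _
      have hc' := (tendsto_order.1 hc).2 ((m₀ / κ * β - a) / 2) (by linarith)
      filter_upwards [hc', hLinf.eventually_ge_atTop L₀] with k hk1 hk2
      have h3 := hest k hk2 l Ψ (by linarith) hv
      have hLk := hLpos k
      have h4 : (m₀ / κ - (m₀ / κ * β - a) / 2) * (l - l₀) * (β * L k) ≤
          (Ψ₀ - Ψ) * (β * L k) :=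
        mul_le_mul_of_nonneg_right (by linarith) (mul_nonneg hβ.1 hLk.le)
      have h5 : (m₀ / κ - (m₀ / κ * β - a) / 2) * (β * L k) - (10 * l + C + 10 * l₀) / (l - l₀)
          ≤ A k := by
        have h6 : ((m₀ / κ - (m₀ / κ * β - a) / 2) * (β * L k) -
            (10 * l + C + 10 * l₀) / (l - l₀)) * (l - l₀) ≤ A k * (l - l₀) := by
          rw [sub_mul, div_mul_cancel₀ _ hdl.ne']
          nlinarith
        exact le_of_mul_le_mul_right h6 hdl
      have h7 : a < (m₀ / κ - (m₀ / κ * β - a) / 2) * β -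
          (10 * l + C + 10 * l₀) / (l - l₀) / L k := by
        have h8 : (m₀ / κ * β - a) / 2 * β ≤ (m₀ / κ * β - a) / 2 * 1 :=
          mul_le_mul_of_nonneg_left hβ.2 (by linarith)
        nlinarith
      refine lt_of_lt_of_le h7 ?_
      rw [le_div_iff₀ hLk, sub_mul, div_mul_cancel₀ _ hLk.ne']
      linarith
    · -- upper bound
      obtain ⟨l, Ψ, hl0, hl, hv, hΨ⟩ := hlo ((a - m₀ / κ * β) / 2) (by linarith)
      have hdl : 0 < l₀ - l := by linarith
      have hc : Tendsto (fun k => (10 * l + C + 10 * l₀) / (l₀ - l) / L k) atTop (𝓝 0) :=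
        hLinf.const_div_atTop _
      have hc' := (tendsto_order.1 hc).2 ((a - m₀ / κ * β) / 2) (by linarith)
      filter_upwards [hc', hLinf.eventually_ge_atTop L₀] with k hk1 hk2
      have h3 := hest k hk2 l Ψ hl0.le hv
      have hLk := hLpos k
      have h4 : - ((m₀ / κ + (a - m₀ / κ * β) / 2) * (l₀ - l) * (β * L k)) ≤
          (Ψ₀ - Ψ) * (β * L k) := by
        rw [← neg_mul]
        exact mul_le_mul_of_nonneg_right (by linarith) (mul_nonneg hβ.1 hLk.le)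
      have h5 : A k ≤ (m₀ / κ + (a - m₀ / κ * β) / 2) * (β * L k) +
          (10 * l + C + 10 * l₀) / (l₀ - l) := by
        have h6 : A k * (l₀ - l) ≤ ((m₀ / κ + (a - m₀ / κ * β) / 2) * (β * L k) +
            (10 * l + C + 10 * l₀) / (l₀ - l)) * (l₀ - l) := by
          rw [add_mul, div_mul_cancel₀ _ hdl.ne']
          nlinarith
        exact le_of_mul_le_mul_right h6 hdl
      have h7 : (m₀ / κ + (a - m₀ / κ * β) / 2) * β +
          (10 * l + C + 10 * l₀) / (l₀ - l) / L k < a := by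
        have h8 : (a - m₀ / κ * β) / 2 * β ≤ (a - m₀ / κ * β) / 2 * 1 :=
          mul_le_mul_of_nonneg_left hβ.2 (by linarith)
        nlinarith
      refine lt_of_le_of_lt ?_ h7
      rw [div_le_iff₀ hLk, add_mul, div_mul_cancel₀ _ hLk.ne']
      linarith
  have hfin := hlim.const_mul κ
  have e : κ * (m₀ / κ * β) = m₀ * β := by field_simp
  rw [e] at hfin
  refine hfin.congr (fun k => (hpre k).symm)

end Pool.Agent.OptRes
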