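import Pool.Agent.OptRes.Defs2
import Pool.Agent.OptRes.Kap

/-!
# MP_1c79f0_an, module KapD: derivatives of `k1`, `kw` along curves
-/

open MeasureTheory Set Filter Topology

namespace Pool.Agent.OptRes

/-- Differentiation under the integral along a curve. -/
private theorem deriv_int {h h' : ℝ → ℝ} (hh : ∀ x ∈ Ioo (0 : ℝ) (1 / 6), HasDerivAt h (h' x) x)
    (hc : ContinuousOn h' (Ioo (0 : ℝ) (1 / 6))) {κ e : ℝ → ℝ} {κ' e' x : ℝ}
    (hκ : HasDerivAt κ κ' x) (he : HasDerivAt e e' x) (h0 : 0 < κ x) (he0 : 0 < e x)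
    (h1 : κ x + e x < 1 / 6) :
    HasDerivAt (fun y => ∫ τ in (0 : ℝ)..1, h (κ y + (1 - τ ^ 2) * e y))
      (∫ τ in (0 : ℝ)..1, h' (κ x + (1 - τ ^ 2) * e x) * (κ' + (1 - τ ^ 2) * e')) x := by
  set α : ℝ := κ x / 2 with hα
  set β : ℝ := (κ x + e x + 1 / 6) / 2 with hβ
  have hα0 : 0 < α := by positivity
  have hαx : α < κ x := by linarith
  have hβx : κ x + e x < β := by linarith
  have hβ1 : β < 1 / 6 := by linarith
  have hsub : Icc α β ⊆ Ioo (0 : ℝ) (1 / 6) := fun z hz => ⟨hα0.trans_le hz.1, hz.2.trans_lt hβ1⟩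
  have hhc : ContinuousOn h (Ioo (0 : ℝ) (1 / 6)) := fun z hz =>
    (hh z hz).continuousAt.continuousWithinAt
  obtain ⟨C, hC⟩ := isCompact_Icc.exists_bound_of_continuousOn (hc.mono hsub)
  obtain ⟨A, hA⟩ := (hκ.hasFDerivAt.isBigO_sub).bound
  obtain ⟨B, hB⟩ := (he.hasFDerivAt.isBigO_sub).bound
  have hE1 : ∀ᶠ y in 𝓝 x, α < κ y := hκ.continuousAt.eventually_const_lt hαx
  have hE2 : ∀ᶠ y in 𝓝 x, 0 < e y := he.continuousAt.eventually_const_lt he0
  have hE3 : ∀ᶠ y in 𝓝 x, κ y + e y < β :=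
    (hκ.continuousAt.add he.continuousAt).eventually_lt_const hβx
  have hmem : ∀ y, α < κ y → 0 < e y → κ y + e y < β → ∀ τ ∈ Icc (0 : ℝ) 1,
      κ y + (1 - τ ^ 2) * e y ∈ Icc α β := by
    intro y e1 e2 e3 τ hτ
    have h2 : 0 ≤ 1 - τ ^ 2 := by nlinarith [hτ.1, hτ.2]
    have h3 : 0 ≤ (1 - τ ^ 2) * e y := mul_nonneg h2 e2.le
    have h4 : 0 ≤ τ ^ 2 * e y := mul_nonneg (sq_nonneg _) e2.le
    constructor
    · linarith
    · nlinarith
  have hx1 := hE1.self_of_nhds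
  have hx2 := hE2.self_of_nhds
  have hx3 := hE3.self_of_nhds
  have hcont : ∀ y, α < κ y → 0 < e y → κ y + e y < β →
      ContinuousOn (fun τ => h (κ y + (1 - τ ^ 2) * e y)) (Icc (0 : ℝ) 1) := by
    intro y e1 e2 e3
    refine hhc.comp (Continuous.continuousOn (by fun_prop)) ?_
    intro τ hτ
    exact hsub (hmem y e1 e2 e3 τ hτ)
  have hcont' : ContinuousOn (fun τ => h' (κ x + (1 - τ ^ 2) * e x) * (κ' + (1 - τ ^ 2) * e'))
      (Icc (0 : ℝ) 1) := by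
    refine ContinuousOn.mul (hc.comp (Continuous.continuousOn (by fun_prop)) ?_)
      (Continuous.continuousOn (by fun_prop))
    intro τ hτ
    exact hsub (hmem x hx1 hx2 hx3 τ hτ)
  have hint : ∀ f : ℝ → ℝ, ContinuousOn f (Icc (0 : ℝ) 1) →
      Integrable f (volume.restrict (Ioc (0 : ℝ) 1)) := fun f hf =>
    (hf.integrableOn_Icc).mono_set Ioc_subset_Icc_self
  set L : ℝ →L[ℝ] ℝ →L[ℝ] ℝ := ContinuousLinearMap.smulRightL ℝ ℝ ℝ 1
  set F' : ℝ → ℝ := fun τ => h' (κ x + (1 - τ ^ 2) * e x) * (κ' + (1 - τ ^ 2) * e')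
  have hF'm : AEStronglyMeasurable F' (volume.restrict (Ioc (0 : ℝ) 1)) :=
    (hint _ hcont').aestronglyMeasurable
  have hm : AEStronglyMeasurable (L ∘ F') (volume.restrict (Ioc (0 : ℝ) 1)) :=
    L.continuous.comp_aestronglyMeasurable hF'm
  have key := (hasFDerivAt_integral_of_dominated_loc_of_lip'
    (F := fun y τ => h (κ y + (1 - τ ^ 2) * e y)) (F' := L ∘ F') (x₀ := x)
    (μ := volume.restrict (Ioc (0 : ℝ) 1)) (bound := fun _ => C * (A + B))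
    (s := {y | α < κ y ∧ 0 < e y ∧ κ y + e y < β ∧ ‖κ y - κ x‖ ≤ A * ‖y - x‖ ∧
      ‖e y - e x‖ ≤ B * ‖y - x‖})
    (by filter_upwards [hE1, hE2, hE3, hA, hB] with y e1 e2 e3 e4 e5 using ⟨e1, e2, e3, e4, e5⟩)
    (fun y hy => (hint _ (hcont y hy.1 hy.2.1 hy.2.2.1)).aestronglyMeasurable)
    (hint _ (hcont x hx1 hx2 hx3)) hm ?_ (integrable_const _) ?_).2
  · have hFi : Integrable F' (volume.restrict (Ioc (0 : ℝ) 1)) := hint _ hcont'
    simp only [intervalIntegral.integral_of_le zero_le_one]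
    rw [hasDerivAt_iff_hasFDerivAt]
    simpa only [(· ∘ ·), ContinuousLinearMap.integral_comp_comm _ hFi] using! key
  · refine (ae_restrict_iff' measurableSet_Ioc).2 (Eventually.of_forall fun τ hτ y hy => ?_)
    obtain ⟨e1, e2, e3, e4, e5⟩ := hy
    have hτ' : τ ∈ Icc (0 : ℝ) 1 := Ioc_subset_Icc_self hτ
    have h2 : ‖h (κ y + (1 - τ ^ 2) * e y) - h (κ x + (1 - τ ^ 2) * e x)‖ ≤
        C * ‖(κ y + (1 - τ ^ 2) * e y) - (κ x + (1 - τ ^ 2) * e x)‖ :=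
      Convex.norm_image_sub_le_of_norm_hasDerivWithin_le (f' := h')
        (fun z hz => (hh z (hsub hz)).hasDerivWithinAt) hC (convex_Icc α β)
        (hmem x hx1 hx2 hx3 τ hτ') (hmem y e1 e2 e3 τ hτ')
    have h3 : |1 - τ ^ 2| ≤ 1 := by
      rw [abs_le]
      constructor <;> nlinarith [hτ'.1, hτ'.2]
    have h4 : ‖(κ y + (1 - τ ^ 2) * e y) - (κ x + (1 - τ ^ 2) * e x)‖ ≤
        (A + B) * ‖y - x‖ := by
      have h5 : (κ y + (1 - τ ^ 2) * e y) - (κ x + (1 - τ ^ 2) * e x) =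
          (κ y - κ x) + (1 - τ ^ 2) * (e y - e x) := by ring
      rw [h5]
      calc ‖(κ y - κ x) + (1 - τ ^ 2) * (e y - e x)‖
          ≤ ‖κ y - κ x‖ + ‖(1 - τ ^ 2) * (e y - e x)‖ := norm_add_le _ _
        _ = ‖κ y - κ x‖ + |1 - τ ^ 2| * ‖e y - e x‖ := by rw [norm_mul]; rfl
        _ ≤ A * ‖y - x‖ + 1 * (B * ‖y - x‖) :=
            add_le_add e4 (mul_le_mul h3 e5 (norm_nonneg _) zero_le_one)
        _ = (A + B) * ‖y - x‖ := by ring
    have hC0 : 0 ≤ C := (norm_nonneg _).trans (hC _ (hmem x hx1 hx2 hx3 τ hτ'))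
    calc ‖h (κ y + (1 - τ ^ 2) * e y) - h (κ x + (1 - τ ^ 2) * e x)‖
        ≤ C * ‖(κ y + (1 - τ ^ 2) * e y) - (κ x + (1 - τ ^ 2) * e x)‖ := h2
      _ ≤ C * ((A + B) * ‖y - x‖) := mul_le_mul_of_nonneg_left h4 hC0
      _ = C * (A + B) * ‖y - x‖ := by ring
  · refine (ae_restrict_iff' measurableSet_Ioc).2 (Eventually.of_forall fun τ hτ => ?_)
    have hτ' : τ ∈ Icc (0 : ℝ) 1 := Ioc_subset_Icc_self hτ
    have h2 : HasDerivAt (fun y => κ y + (1 - τ ^ 2) * e y) (κ' + (1 - τ ^ 2) * e') x :=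
      hκ.add (he.const_mul _)
    have h3 : HasDerivAt (fun y => h (κ y + (1 - τ ^ 2) * e y)) (F' τ) x :=
      (hh _ (hsub (hmem x hx1 hx2 hx3 τ hτ'))).comp x h2
    exact h3.hasFDerivAt

private theorem contOn_Kinv_aux (m n : ℕ) :
    ContinuousOn (fun x => 1 / (Kinv x ^ m * (1 - Kinv x) ^ n)) (Ioo (0 : ℝ) (1 / 6)) := by
  have hK := continuous_Kinv
  refine ContinuousOn.div continuousOn_const (Continuous.continuousOn (by fun_prop)) ?_
  intro x hx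
  have h1 := Kinv_pos hx.1
  have h2 := Kinv_lt_one hx.2
  have h3 : 0 < 1 - Kinv x := by linarith
  positivity

private theorem ee_pos {ρ s : ℝ} (h : Dom ρ s) : 0 < ee ρ s := by
  unfold ee
  have h1 : ρ ^ 3 < 1 := pow_lt_one₀ h.ρ0.le h.ρ1 (by norm_num)
  have h2 := h.s0
  have h3 : 0 < 1 - ρ ^ 3 := by linarith
  positivity

private theorem K_pos' {s : ℝ} (h0 : 0 < s) (h1 : s < 1) : 0 < K s := by
  unfold K
  have : s ^ 2 / 2 - s ^ 3 / 3 = s ^ 2 * (1 / 2 - s / 3) := by ring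
  rw [this]
  have : 0 < 1 / 2 - s / 3 := by linarith
  positivity

private theorem hasDerivAt_KS {S : ℝ → ℝ} {S' x : ℝ} (hS : HasDerivAt S S' x) :
    HasDerivAt (fun y => K (S y)) (S x * (1 - S x) * S') x := by
  unfold K
  have := ((hS.pow 2).div_const 2).sub ((hS.pow 3).div_const 3)
  refine this.congr_deriv ?_
  simp
  ring

private theorem hasDerivAt_eRS {R S : ℝ → ℝ} {R' S' x : ℝ} (hR : HasDerivAt R R' x)
    (hS : HasDerivAt S S' x) : HasDerivAt (fun y => ee (R y) (S y))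
      (S x ^ 2 * (1 - R x ^ 3) * S' - S x ^ 3 * R x ^ 2 * R') x := by
  unfold ee
  have := (((hS.pow 3).mul ((hR.pow 3).const_sub 1))).div_const 3
  refine this.congr_deriv ?_
  simp
  ring

private theorem U_facts {s e τ : ℝ} (h : KD s e) (h0 : 0 ≤ τ) (h1 : τ ≤ 1) :
    0 < Uf s e τ ∧ 0 < 1 - Uf s e τ := by
  obtain ⟨h2, h3, h4⟩ := Uf_mem h h0 h1
  exact ⟨h.s0.trans_le h2, by linarith⟩

private theorem intb_aux {s e : ℝ} (h : KD s e) (m n : ℕ) :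
    IntervalIntegrable (fun τ => 1 / (Uf s e τ ^ m * (1 - Uf s e τ) ^ n)) volume (0 : ℝ) 1 := by
  have hU := continuous_Uf s e
  refine ContinuousOn.intervalIntegrable ?_
  refine ContinuousOn.div continuousOn_const (Continuous.continuousOn (by fun_prop)) ?_
  intro τ hτ
  rw [uIcc_of_le zero_le_one] at hτ
  obtain ⟨h1, h2⟩ := U_facts h hτ.1 hτ.2
  positivity

private theorem intb_aux2 {s e : ℝ} (h : KD s e) (m n : ℕ) :
    IntervalIntegrable (fun τ => τ ^ 2 / (Uf s e τ ^ m * (1 - Uf s e τ) ^ n)) volume (0 : ℝ) 1 := by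
  have hU := continuous_Uf s e
  refine ContinuousOn.intervalIntegrable ?_
  refine ContinuousOn.div (Continuous.continuousOn (by fun_prop))
    (Continuous.continuousOn (by fun_prop)) ?_
  intro τ hτ
  rw [uIcc_of_le zero_le_one] at hτ
  obtain ⟨h1, h2⟩ := U_facts h hτ.1 hτ.2
  positivity

/-- derivative of `kap1` along a curve -/
private theorem hasDerivAt_kap1 {R S : ℝ → ℝ} {R' S' x : ℝ} (hR : HasDerivAt R R' x)
    (hS : HasDerivAt S S' x) (hd : Dom (R x) (S x)) :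
    HasDerivAt (fun y => kap1 (S y) (ee (R y) (S y)))
      (-(S x * (1 - S x) * S' + (S x ^ 2 * (1 - R x ^ 3) * S' - S x ^ 3 * R x ^ 2 * R')) *
        (∫ τ in (0 : ℝ)..1, 1 / (Uf (S x) (ee (R x) (S x)) τ ^ 3 *
          (1 - Uf (S x) (ee (R x) (S x)) τ))) +
        (S x ^ 2 * (1 - R x ^ 3) * S' - S x ^ 3 * R x ^ 2 * R') *
        (∫ τ in (0 : ℝ)..1, τ ^ 2 / (Uf (S x) (ee (R x) (S x)) τ ^ 3 *
          (1 - Uf (S x) (ee (R x) (S x)) τ)))) x := by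
  have hkd := hd.KD
  have hh : ∀ z ∈ Ioo (0 : ℝ) (1 / 6), HasDerivAt (fun z => 1 / Kinv z)
      (-(1 / (Kinv z ^ 3 * (1 - Kinv z) ^ 1))) z := by
    intro z hz
    have h1 := Kinv_pos hz.1
    have h2 : 0 < 1 - Kinv z := by have := Kinv_lt_one hz.2; linarith
    have h3 := (hasDerivAt_Kinv hz.1 hz.2).inv h1.ne'
    have h4 : (fun z => 1 / Kinv z) = (Kinv)⁻¹ := by
      funext z; simp
    rw [h4]
    refine h3.congr_deriv ?_
    field_simp
  have hc := (contOn_Kinv_aux 3 1).neg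
  have key := deriv_int hh hc (hasDerivAt_KS hS) (hasDerivAt_eRS hR hS) (K_pos' hd.s0 hd.s1)
    (ee_pos hd) hkd.K1
  refine key.congr_deriv ?_
  set s := S x
  set e := ee (R x) (S x)
  set a := S x * (1 - S x) * S'
  set b := S x ^ 2 * (1 - R x ^ 3) * S' - S x ^ 3 * R x ^ 2 * R'
  have i1 : IntervalIntegrable (fun τ => 1 / (Uf s e τ ^ 3 * (1 - Uf s e τ))) volume
      (0 : ℝ) 1 := by simpa using intb_aux hkd 3 1
  have i2 : IntervalIntegrable (fun τ => τ ^ 2 / (Uf s e τ ^ 3 * (1 - Uf s e τ))) volume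
      (0 : ℝ) 1 := by simpa using intb_aux2 hkd 3 1
  rw [← intervalIntegral.integral_const_mul, ← intervalIntegral.integral_const_mul,
    ← intervalIntegral.integral_add (i1.const_mul _) (i2.const_mul _)]
  refine intervalIntegral.integral_congr fun τ hτ => ?_
  rw [uIcc_of_le zero_le_one] at hτ
  obtain ⟨h1, h2⟩ := U_facts hkd hτ.1 hτ.2
  show -(1 / (Uf s e τ ^ 3 * (1 - Uf s e τ) ^ 1)) * (a + (1 - τ ^ 2) * b) =
    -(a + b) * (1 / (Uf s e τ ^ 3 * (1 - Uf s e τ))) +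
      b * (τ ^ 2 / (Uf s e τ ^ 3 * (1 - Uf s e τ)))
  field_simp
  ring

/-- derivative of `kapw` along a curve -/
private theorem hasDerivAt_kapw {R S : ℝ → ℝ} {R' S' x : ℝ} (hR : HasDerivAt R R' x)
    (hS : HasDerivAt S S' x) (hd : Dom (R x) (S x)) :
    HasDerivAt (fun y => kapw (S y) (ee (R y) (S y)))
      ((S x * (1 - S x) * S' + (S x ^ 2 * (1 - R x ^ 3) * S' - S x ^ 3 * R x ^ 2 * R')) *
        (∫ τ in (0 : ℝ)..1, 1 / (Uf (S x) (ee (R x) (S x)) τ *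
          (1 - Uf (S x) (ee (R x) (S x)) τ) ^ 3)) -
        (S x ^ 2 * (1 - R x ^ 3) * S' - S x ^ 3 * R x ^ 2 * R') *
        (∫ τ in (0 : ℝ)..1, τ ^ 2 / (Uf (S x) (ee (R x) (S x)) τ *
          (1 - Uf (S x) (ee (R x) (S x)) τ) ^ 3))) x := by
  have hkd := hd.KD
  have hh : ∀ z ∈ Ioo (0 : ℝ) (1 / 6), HasDerivAt (fun z => 1 / (1 - Kinv z))
      (1 / (Kinv z ^ 1 * (1 - Kinv z) ^ 3)) z := by
    intro z hz
    have h1 := Kinv_pos hz.1
    have h2 : 0 < 1 - Kinv z := by have := Kinv_lt_one hz.2; linarith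
    have h3 := ((hasDerivAt_Kinv hz.1 hz.2).const_sub 1).inv h2.ne'
    have h4 : (fun z => 1 / (1 - Kinv z)) = (fun z => 1 - Kinv z)⁻¹ := by
      funext z; simp
    rw [h4]
    refine h3.congr_deriv ?_
    field_simp
  have key := deriv_int hh (contOn_Kinv_aux 1 3) (hasDerivAt_KS hS) (hasDerivAt_eRS hR hS)
    (K_pos' hd.s0 hd.s1) (ee_pos hd) hkd.K1
  refine key.congr_deriv ?_
  set s := S x
  set e := ee (R x) (S x)
  set a := S x * (1 - S x) * S'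
  set b := S x ^ 2 * (1 - R x ^ 3) * S' - S x ^ 3 * R x ^ 2 * R'
  have i1 : IntervalIntegrable (fun τ => 1 / (Uf s e τ * (1 - Uf s e τ) ^ 3)) volume
      (0 : ℝ) 1 := by simpa using intb_aux hkd 1 3
  have i2 : IntervalIntegrable (fun τ => τ ^ 2 / (Uf s e τ * (1 - Uf s e τ) ^ 3)) volume
      (0 : ℝ) 1 := by simpa using intb_aux2 hkd 1 3
  rw [← intervalIntegral.integral_const_mul, ← intervalIntegral.integral_const_mul,
    ← intervalIntegral.integral_sub (i1.const_mul _) (i2.const_mul _)]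
  refine intervalIntegral.integral_congr fun τ hτ => ?_
  rw [uIcc_of_le zero_le_one] at hτ
  obtain ⟨h1, h2⟩ := U_facts hkd hτ.1 hτ.2
  show 1 / (Uf s e τ ^ 1 * (1 - Uf s e τ) ^ 3) * (a + (1 - τ ^ 2) * b) =
    (a + b) * (1 / (Uf s e τ * (1 - Uf s e τ) ^ 3)) -
      b * (τ ^ 2 / (Uf s e τ * (1 - Uf s e τ) ^ 3))
  field_simp
  ring

theorem hasDerivAt_k1 {R S : ℝ → ℝ} {R' S' x : ℝ} (hR : HasDerivAt R R' x)
    (hS : HasDerivAt S S' x) (hd : Dom (R x) (S x)) :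
    HasDerivAt (fun y => k1 (R y) (S y))
      (dk1r (R x) (S x) * (R' / R x) + dk1s (R x) (S x) * (S' / S x)) x := by
  have hkd := hd.KD
  have key := hS.mul (hasDerivAt_kap1 hR hS hd)
  have h1 := J3_eq hkd
  have h2 := J3t_eq hkd
  have hf : (fun y => k1 (R y) (S y)) = (S * fun y => kap1 (S y) (ee (R y) (S y))) := rfl
  rw [hf]
  refine key.congr_deriv ?_
  unfold dk1r dk1s k1 kw
  have hρ := hd.ρ0
  have hs := hd.s0
  have hr : R x ^ 3 < 1 := pow_lt_one₀ hd.ρ0.le hd.ρ1 (by norm_num)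
  have hr' : 0 < 1 - R x ^ 3 := by linarith
  have hee : ee (R x) (S x) = S x ^ 3 * (1 - R x ^ 3) / 3 := rfl
  have hc : 0 < 3 - 2 * S x * R x ^ 3 := by
    have h3 : S x * R x ^ 3 < 1 := by
      calc S x * R x ^ 3 < 1 * 1 := mul_lt_mul'' hd.s1 hr hs.le (by positivity)
        _ = 1 := by norm_num
    linarith
  set J := ∫ τ in (0 : ℝ)..1, 1 / (Uf (S x) (ee (R x) (S x)) τ ^ 3 *
    (1 - Uf (S x) (ee (R x) (S x)) τ))
  set Jt := ∫ τ in (0 : ℝ)..1, τ ^ 2 / (Uf (S x) (ee (R x) (S x)) τ ^ 3 *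
    (1 - Uf (S x) (ee (R x) (S x)) τ))
  set A := kap1 (S x) (ee (R x) (S x))
  set W := kapw (S x) (ee (R x) (S x))
  rw [hee] at h1 h2
  have hJ : J = (3 / S x + W) / (S x ^ 2 * (3 - 2 * S x * R x ^ 3)) := by
    rw [eq_div_iff (by positivity), ← h1]
    ring
  have hJt : Jt = (1 / S x - A) / (2 * (S x ^ 3 * (1 - R x ^ 3) / 3)) := by
    rw [eq_div_iff (by positivity), ← h2]
    ring
  rw [hJ, hJt]
  unfold cc qq
  set s := S x
  set ρ := R x
  have hρ' : ρ ≠ 0 := hρ.ne'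
  have hs' : s ≠ 0 := hs.ne'
  field_simp
  ring

theorem hasDerivAt_kw {R S : ℝ → ℝ} {R' S' x : ℝ} (hR : HasDerivAt R R' x)
    (hS : HasDerivAt S S' x) (hd : Dom (R x) (S x)) :
    HasDerivAt (fun y => kw (R y) (S y))
      (dkwr (R x) (S x) * (R' / R x) + dkws (R x) (S x) * (S' / S x)) x := by
  have hkd := hd.KD
  have key := hS.mul (hasDerivAt_kapw hR hS hd)
  have h1 := Q3_eq hkd
  have h2 := Q3t_eq hkd
  have hf : (fun y => kw (R y) (S y)) = (S * fun y => kapw (S y) (ee (R y) (S y))) := rfl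
  rw [hf]
  refine key.congr_deriv ?_
  unfold dkwr dkws k1 kw
  have hρ := hd.ρ0
  have hs := hd.s0
  have hs1 : 0 < 1 - S x := by linarith [hd.s1]
  have hr : R x ^ 3 < 1 := pow_lt_one₀ hd.ρ0.le hd.ρ1 (by norm_num)
  have hr' : 0 < 1 - R x ^ 3 := by linarith
  have hee : ee (R x) (S x) = S x ^ 3 * (1 - R x ^ 3) / 3 := rfl
  have hD := hd.D
  unfold DD at hD ⊢
  set J := ∫ τ in (0 : ℝ)..1, 1 / (Uf (S x) (ee (R x) (S x)) τ *
    (1 - Uf (S x) (ee (R x) (S x)) τ) ^ 3)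
  set Jt := ∫ τ in (0 : ℝ)..1, τ ^ 2 / (Uf (S x) (ee (R x) (S x)) τ *
    (1 - Uf (S x) (ee (R x) (S x)) τ) ^ 3)
  set A := kap1 (S x) (ee (R x) (S x))
  set W := kapw (S x) (ee (R x) (S x))
  rw [hee] at h1 h2
  have hJ : J = (3 / (1 - S x) + A) / (1 - 3 * S x ^ 2 + 2 * S x ^ 3 * R x ^ 3) := by
    rw [eq_div_iff hD.ne', ← h1]
    ring
  have hJt : Jt = (W - 1 / (1 - S x)) / (2 * (S x ^ 3 * (1 - R x ^ 3) / 3)) := by
    rw [eq_div_iff (by positivity), ← h2]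
    ring
  rw [hJ, hJt]
  unfold qq
  set s := S x
  set ρ := R x
  have hρ' : ρ ≠ 0 := hρ.ne'
  have hs' : s ≠ 0 := hs.ne'
  have hD' := hD.ne'
  have hs1' := hs1.ne'
  have hr'' := hr'.ne'
  field_simp
  ring

end Pool.Agent.OptRes
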