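import Pool.Agent.OptRes.Defs
import Pool.Agent.OptRes.Defs2
import Pool.Agent.OptRes.Ivl

/-!
# Interval arithmetic for the uniqueness inequality
-/

set_option linter.unusedSimpArgs false
set_option linter.unusedVariables false

open Set

namespace Pool.Agent.OptRes

open Ex

namespace NumC

def qd (n : Int) (d : Nat) : Ex := Ex.q n d
def xs : Ex := Ex.v 0
def xt : Ex := Ex.v 1

/-- C1 -/
def PC1 (ES PS : Ex) : Prob where
  der := [ .eq (Ex.sq xs), -- 2 s2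
           .eq (xs * v 2), -- 3 s3
           .eq (xt * Ex.sq xt), -- 4 t3
           .eq (v 3 * v 4), -- 5 r
           .eq (qd 2 3 * (1 - v 5)), -- 6 q
           .eq (3 - 2*xs*v 5), -- 7 c
           .bd [1 - 3*v 2 + 2*v 3 * v 5, 0] [1 - 3*v 2 + 2*v 3 * v 5], -- 8 D1
           .eq (1 - xs), -- 9 os
           .eq (3 - 2 * xs), -- 10 N1
           .bd [0] [qd 35 100 * xs * v 6], -- 11 u
           .eq (1 + 2 * xs - v 11), -- 12 N2
           .eq (v 6 * v 10/v 7), -- 13 g1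
           .eq (qd 62 100 * PS * xt), -- 14 psi/s
           .eq (v 6 * v 2 * v 12), -- 15 G2 = D1 g2
           .eq ((2*xs*(v 6 + v 5)*v 8 + 6 * v 6 * v 3)*v 12 + v 6 * xs * v 8 * ((1 + xs) - v 10/v 7) + xs * v 8 * (1 - v 6 * (1 - 2*xs)/v 9) * v 11), -- 16 g2s2
           .eq ((2 * v 2 * v 4/v 7)*(1 - 2*xs*v 6/v 7)*v 10*v 8 + (v 6/v 7)*(xs * v 12 - (2 - xs)/v 9*v 8)), -- 17 g1s1
           .eq (v 13 - v 9 * v 14 * xs), -- 18 A
           .eq (v 8*(1 - v 13) + v 15), -- 19 GD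
           .eq (v 8*(1 - v 9 * v 14 * xs) + v 15), -- 20 H
           .eq (v 16 * v 18 - v 17 * v 20 - v 8 * v 19 * v 14), -- 21 II
           .eq ((2*(1 - 3*xs*v 6/v 7)*v 10*v 8 + v 6*v 3*v 12)/v 7), -- 22 A1
           .eq (v 2*(2*(v 8 + 3*v 6*v 3)*v 12 - v 6*xs*v 10/v 7*v 8 + v 11*v 8)), -- 23 A2
           .eq (v 22 * v 20 - v 18 * v 23) -- 24 Y
         ]
  con := [v 8]
  tgt := [(1 - ES) * v 21 - ES * (v 2 * v 4) * v 24]
  wts := [2, 1]

/-- C2 -/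
def PC2 (ES : Ex) : Prob where
  der := [ .eq (Ex.sq xs), -- 2 s2
           .eq (xs * v 2), -- 3 s3
           .eq (xt * Ex.sq xt), -- 4 t3
           .eq (v 3 * v 4), -- 5 r
           .eq (qd 2 3 * (1 - v 5)), -- 6 q
           .eq (3 - 2*xs*v 5), -- 7 c
           .bd [1 - 3*v 2 + 2*v 3 * v 5, 0] [1 - 3*v 2 + 2*v 3 * v 5], -- 8 D1
           .eq (1 - xs), -- 9 os
           .eq (3 - 2 * xs), -- 10 N1
           .bd [0] [qd 35 100 * xs * v 6], -- 11 u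
           .eq (1 + 2 * xs - v 11), -- 12 N2
           .eq (v 6 * v 10/v 7), -- 13 g1
           .bd [0] [qd 62 100 * xt], -- 14 psi/s
           .eq (v 6 * v 2 * v 12), -- 15 G2 = D1 g2
           .eq ((2*xs*(v 6 + v 5)*v 8 + 6 * v 6 * v 3)*v 12 + v 6 * xs * v 8 * ((1 + xs) - v 10/v 7) + xs * v 8 * (1 - v 6 * (1 - 2*xs)/v 9) * v 11), -- 16 g2s2
           .eq (v 13 - v 9 * v 14 * xs), -- 17 A
           .eq (v 8*(1 - v 9 * v 14 * xs) + v 15), -- 18 H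
           .eq (v 2*(2*(v 8 + 3*v 6*v 3)*v 12 - v 6*xs*v 10/v 7*v 8 + v 11*v 8)), -- 19 A2
           .bd [0] [qd 2165 10000 * (1 + v 8)], -- 20 Dw
           .eq (v 6 / v 7), -- 21 q/c
           .eq (xs * (v 16 * v 21 + v 21 * v 14 * Ex.sq (v 8) - v 21 * xs * v 8 * v 17 - Ex.sq (v 21) * xs * v 20)
                 - 2 * v 3 * v 4 / v 7 * (1 - 2*xs*v 21) * v 8 * v 18 + (1 - v 6 * (1 - 2*xs)/v 9) * v 8 * v 18 / v 7), -- 22 t1
           .eq ((1 - 6*xs*v 21)*v 8*v 18 / v 7 - v 21 * v 19 + v 3 * v 21*v 8*v 17 + Ex.sq (v 21) * v 3 * v 20) -- 23 t2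
         ]
  con := [v 8]
  tgt := [(1 - ES) * v 22 - v 5 * ES * v 23]
  wts := [2, 1]

/-- C3: D1 G > 0 : D1 (1 - q N10/c) - (q/c) Dw + q s^2 N2 -/
def PC3 : Prob where
  der := [ .eq (Ex.sq xs), -- 2 s2
           .eq (xs * v 2), -- 3 s3
           .eq (xt * Ex.sq xt), -- 4 t3
           .eq (v 3 * v 4), -- 5 r
           .eq (qd 2 3 * (1 - v 5)), -- 6 q
           .eq (3 - 2*xs*v 5), -- 7 c
           .bd [1 - 3*v 2 + 2*v 3 * v 5, 0] [1 - 3*v 2 + 2*v 3 * v 5], -- 8 D1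
           .eq (3 - 2 * xs), -- 9 N1
           .bd [0] [qd 35 100 * xs * v 6], -- 10 u
           .eq (1 + 2 * xs - v 10), -- 11 N2
           .bd [0] [qd 2165 10000 * (1 + v 8)] -- 12 Dw
         ]
  con := [v 8]
  tgt := [v 8 * (1 - v 6 * v 9/v 7) - v 6 / v 7 * v 12 + v 6 * v 2 * v 11]
  wts := [2, 1]

end NumC

end Pool.Agent.OptRes
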