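import Pool.Agent.OptRes.Zero

/-!
# The payoff bound on subintervals
-/

open MeasureTheory Set Filter Topology

namespace Pool.Agent.OptRes

private theorem sub_payc {L : ℝ} {m θ w : ℝ → ℝ} (h : Sol L m θ w) (l Ψ : ℝ) :
    ContinuousOn (pay l Ψ θ w) (Icc 0 L) := by
  obtain ⟨hc, hw⟩ := h.cont
  have hne : ∀ x ∈ Icc 0 L, θ x ≠ 0 := fun x hx => (h.bounds hx).1.ne'
  unfold pay
  exact (continuousOn_const.mul ((hw.div hc hne).pow 2)).sub
    (continuousOn_const.sub (continuousOn_const.mul hc))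

private theorem sub_payi {L : ℝ} {m θ w : ℝ → ℝ} (h : Sol L m θ w) (l Ψ : ℝ) {x y : ℝ}
    (hx : 0 ≤ x) (hxy : x ≤ y) (hy : y ≤ L) : IntervalIntegrable (pay l Ψ θ w) volume x y := by
  refine ContinuousOn.intervalIntegrable ?_
  rw [uIcc_of_le hxy]
  exact (sub_payc h l Ψ).mono (Icc_subset_Icc hx hy)

/-- `∫ (w/θ)²` on an interval where `w ≥ 0` -/
private theorem sub_sq {L : ℝ} {m θ w : ℝ → ℝ} (h : Sol L m θ w) {a b : ℝ} (ha : 0 ≤ a)
    (hab : a ≤ b) (hb : b ≤ L) (hw : ∀ t ∈ Icc a b, 0 ≤ w t) :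
    ∫ t in a..b, (w t / θ t) ^ 2 ≤ 3 := by
  obtain ⟨hθc, hwc⟩ := h.cont
  have hsub : Icc a b ⊆ Icc 0 L := Icc_subset_Icc ha hb
  have hθp : ∀ t ∈ Icc a b, 0 < θ t := fun t ht => (h.bounds (hsub ht)).1
  have hθ1 : ∀ t ∈ Icc a b, θ t ≤ 1 := fun t ht => (h.bounds (hsub ht)).2.1
  have hne : ∀ t ∈ Icc a b, θ t ≠ 0 := fun t ht => (hθp t ht).ne'
  have hθc' := hθc.mono hsub
  have hwc' := hwc.mono hsub
  have hsc : ContinuousOn (fun t => Real.sqrt (θ t)) (Icc a b) := hθc'.sqrt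
  have hsp : ∀ t ∈ Icc a b, 0 < Real.sqrt (θ t) := fun t ht => Real.sqrt_pos.2 (hθp t ht)
  set G : ℝ → ℝ := fun t => -(w a) / θ t + 2 * Real.sqrt (θ t) with hG
  set G' : ℝ → ℝ := fun t => w a * w t / θ t ^ 2 + w t / Real.sqrt (θ t) with hG'
  have hGc : ContinuousOn G (Icc a b) :=
    (continuousOn_const.div hθc' hne).add (continuousOn_const.mul hsc)
  have hG'c : ContinuousOn G' (Icc a b) :=
    ((continuousOn_const.mul hwc').div (hθc'.pow 2) (fun t ht => pow_ne_zero 2 (hne t ht))).add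
      (hwc'.div hsc (fun t ht => (hsp t ht).ne'))
  have hder : ∀ t ∈ Ioo a b, HasDerivAt G (G' t) t := by
    intro t ht
    have htm : t ∈ Icc a b := Ioo_subset_Icc_self ht
    have h1 : HasDerivAt θ (w t) t :=
      (h.der t (hsub htm)).hasDerivAt (Icc_mem_nhds (by linarith [ht.1]) (by linarith [ht.2]))
    have h2 : HasDerivAt (fun t => -(w a) / θ t) (w a * w t / θ t ^ 2) t := by
      have h4 : w a * w t / θ t ^ 2 = (0 * θ t - -(w a) * w t) / θ t ^ 2 := by ring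
      rw [h4]
      exact (hasDerivAt_const t (-(w a))).div h1 (hne t htm)
    have h3 : HasDerivAt (fun t => 2 * Real.sqrt (θ t)) (w t / Real.sqrt (θ t)) t := by
      have h4 : w t / Real.sqrt (θ t) = 2 * (w t / (2 * Real.sqrt (θ t))) := by
        have := (hsp t htm).ne'
        field_simp
      rw [h4]
      exact (h1.sqrt (hne t htm)).const_mul 2
    exact h2.add h3
  have hint : IntervalIntegrable G' volume a b := by
    refine ContinuousOn.intervalIntegrable ?_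
    rwa [uIcc_of_le hab]
  have hint2 : IntervalIntegrable (fun t => (w t / θ t) ^ 2) volume a b := by
    refine ContinuousOn.intervalIntegrable ?_
    rw [uIcc_of_le hab]
    exact (hwc'.div hθc' hne).pow 2
  have hFTC := intervalIntegral.integral_eq_sub_of_hasDerivAt_of_le hab hGc hder hint
  have hpt : ∀ t ∈ Icc a b, (w t / θ t) ^ 2 ≤ G' t := by
    intro t ht
    have e1 := h.energyL (x := a) (y := t) ha ht.1 (ht.2.trans hb)
      (fun s hs => hw s ⟨hs.1, hs.2.trans ht.2⟩)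
    have ha0 := hw a ⟨le_rfl, hab⟩
    have ht0 := hw t ht
    have hθa := hθp a ⟨le_rfl, hab⟩
    have hθt := hθp t ht
    set r := Real.sqrt (θ t) with hr
    have hr0 : 0 < r := hsp t ht
    have hr2 : θ t = r ^ 2 := (Real.sq_sqrt hθt.le).symm
    have hw2 : w t ≤ w a + r ^ 3 := by
      rw [hr2] at e1
      have h5 : 0 ≤ θ a ^ 3 := by positivity
      have h6 : (w t) ^ 2 ≤ (w a + r ^ 3) ^ 2 := by
        have h7 : 0 ≤ w a * r ^ 3 := by positivity
        have h8 : (r ^ 2) ^ 3 = (r ^ 3) ^ 2 := by ring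
        rw [h8] at e1
        nlinarith [sq_nonneg (r ^ 3)]
      exact (abs_le_of_sq_le_sq' h6 (by positivity)).2
    have : G' t = (w a + r ^ 3) * w t / r ^ 4 := by
      simp only [hG']
      rw [← hr, hr2]
      field_simp
    rw [this, hr2, div_pow]
    have h9 : (r ^ 2) ^ 2 = r ^ 4 := by ring
    rw [h9]
    refine div_le_div_of_nonneg_right ?_ (by positivity)
    nlinarith
  have hle : ∫ t in a..b, (w t / θ t) ^ 2 ≤ ∫ t in a..b, G' t :=
    intervalIntegral.integral_mono_on hab hint2 hint hpt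
  refine hle.trans ?_
  rw [hFTC]
  have hb' : b ∈ Icc a b := ⟨hab, le_rfl⟩
  have ha' : a ∈ Icc a b := ⟨le_rfl, hab⟩
  have hGb : G b ≤ 2 := by
    simp only [hG]
    have h1 : -(w a) / θ b ≤ 0 :=
      div_nonpos_of_nonpos_of_nonneg (by linarith [hw a ha']) (hθp b hb').le
    have h2 : Real.sqrt (θ b) ≤ 1 := by
      rw [Real.sqrt_le_one]
      exact hθ1 b hb'
    linarith
  have hGa : -1 ≤ G a := by
    simp only [hG]
    have h1 : w a / θ a ≤ 1 := by
      rw [div_le_one (hθp a ha')]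
      exact (abs_le.1 (h.bounds (hsub ha')).2.2).2
    have h2 : 0 ≤ Real.sqrt (θ a) := Real.sqrt_nonneg _
    rw [neg_div]
    linarith
  linarith

/-- the payoff on an interval where `w ≥ 0` -/
private theorem sub_pos {L : ℝ} {m θ w : ℝ → ℝ} (h : Sol L m θ w) {l Ψ : ℝ} (hl : 0 ≤ l)
    (hv : Valid l Ψ) {a b : ℝ} (ha : 0 ≤ a)
    (hab : a ≤ b) (hb : b ≤ L) (hw : ∀ t ∈ Icc a b, 0 ≤ w t) :
    ∫ t in a..b, pay l Ψ θ w t ≤ 3 * l := by
  obtain ⟨hθc, hwc⟩ := h.cont
  have hsub : Icc a b ⊆ Icc 0 L := Icc_subset_Icc ha hb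
  have hint2 : IntervalIntegrable (fun t => l * (w t / θ t) ^ 2) volume a b := by
    refine ContinuousOn.intervalIntegrable ?_
    rw [uIcc_of_le hab]
    exact continuousOn_const.mul
      (((hwc.mono hsub).div (hθc.mono hsub) (fun t ht => (h.bounds (hsub ht)).1.ne')).pow 2)
  have h1 : ∫ t in a..b, pay l Ψ θ w t ≤ ∫ t in a..b, l * (w t / θ t) ^ 2 := by
    refine intervalIntegral.integral_mono_on hab (sub_payi h l Ψ ha hab hb) hint2 ?_
    intro t ht
    obtain ⟨h2, h3, _⟩ := h.bounds (hsub ht)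
    have h4 := hv.1
    have h5 := hv.2.1
    unfold pay
    rcases le_total 0 (1 - l) with h6 | h6
    · nlinarith
    · nlinarith
  rw [intervalIntegral.integral_const_mul] at h1
  have h2 := sub_sq h ha hab hb hw
  nlinarith

/-- the payoff on an interval without interior zeros of `w` -/
private theorem sub_nozero {L : ℝ} {m θ w : ℝ → ℝ} (h : Sol L m θ w) {l Ψ : ℝ} (hl : 0 ≤ l)
    (hv : Valid l Ψ) {a b : ℝ} (ha : 0 ≤ a)
    (hab : a ≤ b) (hb : b ≤ L) (hw : ∀ t ∈ Ioo a b, w t ≠ 0) :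
    ∫ t in a..b, pay l Ψ θ w t ≤ 3 * l := by
  obtain ⟨hθc, hwc⟩ := h.cont
  have hsub : Icc a b ⊆ Icc 0 L := Icc_subset_Icc ha hb
  rcases eq_or_lt_of_le hab with hab' | hab'
  · rw [hab', intervalIntegral.integral_same]
    linarith
  have hsign : (∀ t ∈ Ioo a b, 0 < w t) ∨ (∀ t ∈ Ioo a b, w t < 0) := by
    by_contra hcon
    rw [not_or] at hcon
    obtain ⟨hc1, hc2⟩ := hcon
    push Not at hc1 hc2
    obtain ⟨x, hx, hx'⟩ := hc1
    obtain ⟨y, hy, hy'⟩ := hc2
    have hsub' : uIcc x y ⊆ Ioo a b := by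
      intro t ht
      rw [mem_uIcc] at ht
      rcases ht with ht | ht
      · exact ⟨lt_of_lt_of_le hx.1 ht.1, lt_of_le_of_lt ht.2 hy.2⟩
      · exact ⟨lt_of_lt_of_le hy.1 ht.1, lt_of_le_of_lt ht.2 hx.2⟩
    have hcu : ContinuousOn w (uIcc x y) :=
      (hwc.mono hsub).mono (hsub'.trans Ioo_subset_Icc_self)
    have := intermediate_value_uIcc hcu
    have h0 : (0 : ℝ) ∈ uIcc (w x) (w y) := by
      rw [mem_uIcc]
      exact Or.inl ⟨hx', hy'⟩
    obtain ⟨t, ht, ht0⟩ := this h0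
    exact hw t (hsub' ht) ht0
  have hclosed : ∀ f : ℝ → ℝ, ContinuousOn f (Icc a b) → (∀ t ∈ Ioo a b, 0 ≤ f t) →
      ∀ t ∈ Icc a b, 0 ≤ f t := by
    intro f hf hf0 t ht
    have h1 : IsClosed (Icc a b ∩ f ⁻¹' Ici 0) := hf.preimage_isClosed_of_isClosed isClosed_Icc isClosed_Ici
    have h2 : Ioo a b ⊆ Icc a b ∩ f ⁻¹' Ici 0 := fun s hs => ⟨Ioo_subset_Icc_self hs, hf0 s hs⟩
    have h3 := closure_minimal h2 h1
    rw [closure_Ioo hab'.ne] at h3
    exact (h3 ht).2
  rcases hsign with hs | hs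
  · exact sub_pos h hl hv ha hab hb
      (hclosed w (hwc.mono hsub) (fun t ht => (hs t ht).le))
  · have h1 : ∀ t ∈ Icc a b, 0 ≤ -w t :=
      hclosed (fun t => -w t) (hwc.mono hsub).neg (fun t ht => by have := hs t ht; linarith)
    have h2 := sub_pos h.reflect hl hv (a := L - b) (b := L - a) (by linarith) (by linarith)
      (by linarith) (fun t ht => h1 (L - t) ⟨by linarith [ht.2], by linarith [ht.1]⟩)
    have h3 : ∫ t in (L - b)..(L - a), pay l Ψ (fun x => θ (L - x)) (fun x => -w (L - x)) t =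
        ∫ t in a..b, pay l Ψ θ w t := by
      have h4 : ∫ t in (L - b)..(L - a), pay l Ψ (fun x => θ (L - x)) (fun x => -w (L - x)) t =
          ∫ t in (L - b)..(L - a), pay l Ψ θ w (L - t) := by
        refine intervalIntegral.integral_congr fun t _ => ?_
        simp only [pay]
        ring
      rw [h4, intervalIntegral.integral_comp_sub_left]
      simp
    rw [h3] at h2
    exact h2

private theorem sub_pay {L : ℝ} {m θ w : ℝ → ℝ} (h : Sol L m θ w) {l Ψ : ℝ} (hl : 0 ≤ l)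
    (hv : Valid l Ψ) {x1 x2 : ℝ} (h1 : 0 ≤ x1) (h12 : x1 ≤ x2) (h2 : x2 ≤ L) :
    ∫ x in x1..x2, pay l Ψ θ w x ≤ 6 * l := by
  obtain ⟨hθc, hwc⟩ := h.cont
  have hsub : Icc x1 x2 ⊆ Icc 0 L := Icc_subset_Icc h1 h2
  by_cases hz : ∃ z ∈ Icc x1 x2, w z = 0
  · set Z : Set ℝ := Icc x1 x2 ∩ w ⁻¹' {0} with hZ
    have hZc : IsClosed Z :=
      (hwc.mono hsub).preimage_isClosed_of_isClosed isClosed_Icc isClosed_singleton
    have hZcomp : IsCompact Z := isCompact_Icc.of_isClosed_subset hZc inter_subset_left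
    have hZne : Z.Nonempty := by
      obtain ⟨z, hz1, hz2⟩ := hz
      exact ⟨z, hz1, hz2⟩
    have hi := hZcomp.sInf_mem hZne
    have hs := hZcomp.sSup_mem hZne
    set z1 := sInf Z with hz1
    set z2 := sSup Z with hz2
    have hlow : ∀ t ∈ Ioo x1 z1, w t ≠ 0 := by
      intro t ht h0
      have : z1 ≤ t := csInf_le hZcomp.bddBelow ⟨⟨ht.1.le, ht.2.le.trans hi.1.2⟩, h0⟩
      linarith [ht.2]
    have hupp : ∀ t ∈ Ioo z2 x2, w t ≠ 0 := by
      intro t ht h0
      have : t ≤ z2 := le_csSup hZcomp.bddAbove ⟨⟨hs.1.1.trans ht.1.le, ht.2.le⟩, h0⟩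
      linarith [ht.1]
    have h12' : z1 ≤ z2 := csInf_le_csSup hZne hZcomp.bddBelow hZcomp.bddAbove
    have a1 := hi.1.1
    have a2 := hs.1.2
    have e1 := sub_nozero h hl hv h1 a1 (h12'.trans (a2.trans h2)) hlow
    have e2 := zeros_nonpos h hl hv (h1.trans a1) h12' (a2.trans h2) hi.2 hs.2
    have e3 := sub_nozero h hl hv (h1.trans (a1.trans h12')) a2 h2 hupp
    have i1 := sub_payi h l Ψ h1 a1 (h12'.trans (a2.trans h2))
    have i2 := sub_payi h l Ψ (h1.trans a1) h12' (a2.trans h2)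
    have i3 := sub_payi h l Ψ (h1.trans (a1.trans h12')) a2 h2
    have e4 := intervalIntegral.integral_add_adjacent_intervals i1 i2
    have e5 := intervalIntegral.integral_add_adjacent_intervals (i1.trans i2) i3
    linarith
  · push Not at hz
    have := sub_nozero h hl hv h1 h12 h2 (fun t ht => hz t (Ioo_subset_Icc_self ht))
    linarith

theorem payoff_le {L : ℝ} {m θ w : ℝ → ℝ} (h : Sol L m θ w) {l Ψ : ℝ} (hl : 0 ≤ l)
    (hv : Valid l Ψ) {x1 x2 : ℝ} (h1 : 0 ≤ x1) (h12 : x1 ≤ x2) (h2 : x2 ≤ L) :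
    ∫ x in x1..x2, (θ x - l * m x - Ψ) ≤ 10 * l := by
  obtain ⟨hθc, hwc⟩ := h.cont
  have hsub : Icc x1 x2 ⊆ Icc 0 L := Icc_subset_Icc h1 h2
  have hne : ∀ x ∈ Icc 0 L, θ x ≠ 0 := fun x hx => (h.bounds hx).1.ne'
  have hmi : IntervalIntegrable m volume 0 L := by
    rw [intervalIntegrable_iff_integrableOn_Ioo_of_le h.L_pos.le]
    have : Integrable m (volume.restrict (Ioo 0 L)) := by
      refine Integrable.of_bound h.meas 1 ?_
      filter_upwards [h.bound] with x hx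
      rw [Real.norm_eq_abs, abs_le]
      constructor <;> linarith [hx.1, hx.2]
    exact this
  have hmi' : IntervalIntegrable m volume x1 x2 := by
    refine hmi.mono_set ?_
    rw [uIcc_of_le h12, uIcc_of_le h.L_pos.le]
    exact hsub
  have hci : ∀ f : ℝ → ℝ, ContinuousOn f (Icc 0 L) → IntervalIntegrable f volume x1 x2 := by
    intro f hf
    refine ContinuousOn.intervalIntegrable ?_
    rw [uIcc_of_le h12]
    exact hf.mono hsub
  have hric := h.riccati h1 h12 h2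
  have hi1 : IntervalIntegrable (fun t => θ t - m t - (w t / θ t) ^ 2) volume x1 x2 :=
    ((hci θ hθc).sub hmi').sub (hci _ ((hwc.div hθc hne).pow 2))
  have heq : ∫ x in x1..x2, (θ x - l * m x - Ψ) =
      (∫ x in x1..x2, pay l Ψ θ w x) + l * ∫ t in x1..x2, (θ t - m t - (w t / θ t) ^ 2) := by
    rw [← intervalIntegral.integral_const_mul, ← intervalIntegral.integral_add
      (sub_payi h l Ψ h1 h12 h2) (hi1.const_mul l)]
    refine intervalIntegral.integral_congr fun t _ => ?_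
    simp only [pay]
    ring
  rw [heq, hric]
  have hp := sub_pay h hl hv h1 h12 h2
  have hb : ∀ x ∈ Icc 0 L, |w x / θ x| ≤ 1 := by
    intro x hx
    obtain ⟨h3, _, h4⟩ := h.bounds hx
    rw [abs_div, abs_of_pos h3, div_le_one h3]
    exact h4
  have hb1 := abs_le.1 (hb x1 (hsub ⟨le_rfl, h12⟩))
  have hb2 := abs_le.1 (hb x2 (hsub ⟨h12, le_rfl⟩))
  nlinarith [hb1.1, hb2.2]

end Pool.Agent.OptRes
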