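import Pool.Agent.OptRes.Cell

/-!
# The payoff between two zeros of the derivative
-/

open MeasureTheory Set Filter Topology

namespace Pool.Agent.OptRes

namespace ZeroAux

theorem pay_int {L : ℝ} {m θ w : ℝ → ℝ} (h : Sol L m θ w) (l Ψ : ℝ) {p q : ℝ} (hp : 0 ≤ p)
    (hpq : p ≤ q) (hq : q ≤ L) : IntervalIntegrable (pay l Ψ θ w) volume p q := by
  refine ContinuousOn.intervalIntegrable ?_
  rw [uIcc_of_le hpq]
  exact (CellAux.pay_cont h l Ψ).mono (Icc_subset_Icc hp hq)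

/-- a lower bound for `θ` -/
theorem theta_min {L : ℝ} {m θ w : ℝ → ℝ} (h : Sol L m θ w) :
    ∃ c, 0 < c ∧ ∀ x ∈ Icc 0 L, c ≤ θ x := by
  obtain ⟨x0, hx0, hmin⟩ := isCompact_Icc.exists_isMinOn (nonempty_Icc.2 h.L_pos.le) h.cont.1
  exact ⟨θ x0, (h.bounds hx0).1, fun x hx => hmin hx⟩

/-- quadratic bound -/
theorem quad {L : ℝ} {m θ w : ℝ → ℝ} (h : Sol L m θ w) {l Ψ : ℝ} (hl : 0 ≤ l)
    (hΨ : 0 ≤ Ψ) (hΨ1 : 1 - l ≤ Ψ) {c : ℝ} (hc : 0 < c) (hcθ : ∀ x ∈ Icc 0 L, c ≤ θ x)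
    {z1 z2 : ℝ} (h1 : 0 ≤ z1) (h12 : z1 ≤ z2) (h2 : z2 ≤ L) (hw : w z1 = 0) :
    ∫ x in z1..z2, pay l Ψ θ w x ≤ l / c * (z2 - z1) ^ 2 := by
  have h3 : ∫ x in z1..z2, pay l Ψ θ w x ≤ ∫ x in z1..z2, l * ((z2 - z1) / c) := by
    refine intervalIntegral.integral_mono_on h12 (pay_int h l Ψ h1 h12 h2)
      intervalIntegrable_const ?_
    intro x hx
    have hb := h.bounds (x := x) ⟨h1.trans hx.1, hx.2.trans h2⟩
    have hcx := hcθ x ⟨h1.trans hx.1, hx.2.trans h2⟩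
    have hlip := h.lipschitz h1 hx.1 (hx.2.trans h2)
    rw [hw, sub_zero] at hlip
    have hA := CellAux.Aa_nonneg hΨ hΨ1 hb.1.le hb.2.1
    have h4 : |w x / θ x| ≤ 1 := by
      rw [abs_div, abs_of_pos hb.1, div_le_one hb.1]; exact hb.2.2
    have h5 : |w x / θ x| ≤ (z2 - z1) / c := by
      rw [abs_div, abs_of_pos hb.1]
      calc |w x| / θ x ≤ |w x| / c := div_le_div_of_nonneg_left (abs_nonneg _) hc hcx
        _ ≤ (z2 - z1) / c := by
          apply div_le_div_of_nonneg_right _ hc.le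
          linarith [hx.2]
    have h6 : (w x / θ x) ^ 2 ≤ (z2 - z1) / c := by
      rw [← sq_abs]
      nlinarith [abs_nonneg (w x / θ x)]
    have h7 := mul_le_mul_of_nonneg_left h6 hl
    unfold CellAux.Aa at hA
    unfold pay
    linarith
  rw [intervalIntegral.integral_const, smul_eq_mul] at h3
  calc _ ≤ (z2 - z1) * (l * ((z2 - z1) / c)) := h3
    _ = l / c * (z2 - z1) ^ 2 := by ring

/-- consecutive zeros -/
theorem consec {L : ℝ} {m θ w : ℝ → ℝ} (h : Sol L m θ w) {l Ψ : ℝ} (hl : 0 ≤ l)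
    (hv : Valid l Ψ) {z1 z2 : ℝ} (h1 : 0 ≤ z1) (h12 : z1 < z2) (h2 : z2 ≤ L)
    (hw1 : w z1 = 0) (hw2 : w z2 = 0) (hne : ∀ x ∈ Ioo z1 z2, w x ≠ 0) :
    ∫ x in z1..z2, pay l Ψ θ w x ≤ 0 := by
  have hwc : ContinuousOn w (Ioo z1 z2) :=
    h.cont.2.mono (fun x hx => ⟨h1.trans hx.1.le, hx.2.le.trans h2⟩)
  have hpre : IsPreconnected (w '' Ioo z1 z2) := isPreconnected_Ioo.image w hwc
  have hmid : (z1 + z2) / 2 ∈ Ioo z1 z2 := ⟨by linarith, by linarith⟩
  rcases lt_or_gt_of_ne (hne _ hmid) with hneg | hpos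
  · -- negative
    have hall : ∀ x ∈ Ioo z1 z2, w x < 0 := by
      intro x hx
      by_contra hcon
      push Not at hcon
      have : (0 : ℝ) ∈ w '' Ioo z1 z2 :=
        hpre.Icc_subset ⟨_, hmid, rfl⟩ ⟨x, hx, rfl⟩ ⟨hneg.le, hcon⟩
      obtain ⟨y, hy, hy0⟩ := this
      exact hne y hy hy0
    have hr := cell_nonpos h.reflect hl hv (x1 := L - z2) (x2 := L - z1) (by linarith)
      (by linarith) (by linarith) (by simp [hw2]) (by simp [hw1]) (by
        intro x hx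
        have := hall (L - x) ⟨by linarith [hx.2], by linarith [hx.1]⟩
        linarith)
    have h3 : ∀ x, pay l Ψ (fun x => θ (L - x)) (fun x => -w (L - x)) x = pay l Ψ θ w (L - x) := by
      intro x
      simp only [pay, neg_div, neg_sq]
    simp_rw [h3] at hr
    rw [intervalIntegral.integral_comp_sub_left (fun x => pay l Ψ θ w x) L] at hr
    simpa using hr
  · have hall : ∀ x ∈ Ioo z1 z2, 0 < w x := by
      intro x hx
      by_contra hcon
      push Not at hcon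
      have : (0 : ℝ) ∈ w '' Ioo z1 z2 :=
        hpre.Icc_subset ⟨x, hx, rfl⟩ ⟨_, hmid, rfl⟩ ⟨hcon, hpos.le⟩
      obtain ⟨y, hy, hy0⟩ := this
      exact hne y hy hy0
    exact cell_nonpos h hl hv h1 h12 h2 hw1 hw2 hall

end ZeroAux

open ZeroAux in
theorem zeros_nonpos {L : ℝ} {m θ w : ℝ → ℝ} (h : Sol L m θ w) {l Ψ : ℝ} (hl : 0 ≤ l)
    (hv : Valid l Ψ) {x1 x2 : ℝ} (h1 : 0 ≤ x1) (h12 : x1 ≤ x2) (h2 : x2 ≤ L)
    (hw1 : w x1 = 0) (hw2 : w x2 = 0) : ∫ x in x1..x2, pay l Ψ θ w x ≤ 0 := by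
  obtain ⟨c, hc, hcθ⟩ := theta_min h
  have hcl : 0 ≤ l / c := div_nonneg hl hc.le
  have hwc : ContinuousOn w (Icc x1 x2) := h.cont.2.mono (Icc_subset_Icc h1 h2)
  -- the claim with `ε`
  have claim : ∀ ε : ℝ, 0 < ε → ∫ x in x1..x2, pay l Ψ θ w x ≤ ε * (x2 - x1) := by
    intro ε hε
    have hIc : ContinuousOn (fun z => ∫ x in x1..z, pay l Ψ θ w x) (Icc x1 x2) := by
      have := intervalIntegral.continuousOn_primitive_interval (μ := volume)
        (f := pay l Ψ θ w) (a := x1) (b := x2) (by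
          rw [uIcc_of_le h12]
          exact ((CellAux.pay_cont h l Ψ).mono (Icc_subset_Icc h1 h2)).integrableOn_Icc)
      rwa [uIcc_of_le h12] at this
    -- good zeros
    set S : Set ℝ := {z ∈ Icc x1 x2 | w z = 0 ∧
      (∫ x in x1..z, pay l Ψ θ w x) - ε * (z - x1) ≤ 0} with hS
    have hSc : IsCompact S := by
      have c1 : IsClosed (Icc x1 x2 ∩ w ⁻¹' {0}) :=
        hwc.preimage_isClosed_of_isClosed isClosed_Icc isClosed_singleton
      have c2 : IsClosed (Icc x1 x2 ∩ (fun z => (∫ x in x1..z, pay l Ψ θ w x) - ε * (z - x1)) ⁻¹'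
          Iic 0) :=
        (hIc.sub (by fun_prop)).preimage_isClosed_of_isClosed isClosed_Icc isClosed_Iic
      have c3 : S = (Icc x1 x2 ∩ w ⁻¹' {0}) ∩ (Icc x1 x2 ∩
          (fun z => (∫ x in x1..z, pay l Ψ θ w x) - ε * (z - x1)) ⁻¹' Iic 0) := by
        ext z
        constructor
        · rintro ⟨a1, a2, a3⟩; exact ⟨⟨a1, a2⟩, ⟨a1, a3⟩⟩
        · rintro ⟨⟨a1, a2⟩, ⟨_, a3⟩⟩; exact ⟨a1, a2, a3⟩
      rw [c3]
      exact isCompact_Icc.of_isClosed_subset (c1.inter c2) (fun z hz => hz.1.1)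
    have hSne : S.Nonempty := ⟨x1, ⟨le_rfl, h12⟩, hw1, by simp⟩
    obtain ⟨zs, ⟨hz1, hz2, hz3⟩, hzmax⟩ := hSc.exists_isGreatest hSne
    rcases eq_or_lt_of_le hz1.2 with heq | hlt
    · rw [heq] at hz3; linarith
    exfalso
    -- good extension
    have hext : ∀ z ∈ Icc x1 x2, w z = 0 → zs < z →
        ∫ x in zs..z, pay l Ψ θ w x ≤ ε * (z - zs) → False := by
      intro z hz hwz hlz hle
      have hadd := intervalIntegral.integral_add_adjacent_intervals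
        (pay_int h l Ψ h1 hz1.1 (hz1.2.trans h2))
        (pay_int h l Ψ (h1.trans hz1.1) hlz.le (hz.2.trans h2))
      have hmem : z ∈ S := by
        refine ⟨hz, hwz, ?_⟩
        rw [← hadd]
        linarith
      have := hzmax hmem
      linarith
    by_cases hnear : ∃ z ∈ Icc x1 x2, w z = 0 ∧ zs < z ∧ l / c * (z - zs) ≤ ε
    · obtain ⟨z, hz, hwz, hlz, hle⟩ := hnear
      refine hext z hz hwz hlz ?_
      have hq := quad h hl hv.1 hv.2.1 hc hcθ (h1.trans hz1.1) hlz.le (hz.2.trans h2) hz2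
      have : l / c * (z - zs) ^ 2 ≤ ε * (z - zs) := by
        have := mul_le_mul_of_nonneg_right hle (sub_nonneg.2 hlz.le)
        linarith [this, sq (z - zs)]
      linarith
    · push Not at hnear
      set T : Set ℝ := {z ∈ Icc zs x2 | w z = 0 ∧ ε ≤ l / c * (z - zs)} with hT
      have hsub : Icc zs x2 ⊆ Icc x1 x2 := Icc_subset_Icc hz1.1 le_rfl
      have hTc : IsCompact T := by
        have c1 : IsClosed (Icc zs x2 ∩ w ⁻¹' {0}) :=
          (hwc.mono hsub).preimage_isClosed_of_isClosed isClosed_Icc isClosed_singleton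
        have c2 : IsClosed ((fun z => l / c * (z - zs)) ⁻¹' Ici ε) :=
          isClosed_Ici.preimage (by fun_prop)
        have c3 : T = (Icc zs x2 ∩ w ⁻¹' {0}) ∩ ((fun z => l / c * (z - zs)) ⁻¹' Ici ε) := by
          ext z
          constructor
          · rintro ⟨a1, a2, a3⟩; exact ⟨⟨a1, a2⟩, a3⟩
          · rintro ⟨⟨a1, a2⟩, a3⟩; exact ⟨a1, a2, a3⟩
        rw [c3]
        exact isCompact_Icc.of_isClosed_subset (c1.inter c2) (fun z hz => hz.1.1)
      have hTne : T.Nonempty :=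
        ⟨x2, ⟨hlt.le, le_rfl⟩, hw2, (hnear x2 ⟨h12, le_rfl⟩ hw2 hlt).le⟩
      obtain ⟨zt, ⟨ht1, ht2, ht3⟩, htmin⟩ := hTc.exists_isLeast hTne
      have hlt' : zs < zt := by
        rcases lt_or_eq_of_le ht1.1 with h3 | h3
        · exact h3
        · rw [← h3, sub_self, mul_zero] at ht3; linarith
      refine hext zt (hsub ht1) ht2 hlt' ?_
      have hcs := consec h hl hv (h1.trans hz1.1) hlt' (ht1.2.trans h2) hz2 ht2 (by
        intro x hx hwx
        have hx' : x ∈ Icc zs x2 := ⟨hx.1.le, hx.2.le.trans ht1.2⟩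
        have := htmin (show x ∈ T from ⟨hx', hwx, (hnear x (hsub hx') hwx hx.1).le⟩)
        linarith [hx.2])
      have : 0 ≤ ε * (zt - zs) := mul_nonneg hε.le (by linarith)
      linarith
  by_contra hcon
  push Not at hcon
  have hden : 0 < 2 * (x2 - x1 + 1) := by linarith
  have h3 := claim ((∫ x in x1..x2, pay l Ψ θ w x) / (2 * (x2 - x1 + 1))) (div_pos hcon hden)
  have h4 : (∫ x in x1..x2, pay l Ψ θ w x) / (2 * (x2 - x1 + 1)) * (x2 - x1)
      ≤ (∫ x in x1..x2, pay l Ψ θ w x) / 2 := by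
    rw [div_mul_eq_mul_div, div_le_div_iff₀ hden (by norm_num)]
    nlinarith
  linarith

end Pool.Agent.OptRes
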